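import Pool.Agent.EXL.Defs

/-!
# EXL / Ext: extension of derivations in characteristic zero

PROOF of `exists_der`.  Extend `x` to a transcendence basis `B` of `E / C` (with value `0` at the
new elements), define the derivation on the algebra generated by `B` over `C` through the ring
homomorphism into the dual numbers, and use that `E` is formally etale over this algebra
(localization and separable extension).
-/

set_option autoImplicit false

namespace Pool.Agent.EXL

open IntermediateField

section dual

variable {E : Type*} [Field E] (C : Subfield E) (δ : Derivation ℤ C E)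

/-- the ring homomorphism into the dual numbers defined by a derivation -/
private noncomputable def dualHom : C →+* TrivSqZeroExt E E where
  toFun c := TrivSqZeroExt.inl (c : E) + TrivSqZeroExt.inr (δ c)
  map_one' := by
    ext <;> simp
  map_zero' := by
    ext <;> simp
  map_add' a b := by
    ext <;> simp
  map_mul' a b := by
    ext
    · simp
    · simp [Subfield.smul_def, mul_comm]

variable {t : Set E} (w : t → E)

private noncomputable def dualHom' : MvPolynomial t C →+* TrivSqZeroExt E E :=
  MvPolynomial.eval₂Hom (dualHom C δ) (fun b => TrivSqZeroExt.inl (b : E) + TrivSqZeroExt.inr (w b))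

private theorem fst_dualHom' (p : MvPolynomial t C) :
    (dualHom' C δ w p).fst = MvPolynomial.aeval (fun b : t => (b : E)) p := by
  have h : ((TrivSqZeroExt.fstHom E E E : TrivSqZeroExt E E →ₐ[E] E) :
      TrivSqZeroExt E E →+* E).comp (dualHom' C δ w) =
      (MvPolynomial.aeval (fun b : t => (b : E)) : MvPolynomial t C →ₐ[C] E) := by
    apply MvPolynomial.ringHom_ext
    · intro r
      simp [dualHom', dualHom]
      rfl
    · intro i
      simp [dualHom']
  exact congrArg (fun f => f p) h

private theorem exists_der0 {y : t → E} (hy : AlgebraicIndependent C y) (hyt : ∀ b, y b = b) :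
    ∃ D0 : Derivation ℤ (Algebra.adjoin C (Set.range y)) E,
      ∀ p : MvPolynomial t C, D0 (hy.aevalEquiv p) = (dualHom' C δ w p).snd := by
  have hf : ∀ a : Algebra.adjoin C (Set.range y),
      (dualHom' C δ w (hy.aevalEquiv.symm a)).fst = (a : E) := by
    intro a
    rw [fst_dualHom']
    have h1 := hy.algebraMap_aevalEquiv (hy.aevalEquiv.symm a)
    rw [AlgEquiv.apply_symm_apply] at h1
    have h2 : (fun b : t => (b : E)) = y := by
      funext b; exact (hyt b).symm
    rw [h2, ← h1]
    rfl
  refine ⟨Derivation.mk' (AddMonoidHom.toIntLinearMap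
    { toFun := fun a => (dualHom' C δ w (hy.aevalEquiv.symm a)).snd
      map_zero' := by simp
      map_add' := by intro a b; simp }) ?_, ?_⟩
  · intro a b
    change (dualHom' C δ w (hy.aevalEquiv.symm (a * b))).snd =
      a • (dualHom' C δ w (hy.aevalEquiv.symm b)).snd +
      b • (dualHom' C δ w (hy.aevalEquiv.symm a)).snd
    rw [map_mul, map_mul, TrivSqZeroExt.snd_mul, hf, hf]
    simp [Subalgebra.smul_def, mul_comm]
  · intro p
    change (dualHom' C δ w (hy.aevalEquiv.symm (hy.aevalEquiv p))).snd = _
    rw [AlgEquiv.symm_apply_apply]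

end dual

open scoped IntermediateField.algebraAdjoinAdjoin in
/-- A derivation of a subfield `C` with values in `E` extends to `E`, with prescribed values on a
family which is algebraically independent over `C`. -/
theorem exists_der {E : Type*} [Field E] [CharZero E] (C : Subfield E) (δ : Derivation ℤ C E)
    {ι : Type*} (x : ι → E) (hx : AlgebraicIndependent C x) (v : ι → E) :
    ∃ D : Derivation ℤ E E, (∀ c : C, D c = δ c) ∧ ∀ i, D (x i) = v i := by
  classical
  obtain ⟨t, hst, ht⟩ := exists_isTranscendenceBasis_superset hx.coe_range
  let y : t → E := fun b => b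
  have hy : AlgebraicIndependent C y := ht.1
  let w : t → E := fun b => if h : ∃ i, x i = b then v h.choose else 0
  have hxi : Function.Injective x := hx.injective
  have hw : ∀ i, ∀ h : x i ∈ t, w ⟨x i, h⟩ = v i := by
    intro i h
    have h1 : ∃ j, x j = x i := ⟨i, rfl⟩
    change (if h : ∃ j, x j = x i then v h.choose else 0) = v i
    rw [dif_pos h1]
    exact congrArg v (hxi h1.choose_spec)
  have h1 : Algebra.FormallyEtale (Algebra.adjoin C (Set.range y))
      (IntermediateField.adjoin C (Set.range y)) :=
    Algebra.FormallyEtale.of_isLocalization (nonZeroDivisors _)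
  have h2 : Algebra.IsAlgebraic (IntermediateField.adjoin C (Set.range y)) E :=
    ht.isAlgebraic_field
  have h3 : Algebra.FormallyEtale (IntermediateField.adjoin C (Set.range y)) E :=
    Algebra.FormallyEtale.of_isSeparable _ _
  have h4 : Algebra.FormallyEtale (Algebra.adjoin C (Set.range y)) E :=
    Algebra.FormallyEtale.comp _ (IntermediateField.adjoin C (Set.range y)) _
  obtain ⟨D0, hD0⟩ := exists_der0 C δ w hy (fun _ => rfl)
  have h := KaehlerDifferential.isBaseChange_of_formallyEtale ℤ (Algebra.adjoin C (Set.range y)) E
  have hD : ∀ a : Algebra.adjoin C (Set.range y),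
      (h.lift D0.liftKaehlerDifferential).compDer (KaehlerDifferential.D ℤ E) (a : E) = D0 a := by
    intro a
    have h5 := h.lift_eq D0.liftKaehlerDifferential
      (KaehlerDifferential.D ℤ (Algebra.adjoin C (Set.range y)) a)
    rw [KaehlerDifferential.map_D, Derivation.liftKaehlerDifferential_comp_D] at h5
    exact h5
  refine ⟨(h.lift D0.liftKaehlerDifferential).compDer (KaehlerDifferential.D ℤ E), ?_, ?_⟩
  · intro c
    have h6 := hD (hy.aevalEquiv (MvPolynomial.C c))
    rw [hD0] at h6
    have h7 : ((hy.aevalEquiv (MvPolynomial.C c) : Algebra.adjoin C (Set.range y)) : E) = c := by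
      simp
      rfl
    rw [h7] at h6
    rw [h6]
    simp [dualHom', dualHom]
  · intro i
    have hi : x i ∈ t := hst ⟨i, rfl⟩
    have h6 := hD (hy.aevalEquiv (MvPolynomial.X ⟨x i, hi⟩))
    rw [hD0] at h6
    have h7 : ((hy.aevalEquiv (MvPolynomial.X ⟨x i, hi⟩) : Algebra.adjoin C (Set.range y)) : E)
        = x i := by
      simp [y]
    rw [h7] at h6
    rw [h6]
    simp [dualHom', hw i hi]

end Pool.Agent.EXL
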