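import Pool.Agent.EXL.Rk
import Pool.Agent.EXL.Ext

/-!
# EXL / Tdi: `td` is the transcendence degree

Use `exists_der` (file Ext, with `δ = 0`) and `derOver_algebraic` (file Rk).

PROOFS.  `algInd_iff`: if `x` is algebraically independent over `C = range (algebraMap k E)` then
`exists_der` with `δ = 0` gives derivations over `C` with arbitrary values at the `x i`, so the
image of `ev x` is everything. Conversely a nonzero `f` of smallest total degree with
`aeval x f = 0` gives for every `D ∈ DerOver C` the relation `∑ (∂f/∂x_i)(x) D x_i = 0`, and some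
`∂f/∂x_i` is not the zero polynomial (characteristic zero, `f` is not constant), has smaller degree
and so does not vanish at `x`; so the rank is smaller than `card ι`.
`exists_basis`: take a maximal algebraically independent subfamily `s`; every `x j` is algebraic
over `C(x_s)`, so `td x = td x_s = card s` (`rk_le_of_dep`, `derOver_algebraic`,
`derOver_closure`).
`card_le_td`: `td x_s = card s` and `rk_le_of_dep`.
`td_le_of_specialization`: apply `exists_basis` to `x'`; the subfamily `x_s` is algebraically
independent by `hI`; use `card_le_td`.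
`generic_of_td_le`: let `s` be a basis for `x'` (so `card s = td x'`). `x_s` is algebraically
independent by `hI`, and since `card s = td x' ≥ td x`, every `x j` is algebraic over `k(x_s)`. Let
`aeval x' f = 0` and suppose `aeval x f ≠ 0`. Then `g := aeval x f` is algebraic over `k(x_s)`, so
there is a polynomial relation `∑_i c_i(x_s) g^i = 0` with `c_0(x_s) ≠ 0` (divide by powers of
`g ≠ 0`), `c_i ∈ k[x_s]`. By `hI` it specializes to `∑_i c_i(x'_s) (aeval x' f)^i = 0`, i.e.
`c_0(x'_s) = 0`, contradicting the independence of `x'_s`.
-/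

set_option autoImplicit false

namespace Pool.Agent.EXL

open MvPolynomial

variable {k : Type*} [Field k] {E E' : Type*} [Field E] [Field E'] [CharZero E] [CharZero E']
  [Algebra k E] [Algebra k E'] {ι : Type*} [Fintype ι]

/-- Derivations over `k` with prescribed values at algebraically independent elements. -/
private lemma exists_der_of_indep {κ : Type*} (x : κ → E) (hx : AlgebraicIndependent k x)
    (v : κ → E) : ∃ D ∈ DerOver (Set.range (algebraMap k E)), ∀ i, D (x i) = v i := by
  let C : Subfield E := (algebraMap k E).fieldRange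
  have hxC : AlgebraicIndependent C x := by
    have := hx.ringHom_of_comp_eq (S := C) (B := E) (algebraMap k E).rangeRestrictField
      (RingHom.id E) (algebraMap k E).rangeRestrictField_bijective.surjective
      Function.injective_id (by ext; rfl)
    exact this
  obtain ⟨D, hD, hv⟩ := exists_der C 0 x hxC v
  refine ⟨D, ?_, hv⟩
  rintro _ ⟨c, rfl⟩
  have := hD ⟨algebraMap k E c, ⟨c, rfl⟩⟩
  simpa using this

private lemma map_ev_eq_top {κ : Type*} (x : κ → E) (hx : AlgebraicIndependent k x) :
    (DerOver (Set.range (algebraMap k E))).map (ev x) = ⊤ := by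
  rw [eq_top_iff]
  intro v _
  obtain ⟨D, hD, hv⟩ := exists_der_of_indep x hx v
  exact ⟨D, hD, funext hv⟩

private lemma td_of_indep {κ : Type*} [Fintype κ] (x : κ → E) (hx : AlgebraicIndependent k x) :
    td (Set.range (algebraMap k E)) x = Fintype.card κ := by
  unfold td rk
  rw [map_ev_eq_top x hx, finrank_top, Module.finrank_fintype_fun_eq_card]

/-- Derivations over `k` which kill `x_s` kill everything algebraic over `k[x_s]`. -/
private lemma der_algebraic (S : Set E) (D : Derivation ℤ E E)
    (hD : D ∈ DerOver (Set.range (algebraMap k E))) (hS : ∀ y ∈ S, D y = 0) (y : E)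
    (hy : IsAlgebraic (Algebra.adjoin k S) y) : D y = 0 := by
  let F : Subfield E := Subfield.closure (Set.range (algebraMap k E) ∪ S)
  have hDF : D ∈ DerOver (F : Set E) := by
    change D ∈ DerOver (Subfield.closure (Set.range (algebraMap k E) ∪ S) : Set E)
    rw [derOver_closure, derOver_union]
    exact ⟨hD, hS⟩
  have hsub : ∀ z ∈ Algebra.adjoin k S, z ∈ F := by
    intro z hz
    induction hz using Algebra.adjoin_induction with
    | mem z hz => exact Subfield.subset_closure (Or.inr hz)
    | algebraMap r => exact Subfield.subset_closure (Or.inl ⟨r, rfl⟩)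
    | add a b _ _ ha hb => exact F.add_mem ha hb
    | mul a b _ _ ha hb => exact F.mul_mem ha hb
  let j : Algebra.adjoin k S →+* F :=
    (Algebra.adjoin k S).val.toRingHom.codRestrict F (fun z => hsub _ z.2)
  have hj : Function.Injective j := by
    intro a b hab
    exact Subtype.ext (congrArg (fun z : F => (z : E)) hab)
  have h2 : IsAlgebraic F y := by
    have := hy.ringHom_of_comp_eq (S := F) (B := E) j (RingHom.id E) hj (by
      ext z
      rfl)
    exact this
  exact derOver_algebraic F D hDF y h2

omit [CharZero E] in
/-- a maximal independent subfamily -/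
private lemma exists_max (x : ι → E) : ∃ s : Finset ι,
    AlgebraicIndepOn k x (s : Set ι) ∧
    ∀ j, IsAlgebraic (Algebra.adjoin k (x '' (s : Set ι))) (x j) := by
  classical
  let T : Finset (Finset ι) := Finset.univ.filter (fun s => AlgebraicIndepOn k x (s : Set ι))
  have hT : T.Nonempty := by
    refine ⟨∅, ?_⟩
    rw [Finset.mem_filter]
    refine ⟨Finset.mem_univ _, ?_⟩
    have : IsEmpty ((∅ : Finset ι) : Set ι) := by simp
    exact algebraicIndependent_empty_type
  obtain ⟨s, hs, hmax⟩ := Finset.exists_max_image T Finset.card hT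
  rw [Finset.mem_filter] at hs
  refine ⟨s, hs.2, fun j => ?_⟩
  by_cases hj : j ∈ s
  · exact isAlgebraic_algebraMap
      (⟨x j, Algebra.subset_adjoin ⟨j, hj, rfl⟩⟩ : Algebra.adjoin k (x '' (s : Set ι)))
  · by_contra hna
    have h1 : AlgebraicIndepOn k x (insert j (s : Set ι)) := hs.2.insert hna
    have h2 : insert j s ∈ T := by
      rw [Finset.mem_filter]
      refine ⟨Finset.mem_univ _, ?_⟩
      rwa [Finset.coe_insert]
    have h3 := hmax _ h2
    rw [Finset.card_insert_of_notMem hj] at h3
    omega

theorem exists_basis (x : ι → E) : ∃ s : Finset ι, s.card = td (Set.range (algebraMap k E)) x ∧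
    AlgebraicIndependent k (fun i : s => x i) ∧
    ∀ D ∈ DerOver (Set.range (algebraMap k E)), (∀ i ∈ s, D (x i) = 0) → ∀ j, D (x j) = 0 := by
  obtain ⟨s, hs, halg⟩ := exists_max (k := k) x
  have hs' : AlgebraicIndependent k (fun i : s => x i) := hs
  have hkill : ∀ D ∈ DerOver (Set.range (algebraMap k E)), (∀ i ∈ s, D (x i) = 0) →
      ∀ j, D (x j) = 0 := by
    intro D hD h j
    refine der_algebraic (k := k) (x '' (s : Set ι)) D hD ?_ (x j) (halg j)
    rintro _ ⟨i, hi, rfl⟩
    exact h i hi
  refine ⟨s, ?_, hs', hkill⟩
  have h1 := td_of_indep (fun i : s => x i) hs'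
  rw [Fintype.card_coe] at h1
  rw [← h1]
  exact rk_eq_of_dep _ _ _ (fun D hD h j => hkill D hD (fun i hi => h ⟨i, hi⟩) j)
    (fun D hD h i => h i)

theorem algInd_iff (x : ι → E) :
    AlgebraicIndependent k x ↔ td (Set.range (algebraMap k E)) x = Fintype.card ι := by
  refine ⟨td_of_indep x, fun h => ?_⟩
  obtain ⟨s, hs, hind, -⟩ := exists_basis (k := k) x
  rw [h] at hs
  have hsu : s = Finset.univ := Finset.eq_univ_of_card s hs
  subst hsu
  exact hind.comp (fun i : ι => (⟨i, Finset.mem_univ i⟩ : (Finset.univ : Finset ι)))
    (fun i j hij => congrArg Subtype.val hij)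

theorem card_le_td (x : ι → E) (s : Finset ι) (h : AlgebraicIndependent k (fun i : s => x i)) :
    s.card ≤ td (Set.range (algebraMap k E)) x := by
  have h1 := td_of_indep (fun i : s => x i) h
  rw [Fintype.card_coe] at h1
  rw [← h1]
  exact rk_le_of_dep _ _ _ (fun D _ h i => h i)

omit [CharZero E] [CharZero E'] [Fintype ι] in
private lemma indep_of_spec (x : ι → E) (x' : ι → E')
    (hI : ∀ f : MvPolynomial ι k, aeval x f = 0 → aeval x' f = 0) (s : Finset ι)
    (h : AlgebraicIndependent k (fun i : s => x' i)) :
    AlgebraicIndependent k (fun i : s => x i) := by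
  rw [algebraicIndependent_iff] at h ⊢
  intro p hp
  apply h
  have h1 := hI (rename (fun i : s => (i : ι)) p) (by
    rw [aeval_rename]
    exact hp)
  rw [aeval_rename] at h1
  exact h1

/-- Specializations have smaller transcendence degree. -/
theorem td_le_of_specialization (x : ι → E) (x' : ι → E')
    (hI : ∀ f : MvPolynomial ι k, aeval x f = 0 → aeval x' f = 0) :
    td (Set.range (algebraMap k E')) x' ≤ td (Set.range (algebraMap k E)) x := by
  obtain ⟨s, hs, hind, -⟩ := exists_basis (k := k) x'
  rw [← hs]
  exact card_le_td x s (indep_of_spec x x' hI s hind)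

/-- A specialization of the same transcendence degree is generic. -/
theorem generic_of_td_le (x : ι → E) (x' : ι → E')
    (hI : ∀ f : MvPolynomial ι k, aeval x f = 0 → aeval x' f = 0)
    (h : td (Set.range (algebraMap k E)) x ≤ td (Set.range (algebraMap k E')) x') :
    ∀ f : MvPolynomial ι k, aeval x' f = 0 → aeval x f = 0 := by
  classical
  intro f hf
  by_contra hg
  obtain ⟨s, hs, hind', -⟩ := exists_basis (k := k) x'
  have hind : AlgebraicIndependent k (fun i : s => x i) := indep_of_spec x x' hI s hind'
  have hindOn : AlgebraicIndepOn k x (s : Set ι) := hind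
  -- all `x j` are algebraic over `k[x_s]`
  have halg : ∀ j, IsAlgebraic (Algebra.adjoin k (x '' (s : Set ι))) (x j) := by
    intro j
    by_cases hj : j ∈ s
    · exact isAlgebraic_algebraMap
        (⟨x j, Algebra.subset_adjoin ⟨j, hj, rfl⟩⟩ : Algebra.adjoin k (x '' (s : Set ι)))
    · by_contra hna
      have h1 : AlgebraicIndepOn k x (insert j (s : Set ι)) := hindOn.insert hna
      have h2 : AlgebraicIndependent k (fun i : (insert j s : Finset ι) => x i) := by
        rw [← Finset.coe_insert] at h1
        exact h1
      have h3 := card_le_td x _ h2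
      rw [Finset.card_insert_of_notMem hj] at h3
      omega
  have hgalg : IsAlgebraic (Algebra.adjoin k (x '' (s : Set ι))) (aeval x f) := by
    have h1 : ∀ p : MvPolynomial ι k,
        aeval x p ∈ Subalgebra.algebraicClosure (Algebra.adjoin k (x '' (s : Set ι))) E := by
      intro p
      induction p using MvPolynomial.induction_on with
      | C a =>
        rw [algHom_C, Subalgebra.mem_algebraicClosure]
        exact isAlgebraic_algebraMap
          (algebraMap k (Algebra.adjoin k (x '' (s : Set ι))) a)
      | add p q hp hq =>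
        rw [map_add]
        exact add_mem hp hq
      | mul_X p i hp =>
        rw [map_mul, aeval_X]
        exact mul_mem hp (halg i)
    exact h1 f
  obtain ⟨p, hp0, hp⟩ := hgalg.exists_nonzero_coeff_and_aeval_eq_zero
    (mem_nonZeroDivisors_of_ne_zero hg)
  -- lift the coefficients
  have hlift : ∀ a : Algebra.adjoin k (x '' (s : Set ι)), ∃ q : MvPolynomial s k,
      aeval (fun i : s => x i) q = (a : E) := by
    intro a
    have h1 : (a : E) ∈ (aeval (fun i : s => x i) : MvPolynomial s k →ₐ[k] E).range := by
      rw [← Algebra.adjoin_range_eq_range_aeval]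
      have h2 : Set.range (fun i : s => x i) = x '' (s : Set ι) := by
        ext z
        simp
      rw [h2]
      exact a.2
    obtain ⟨q, hq⟩ := h1
    exact ⟨q, hq⟩
  choose q hq using hlift
  let P : MvPolynomial ι k :=
    ∑ n ∈ p.support, rename (fun i : s => (i : ι)) (q (p.coeff n)) * f ^ n
  have hP : aeval x P = 0 := by
    change aeval x (∑ n ∈ p.support, rename (fun i : s => (i : ι)) (q (p.coeff n)) * f ^ n) = 0
    rw [map_sum, ← hp, Polynomial.aeval_eq_sum_range' (Nat.lt_succ_self _), Finset.sum_subset
      (Polynomial.supp_subset_range (Nat.lt_succ_self _))]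
    · refine Finset.sum_congr rfl fun n _ => ?_
      rw [map_mul, map_pow, aeval_rename]
      have h1 := hq (p.coeff n)
      have h2 : (x ∘ fun i : s => (i : ι)) = fun i : s => x i := rfl
      rw [h2, h1, Algebra.smul_def]
      rfl
    · intro n _ hn
      rw [Polynomial.notMem_support_iff.1 hn]
      rw [map_mul, aeval_rename]
      have h1 := hq 0
      have h2 : (x ∘ fun i : s => (i : ι)) = fun i : s => x i := rfl
      rw [h2, h1]
      simp
  have hP' := hI P hP
  have hq0 : aeval (fun i : s => x' i) (q (p.coeff 0)) = 0 := by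
    rw [← hP']
    change _ = aeval x' (∑ n ∈ p.support, rename (fun i : s => (i : ι)) (q (p.coeff n)) * f ^ n)
    rw [map_sum, Finset.sum_eq_single 0]
    · rw [pow_zero, mul_one, aeval_rename]
      rfl
    · intro n _ hn
      rw [map_mul, map_pow, hf, zero_pow hn, mul_zero]
    · intro h0
      exact absurd (Polynomial.mem_support_iff.2 hp0) h0
  have hq1 : q (p.coeff 0) = 0 := (algebraicIndependent_iff.1 hind') _ hq0
  have hq2 := hq (p.coeff 0)
  rw [hq1, map_zero] at hq2
  apply hp0
  exact Subtype.ext hq2.symm

/-- An element which is transcendental over a relatively algebraically closed subfield is moved by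
a derivation. -/
theorem exists_der_ne_zero (C : Subfield E) (x : E) (hx : ¬ IsAlgebraic C x) :
    ∃ D ∈ DerOver (C : Set E), D x ≠ 0 := by
  have h1 : AlgebraicIndependent C (fun _ : Unit => x) :=
    (algebraicIndependent_unique_type_iff).2 hx
  obtain ⟨D, hD, hv⟩ := exists_der C 0 (fun _ : Unit => x) h1 (fun _ => 1)
  refine ⟨D, ?_, ?_⟩
  · intro c hc
    have := hD ⟨c, hc⟩
    simpa using this
  · rw [hv ()]
    exact one_ne_zero

end Pool.Agent.EXL
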