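import Pool.Agent.EXL.Rk

/-!
# EXL / Aut: automorphisms of `ℂ` and transport of ranks

PROOF of `exists_aut`.  Let `F = K(x)`, `F' = K(y)` (`IntermediateField.adjoin` or
`Subfield.closure`): by `h` there is an isomorphism `F ≅ F'` over `K` with `x_i ↦ y_i` (both are the
field of fractions of `MvPolynomial ι K` modulo the same prime ideal). `ℂ` is an algebraic closure of
`F(B)` and of `F'(B')` for transcendence bases `B, B'` over the countable fields `F, F'`; both have
the cardinality of the continuum, so the isomorphism extends (Mathlib: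
`IsAlgClosed.equivOfTranscendenceBasis`, with `ℂ` considered as an algebra over `F` in two ways;
cardinality of the bases: `Cardinal.mk_le..`, see `IsAlgClosed.ringEquiv_of_equiv_of_char_zero` and
the lemmas about `trdeg` in `Mathlib/FieldTheory/IsAlgClosed/Classification.lean`).
-/

set_option autoImplicit false

namespace Pool.Agent.EXL

/-- Uncountable algebraically closed fields containing the same countable ring are isomorphic
over it. -/
private theorem aut_iso {R K L : Type} [CommRing R] [Field K] [Field L] [Algebra R K] [Algebra R L]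
    [IsAlgClosed K] [IsAlgClosed L] [FaithfulSMul R K] [FaithfulSMul R L]
    (hR : Cardinal.mk R ≤ Cardinal.aleph0) (hK : Cardinal.aleph0 < Cardinal.mk K)
    (hKL : Cardinal.mk K = Cardinal.mk L) :
    ∃ σ : K ≃+* L, ∀ r, σ (algebraMap R K r) = algebraMap R L r := by
  obtain ⟨s, hs⟩ := exists_isTranscendenceBasis R K
  obtain ⟨t, ht⟩ := exists_isTranscendenceBasis R L
  have : Nontrivial R := RingHom.domain_nontrivial (algebraMap R K)
  have h1 := IsAlgClosed.cardinal_eq_cardinal_transcendence_basis_of_aleph0_lt' _ hs hR hK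
  have h2 := IsAlgClosed.cardinal_eq_cardinal_transcendence_basis_of_aleph0_lt' _ ht hR (hKL ▸ hK)
  obtain ⟨e⟩ := Cardinal.eq.1 (h1.symm.trans (hKL.trans h2))
  let := IsAlgClosed.isAlgClosure_of_transcendence_basis _ hs
  let := IsAlgClosed.isAlgClosure_of_transcendence_basis _ ht
  have e' : Algebra.adjoin R (Set.range (Subtype.val : s → K)) ≃ₐ[R]
      Algebra.adjoin R (Set.range (Subtype.val : t → L)) :=
    (hs.1.aevalEquiv.symm.trans (MvPolynomial.renameEquiv R e)).trans ht.1.aevalEquiv
  refine ⟨IsAlgClosure.equivOfEquiv K L e'.toRingEquiv, fun r => ?_⟩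
  have h3 : algebraMap R K r = algebraMap (Algebra.adjoin R (Set.range (Subtype.val : s → K))) K
    (algebraMap R _ r) := rfl
  rw [h3, IsAlgClosure.equivOfEquiv_algebraMap]
  have h4 : e'.toRingEquiv (algebraMap R _ r) = algebraMap R _ r := e'.commutes r
  rw [h4]
  rfl

private theorem aut_iso2 {R : Type} [CommRing R] (hR : Cardinal.mk R ≤ Cardinal.aleph0)
    (a b : R →+* ℂ) (ha : Function.Injective a) (hb : Function.Injective b) :
    ∃ σ : ℂ ≃+* ℂ, ∀ r, σ (a r) = b r := by
  have h1 : @FaithfulSMul R ℂ a.toAlgebra.toSMul := by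
    let := a.toAlgebra
    exact (faithfulSMul_iff_algebraMap_injective R ℂ).2 ha
  have h2 : @FaithfulSMul R ℂ b.toAlgebra.toSMul := by
    let := b.toAlgebra
    exact (faithfulSMul_iff_algebraMap_injective R ℂ).2 hb
  have hc : Cardinal.aleph0 < Cardinal.mk ℂ := by
    rw [Cardinal.mk_complex]
    exact Cardinal.aleph0_lt_continuum
  exact @aut_iso R ℂ ℂ _ _ _ a.toAlgebra b.toAlgebra _ _ h1 h2 hR hc rfl

/-- Tuples of the same type over a countable field are conjugate under an automorphism of `ℂ`. -/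
theorem exists_aut (K : Subfield ℂ) (hK : (K : Set ℂ).Countable) {ι : Type*} [Finite ι]
    (x y : ι → ℂ)
    (h : ∀ f : MvPolynomial ι K, MvPolynomial.aeval x f = 0 ↔ MvPolynomial.aeval y f = 0) :
    ∃ σ : ℂ ≃+* ℂ, (∀ c ∈ K, σ c = c) ∧ ∀ i, σ (x i) = y i := by
  obtain ⟨n, ⟨e⟩⟩ := Finite.exists_equiv_fin ι
  have hx : ∀ (z : ι → ℂ) (f : MvPolynomial (Fin n) K),
      MvPolynomial.aeval (z ∘ e.symm) f = MvPolynomial.aeval z (MvPolynomial.rename e.symm f) := by
    intro z f
    rw [MvPolynomial.aeval_rename]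
  have hker : RingHom.ker (MvPolynomial.aeval (y ∘ e.symm) : MvPolynomial (Fin n) K →ₐ[K] ℂ) =
      RingHom.ker (MvPolynomial.aeval (x ∘ e.symm) : MvPolynomial (Fin n) K →ₐ[K] ℂ) := by
    ext f
    rw [RingHom.mem_ker, RingHom.mem_ker, hx, hx]
    exact (h _).symm
  set I : Ideal (MvPolynomial (Fin n) K) :=
    RingHom.ker (MvPolynomial.aeval (x ∘ e.symm) : MvPolynomial (Fin n) K →ₐ[K] ℂ) with hI
  have hcK : Cardinal.mk K ≤ Cardinal.aleph0 := by
    rw [Cardinal.mk_le_aleph0_iff]
    exact hK.to_subtype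
  have hcP : Cardinal.mk (MvPolynomial (Fin n) K) ≤ Cardinal.aleph0 := by
    refine MvPolynomial.cardinalMk_le_max.trans ?_
    refine max_le (max_le hcK ?_) le_rfl
    exact Cardinal.mk_le_aleph0
  have hcR : Cardinal.mk (MvPolynomial (Fin n) K ⧸ I) ≤ Cardinal.aleph0 :=
    (Cardinal.mk_le_of_surjective Ideal.Quotient.mk_surjective).trans hcP
  set a : MvPolynomial (Fin n) K ⧸ I →+* ℂ := Ideal.Quotient.lift I
    (MvPolynomial.aeval (x ∘ e.symm) : MvPolynomial (Fin n) K →ₐ[K] ℂ).toRingHom
    (fun f hf => hf) with ha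
  set b : MvPolynomial (Fin n) K ⧸ I →+* ℂ := Ideal.Quotient.lift I
    (MvPolynomial.aeval (y ∘ e.symm) : MvPolynomial (Fin n) K →ₐ[K] ℂ).toRingHom
    (fun f hf => by rw [← hker] at hf; exact hf) with hb
  obtain ⟨σ, hσ⟩ := aut_iso2 hcR a b
    ((Ideal.injective_lift_iff _).2 rfl)
    ((Ideal.injective_lift_iff _).2 hker)
  have key : ∀ f : MvPolynomial (Fin n) K, σ (MvPolynomial.aeval (x ∘ e.symm) f) =
      MvPolynomial.aeval (y ∘ e.symm) f := fun f => hσ (Ideal.Quotient.mk I f)
  refine ⟨σ, fun c hc => ?_, fun i => ?_⟩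
  · have := key (MvPolynomial.C ⟨c, hc⟩)
    rw [MvPolynomial.aeval_C, MvPolynomial.aeval_C] at this
    exact this
  · have := key (MvPolynomial.X (e i))
    rw [MvPolynomial.aeval_X, MvPolynomial.aeval_X] at this
    simpa using this

/-- Conjugation of a derivation with an automorphism. -/
noncomputable def conj {E : Type*} [Field E] (σ : E ≃+* E) (D : Derivation ℤ E E) :
    Derivation ℤ E E where
  toFun x := σ (D (σ.symm x))
  map_add' x y := by simp
  map_smul' n x := by simp
  map_one_eq_zero' := by simp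
  leibniz' x y := by simp

lemma conj_apply {E : Type*} [Field E] (σ : E ≃+* E) (D : Derivation ℤ E E) (x : E) :
    conj σ D x = σ (D (σ.symm x)) := rfl

private theorem aut_le {E : Type*} [Field E] (σ : E ≃+* E) (A : Set E) {ι : Type*} [Finite ι]
    (x : ι → E) : td A x ≤ td (σ '' A) (fun i => σ (x i)) := by
  obtain ⟨D, hD, hli⟩ := exists_linearIndependent (DerOver A) x
  refine le_rk_of_linearIndependent (DerOver (σ '' A)) (fun i => σ (x i))
    (fun k => conj σ (D k)) ?_ ?_
  · rintro k _ ⟨c, hc, rfl⟩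
    rw [conj_apply, RingEquiv.symm_apply_apply, hD k c hc, map_zero]
  · rw [Fintype.linearIndependent_iff] at hli ⊢
    intro g hg k
    have h1 := hli (fun k => σ.symm (g k)) ?_ k
    · have h2 := congrArg σ h1
      rwa [RingEquiv.apply_symm_apply, map_zero] at h2
    · funext i
      have h2 := congrFun hg i
      rw [Finset.sum_apply] at h2 ⊢
      have h3 := congrArg σ.symm h2
      rw [map_sum, Pi.zero_apply, map_zero] at h3
      rw [Pi.zero_apply, ← h3]
      refine Finset.sum_congr rfl fun j _ => ?_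
      rw [Pi.smul_apply, Pi.smul_apply, smul_eq_mul, smul_eq_mul, map_mul]
      congr 1
      show D j (x i) = σ.symm (conj σ (D j) (σ (x i)))
      rw [conj_apply, RingEquiv.symm_apply_apply, RingEquiv.symm_apply_apply]

/-- Transport of the transcendence degree. -/
theorem td_conj {E : Type*} [Field E] (σ : E ≃+* E) (A : Set E) {ι : Type*} [Finite ι]
    (x : ι → E) : td (σ '' A) (fun i => σ (x i)) = td A x := by
  refine le_antisymm ?_ (aut_le σ A x)
  have h1 := aut_le σ.symm (σ '' A) (fun i => σ (x i))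
  have h2 : σ.symm '' (σ '' A) = A := by
    rw [← Set.image_comp]
    have : (σ.symm ∘ σ : E → E) = id := by
      funext z
      simp
    rw [this, Set.image_id]
  rw [h2] at h1
  simpa using h1

end Pool.Agent.EXL
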