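import Pool.Agent.EXL.Res2

/-!
# EXL / Ax: Ax's theorem

PROOF of `forms_indep`.  Put `C = consts Δ`, `ω_j(D) = D (b_j) / b_j - D (a_j)` for
`D ∈ DerOver C`. Let `Rel` be the `E`-subspace of the `c : ι → E` with `∑ c_j ω_j(D) = 0` for all
`D ∈ DerOver C`. If `c ∈ Rel` and `D₀ ∈ Δ` then `D₀ c := (D₀ c_j)_j ∈ Rel`: for `D ∈ DerOver C` the
commutator `⁅D₀, D⁆` is in `DerOver C`, and `ω_j(⁅D₀, D⁆) = D₀(ω_j(D)) - D(ω_j(D₀)) = D₀(ω_j(D))`
(direct computation; `ω_j(D₀) = 0`). Apply `D₀` to `∑ c_j ω_j(D) = 0`.
Suppose `Rel ≠ 0`; take `c ∈ Rel` nonzero of minimal support with some `c_{j₀} = 1`. Then `D₀ c` has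
smaller support, so `D₀ c = 0` for all `D₀ ∈ Δ`: all `c_j ∈ C`. Choose `e_1, .., e_m` in the
`ℚ`-span of the `c_j`, linearly independent over `ℤ` (over `ℚ`), and integers `q_{jk}` with
`c_j = ∑_k q_{jk} e_k` (a basis of the span divided by a common denominator). Put
`u_k = ∏_j b_j ^ q_{jk}`. Then `∑_k e_k D(u_k)/u_k = ∑_j c_j D(b_j)/b_j = D(∑ c_j a_j)` for
`D ∈ DerOver C`. By `residue` `u_k` is algebraic over `C`, so `u_k ∈ C` (`consts_algebraic`). For
`D ∈ Δ`: `0 = D(u_k)/u_k = ∑_j q_{jk} D(a_j)`, so `∑_j q_{jk} a_j ∈ C` and all `q_{jk} = 0` by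
`hind`, `c = 0`, a contradiction.

PROOF of `ax`.  The image `V` of `ev (a, b)` on `DerOver C` has dimension `td C (a, b)`; the
functionals `ω_j : (x, y) ↦ y_j / b_j - x_j` on `V` are linearly independent by `forms_indep` and
vanish on the image of `Δ`, which has dimension `rk Δ a` (on `Δ` one has `D b_j = b_j D a_j`).
-/

set_option autoImplicit false

namespace Pool.Agent.EXL

variable {E : Type*} [Field E] [CharZero E] {ι : Type*} [Fintype ι]

/-- `Rel` is stable under `Δ`. -/
private lemma rel_der (Δ : Submodule E (Derivation ℤ E E)) (a b : ι → E) (hb : ∀ j, b j ≠ 0)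
    (hab : ∀ D ∈ Δ, ∀ j, D (b j) = b j * D (a j)) (c : ι → E)
    (hc : ∀ D ∈ DerOver (consts Δ : Set E), ∑ j, c j * (D (b j) / b j - D (a j)) = 0)
    (D₀ : Derivation ℤ E E) (hD₀ : D₀ ∈ Δ) (D : Derivation ℤ E E)
    (hD : D ∈ DerOver (consts Δ : Set E)) :
    ∑ j, D₀ (c j) * (D (b j) / b j - D (a j)) = 0 := by
  have h1 : ⁅D₀, D⁆ ∈ DerOver (consts Δ : Set E) := by
    intro x hx
    rw [Derivation.commutator_apply, hD x hx, map_zero, (mem_consts.1 hx) D₀ hD₀, map_zero,
      sub_zero]
  have h2 : ∀ j, (⁅D₀, D⁆ (b j) / b j - ⁅D₀, D⁆ (a j)) = D₀ (D (b j) / b j - D (a j)) := by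
    intro j
    rw [Derivation.commutator_apply, Derivation.commutator_apply, map_sub, hab D₀ hD₀ j,
      Derivation.leibniz_div, Derivation.leibniz, hab D₀ hD₀ j]
    simp only [smul_eq_mul]
    have := hb j
    field_simp
    ring
  have h3 := hc _ h1
  simp only [h2] at h3
  have h4 := congrArg D₀ (hc D hD)
  rw [map_zero, map_sum] at h4
  have h5 : ∀ j, D₀ (c j * (D (b j) / b j - D (a j))) =
      c j * D₀ (D (b j) / b j - D (a j)) + D₀ (c j) * (D (b j) / b j - D (a j)) := by
    intro j
    rw [Derivation.leibniz, smul_eq_mul, smul_eq_mul]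
    ring
  simp only [h5, Finset.sum_add_distrib] at h4
  rw [h3, zero_add] at h4
  exact h4

/-- Elements of a field of characteristic zero are integral combinations of elements which are
linearly independent over `ℤ`. -/
private lemma exists_int_basis (C : Subfield E) (c : ι → E) (hc : ∀ j, c j ∈ C) :
    ∃ (m : ℕ) (e : Fin m → E) (q : ι → Fin m → ℤ), (∀ k, e k ∈ C) ∧
      (∀ z : Fin m → ℤ, ∑ k, (z k : E) * e k = 0 → z = 0) ∧
      ∀ j, c j = ∑ k, (q j k : E) * e k := by
  classical
  let W : Submodule ℚ E := Submodule.span ℚ (Set.range c)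
  have hWfin : Module.Finite ℚ W := Module.Finite.span_of_finite ℚ (Set.finite_range c)
  let B := Module.finBasis ℚ W
  set m := Module.finrank ℚ W with hm
  have hCW : ∀ x ∈ W, x ∈ C := by
    intro x hx
    induction hx using Submodule.span_induction with
    | mem x hx =>
      obtain ⟨j, rfl⟩ := hx
      exact hc j
    | zero => exact C.zero_mem
    | add x y _ _ hx hy => exact C.add_mem hx hy
    | smul r x _ hx =>
      rw [Algebra.smul_def]
      exact C.mul_mem (by simp [SubfieldClass.ratCast_mem C r]) hx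
  let w : ι → W := fun j => ⟨c j, Submodule.subset_span ⟨j, rfl⟩⟩
  let d : ℕ := ∏ j : ι, ∏ k : Fin m, (B.repr (w j) k).den
  have hd : 0 < d := Finset.prod_pos fun j _ => Finset.prod_pos fun k _ => Rat.den_pos _
  have hint : ∀ j k, ∃ z : ℤ, (z : ℚ) = d * B.repr (w j) k := by
    intro j k
    have h1 : (B.repr (w j) k).den ∣ d :=
      (Finset.dvd_prod_of_mem (fun k => (B.repr (w j) k).den) (Finset.mem_univ k)).trans
        (Finset.dvd_prod_of_mem (fun j => ∏ k : Fin m, (B.repr (w j) k).den) (Finset.mem_univ j))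
    obtain ⟨t, ht⟩ := h1
    refine ⟨(B.repr (w j) k).num * t, ?_⟩
    have h2 : ((B.repr (w j) k).den : ℚ) * B.repr (w j) k = (B.repr (w j) k).num :=
      Rat.den_mul_eq_num _
    rw [ht]
    push_cast
    rw [← h2]
    ring
  choose q hq using hint
  have hdE : (d : E) ≠ 0 := by exact_mod_cast hd.ne'
  refine ⟨m, fun k => (d : E)⁻¹ * (B k : E), q, ?_, ?_, ?_⟩
  · intro k
    exact C.mul_mem (C.inv_mem (natCast_mem C d)) (hCW _ (B k).2)
  · intro z hz
    have h1 : ∑ k, (z k : E) * (B k : E) = 0 := by
      have : ∑ k, (z k : E) * ((d : E)⁻¹ * (B k : E)) = (d : E)⁻¹ * ∑ k, (z k : E) * (B k : E) := by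
        rw [Finset.mul_sum]
        refine Finset.sum_congr rfl fun k _ => ?_
        ring
      rw [this] at hz
      rcases mul_eq_zero.1 hz with h | h
      · exact absurd h (inv_ne_zero hdE)
      · exact h
    have h2 : ∑ k, (z k : ℚ) • B k = 0 := by
      apply Subtype.ext
      rw [AddSubmonoidClass.coe_finsetSum]
      simp only [SetLike.val_smul, Algebra.smul_def, map_intCast]
      rw [h1]
      rfl
    have h3 := Fintype.linearIndependent_iff.1 B.linearIndependent (fun k => (z k : ℚ)) h2
    ext k
    exact_mod_cast h3 k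
  · intro j
    have h1 : w j = ∑ k, (B.repr (w j) k) • B k := (B.sum_repr (w j)).symm
    have h2 : c j = ∑ k, ((B.repr (w j) k : ℚ) : E) * (B k : E) := by
      have h3 : (w j : E) = ((∑ k, (B.repr (w j) k) • B k : W) : E) := congrArg Subtype.val h1
      rw [AddSubmonoidClass.coe_finsetSum] at h3
      simp only [SetLike.val_smul, Algebra.smul_def, eq_ratCast] at h3
      exact h3
    rw [h2]
    refine Finset.sum_congr rfl fun k _ => ?_
    have h4 : (q j k : E) = (d : E) * ((B.repr (w j) k : ℚ) : E) := by
      have := congrArg (fun x : ℚ => (x : E)) (hq j k)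
      push_cast at this
      exact this
    rw [h4]
    field_simp

private lemma der_zpow (D : Derivation ℤ E E) (x : E) (hx : x ≠ 0) (n : ℤ) :
    D (x ^ n) / x ^ n = n * (D x / x) := by
  have hpow : ∀ (y : E) (_ : y ≠ 0) (k : ℕ), D (y ^ k) / y ^ k = k * (D y / y) := by
    intro y hy k
    induction k with
    | zero => simp
    | succ k ih =>
      have hyk : y ^ k ≠ 0 := pow_ne_zero _ hy
      rw [pow_succ, Derivation.leibniz, smul_eq_mul, smul_eq_mul]
      have h1 : (y ^ k * D y + y * D (y ^ k)) / (y ^ k * y) = D y / y + D (y ^ k) / y ^ k := by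
        field_simp
      rw [h1, ih]
      push_cast
      ring
  rcases n.eq_nat_or_neg with ⟨k, rfl | rfl⟩
  · rw [zpow_natCast, hpow x hx k]
    push_cast
    ring
  · rw [zpow_neg, zpow_natCast, Derivation.leibniz_inv, smul_eq_mul]
    have hxk : x ^ k ≠ 0 := pow_ne_zero _ hx
    have h1 : -((x ^ k)⁻¹ ^ 2) * D (x ^ k) / (x ^ k)⁻¹ = -(D (x ^ k) / x ^ k) := by
      field_simp
    rw [h1, hpow x hx k]
    push_cast
    ring

omit [CharZero E] in
private lemma der_prod {κ : Type*} (s : Finset κ) (D : Derivation ℤ E E) (x : κ → E)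
    (hx : ∀ j, x j ≠ 0) : D (∏ j ∈ s, x j) / ∏ j ∈ s, x j = ∑ j ∈ s, D (x j) / x j := by
  classical
  induction s using Finset.induction_on with
  | empty => simp
  | insert j s hj ih =>
    rw [Finset.prod_insert hj, Finset.sum_insert hj, Derivation.leibniz, smul_eq_mul, smul_eq_mul,
      ← ih]
    have h1 := hx j
    have h2 : ∏ j ∈ s, x j ≠ 0 := Finset.prod_ne_zero_iff.2 fun j _ => hx j
    field_simp
    ring

theorem forms_indep (Δ : Submodule E (Derivation ℤ E E)) (a b : ι → E) (hb : ∀ j, b j ≠ 0)
    (hab : ∀ D ∈ Δ, ∀ j, D (b j) = b j * D (a j))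
    (hind : ∀ q : ι → ℤ, ∑ j, (q j : E) * a j ∈ consts Δ → q = 0) (c : ι → E)
    (hc : ∀ D ∈ DerOver (consts Δ : Set E), ∑ j, c j * (D (b j) / b j - D (a j)) = 0) :
    c = 0 := by
  classical
  -- minimal counterexample
  have key : ∀ (n : ℕ) (c : ι → E), (Finset.univ.filter (fun j => c j ≠ 0)).card ≤ n →
      (∀ D ∈ DerOver (consts Δ : Set E), ∑ j, c j * (D (b j) / b j - D (a j)) = 0) → c = 0 := by
    intro n
    induction n with
    | zero =>
      intro c hn _
      ext j
      by_contra hj
      have : j ∈ Finset.univ.filter (fun j => c j ≠ 0) := by simpa using hj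
      have := Finset.card_pos.2 ⟨j, this⟩
      omega
    | succ n ih =>
      intro c₀ hn hc₀
      by_contra hne
      obtain ⟨j₀, hj₀⟩ : ∃ j, c₀ j ≠ 0 := by
        by_contra h
        push Not at h
        exact hne (funext h)
      -- normalise
      let c : ι → E := fun j => c₀ j / c₀ j₀
      have hcj : c j₀ = 1 := div_self hj₀
      have hc0 : ∀ j, c j ≠ 0 ↔ c₀ j ≠ 0 := by
        intro j
        simp only [c, ne_eq, div_eq_zero_iff, hj₀, or_false]
      have hc : ∀ D ∈ DerOver (consts Δ : Set E), ∑ j, c j * (D (b j) / b j - D (a j)) = 0 := by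
        intro D hD
        have h1 : ∑ j, c j * (D (b j) / b j - D (a j)) =
            (c₀ j₀)⁻¹ * ∑ j, c₀ j * (D (b j) / b j - D (a j)) := by
          rw [Finset.mul_sum]
          refine Finset.sum_congr rfl fun j _ => ?_
          simp only [c]
          ring
        rw [h1, hc₀ D hD, mul_zero]
      -- all `c j` are constants
      have hcC : ∀ j, c j ∈ consts Δ := by
        intro j D₀ hD₀
        have h1 : (fun j => D₀ (c j)) = 0 := by
          apply ih
          · have hsub : Finset.univ.filter (fun j => D₀ (c j) ≠ 0) ⊆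
                (Finset.univ.filter (fun j => c₀ j ≠ 0)).erase j₀ := by
              intro j hj
              rw [Finset.mem_filter] at hj
              rw [Finset.mem_erase, Finset.mem_filter]
              refine ⟨?_, Finset.mem_univ _, ?_⟩
              · rintro rfl
                apply hj.2
                rw [hcj]
                exact D₀.map_one_eq_zero
              · rw [← hc0]
                intro h0
                apply hj.2
                rw [h0, map_zero]
            have h2 := Finset.card_le_card hsub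
            rw [Finset.card_erase_of_mem (by simpa using hj₀)] at h2
            omega
          · intro D hD
            exact rel_der Δ a b hb hab c hc D₀ hD₀ D hD
        exact congrFun h1 j
      obtain ⟨m, e, q, heC, heind, hcq⟩ := exists_int_basis (consts Δ) c hcC
      let u : Fin m → E := fun k => ∏ j, b j ^ q j k
      have hu : ∀ k, u k ≠ 0 := fun k =>
        Finset.prod_ne_zero_iff.2 fun j _ => zpow_ne_zero _ (hb j)
      have hDu : ∀ (D : Derivation ℤ E E) k, D (u k) / u k = ∑ j, (q j k : E) * (D (b j) / b j) := by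
        intro D k
        rw [der_prod _ D _ (fun j => zpow_ne_zero _ (hb j))]
        exact Finset.sum_congr rfl fun j _ => der_zpow D (b j) (hb j) _
      have halg : ∀ k, IsAlgebraic (consts Δ) (u k) := by
        refine residue (consts Δ) e heC heind u hu (∑ j, c j * a j) ?_
        intro D hD
        calc ∑ k, e k * (D (u k) / u k) = ∑ k, ∑ j, e k * ((q j k : E) * (D (b j) / b j)) := by
              refine Finset.sum_congr rfl fun k _ => ?_
              rw [hDu, Finset.mul_sum]
          _ = ∑ j, ∑ k, e k * ((q j k : E) * (D (b j) / b j)) := Finset.sum_comm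
          _ = ∑ j, c j * (D (b j) / b j) := by
              refine Finset.sum_congr rfl fun j _ => ?_
              rw [hcq j, Finset.sum_mul]
              refine Finset.sum_congr rfl fun k _ => ?_
              ring
          _ = ∑ j, c j * D (a j) := by
              have h1 := hc D hD
              simp only [mul_sub, Finset.sum_sub_distrib] at h1
              exact sub_eq_zero.1 h1
          _ = D (∑ j, c j * a j) := by
              rw [map_sum]
              refine Finset.sum_congr rfl fun j _ => ?_
              rw [Derivation.leibniz, smul_eq_mul, smul_eq_mul, hD (c j) (hcC j), mul_zero,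
                add_zero]
      have hq0 : ∀ k, (fun j => q j k) = 0 := by
        intro k
        apply hind
        intro D hD
        have h1 : D (u k) = 0 := (consts_algebraic Δ (u k) (halg k)) D hD
        have h2 := hDu D k
        rw [h1, zero_div] at h2
        rw [map_sum]
        calc ∑ j, D ((q j k : E) * a j) = ∑ j, (q j k : E) * (D (b j) / b j) := by
              refine Finset.sum_congr rfl fun j _ => ?_
              rw [Derivation.leibniz, smul_eq_mul, smul_eq_mul, hab D hD j]
              have h3 : D (q j k : E) = 0 := D.map_intCast _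
              rw [h3, mul_zero, add_zero]
              have := hb j
              field_simp
          _ = 0 := h2.symm
      have : c j₀ = 0 := by
        rw [hcq j₀]
        refine Finset.sum_eq_zero fun k _ => ?_
        have := congrFun (hq0 k) j₀
        simp only [Pi.zero_apply] at this
        rw [this, Int.cast_zero, zero_mul]
      rw [hcj] at this
      exact one_ne_zero this
  exact key _ c le_rfl hc

/-- Ax's theorem. -/
theorem ax (Δ : Submodule E (Derivation ℤ E E)) (a b : ι → E) (hb : ∀ j, b j ≠ 0)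
    (hab : ∀ D ∈ Δ, ∀ j, D (b j) = b j * D (a j))
    (hind : ∀ q : ι → ℤ, ∑ j, (q j : E) * a j ∈ consts Δ → q = 0) :
    Fintype.card ι + rk Δ a ≤ td (consts Δ : Set E) (Sum.elim a b) := by
  classical
  let ω : (ι ⊕ ι → E) →ₗ[E] (ι → E) :=
    { toFun := fun z j => z (Sum.inr j) / b j - z (Sum.inl j)
      map_add' := by
        intro z z'
        ext j
        simp only [Pi.add_apply]
        ring
      map_smul' := by
        intro r z
        ext j
        simp only [Pi.smul_apply, smul_eq_mul, RingHom.id_apply]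
        ring }
  let V : Submodule E (ι ⊕ ι → E) := (DerOver (consts Δ : Set E)).map (ev (Sum.elim a b))
  let V₀ : Submodule E (ι ⊕ ι → E) := Δ.map (ev (Sum.elim a b))
  have hωev : ∀ (D : Derivation ℤ E E) j, ω (ev (Sum.elim a b) D) j = D (b j) / b j - D (a j) :=
    fun D j => rfl
  have hV₀V : V₀ ≤ V := Submodule.map_mono (le_derOver_consts Δ)
  have hV₀ker : V₀ ≤ LinearMap.ker ω := by
    rintro _ ⟨D, hD, rfl⟩
    rw [LinearMap.mem_ker]
    ext j
    rw [hωev, hab D hD j, Pi.zero_apply]
    have := hb j
    field_simp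
    ring
  have hsurj : LinearMap.range (ω.domRestrict V) = ⊤ := by
    by_contra hne
    obtain ⟨f, hf, hle⟩ := Submodule.exists_le_ker_of_lt_top _ (lt_top_iff_ne_top.2 hne)
    apply hf
    let c : ι → E := fun j => f (Pi.single j 1)
    have hfc : ∀ x : ι → E, f x = ∑ j, c j * x j := by
      intro x
      have h2 : x = ∑ i, x i • (Pi.single i (1 : E) : ι → E) := by
        ext k
        simp [Finset.sum_apply, Pi.single_apply]
      conv_lhs => rw [h2]
      rw [map_sum]
      refine Finset.sum_congr rfl fun j _ => ?_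
      rw [map_smul, smul_eq_mul, mul_comm]
    have hc0 : c = 0 := by
      apply forms_indep Δ a b hb hab hind c
      intro D hD
      have h1 : f (ω (ev (Sum.elim a b) D)) = 0 :=
        hle ⟨⟨ev (Sum.elim a b) D, ⟨D, hD, rfl⟩⟩, rfl⟩
      rw [hfc] at h1
      simpa only [hωev] using h1
    ext x
    simp [hfc, hc0]
  have h1 := (ω.domRestrict V).finrank_range_add_finrank_ker
  rw [hsurj, finrank_top, Module.finrank_fintype_fun_eq_card] at h1
  have h2 : Module.finrank E V₀ ≤ Module.finrank E (LinearMap.ker (ω.domRestrict V)) := by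
    let g : V₀ →ₗ[E] LinearMap.ker (ω.domRestrict V) :=
      LinearMap.codRestrict _ (Submodule.inclusion hV₀V) (by
        intro x
        rw [LinearMap.mem_ker]
        exact hV₀ker x.2)
    apply LinearMap.finrank_le_finrank_of_injective (f := g)
    intro x y hxy
    have h5 : ((g x : V) : ι ⊕ ι → E) = ((g y : V) : ι ⊕ ι → E) := by rw [hxy]
    exact Subtype.ext h5
  have h3 : rk Δ a ≤ Module.finrank E V₀ :=
    rk_le_of_dep Δ (Sum.elim a b) a (fun D _ h j => h (Sum.inl j))
  have h4 : td (consts Δ : Set E) (Sum.elim a b) = Module.finrank E V := rfl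
  rw [h4]
  omega

end Pool.Agent.EXL
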