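import Pool.Agent.EXL.Rk

/-!
# EXL / Tr: traces and norms commute with derivations

PROOF.  `Algebra.trace F L v = ∑ σ v` and `Algebra.norm F L u = ∏ σ u` over the embeddings
`σ : L →ₐ[F] Ω`, `Ω` an algebraic closure of `F`. `D₀` extends to a derivation `D'` of `Ω`
and for every `σ` the two derivations `D' ∘ σ` and `σ ∘ D` from `L` to `Ω` (along `σ`) agree on `F`,
so they agree on `L` because `L / F` is formally unramified.
-/

set_option autoImplicit false

namespace Pool.Agent.EXL

private theorem der_comm {F L Ω : Type*} [Field F] [Field L] [Field Ω] [CharZero F] [Algebra F L]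
    [Algebra F Ω] [Algebra.IsAlgebraic F L] (D₀ : Derivation ℤ F F) (D : Derivation ℤ L L)
    (D' : Derivation ℤ Ω Ω) (h : ∀ x : F, D (algebraMap F L x) = algebraMap F L (D₀ x))
    (h' : ∀ x : F, D' (algebraMap F Ω x) = algebraMap F Ω (D₀ x)) (σ : L →ₐ[F] Ω) (a : L) :
    D' (σ a) = σ (D a) := by
  let _ : Algebra L Ω := σ.toRingHom.toAlgebra
  have : IsScalarTower F L Ω := IsScalarTower.of_algebraMap_eq fun c => (σ.commutes c).symm
  have h1 : Algebra.FormallyEtale F L := Algebra.FormallyEtale.of_isSeparable F L
  have h2 : Subsingleton (Ω[L⁄F]) := inferInstance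
  let T : Derivation F L Ω := Derivation.mk'
    { toFun := fun a => D' (σ a) - σ (D a)
      map_add' := by
        intro a b
        rw [map_add, map_add, map_add, map_add]
        ring
      map_smul' := by
        intro c a
        rw [Algebra.smul_def, Algebra.smul_def, map_mul, Derivation.leibniz, Derivation.leibniz,
          AlgHom.commutes, h', h]
        simp only [smul_eq_mul, map_add, map_mul, AlgHom.commutes, RingHom.id_apply]
        ring } (by
      intro a b
      change D' (σ (a * b)) - σ (D (a * b)) = a • (D' (σ b) - σ (D b)) + b • (D' (σ a) - σ (D a))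
      have e : ∀ (a : L) (z : Ω), a • z = σ a * z := fun a z => Algebra.smul_def a z
      rw [map_mul, Derivation.leibniz, Derivation.leibniz, e, e]
      simp only [smul_eq_mul, map_add, map_mul]
      ring)
  have h3 : T a = 0 := by
    have h4 : T.liftKaehlerDifferential (KaehlerDifferential.D F L a) = T a :=
      Derivation.liftKaehlerDifferential_comp_D T a
    rw [← h4, Subsingleton.elim (KaehlerDifferential.D F L a) 0, map_zero]
  exact sub_eq_zero.mp h3

private theorem exists_ext {F Ω : Type*} [Field F] [Field Ω] [CharZero F]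
    [Algebra F Ω] [Algebra.IsAlgebraic F Ω] (D₀ : Derivation ℤ F F) :
    ∃ D' : Derivation ℤ Ω Ω, ∀ x : F, D' (algebraMap F Ω x) = algebraMap F Ω (D₀ x) := by
  have h1 : Algebra.FormallyEtale F Ω := Algebra.FormallyEtale.of_isSeparable F Ω
  have h := KaehlerDifferential.isBaseChange_of_formallyEtale ℤ F Ω
  let D0 : Derivation ℤ F Ω := (Algebra.linearMap F Ω).compDer D₀
  refine ⟨(h.lift D0.liftKaehlerDifferential).compDer (KaehlerDifferential.D ℤ Ω), fun a => ?_⟩
  have h5 := h.lift_eq D0.liftKaehlerDifferential (KaehlerDifferential.D ℤ F a)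
  rw [KaehlerDifferential.map_D, Derivation.liftKaehlerDifferential_comp_D] at h5
  exact h5

private theorem logDer_prod {Ω ι : Type*} [Field Ω] (D : Derivation ℤ Ω Ω) (s : Finset ι)
    (f : ι → Ω) (hf : ∀ i ∈ s, f i ≠ 0) :
    D (∏ i ∈ s, f i) / ∏ i ∈ s, f i = ∑ i ∈ s, D (f i) / f i := by
  classical
  induction s using Finset.induction_on with
  | empty => simp
  | insert a s ha ih =>
    have h1 := hf a (Finset.mem_insert_self a s)
    have h2 : ∏ i ∈ s, f i ≠ 0 :=
      Finset.prod_ne_zero_iff.mpr fun i hi => hf i (Finset.mem_insert_of_mem hi)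
    rw [Finset.prod_insert ha, Finset.sum_insert ha,
      ← ih fun i hi => hf i (Finset.mem_insert_of_mem hi), Derivation.leibniz, smul_eq_mul,
      smul_eq_mul]
    field_simp
    ring

/-- Trace and norm of a finite extension commute with a derivation which maps the base field to
itself. -/
theorem trace_der {F L : Type*} [Field F] [Field L] [CharZero F] [Algebra F L]
    [FiniteDimensional F L] (D₀ : Derivation ℤ F F) (D : Derivation ℤ L L)
    (h : ∀ x : F, D (algebraMap F L x) = algebraMap F L (D₀ x)) (v : L) :
    D₀ (Algebra.trace F L v) = Algebra.trace F L (D v) := by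
  obtain ⟨D', h'⟩ := exists_ext (Ω := AlgebraicClosure F) D₀
  apply (algebraMap F (AlgebraicClosure F)).injective
  rw [← h', trace_eq_sum_embeddings (AlgebraicClosure F),
    trace_eq_sum_embeddings (AlgebraicClosure F), map_sum]
  exact Finset.sum_congr rfl fun σ _ => der_comm D₀ D D' h h' σ v

theorem norm_der {F L : Type*} [Field F] [Field L] [CharZero F] [Algebra F L]
    [FiniteDimensional F L] (D₀ : Derivation ℤ F F) (D : Derivation ℤ L L)
    (h : ∀ x : F, D (algebraMap F L x) = algebraMap F L (D₀ x)) (u : L) (hu : u ≠ 0) :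
    D₀ (Algebra.norm F u) / Algebra.norm F u = Algebra.trace F L (D u / u) := by
  obtain ⟨D', h'⟩ := exists_ext (Ω := AlgebraicClosure F) D₀
  apply (algebraMap F (AlgebraicClosure F)).injective
  rw [map_div₀, ← h', trace_eq_sum_embeddings (AlgebraicClosure F),
    Algebra.norm_eq_prod_embeddings, logDer_prod]
  · refine Finset.sum_congr rfl fun σ _ => ?_
    rw [der_comm D₀ D D' h h' σ u, map_div₀]
  · intro σ _
    exact (map_ne_zero σ).mpr hu

end Pool.Agent.EXL
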