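import Pool.Agent.EXL.Cert
import Pool.Agent.EXL.Ext

/-!
# EXL / Cpol: the algebraic part of the countability of closures

`R = MvPolynomial (Fin n ⊕ Fin n) k`, evaluated at `(a, exp a)`; `tot j : R → R` is the total
derivative `∂/∂x_j + y_j ∂/∂y_j`, so that `∂/∂s_j (f(s, exp s)) = (tot j f)(s, exp s)`.

PROOF of `exists_data`.  Let `P ⊆ R` be the kernel of the evaluation at `p = (a, exp a)`, a prime
ideal with finitely many generators `f_m` (`R` is Noetherian). Let `J(p)` be the matrix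
`((tot j f_m)(p))_{m,j}` over `ℂ` (`M` rows, `n` columns). If `s ∈ ℂ^n` is in its kernel then the
vector `(s, y s)` (`y_j = exp a_j`) kills all `df_m(p)`, so it kills `df(p)` for all `f ∈ P`, and so
there is a derivation `k(p) → ℂ` over `k` with `D a_j = s_j`, `D (exp a_j) = exp a_j s_j`; it
extends to `D ∈ DerOver k` (`exists_der` for the subfield `k(p)` and the empty family). By `hcert`
`s_{i₀} = 0`. So the linear form `e_{i₀}` is in the row space of `J(p)`. Choose a basis `I` of the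
row space among the rows and `r` columns `c` such that the minor `δ(p) ≠ 0`,
`δ = det (tot (c l) f_{I i}) ∈ R`; put `h = δ`. By Cramer's rule
`δ(p) J_m(p) = ∑_i q_{m,i}(p) J_{I i}(p)` with polynomials `q_{m,i} ∈ R` (minors), and
`δ(p) e_{i₀} = ∑_i q₀_i(p) J_{I i}(p)`. All entries of the differences are polynomials over `k` which
vanish at `p`, so they are in `P = (f_1, .., f_M)`.
-/

set_option autoImplicit false

namespace Pool.Agent.EXL

open MvPolynomial

section linalg

lemma cpol_cramer {r n : ℕ} (A : Matrix (Fin r) (Fin n) ℂ) (c : Fin r → Fin n) (u : Fin n → ℂ)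
    (hu : u ∈ Submodule.span ℂ (Set.range A.row)) (j : Fin n) :
    (A.submatrix id c).det * u j =
      ∑ i, (∑ l, u (c l) * (A.submatrix id c).adjugate l i) * A i j := by
  obtain ⟨x, hx⟩ := (Submodule.mem_span_range_iff_exists_fun ℂ).1 hu
  have hu' : ∀ j, u j = ∑ i, x i * A i j := by
    intro j
    rw [← hx]
    simp [Finset.sum_apply, Matrix.row]
  have h1 : ∀ i, ∑ l, u (c l) * (A.submatrix id c).adjugate l i =
      (A.submatrix id c).det * x i := by
    intro i
    have h2 : Matrix.vecMul x ((A.submatrix id c) * (A.submatrix id c).adjugate) i =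
        (A.submatrix id c).det * x i := by
      rw [Matrix.mul_adjugate, Matrix.vecMul_smul, Matrix.vecMul_one]
      rfl
    rw [← h2, ← Matrix.vecMul_vecMul]
    simp only [Matrix.vecMul, dotProduct, Matrix.submatrix_apply, id_eq]
    refine Finset.sum_congr rfl fun l _ => ?_
    rw [hu']
  simp only [h1]
  rw [hu', Finset.mul_sum]
  refine Finset.sum_congr rfl fun i _ => ?_
  ring

lemma cpol_cols {r n : ℕ} (A : Matrix (Fin r) (Fin n) ℂ) (hA : LinearIndependent ℂ A.row) :
    ∃ c : Fin r → Fin n, (A.submatrix id c).det ≠ 0 := by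
  obtain ⟨κ, a, ha, hsp, hli⟩ := exists_linearIndependent' ℂ A.col
  have : Finite κ := Finite.of_injective a ha
  have := Fintype.ofFinite κ
  have h1 : A.rank = r := by rw [hA.rank_matrix, Fintype.card_fin]
  have h2 : Fintype.card κ = r := by
    rw [← finrank_span_eq_card hli, hsp, ← Matrix.rank_eq_finrank_span_cols, h1]
  let e : Fin r ≃ κ := (Fintype.equivFinOfCardEq h2).symm
  refine ⟨a ∘ e, ?_⟩
  have h3 : LinearIndependent ℂ (A.submatrix id (a ∘ e)).col := by
    have h4 : (A.submatrix id (a ∘ e)).col = (A.col ∘ a) ∘ e := rfl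
    rw [h4]
    exact hli.comp e e.injective
  rw [Matrix.linearIndependent_cols_iff_isUnit, Matrix.isUnit_iff_isUnit_det] at h3
  exact h3.ne_zero

lemma cpol_minor {M n : ℕ} (J : Matrix (Fin M) (Fin n) ℂ) (i₀ : Fin n)
    (h : ∀ s : Fin n → ℂ, (∀ m, ∑ j, J m j * s j = 0) → s i₀ = 0) :
    ∃ (r : ℕ) (I : Fin r → Fin M) (c : Fin r → Fin n),
      (J.submatrix I c).det ≠ 0 ∧
      (∀ m j, (J.submatrix I c).det * J m j =
        ∑ i, (∑ l, J m (c l) * (J.submatrix I c).adjugate l i) * J (I i) j) ∧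
      (∀ j, (J.submatrix I c).det * (if j = i₀ then 1 else 0) =
        ∑ i, (∑ l, (if c l = i₀ then 1 else 0) * (J.submatrix I c).adjugate l i) * J (I i) j) := by
  obtain ⟨κ, a, ha, hsp, hli⟩ := exists_linearIndependent' ℂ J.row
  have : Finite κ := Finite.of_injective a ha
  have := Fintype.ofFinite κ
  let e : Fin (Fintype.card κ) ≃ κ := (Fintype.equivFin κ).symm
  let I : Fin (Fintype.card κ) → Fin M := a ∘ e
  let A : Matrix (Fin (Fintype.card κ)) (Fin n) ℂ := J.submatrix I id
  have hA : LinearIndependent ℂ A.row := hli.comp e e.injective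
  have hspA : Submodule.span ℂ (Set.range A.row) = Submodule.span ℂ (Set.range J.row) := by
    rw [← hsp]
    have : A.row = (J.row ∘ a) ∘ e := rfl
    rw [this, EquivLike.range_comp]
  obtain ⟨c, hc⟩ := cpol_cols A hA
  have hsub : A.submatrix id c = J.submatrix I c := rfl
  refine ⟨_, I, c, by rw [← hsub]; exact hc, fun m j => ?_, fun j => ?_⟩
  · have h1 : J.row m ∈ Submodule.span ℂ (Set.range A.row) := by
      rw [hspA]
      exact Submodule.subset_span ⟨m, rfl⟩
    exact cpol_cramer A c (J.row m) h1 j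
  · have h1 : (fun j => if j = i₀ then (1 : ℂ) else 0) ∈ Submodule.span ℂ (Set.range A.row) := by
      rw [hspA]
      by_contra hne
      obtain ⟨f, hf, hle⟩ := Submodule.exists_le_ker_of_notMem hne
      have hfx : ∀ x : Fin n → ℂ, f x = ∑ j, x j * f (fun j' => if j = j' then 1 else 0) := by
        intro x
        rw [LinearMap.pi_apply_eq_sum_univ]
        rfl
      have h2 := h (fun j => f (fun j' => if j = j' then 1 else 0)) (fun m => by
        have h3 : f (J.row m) = 0 := hle (Submodule.subset_span ⟨m, rfl⟩)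
        rw [hfx] at h3
        exact h3)
      apply hf
      rw [hfx]
      simp [h2]
    exact cpol_cramer A c _ h1 j

end linalg

section point

variable {k : Subfield ℂ} {σ : Type} [Fintype σ] (p v : σ → ℂ)

/-- the homomorphism into the dual numbers -/
noncomputable def cpolPsi : MvPolynomial σ k →+* TrivSqZeroExt ℂ ℂ :=
  eval₂Hom ((TrivSqZeroExt.inlHom ℂ ℂ).comp (algebraMap k ℂ))
    (fun i => TrivSqZeroExt.inl (p i) + TrivSqZeroExt.inr (v i))

omit [Fintype σ] in
lemma cpolPsi_C (c : k) : cpolPsi p v (C c) = TrivSqZeroExt.inl (c : ℂ) := by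
  unfold cpolPsi
  rw [coe_eval₂Hom, eval₂_C]
  rfl

omit [Fintype σ] in
lemma cpolPsi_X (i : σ) : cpolPsi (k := k) p v (MvPolynomial.X i) =
    TrivSqZeroExt.inl (p i) + TrivSqZeroExt.inr (v i) := by
  unfold cpolPsi
  rw [coe_eval₂Hom, eval₂_X]

omit [Fintype σ] in
lemma cpolPsi_fst (f : MvPolynomial σ k) : (cpolPsi p v f).fst = aeval p f := by
  induction f using MvPolynomial.induction_on with
  | C c =>
    rw [cpolPsi_C, TrivSqZeroExt.fst_inl, aeval_C]
    rfl
  | add f g hf hg => rw [map_add, TrivSqZeroExt.fst_add, hf, hg, map_add]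
  | mul_X f i hf =>
    rw [map_mul, TrivSqZeroExt.fst_mul, hf, cpolPsi_X, map_mul, aeval_X]
    simp

lemma cpolPsi_snd (f : MvPolynomial σ k) :
    (cpolPsi p v f).snd = ∑ i, v i * aeval p (pderiv i f) := by
  classical
  induction f using MvPolynomial.induction_on with
  | C c =>
    rw [cpolPsi_C, TrivSqZeroExt.snd_inl]
    simp
  | add f g hf hg =>
    rw [map_add, TrivSqZeroExt.snd_add, hf, hg, ← Finset.sum_add_distrib]
    refine Finset.sum_congr rfl fun i _ => ?_
    rw [map_add, map_add]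
    ring
  | mul_X f i hf =>
    rw [map_mul, TrivSqZeroExt.snd_mul, hf, cpolPsi_fst, cpolPsi_X]
    have h1 : ∀ j, v j * aeval p (pderiv j (f * MvPolynomial.X i)) =
        v j * aeval p (pderiv j f) * p i + (if j = i then v i * aeval p f else 0) := by
      intro j
      rw [pderiv_mul, map_add, map_mul, map_mul, aeval_X, pderiv_X]
      by_cases hj : j = i
      · subst hj
        rw [Pi.single_eq_same, map_one, if_pos rfl]
        ring
      · rw [Pi.single_eq_of_ne' hj, map_zero, if_neg hj]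
        ring
    rw [Finset.sum_congr rfl fun j _ => h1 j, Finset.sum_add_distrib, Finset.sum_ite_eq' ,
      if_pos (Finset.mem_univ i), ← Finset.sum_mul]
    simp
    ring

/-- A homomorphism into the dual numbers gives a derivation of a subfield. -/
theorem cpol_frac {A : Type} [CommRing A] [IsDomain A] (g : A →+* TrivSqZeroExt ℂ ℂ)
    (hg : ∀ a, (g a).fst = 0 → a = 0) :
    ∃ (F : Subfield ℂ) (δ : Derivation ℤ F ℂ), ∀ (a : A) (z : ℂ), (g a).fst = z →
      ∃ hz : z ∈ F, δ ⟨z, hz⟩ = (g a).snd := by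
  have hunit : ∀ y : nonZeroDivisors A, IsUnit (g y) := by
    rintro ⟨y, hy⟩
    rw [TrivSqZeroExt.isUnit_iff_isUnit_fst, isUnit_iff_ne_zero]
    intro h0
    exact nonZeroDivisors.ne_zero hy (hg y h0)
  let G : FractionRing A →+* TrivSqZeroExt ℂ ℂ := IsLocalization.lift hunit
  have hG : ∀ a, G (algebraMap A (FractionRing A) a) = g a := fun a =>
    IsLocalization.lift_eq hunit a
  let ι : FractionRing A →+* ℂ := (TrivSqZeroExt.fstHom ℂ ℂ ℂ : TrivSqZeroExt ℂ ℂ →+* ℂ).comp G
  let e : FractionRing A ≃+* ι.fieldRange := ι.rangeRestrictFieldEquiv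
  have he : ∀ x, ((e x : ι.fieldRange) : ℂ) = (G x).fst := fun _ => rfl
  have he' : ∀ c : ι.fieldRange, (G (e.symm c)).fst = c := by
    intro c
    rw [← he, RingEquiv.apply_symm_apply]
  let δ : Derivation ℤ ι.fieldRange ℂ := Derivation.mk' (AddMonoidHom.toIntLinearMap
    { toFun := fun c => (G (e.symm c)).snd
      map_zero' := by simp
      map_add' := by intro a b; simp }) (by
    intro a b
    change (G (e.symm (a * b))).snd = a • (G (e.symm b)).snd + b • (G (e.symm a)).snd
    rw [map_mul, map_mul, TrivSqZeroExt.snd_mul, he', he']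
    simp [Subfield.smul_def, mul_comm])
  refine ⟨ι.fieldRange, δ, fun a z hz => ?_⟩
  have hmem : z ∈ ι.fieldRange := by
    refine ⟨algebraMap A _ a, ?_⟩
    change (G (algebraMap A _ a)).fst = z
    rw [hG, hz]
  refine ⟨hmem, ?_⟩
  change (G (e.symm ⟨z, hmem⟩)).snd = _
  have h1 : e (algebraMap A _ a) = ⟨z, hmem⟩ := by
    apply Subtype.ext
    rw [he, hG, hz]
  rw [← h1, RingEquiv.symm_apply_apply, hG]

theorem cpol_quot {R : Type} [CommRing R] (P : Ideal R) [P.IsPrime]
    (ψ : R →+* TrivSqZeroExt ℂ ℂ) (h0 : ∀ f ∈ P, ψ f = 0) (h1 : ∀ f, (ψ f).fst = 0 → f ∈ P) :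
    ∃ (F : Subfield ℂ) (δ : Derivation ℤ F ℂ), ∀ (f : R) (z : ℂ), (ψ f).fst = z →
      ∃ hz : z ∈ F, δ ⟨z, hz⟩ = (ψ f).snd := by
  obtain ⟨F, δ, hδ⟩ := cpol_frac (A := R ⧸ P) (Ideal.Quotient.lift P ψ h0) (by
    intro y hy
    obtain ⟨f, rfl⟩ := Ideal.Quotient.mk_surjective y
    rw [Ideal.Quotient.lift_mk] at hy
    exact Ideal.Quotient.eq_zero_iff_mem.2 (h1 f hy))
  refine ⟨F, δ, fun f z hz => ?_⟩
  have := hδ (Ideal.Quotient.mk P f) z (by rw [Ideal.Quotient.lift_mk, hz])
  rwa [Ideal.Quotient.lift_mk] at this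

/-- There is a derivation with prescribed values at a point if the values satisfy the
differentiated equations of the point. -/
theorem cpol_exists_der
    (h : ∀ f : MvPolynomial σ k, aeval p f = 0 → ∑ i, v i * aeval p (pderiv i f) = 0) :
    ∃ D ∈ DerOver (k : Set ℂ), ∀ i, D (p i) = v i := by
  have hψ : ∀ f ∈ RingHom.ker (aeval p : MvPolynomial σ k →ₐ[k] ℂ), cpolPsi p v f = 0 := by
    intro f hf
    have hf' : aeval p f = 0 := hf
    apply TrivSqZeroExt.ext
    · rw [cpolPsi_fst, hf']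
      rfl
    · rw [cpolPsi_snd, h f hf']
      rfl
  have hP : (RingHom.ker (aeval p : MvPolynomial σ k →ₐ[k] ℂ)).IsPrime := RingHom.ker_isPrime _
  obtain ⟨F, δ, key⟩ := cpol_quot (RingHom.ker (aeval p : MvPolynomial σ k →ₐ[k] ℂ))
    (cpolPsi p v) hψ (fun f hf => by rwa [cpolPsi_fst] at hf)
  obtain ⟨D, hD, -⟩ := exists_der F δ (fun i : Fin 0 => (i.elim0 : ℂ))
    (algebraicIndependent_empty_type) (fun i => i.elim0)
  refine ⟨D, ?_, fun i => ?_⟩
  · intro c hc
    obtain ⟨h1, h2⟩ := key (C ⟨c, hc⟩) c (by rw [cpolPsi_C, TrivSqZeroExt.fst_inl])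
    have h3 := hD ⟨c, h1⟩
    rw [h2, cpolPsi_C, TrivSqZeroExt.snd_inl] at h3
    exact h3
  · obtain ⟨h1, h2⟩ := key (MvPolynomial.X i) (p i) (by rw [cpolPsi_X]; simp)
    have h3 := hD ⟨p i, h1⟩
    rw [h2, cpolPsi_X] at h3
    simpa using h3

end point

/-- The total derivative. -/
noncomputable def tot {k : Type*} [Field k] {n : ℕ} (j : Fin n)
    (f : MvPolynomial (Fin n ⊕ Fin n) k) : MvPolynomial (Fin n ⊕ Fin n) k :=
  pderiv (Sum.inl j) f + MvPolynomial.X (Sum.inr j) * pderiv (Sum.inr j) f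

/-- The point `(s, exp s)`. -/
noncomputable def epoint {n : ℕ} (s : Fin n → ℂ) : Fin n ⊕ Fin n → ℂ :=
  Sum.elim s (fun j => Complex.exp (s j))

/-- The data attached to a certificate. -/
def IsData {k : Subfield ℂ} {n : ℕ} (i₀ : Fin n) {M : ℕ}
    (f : Fin M → MvPolynomial (Fin n ⊕ Fin n) k) (h : MvPolynomial (Fin n ⊕ Fin n) k) : Prop :=
  ∃ (r : ℕ) (I : Fin r → Fin M) (c : Fin r → Fin n)
    (q : Fin M → Fin r → MvPolynomial (Fin n ⊕ Fin n) k)
    (B : Fin M → Fin M → Fin n → MvPolynomial (Fin n ⊕ Fin n) k)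
    (q₀ : Fin r → MvPolynomial (Fin n ⊕ Fin n) k)
    (B₀ : Fin M → Fin n → MvPolynomial (Fin n ⊕ Fin n) k),
    h = (Matrix.of fun i l : Fin r => tot (c l) (f (I i))).det ∧
    (∀ m j, h * tot j (f m) = ∑ i, q m i * tot j (f (I i)) + ∑ m', f m' * B m m' j) ∧
    ∀ j, h * (if j = i₀ then 1 else 0) = ∑ i, q₀ i * tot j (f (I i)) + ∑ m', f m' * B₀ m' j

lemma cpol_span {k : Subfield ℂ} {n M : ℕ} (p v : Fin n ⊕ Fin n → ℂ)
    (f : Fin M → MvPolynomial (Fin n ⊕ Fin n) k) (hf : ∀ m, aeval p (f m) = 0)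
    (h : ∀ m, ∑ i, v i * aeval p (pderiv i (f m)) = 0) (g : MvPolynomial (Fin n ⊕ Fin n) k)
    (hg : g ∈ Submodule.span (MvPolynomial (Fin n ⊕ Fin n) k) (Set.range f)) :
    ∑ i, v i * aeval p (pderiv i g) = 0 := by
  obtain ⟨c, rfl⟩ := (Submodule.mem_span_range_iff_exists_fun _).1 hg
  have h1 : ∀ i, v i * aeval p (pderiv i (∑ m, c m • f m)) =
      ∑ m, aeval p (c m) * (v i * aeval p (pderiv i (f m))) := by
    intro i
    rw [map_sum, map_sum, Finset.mul_sum]
    refine Finset.sum_congr rfl fun m _ => ?_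
    rw [smul_eq_mul, pderiv_mul, map_add, map_mul, map_mul, hf m]
    ring
  rw [Finset.sum_congr rfl fun i _ => h1 i, Finset.sum_comm]
  refine Finset.sum_eq_zero fun m _ => ?_
  rw [← Finset.mul_sum, h m, mul_zero]

theorem exists_data (k : Subfield ℂ) {n : ℕ} (a : Fin n → ℂ) (i₀ : Fin n)
    (hcert : ∀ D ∈ DerOver (k : Set ℂ),
      (∀ i, D (Complex.exp (a i)) = Complex.exp (a i) * D (a i)) → D (a i₀) = 0) :
    ∃ (M : ℕ) (f : Fin M → MvPolynomial (Fin n ⊕ Fin n) k)
      (h : MvPolynomial (Fin n ⊕ Fin n) k), IsData i₀ f h ∧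
      (∀ m, aeval (epoint a) (f m) = 0) ∧ aeval (epoint a) h ≠ 0 := by
  classical
  set p := epoint a with hp
  obtain ⟨M, f, hspan⟩ := Submodule.fg_iff_exists_fin_generating_family.1
    (IsNoetherian.noetherian (RingHom.ker (aeval p : MvPolynomial (Fin n ⊕ Fin n) k →ₐ[k] ℂ)))
  have hmem : ∀ g : MvPolynomial (Fin n ⊕ Fin n) k, aeval p g = 0 ↔
      g ∈ Submodule.span (MvPolynomial (Fin n ⊕ Fin n) k) (Set.range f) := by
    intro g
    rw [hspan]
    rfl
  have hf : ∀ m, aeval p (f m) = 0 := fun m => (hmem _).2 (Submodule.subset_span ⟨m, rfl⟩)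
  let J : Matrix (Fin M) (Fin n) ℂ := Matrix.of fun m j => aeval p (tot j (f m))
  have hker : ∀ s : Fin n → ℂ, (∀ m, ∑ j, J m j * s j = 0) → s i₀ = 0 := by
    intro s hs
    obtain ⟨D, hD, hDv⟩ := cpol_exists_der (k := k) p (Sum.elim s fun j => Complex.exp (a j) * s j)
      (fun g hg => cpol_span p _ f hf (fun m => by
        rw [← hs m, Fintype.sum_sum_type, ← Finset.sum_add_distrib]
        refine Finset.sum_congr rfl fun j _ => ?_
        change _ = aeval p (tot j (f m)) * s j
        unfold tot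
        rw [map_add, map_mul, aeval_X]
        simp only [Sum.elim_inl, Sum.elim_inr, hp, epoint]
        ring) g ((hmem g).1 hg))
    have h1 : ∀ j, D (a j) = s j := fun j => hDv (Sum.inl j)
    have h2 : ∀ j, D (Complex.exp (a j)) = Complex.exp (a j) * s j := fun j => hDv (Sum.inr j)
    rw [← h1]
    exact hcert D hD (fun i => by rw [h1, h2])
  obtain ⟨r, I, c, hdet, hrow, hi0⟩ := cpol_minor J i₀ hker
  let N : Matrix (Fin r) (Fin r) (MvPolynomial (Fin n ⊕ Fin n) k) :=
    Matrix.of fun i l => tot (c l) (f (I i))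
  have hN : (aeval p : MvPolynomial (Fin n ⊕ Fin n) k →ₐ[k] ℂ).toRingHom.mapMatrix N =
      J.submatrix I c := rfl
  have hNdet : aeval p N.det = (J.submatrix I c).det := by
    rw [← hN, ← RingHom.map_det]
    rfl
  have hNadj : ∀ l i, aeval p (N.adjugate l i) = (J.submatrix I c).adjugate l i := by
    intro l i
    rw [← hN, ← RingHom.map_adjugate]
    rfl
  let q : Fin M → Fin r → MvPolynomial (Fin n ⊕ Fin n) k :=
    fun m i => ∑ l, tot (c l) (f m) * N.adjugate l i
  let q₀ : Fin r → MvPolynomial (Fin n ⊕ Fin n) k :=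
    fun i => ∑ l, (if c l = i₀ then 1 else 0) * N.adjugate l i
  have hB : ∀ m j, ∃ B : Fin M → MvPolynomial (Fin n ⊕ Fin n) k,
      N.det * tot j (f m) = ∑ i, q m i * tot j (f (I i)) + ∑ m', f m' * B m' := by
    intro m j
    have h1 : aeval p (N.det * tot j (f m) - ∑ i, q m i * tot j (f (I i))) = 0 := by
      rw [map_sub, map_mul, hNdet, map_sum, sub_eq_zero]
      refine (hrow m j).trans (Finset.sum_congr rfl fun i _ => ?_)
      rw [map_mul, map_sum]
      congr 1
      refine Finset.sum_congr rfl fun l _ => ?_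
      rw [map_mul, hNadj]
      rfl
    obtain ⟨B, hB⟩ := (Submodule.mem_span_range_iff_exists_fun _).1 ((hmem _).1 h1)
    refine ⟨B, ?_⟩
    rw [← sub_eq_iff_eq_add', ← hB]
    refine Finset.sum_congr rfl fun i _ => ?_
    rw [smul_eq_mul, mul_comm]
  have hB0 : ∀ j, ∃ B : Fin M → MvPolynomial (Fin n ⊕ Fin n) k,
      N.det * (if j = i₀ then 1 else 0) = ∑ i, q₀ i * tot j (f (I i)) + ∑ m', f m' * B m' := by
    intro j
    have h1 : aeval p (N.det * (if j = i₀ then 1 else 0) - ∑ i, q₀ i * tot j (f (I i))) = 0 := by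
      rw [map_sub, map_mul, hNdet, map_sum, sub_eq_zero]
      have h2 : aeval p (if j = i₀ then (1 : MvPolynomial (Fin n ⊕ Fin n) k) else 0) =
          if j = i₀ then 1 else 0 := by
        split_ifs
        · rw [map_one]
        · rw [map_zero]
      rw [h2]
      refine (hi0 j).trans (Finset.sum_congr rfl fun i _ => ?_)
      rw [map_mul, map_sum]
      congr 1
      refine Finset.sum_congr rfl fun l _ => ?_
      rw [map_mul, hNadj]
      congr 1
      split_ifs
      · rw [map_one]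
      · rw [map_zero]
    obtain ⟨B, hB⟩ := (Submodule.mem_span_range_iff_exists_fun _).1 ((hmem _).1 h1)
    refine ⟨B, ?_⟩
    rw [← sub_eq_iff_eq_add', ← hB]
    refine Finset.sum_congr rfl fun i _ => ?_
    rw [smul_eq_mul, mul_comm]
  choose B hB using hB
  choose B₀ hB₀ using hB0
  refine ⟨M, f, N.det, ⟨r, I, c, q, fun m m' j => B m j m', q₀, fun m' j => B₀ j m', rfl, hB, hB₀⟩,
    hf, ?_⟩
  rw [hNdet]
  exact hdet

end Pool.Agent.EXL
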