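import Pool.Agent.EXL.Rk

/-!
# EXL / Clb: basic properties of the closure operator and of `ex`
-/

set_option autoImplicit false

namespace Pool.Agent.EXL

open Complex

lemma subset_cl (A : Set ℂ) : A ⊆ cl A := fun _ hx _ hD => hD.2 _ hx

lemma cl_mono {A B : Set ℂ} (h : A ⊆ B) : cl A ≤ cl B :=
  consts_anti (inf_le_inf_left _ (derOver_anti h))

lemma inf_derOver_cl (A : Set ℂ) : EDer ⊓ DerOver (cl A : Set ℂ) = EDer ⊓ DerOver A := by
  apply le_antisymm (inf_le_inf_left _ (derOver_anti (subset_cl A)))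
  intro D hD
  exact ⟨hD.1, fun x hx => hx D hD⟩

lemma cl_cl (A : Set ℂ) : cl (cl A : Set ℂ) = cl A := by
  unfold cl
  rw [show consts (EDer ⊓ DerOver A) = cl A from rfl, inf_derOver_cl]
  rfl

lemma closed_cl (φ : AddChar ℚ ℂ) (A : Set ℂ) (h : ∀ q, φ q ∈ A) : Closed (cl A) φ :=
  ⟨(cl_cl A).le, fun q => subset_cl A (h q)⟩

variable {K : Subfield ℂ} {φ : AddChar ℚ ℂ}

lemma Closed.consts_eq (hK : Closed K φ) : consts (EDer ⊓ DerOver (K : Set ℂ)) = K :=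
  le_antisymm hK.1 (subset_cl (K : Set ℂ))

lemma Closed.isAlgClosed (hK : Closed K φ) : IsAlgClosed K := by
  have := consts_isAlgClosed (EDer ⊓ DerOver (K : Set ℂ))
  rwa [hK.consts_eq] at this

lemma Closed.mem_iff (hK : Closed K φ) (x : ℂ) :
    x ∈ K ↔ ∀ D ∈ EDer ⊓ DerOver (K : Set ℂ), D x = 0 := by
  conv_lhs => rw [← hK.consts_eq]
  rfl

lemma Closed.exp_mem (hK : Closed K φ) {a : ℂ} (ha : a ∈ K) : exp a ∈ K := by
  rw [hK.mem_iff]
  intro D hD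
  rw [hD.1 a, hD.2 a ha, mul_zero]

lemma Closed.mem_of_exp_mem (hK : Closed K φ) {a : ℂ} (ha : exp a ∈ K) : a ∈ K := by
  rw [hK.mem_iff]
  intro D hD
  have h1 := hD.1 a
  rw [hD.2 _ ha] at h1
  exact (mul_eq_zero.1 h1.symm).resolve_left (exp_ne_zero a)

lemma phi_ne_zero (φ : AddChar ℚ ℂ) (q : ℚ) : φ q ≠ 0 := by
  intro h
  have h1 : φ (q + -q) = φ q * φ (-q) := AddChar.map_add_eq_mul φ q (-q)
  rw [add_neg_cancel, AddChar.map_zero_eq_one, h, zero_mul] at h1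
  exact one_ne_zero h1

lemma ex_ne_zero (φ : AddChar ℚ ℂ) (x : X) : ex φ x ≠ 0 :=
  mul_ne_zero (exp_ne_zero _) (phi_ne_zero φ _)

lemma ex_add (φ : AddChar ℚ ℂ) (x y : X) : ex φ (x + y) = ex φ x * ex φ y := by
  unfold ex
  rw [Prod.fst_add, Prod.snd_add, exp_add, AddChar.map_add_eq_mul]
  ring

lemma ex_zero (φ : AddChar ℚ ℂ) : ex φ 0 = 1 := by
  unfold ex
  rw [Prod.fst_zero, Prod.snd_zero, exp_zero, AddChar.map_zero_eq_one, one_mul]

lemma ex_nsmul (φ : AddChar ℚ ℂ) (n : ℕ) (x : X) : ex φ (n • x) = ex φ x ^ n := by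
  induction n with
  | zero => rw [zero_nsmul, pow_zero, ex_zero]
  | succ n ih => rw [succ_nsmul, ex_add, ih, pow_succ]

lemma ex_inv_pow (φ : AddChar ℚ ℂ) {N : ℕ} (hN : 0 < N) (x : X) :
    ex φ ((N : ℚ)⁻¹ • x) ^ N = ex φ x := by
  rw [← ex_nsmul]
  congr 1
  rw [← Nat.cast_smul_eq_nsmul ℚ, smul_smul, mul_inv_cancel₀ (Nat.cast_ne_zero.2 hN.ne'), one_smul]

/-- `ex` of a rational combination. -/
lemma ex_sum {ι : Type*} [Fintype ι] (φ : AddChar ℚ ℂ) (w : ι → X) :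
    ex φ (∑ j, w j) = ∏ j, ex φ (w j) := by
  classical
  induction (Finset.univ : Finset ι) using Finset.induction_on with
  | empty => rw [Finset.sum_empty, Finset.prod_empty, ex_zero]
  | insert a s ha ih => rw [Finset.sum_insert ha, Finset.prod_insert ha, ex_add, ih]

lemma der_ex (hφ : ∀ q, φ q ∈ K) {D : Derivation ℤ ℂ ℂ} (hD : D ∈ EDer ⊓ DerOver (K : Set ℂ))
    (x : X) : D (ex φ x) = ex φ x * D x.1 := by
  unfold ex
  rw [Derivation.leibniz, hD.1, hD.2 _ (hφ x.2), smul_zero, zero_add, smul_eq_mul]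
  ring

lemma Closed.ex_mem_iff (hK : Closed K φ) (x : X) : ex φ x ∈ K ↔ x.1 ∈ K := by
  constructor
  · intro h
    apply hK.mem_of_exp_mem
    have h1 : exp x.1 = ex φ x / φ x.2 := by
      unfold ex
      rw [mul_div_assoc, div_self (phi_ne_zero φ _), mul_one]
    rw [h1]
    exact div_mem h (hK.2 _)
  · intro h
    exact mul_mem (hK.exp_mem h) (hK.2 _)

lemma Closed.root_mem (hK : Closed K φ) {n : ℕ} (hn : 0 < n) {ζ : ℂ} (hζ : ζ ^ n = 1) :
    ζ ∈ K := by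
  rw [← hK.consts_eq]
  refine consts_algebraic _ _ ⟨Polynomial.X ^ n - 1, ?_, ?_⟩
  · exact Polynomial.X_pow_sub_C_ne_zero hn 1
  · simp [hζ]

end Pool.Agent.EXL
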