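import Pool.Agent.EXL.Cana
import Pool.Agent.EXL.Cpol
import Pool.Agent.EXL.Clb

/-!
# EXL / Cnt: the closure of a countable set is countable

PROOF of `countable_data`.  `countable_image` for `g m s = aeval (epoint s) (f m)`,
`H s = aeval (epoint s) h`; the partial derivatives are `aeval (epoint s) (tot j (f m))`
(`pd_aeval`).
PROOF of `countable_cl`.  Let `k = Subfield.closure A` (countable; `cl A = cl k`,
`derOver_closure`). For `z ∈ cl A` take `a` from `cl_cert`, add `z` to it as a member `a i₀`, and
apply `exists_data`: `z` is in the set `countable_data` of `(n, i₀, M, f, h)`. There are only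
countably many `(n, i₀, M, f, h)` because `MvPolynomial (Fin n ⊕ Fin n) k` is countable.
-/

set_option autoImplicit false

namespace Pool.Agent.EXL

open MvPolynomial

section tot

variable {k : Type*} [Field k] {n : ℕ}

private lemma tot_C (j : Fin n) (x : k) : tot j (C x : MvPolynomial (Fin n ⊕ Fin n) k) = 0 := by
  simp [tot]

private lemma tot_add (j : Fin n) (p q : MvPolynomial (Fin n ⊕ Fin n) k) :
    tot j (p + q) = tot j p + tot j q := by
  simp only [tot, map_add]
  ring

private lemma tot_mul (j : Fin n) (p q : MvPolynomial (Fin n ⊕ Fin n) k) :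
    tot j (p * q) = tot j p * q + p * tot j q := by
  simp only [tot, Derivation.leibniz, smul_eq_mul]
  ring

private lemma tot_inl (j i : Fin n) :
    tot j (MvPolynomial.X (Sum.inl i) : MvPolynomial (Fin n ⊕ Fin n) k) = if i = j then 1 else 0 := by
  classical
  simp only [tot, pderiv_X, Pi.single_apply]
  simp [eq_comm]

private lemma tot_inr (j i : Fin n) :
    tot j (MvPolynomial.X (Sum.inr i) : MvPolynomial (Fin n ⊕ Fin n) k) =
      if i = j then MvPolynomial.X (Sum.inr i) else 0 := by
  classical
  simp only [tot, pderiv_X, Pi.single_apply]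
  by_cases h : i = j
  · subst h
    simp
  · have h' : ¬ j = i := fun e => h e.symm
    simp [Ne.symm h']

end tot

/-- A linear form. -/
private noncomputable def lf {n : ℕ} (a : Fin n → ℂ) : (Fin n → ℂ) →L[ℂ] ℂ :=
  ∑ j, a j • (ContinuousLinearMap.proj j : (Fin n → ℂ) →L[ℂ] ℂ)

private lemma lf_apply {n : ℕ} (a v : Fin n → ℂ) : lf a v = ∑ j, a j * v j := by
  simp [lf]

/-- The derivative of an exponential polynomial. -/
private lemma hasFDeriv_aeval {k : Subfield ℂ} {n : ℕ} (f : MvPolynomial (Fin n ⊕ Fin n) k)
    (s : Fin n → ℂ) : HasFDerivAt (fun s : Fin n → ℂ => aeval (epoint s) f)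
      (lf fun j => aeval (epoint s) (tot j f)) s := by
  induction f using MvPolynomial.induction_on with
  | C x =>
    have h1 : (lf fun j => aeval (epoint s) (tot j (C x : MvPolynomial (Fin n ⊕ Fin n) k)))
        = 0 := by
      ext v
      rw [lf_apply]
      simp [tot_C]
    rw [h1]
    simp only [aeval_C]
    exact hasFDerivAt_const _ _
  | add p q hp hq =>
    simp only [map_add]
    refine HasFDerivAt.congr_fderiv (hp.add hq) ?_
    ext v
    rw [add_apply, lf_apply, lf_apply, lf_apply, ← Finset.sum_add_distrib]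
    refine Finset.sum_congr rfl fun j _ => ?_
    rw [tot_add, map_add, add_mul]
  | mul_X p i hp =>
    -- the variable
    have hX : HasFDerivAt (fun s : Fin n → ℂ => aeval (epoint s)
        (MvPolynomial.X i : MvPolynomial (Fin n ⊕ Fin n) k))
        (lf fun j => aeval (epoint s)
          (tot j (MvPolynomial.X i : MvPolynomial (Fin n ⊕ Fin n) k))) s := by
      simp only [aeval_X]
      rcases i with i | i
      · have h1 : (lf fun j => aeval (epoint s) (tot j (MvPolynomial.X (Sum.inl i) :
            MvPolynomial (Fin n ⊕ Fin n) k))) = ContinuousLinearMap.proj i := by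
          ext v
          rw [lf_apply, Finset.sum_eq_single i]
          · rw [tot_inl, if_pos rfl, map_one, one_mul]
            rfl
          · intro j _ hj
            rw [tot_inl, if_neg (Ne.symm hj), map_zero, zero_mul]
          · intro h
            exact absurd (Finset.mem_univ i) h
        rw [h1]
        exact hasFDerivAt_apply i s
      · refine HasFDerivAt.congr_fderiv
          (hasFDerivAt_apply (𝕜 := ℂ) (F' := fun _ : Fin n => ℂ) i s).cexp ?_
        ext v
        rw [lf_apply, Finset.sum_eq_single i]
        · rw [tot_inr, if_pos rfl, aeval_X]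
          rfl
        · intro j _ hj
          rw [tot_inr, if_neg (Ne.symm hj), map_zero, zero_mul]
        · intro h
          exact absurd (Finset.mem_univ i) h
    simp only [map_mul]
    refine HasFDerivAt.congr_fderiv (hp.mul hX) ?_
    ext v
    rw [add_apply, smul_apply, smul_apply, lf_apply, lf_apply, lf_apply, smul_eq_mul,
      smul_eq_mul, Finset.mul_sum, Finset.mul_sum, ← Finset.sum_add_distrib]
    refine Finset.sum_congr rfl fun j _ => ?_
    rw [tot_mul, map_add, map_mul, map_mul]
    ring

theorem pd_aeval {k : Subfield ℂ} {n : ℕ} (f : MvPolynomial (Fin n ⊕ Fin n) k) (j : Fin n)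
    (s : Fin n → ℂ) : pd j (fun s => aeval (epoint s) f) s = aeval (epoint s) (tot j f) := by
  unfold pd
  rw [(hasFDeriv_aeval f s).fderiv, lf_apply, Finset.sum_eq_single j]
  · rw [Pi.single_eq_same, mul_one]
  · intro i _ hi
    rw [Pi.single_eq_of_ne hi, mul_zero]
  · intro h
    exact absurd (Finset.mem_univ j) h

theorem contDiff_aeval {k : Subfield ℂ} {n : ℕ} (f : MvPolynomial (Fin n ⊕ Fin n) k) :
    ContDiff ℂ 1 (fun s : Fin n → ℂ => aeval (epoint s) f) := by
  induction f using MvPolynomial.induction_on with
  | C x =>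
    simp only [aeval_C]
    exact contDiff_const
  | add p q hp hq =>
    simp only [map_add]
    exact hp.add hq
  | mul_X p i hp =>
    simp only [map_mul, aeval_X]
    refine hp.mul ?_
    rcases i with i | i
    · exact contDiff_apply ℂ ℂ i
    · exact (contDiff_apply ℂ ℂ i).cexp

theorem countable_data {k : Subfield ℂ} {n : ℕ} (i₀ : Fin n) {M : ℕ}
    (f : Fin M → MvPolynomial (Fin n ⊕ Fin n) k) (h : MvPolynomial (Fin n ⊕ Fin n) k)
    (hd : IsData i₀ f h) :
    ((fun s : Fin n → ℂ => s i₀) ''
      {s | (∀ m, aeval (epoint s) (f m) = 0) ∧ aeval (epoint s) h ≠ 0}).Countable := by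
  obtain ⟨r, I, c, q, B, q₀, B₀, hdet, h1, h2⟩ := hd
  refine countable_image (fun m s => aeval (epoint s) (f m)) (fun m => contDiff_aeval (f m)) I
    (fun s => aeval (epoint s) h) (contDiff_aeval h).continuous i₀ ?_
    (fun m i s => aeval (epoint s) (q m i)) (fun m i => (contDiff_aeval _).continuous)
    (fun m m' j s => aeval (epoint s) (B m m' j)) (fun m m' j => (contDiff_aeval _).continuous)
    ?_ (fun i s => aeval (epoint s) (q₀ i)) (fun i => (contDiff_aeval _).continuous)
    (fun m' j s => aeval (epoint s) (B₀ m' j)) (fun m' j => (contDiff_aeval _).continuous) ?_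
  · intro s _ hs
    rw [hdet, AlgHom.map_det] at hs
    have h3 := Matrix.linearIndependent_rows_of_det_ne_zero hs
    refine LinearIndependent.of_comp (LinearMap.funLeft ℂ ℂ c) ?_
    have h4 : (LinearMap.funLeft ℂ ℂ c ∘ fun i : Fin r => fun j : Fin n =>
        pd j (fun s => aeval (epoint s) (f (I i))) s) =
        ((aeval (epoint s)).mapMatrix
          (Matrix.of fun i l : Fin r => tot (c l) (f (I i)))).row := by
      funext i l
      simp only [Function.comp_apply, LinearMap.funLeft_apply, pd_aeval]
      rfl
    rw [h4]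
    exact h3
  · intro m j s
    have h3 := congrArg (aeval (epoint s)) (h1 m j)
    simp only [map_mul, map_add, map_sum] at h3
    simp only [pd_aeval]
    exact h3
  · intro j s
    have h3 := congrArg (aeval (epoint s)) (h2 j)
    simp only [map_mul, map_add, map_sum] at h3
    simp only [pd_aeval]
    rw [← h3]
    split_ifs <;> simp

/-- The closure of a countable set is countable. -/
theorem countable_cl (A : Set ℂ) (hA : A.Countable) : (cl A : Set ℂ).Countable := by
  set k := Subfield.closure A with hk
  have hkc : Countable k := by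
    have h1 := Subfield.cardinalMk_closure_le_max A
    have h2 : Cardinal.mk A ≤ Cardinal.aleph0 := Cardinal.mk_le_aleph0_iff.2 hA.to_subtype
    exact Cardinal.mk_le_aleph0_iff.1 (h1.trans (max_le h2 le_rfl))
  have hpc : ∀ n : ℕ, Countable (MvPolynomial (Fin n ⊕ Fin n) k) := by
    intro n
    have h1 := MvPolynomial.cardinalMk_le_max (σ := Fin n ⊕ Fin n) (R := k)
    refine Cardinal.mk_le_aleph0_iff.1 (h1.trans (max_le (max_le ?_ ?_) le_rfl))
    · exact Cardinal.mk_le_aleph0_iff.2 hkc
    · exact Cardinal.mk_le_aleph0_iff.2 inferInstance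
  let Idx : Type := Σ n : ℕ, Σ M : ℕ, Fin n × (Fin M → MvPolynomial (Fin n ⊕ Fin n) k) ×
    MvPolynomial (Fin n ⊕ Fin n) k
  have hIdx : Countable Idx := by
    have h1 : ∀ n M : ℕ, Countable (Fin n × (Fin M → MvPolynomial (Fin n ⊕ Fin n) k) ×
        MvPolynomial (Fin n ⊕ Fin n) k) := by
      intro n M
      have := hpc n
      infer_instance
    exact inferInstance
  have hsub : (cl A : Set ℂ) ⊆ ⋃ x : {x : Idx // IsData x.2.2.1 x.2.2.2.1 x.2.2.2.2},
      ((fun s : Fin x.1.1 → ℂ => s x.1.2.2.1) ''
        {s | (∀ m, aeval (epoint s) (x.1.2.2.2.1 m) = 0) ∧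
          aeval (epoint s) x.1.2.2.2.2 ≠ 0}) := by
    intro z hz
    obtain ⟨n, a, ha⟩ := cl_cert A z hz
    obtain ⟨M, f, h, hd, h1, h2⟩ := exists_data k (n := n + 1) (Fin.cons z a) 0 (by
      intro D hD hrule
      rw [derOver_closure] at hD
      exact ha D hD fun i => hrule i.succ)
    rw [Set.mem_iUnion]
    refine ⟨⟨⟨n + 1, M, 0, f, h⟩, hd⟩, Fin.cons z a, ⟨h1, h2⟩, rfl⟩
  refine Set.Countable.mono hsub (Set.countable_iUnion fun x => ?_)
  exact countable_data _ _ _ x.2

end Pool.Agent.EXL
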