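import Mathlib

/-!
# EXL / Def: infinitary definability and back and forth
-/

set_option autoImplicit false

namespace Pool.Agent.EXL

/-- The subsets of `ℂ^n` which are definable with parameters from `A` by formulas of the infinitary
logic `L_{∞ω}` (arbitrary disjunctions and conjunctions, finite strings of quantifiers) in the
structure `(ℂ; +, ·, R)`, `R` a binary relation. -/
inductive Definable (R : ℂ → ℂ → Prop) (A : Set ℂ) : (n : ℕ) → Set (Fin n → ℂ) → Prop
  | const (n : ℕ) (i : Fin n) (a : ℂ) (ha : a ∈ A) : Definable R A n {v | v i = a}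
  | eq (n : ℕ) (i j : Fin n) : Definable R A n {v | v i = v j}
  | add (n : ℕ) (i j k : Fin n) : Definable R A n {v | v i + v j = v k}
  | mul (n : ℕ) (i j k : Fin n) : Definable R A n {v | v i * v j = v k}
  | rel (n : ℕ) (i j : Fin n) : Definable R A n {v | R (v i) (v j)}
  | compl (n : ℕ) (S : Set (Fin n → ℂ)) (hS : Definable R A n S) : Definable R A n Sᶜ
  | sUnion (n : ℕ) (T : Set (Set (Fin n → ℂ))) (hT : ∀ S ∈ T, Definable R A n S) :
      Definable R A n (⋃₀ T)
  | proj (n : ℕ) (S : Set (Fin (n + 1) → ℂ)) (hS : Definable R A (n + 1) S) :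
      Definable R A n {v | ∃ z, Fin.snoc v z ∈ S}

/-- The relation `y ∈ exp x * G`. -/
def ExpMod (G : Set ℂ) (x y : ℂ) : Prop := ∃ g ∈ G, y = Complex.exp x * g

/-- Back and forth (Karp). -/
theorem Definable.iff_of_bf {R : ℂ → ℂ → Prop} {A : Set ℂ}
    (P : (n : ℕ) → (Fin n → ℂ) → (Fin n → ℂ) → Prop)
    (hsymm : ∀ n v v', P n v v' → P n v' v)
    (hconst : ∀ n v v', P n v v' → ∀ i, ∀ a ∈ A, v i = a → v' i = a)
    (heq : ∀ n v v', P n v v' → ∀ i j, v i = v j → v' i = v' j)
    (hadd : ∀ n v v', P n v v' → ∀ i j k, v i + v j = v k → v' i + v' j = v' k)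
    (hmul : ∀ n v v', P n v v' → ∀ i j k, v i * v j = v k → v' i * v' j = v' k)
    (hrel : ∀ n v v', P n v v' → ∀ i j, R (v i) (v j) → R (v' i) (v' j))
    (hstep : ∀ n v v', P n v v' → ∀ z, ∃ z', P (n + 1) (Fin.snoc v z) (Fin.snoc v' z'))
    {n : ℕ} {S : Set (Fin n → ℂ)} (hS : Definable R A n S) :
    ∀ v v', P n v v' → (v ∈ S ↔ v' ∈ S) := by
  induction hS with
  | const n i a ha =>
    intro v v' h
    exact ⟨hconst n v v' h i a ha, hconst n v' v (hsymm n v v' h) i a ha⟩
  | eq n i j =>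
    intro v v' h
    exact ⟨heq n v v' h i j, heq n v' v (hsymm n v v' h) i j⟩
  | add n i j k =>
    intro v v' h
    exact ⟨hadd n v v' h i j k, hadd n v' v (hsymm n v v' h) i j k⟩
  | mul n i j k =>
    intro v v' h
    exact ⟨hmul n v v' h i j k, hmul n v' v (hsymm n v v' h) i j k⟩
  | rel n i j =>
    intro v v' h
    exact ⟨hrel n v v' h i j, hrel n v' v (hsymm n v v' h) i j⟩
  | compl n S hS ih =>
    intro v v' h
    exact not_congr (ih v v' h)
  | sUnion n T hT ih =>
    intro v v' h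
    constructor
    · rintro ⟨S, hS, hv⟩
      exact ⟨S, hS, (ih S hS v v' h).1 hv⟩
    · rintro ⟨S, hS, hv⟩
      exact ⟨S, hS, (ih S hS v v' h).2 hv⟩
  | proj n S hS ih =>
    intro v v' h
    constructor
    · rintro ⟨z, hz⟩
      obtain ⟨z', hz'⟩ := hstep n v v' h z
      exact ⟨z', (ih _ _ hz').1 hz⟩
    · rintro ⟨z, hz⟩
      obtain ⟨z', hz'⟩ := hstep n v' v (hsymm n v v' h) z
      exact ⟨z', (ih _ _ hz').1 hz⟩

end Pool.Agent.EXL
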