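import Pool.Agent.EXL.Extg

/-!
# EXL / Form: the fibres of good extensions

PROOF of `td_rel`.  `td_pt_sum` and the definition of `Good`.

PROOF of `form`.  Take `γ₁, γ₂` from `exists_split` (`Good (w, γ)` implies that `γ` is linearly
independent); `RelDer` is unchanged. `count` gives
`card γ₂ + rk Δ (γ₂).1 + td K' (pt γ₁) ≤ td K' (pt (γ₁, γ₂)) = td K' (pt γ) = card γ`
(`td_rel`; the last but one equality because the two families are rational transforms of each other:
`rk_eq_of_dep`, some integral powers of the exponentials of one family are products of integral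
powers of the others). By `ax_closed` for `(w, γ₁)` (`indep_sum`) and `rho_le_sum`:
`td K' (pt γ₁) = td K (pt (w, γ₁)) - td K (pt w) ≥ card γ₁ + rho (w, γ₁) - rho w ≥ card γ₁`.
So `rk Δ (γ₂).1 = 0`: every `D ∈ Δ` kills `(γ₂).1`, and `(γ₁).1`, so it kills all `u.1` for `u` in the
span, in particular `(γ j).1`.
-/

set_option autoImplicit false

namespace Pool.Agent.EXL

variable {K : Subfield ℂ} {φ : AddChar ℚ ℂ} {ι κ κ' : Type} [Fintype ι] [Fintype κ] [Fintype κ']

/-- The relative transcendence degree of a good extension without increase of rank. -/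
theorem td_rel (w : ι → X) (γ : κ → X) (hw : Good K φ w)
    (hwγ : Good K φ (Sum.elim w γ)) (hr : rho K (Sum.elim w γ) = rho K w) :
    td ((K : Set ℂ) ∪ Set.range (pt φ 1 w)) (pt φ 1 γ) = Fintype.card κ := by
  have h1 := td_pt_sum (K := K) (φ := φ) w γ
  rw [hwγ.2, hw.2, hr, Fintype.card_sum] at h1
  omega

private lemma form_rat (q : ℚ) (z : ℂ) : q • z = (q : ℂ) * z := by
  rw [Algebra.smul_def]
  rfl

private lemma form_bot (D : Derivation ℤ ℂ ℂ) (x : ℂ) (hx : x ∈ ((⊥ : Subfield ℂ) : Set ℂ)) :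
    D x = 0 := by
  have h : (⊥ : Subfield ℂ) ≤ consts (Submodule.span ℂ {D}) := bot_le
  exact h hx D (Submodule.mem_span_singleton_self D)

private lemma form_kill (γ : κ → X) (D : Derivation ℤ ℂ ℂ) (h : ∀ i, D (pt φ 1 γ i) = 0)
    (u : X) (hu : u ∈ Submodule.span ℚ (Set.range γ)) : D (ex φ u) = 0 ∧ D u.1 = 0 := by
  refine relDer_w (K := ⊥) γ (fun j : Fin 0 => j.elim0) ⟨?_, fun j => j.elim0⟩ u hu
  rintro x (hx | ⟨i, rfl⟩)
  · exact form_bot D x hx
  · exact h i

private lemma td_le_of_span (A : Set ℂ) (γ : κ → X) (γ' : κ' → X)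
    (h : Submodule.span ℚ (Set.range γ') ≤ Submodule.span ℚ (Set.range γ)) :
    td A (pt φ 1 γ') ≤ td A (pt φ 1 γ) := by
  refine rk_le_of_dep _ _ _ fun D _ hD i => ?_
  have h1 : ∀ j, γ' j ∈ Submodule.span ℚ (Set.range γ) := fun j =>
    h (Submodule.subset_span ⟨j, rfl⟩)
  rw [pt_one]
  rcases i with j | j
  · exact (form_kill γ D hD (γ' j) (h1 j)).2
  · exact (form_kill γ D hD (γ' j) (h1 j)).1

/-- The transcendence degree of the points depends only on the span. -/
theorem td_eq_of_span (A : Set ℂ) (γ : κ → X) (γ' : κ' → X)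
    (h : Submodule.span ℚ (Set.range γ) = Submodule.span ℚ (Set.range γ')) :
    td A (pt φ 1 γ) = td A (pt φ 1 γ') :=
  le_antisymm (td_le_of_span A γ' γ h.le) (td_le_of_span A γ γ' h.ge)

/-- The fibre of a good extension without increase of rank is etale over the exponential. -/
theorem form (hK : Closed K φ) (w : ι → X) (γ : κ → X) (hw : Good K φ w)
    (hwγ : Good K φ (Sum.elim w γ)) (hr : rho K (Sum.elim w γ) = rho K w)
    (D : Derivation ℤ ℂ ℂ) (hD : D ∈ RelDer K φ w γ) (j : κ) : D (γ j).1 = 0 := by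
  have hγ : LinearIndependent ℚ γ := by
    rw [Fintype.linearIndependent_iff]
    intro q hq l
    have h1 : ∑ i, ((Sum.elim (fun _ => 0) q i : ℚ) : ℂ) * (Sum.elim w γ i).1 ∈ K := by
      rw [Fintype.sum_sum_type]
      simp only [Sum.elim_inl, Sum.elim_inr, Rat.cast_zero, zero_mul, Finset.sum_const_zero,
        zero_add]
      have h2 := congrArg Prod.fst hq
      rw [Prod.fst_sum] at h2
      simp only [Prod.smul_fst, form_rat, Prod.fst_zero] at h2
      rw [h2]
      exact K.zero_mem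
    have h3 := congrFun (hwγ.1 _ h1) (Sum.inr l)
    exact h3
  obtain ⟨n₁, n₂, γ₁, γ₂, hn, hli, hspan, h₁, h₂, -⟩ := exists_split (K := K) (φ := φ) w γ hγ
  have hrel : RelDer K φ w (Sum.elim γ₁ γ₂) = RelDer K φ w γ := relDer_eq_of_span w _ _ hspan
  rw [← hrel] at h₁ h₂ hD
  have hcount := (count w γ₁ γ₂ h₁ h₂).1
  rw [td_eq_of_span _ (Sum.elim γ₁ γ₂) γ hspan, td_rel w γ hw hwγ hr] at hcount
  have hmem : ∀ i, γ₁ i ∈ Submodule.span ℚ (Set.range γ) := fun i => by
    rw [← hspan]
    exact Submodule.subset_span ⟨Sum.inl i, rfl⟩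
  have hli1 : LinearIndependent ℚ γ₁ := by
    have h1 := hli.comp Sum.inl Sum.inl_injective
    exact h1
  have hax := ax_closed hK (Sum.elim w γ₁) (indep_sum w γ γ₁ hwγ.1 hmem hli1)
  rw [td_pt_sum, hw.2, Fintype.card_sum] at hax
  have hrho := rho_le_sum (K := K) w γ₁
  simp only [Fintype.card_fin] at hax hcount
  have hrk : rk (RelDer K φ w (Sum.elim γ₁ γ₂)) (fun j => (γ₂ j).1) = 0 := by omega
  rw [rk_eq_zero_iff] at hrk
  have hk : ∀ i, D ((Sum.elim γ₁ γ₂ i).1) = 0 := by
    intro i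
    rcases i with i | i
    · exact h₁ i D hD
    · exact hrk D hD i
  have hmem' : γ j ∈ Submodule.span ℚ (Set.range (Sum.elim γ₁ γ₂)) := by
    rw [hspan]
    exact Submodule.subset_span ⟨j, rfl⟩
  have hall : ∀ u ∈ Submodule.span ℚ (Set.range (Sum.elim γ₁ γ₂)), D u.1 = 0 := by
    intro u hu
    induction hu using Submodule.span_induction with
    | mem x hx =>
      obtain ⟨i, rfl⟩ := hx
      exact hk i
    | zero => rw [Prod.fst_zero, map_zero]
    | add x y _ _ hx hy => rw [Prod.fst_add, map_add, hx, hy, add_zero]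
    | smul q x _ hx =>
      rw [Prod.smul_fst, form_rat, Derivation.leibniz, hx, smul_zero, zero_add,
        form_bot D (q : ℂ) (SubfieldClass.ratCast_mem _ q), smul_zero]
  exact hall _ hmem'

end Pool.Agent.EXL
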