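import Pool.Agent.EXL.Gen0

/-!
# EXL / Gen2: the case without relations

Notation: `p* = (a, b)` is a point of `F^{2r}`, `r = card ι`, `d = rho K w`, `C = consts Δ`, `F` is
regarded as an algebra over `K` through `c`; `ht : SameType` says that `p*` has the type of
`pt φ 1 w` over `K`, so `td_{cK} p* = td K (pt φ 1 w) = r + d` (`td_le_of_specialization`).

Case `s = 0` (`gen_case_zero`): by `ax` `td C p* ≥ r + rk Δ a ≥ r + d = td_{cK} p*`. Let `J ⊆ ι` be
maximal such that `1, (w j).1 (j ∈ J)` are linearly independent over `K`; for `j ∉ J`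
`(w j).1 = e_j + ∑_{l ∈ J} λ_{j,l} (w l).1` with `e_j, λ_{j,l} ∈ K`. These are polynomial relations
over `K` at `w`, so they hold at all `u_i`. Substitute them in the relation
`∑ μ_{i,j} (u_i j).1 = κ_i ∈ K`: `∑_{l ∈ J} ν_{i,l} (u_i l).1 = κ'_i ∈ K` with
`ν_{i,l} = μ_{i,l} + ∑_{j ∉ J} μ_{i,j} λ_{j,l} ∈ K`. If all `ν_{i,l} = 0` then
`∑ μ_{i,j} (w j).1 ∈ K` (same computation for `w`), contradicting `Indep K w`. So by
`Ultra.relation` (with `ν_{i,j} = 0` for `j ∉ J`) `1, a_l (l ∈ J)` are linearly dependent over `KK`.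
But they are linearly independent over `cK` (same type as `w`), hence over `C` by `linDisj` (for
`c K ≤ C`; `c K` is algebraically closed), a contradiction.

-/

set_option autoImplicit false

namespace Pool.Agent.EXL

open MvPolynomial

variable {K : Subfield ℂ} {φ : AddChar ℚ ℂ} {ι : Type} [Fintype ι]

/-- In the case without relations the constants are free from the point over `K`. -/
theorem gen_case_zero (hK : Closed K φ) (w : ι → X) (hw : Good K φ w) {F : Type} [Field F]
    [CharZero F] (c : ℂ →+* F) (a b : ι → F) (Δ : Submodule F (Derivation ℤ F F))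
    (hb : ∀ j, b j ≠ 0) (hrule : ∀ D ∈ Δ, ∀ j, D (b j) = b j * D (a j))
    (hKC : ∀ x ∈ K, c x ∈ consts Δ) (hrk : rho K w ≤ rk Δ a) (ht : SameType K φ w c a b)
    (hs : ∀ q : ι → ℤ, ∑ j, (q j : F) * a j ∈ consts Δ → q = 0)
    (J : Finset ι)
    (hJ : ∀ (e : ℂ) (l : ι → ℂ), e ∈ K → (∀ j, l j ∈ K) → (∀ j, j ∉ J → l j = 0) →
      e + ∑ j, l j * (w j).1 = 0 → l = 0)
    (κ : F) (ν : ι → F) (hκ : κ ∈ consts Δ) (hν : ∀ j, ν j ∈ consts Δ)
    (hνJ : ∀ j, j ∉ J → ν j = 0) (h : ∑ j, ν j * a j = κ) : ν = 0 := by
  classical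
  let f : K →+* F := c.comp (algebraMap K ℂ)
  let cK : Subfield F := f.fieldRange
  have hcK : ∀ x : K, f x ∈ cK := fun x => ⟨x, rfl⟩
  have hle : cK ≤ consts Δ := by
    rintro _ ⟨x, rfl⟩
    exact hKC x x.2
  have hKalg : IsAlgClosed K := hK.isAlgClosed
  have hcKalg : IsAlgClosed cK := IsAlgClosed.of_ringEquiv K cK
    (RingEquiv.ofBijective _ (RingHom.rangeRestrictField_bijective f))
  have halg : ∀ x ∈ consts Δ, IsAlgebraic cK x → x ∈ cK := by
    intro x _ hx
    have h1 := IsAlgClosed.degree_eq_one_of_irreducible cK (minpoly.irreducible hx.isIntegral)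
    obtain ⟨y, hy⟩ := minpoly.mem_range_of_degree_eq_one cK x h1
    rw [← hy]
    exact y.2
  have htd : td (cK : Set F) (Sum.elim a b) ≤ td (consts Δ : Set F) (Sum.elim a b) := by
    have h1 := ax Δ a b hb hrule hs
    let _ : Algebra K F := f.toAlgebra
    have h2 := td_le_of_specialization (k := K) (pt φ 1 w) (Sum.elim a b) (by
      intro g hg
      exact (ht g).2 hg)
    rw [range_algebraMap, hw.2] at h2
    have h3 : Set.range (algebraMap K F) = (cK : Set F) := rfl
    rw [h3] at h2
    omega
  -- linear independence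
  let y : Option J → F := fun i => i.elim 1 (fun j => a j)
  have hy : ∀ i, y i ∈ Subfield.closure ((cK : Set F) ∪ Set.range (Sum.elim a b)) := by
    rintro (_ | j)
    · exact one_mem _
    · exact Subfield.subset_closure (Or.inr ⟨Sum.inl j, rfl⟩)
  have key := linDisj cK (consts Δ) hle halg (Sum.elim a b) htd y hy (by
    intro l hl hsum
    rw [Fintype.sum_option] at hsum
    choose l' hl' using hl
    have hl'2 : ∀ i, f (l' i) = l i := hl'
    let g : MvPolynomial (ι ⊕ ι) K := C (l' none) +
      ∑ j : J, C (l' (some j)) * MvPolynomial.X (Sum.inl (j : ι))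
    have h1 : eval₂ (c.comp (algebraMap K ℂ)) (Sum.elim a b) g = 0 := by
      rw [eval₂_add, eval₂_C, eval₂_sum]
      rw [← hsum]
      congr 1
      · show f (l' none) = _
        rw [hl'2]
        exact (mul_one _).symm
      · refine Finset.sum_congr rfl fun j _ => ?_
        rw [eval₂_mul, eval₂_C, eval₂_X]
        show f (l' (some j)) * _ = _
        rw [hl'2]
        rfl
    have h2 := (ht g).1 h1
    rw [map_add, aeval_C, map_sum] at h2
    have h3 : (l' none : ℂ) + ∑ j, (if hj : j ∈ J then (l' (some ⟨j, hj⟩) : ℂ) else 0) *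
        (w j).1 = 0 := by
      refine Eq.trans ?_ h2
      congr 1
      rw [← Finset.sum_subset (Finset.subset_univ J) (fun j _ hj => by rw [dif_neg hj, zero_mul]),
        ← Finset.sum_coe_sort]
      refine Finset.sum_congr rfl fun j _ => ?_
      rw [map_mul, aeval_C, aeval_X, dif_pos j.2]
      rfl
    have h4 := hJ (l' none) (fun j => if hj : j ∈ J then (l' (some ⟨j, hj⟩) : ℂ) else 0)
      (l' none).2 (by
        intro j
        split_ifs with hj
        · exact (l' (some ⟨j, hj⟩)).2
        · exact zero_mem K) (by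
        intro j hj
        exact dif_neg hj) h3
    have h5 : ∀ j : J, l' (some j) = 0 := by
      intro j
      have h6 := congrFun h4 j
      simp only [dif_pos j.2, Pi.zero_apply] at h6
      exact Subtype.ext h6
    have h7 : l' none = 0 := by
      rw [Finset.sum_eq_zero (fun j _ => by
        have h6 := congrFun h4 j
        simp only [Pi.zero_apply] at h6
        rw [h6, zero_mul]), add_zero] at h3
      exact Subtype.ext h3
    funext i
    rw [← hl'2 i]
    rcases i with _ | j
    · rw [h7, map_zero]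
      rfl
    · rw [h5 j, map_zero]
      rfl)
  have hfin := key (fun i => i.elim (-κ) (fun j => ν j)) (by
    rintro (_ | j)
    · exact neg_mem hκ
    · exact hν j) (by
    rw [Fintype.sum_option]
    show -κ * 1 + ∑ j : J, ν j * a j = 0
    rw [Finset.sum_coe_sort J (fun j => ν j * a j),
      Finset.sum_subset (Finset.subset_univ J) (fun j _ hj => by rw [hνJ j hj, zero_mul]), h]
    ring)
  funext j
  by_cases hj : j ∈ J
  · exact congrFun hfin (some ⟨j, hj⟩)
  · exact hνJ j hj

/-- Linear relations over `K` at `w` hold on the locus; a relation with rational coefficients at `u`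
becomes a relation supported on `J` with a nonzero coefficient. -/
theorem relation_on_J (w : ι → X) (hw : Indep K w) : ∃ J : Finset ι,
    (∀ (e : ℂ) (l : ι → ℂ), e ∈ K → (∀ j, l j ∈ K) → (∀ j, j ∉ J → l j = 0) →
      e + ∑ j, l j * (w j).1 = 0 → l = 0) ∧
    ∀ u : ι → X, (∀ f : MvPolynomial (ι ⊕ ι) K, aeval (pt φ 1 w) f = 0 →
        aeval (pt φ 1 u) f = 0) →
      ∀ q : ι → ℚ, q ≠ 0 → ∑ j, (q j : ℂ) * (u j).1 ∈ K →
        ∃ (ν : ι → ℂ) (κ : ℂ), (∀ j, ν j ∈ K) ∧ κ ∈ K ∧ (∀ j, j ∉ J → ν j = 0) ∧
          (∃ j, ν j ≠ 0) ∧ ∑ j, ν j * (u j).1 = κ := by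
  classical
  let P : Finset ι → Prop := fun J => ∀ (e : ℂ) (l : ι → ℂ), e ∈ K → (∀ j, l j ∈ K) →
    (∀ j, j ∉ J → l j = 0) → e + ∑ j, l j * (w j).1 = 0 → l = 0
  have hP0 : P ∅ := by
    intro e l _ _ hl _
    funext j
    exact hl j (Finset.notMem_empty j)
  obtain ⟨J, hJ, hmax⟩ := Finset.exists_max_image (Finset.univ.filter P) Finset.card
    ⟨∅, by simpa using hP0⟩
  have hJP : P J := (Finset.mem_filter.1 hJ).2
  -- express the first coordinates by those with indices in `J`
  have hex : ∀ j, ∃ (ε : ℂ) (lam : ι → ℂ), ε ∈ K ∧ (∀ i, lam i ∈ K) ∧ (∀ i, i ∉ J → lam i = 0) ∧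
      (w j).1 = ε + ∑ i, lam i * (w i).1 := by
    intro j
    by_cases hj : j ∈ J
    · refine ⟨0, Pi.single j 1, zero_mem K, fun i => ?_, fun i hi => ?_, ?_⟩
      · by_cases hij : i = j
        · subst hij
          rw [Pi.single_eq_same]
          exact one_mem K
        · rw [Pi.single_eq_of_ne hij]
          exact zero_mem K
      · rw [Pi.single_eq_of_ne]
        rintro rfl
        exact hi hj
      · rw [zero_add, Finset.sum_eq_single j (fun i _ hij => by
          rw [Pi.single_eq_of_ne hij, zero_mul]) (fun h => absurd (Finset.mem_univ j) h),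
          Pi.single_eq_same, one_mul]
    · have h1 : ¬ P (insert j J) := by
        intro h2
        have h3 := hmax (insert j J) (by simpa using h2)
        rw [Finset.card_insert_of_notMem hj] at h3
        omega
      simp only [P, not_forall] at h1
      obtain ⟨e, l, he, hl, hl0, hsum, hne⟩ := h1
      have hlj : l j ≠ 0 := by
        intro h0
        apply hne
        refine hJP e l he hl (fun i hi => ?_) hsum
        by_cases hij : i = j
        · rw [hij, h0]
        · exact hl0 i (by
            rw [Finset.mem_insert]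
            push Not
            exact ⟨hij, hi⟩)
      refine ⟨-e / l j, fun i => if i = j then 0 else -l i / l j,
        div_mem (neg_mem he) (hl j), fun i => ?_, fun i hi => ?_, ?_⟩
      · show (if i = j then 0 else -l i / l j) ∈ K
        split_ifs
        · exact zero_mem K
        · exact div_mem (neg_mem (hl i)) (hl j)
      · show (if i = j then (0 : ℂ) else -l i / l j) = 0
        split_ifs with hij
        · rfl
        · rw [hl0 i (by
            rw [Finset.mem_insert]
            push Not
            exact ⟨hij, hi⟩), neg_zero, zero_div]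
      · have h2 : ∑ i, (if i = j then 0 else -l i / l j) * (w i).1 =
            -(∑ i, l i * (w i).1) / l j + (w j).1 := by
          have h3 : ∑ i, (if i = j then 0 else -l i / l j) * (w i).1 =
              ∑ i, (-(l i * (w i).1) / l j + if i = j then (w j).1 else 0) := by
            refine Finset.sum_congr rfl fun i _ => ?_
            split_ifs with hij
            · subst hij
              field_simp
              ring
            · ring
          rw [h3, Finset.sum_add_distrib, Finset.sum_ite_eq' Finset.univ j, if_pos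
            (Finset.mem_univ j), ← Finset.sum_div, Finset.sum_neg_distrib]
        rw [h2]
        have h4 : ∑ i, l i * (w i).1 = -e := by linear_combination hsum
        rw [h4]
        ring
  choose ε lam hε hlam hlam0 hwj using hex
  refine ⟨J, hJP, ?_⟩
  intro u hu q hq hqK
  -- the same relations for `u`
  have huj : ∀ j, (u j).1 = ε j + ∑ i, lam j i * (u i).1 := by
    intro j
    let g : MvPolynomial (ι ⊕ ι) K := MvPolynomial.X (Sum.inl j) - (C ⟨ε j, hε j⟩ +
      ∑ i, C ⟨lam j i, hlam j i⟩ * MvPolynomial.X (Sum.inl i))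
    have hg : ∀ v : ι → EXL.X, aeval (pt φ 1 v) g =
        (v j).1 - (ε j + ∑ i, lam j i * (v i).1) := by
      intro v
      rw [map_sub, map_add, map_sum, aeval_X, aeval_C]
      congr 1
      congr 1
      refine Finset.sum_congr rfl fun i _ => ?_
      rw [map_mul, aeval_C, aeval_X]
      rfl
    have h1 := hu g (by rw [hg, ← hwj j, sub_self])
    rw [hg] at h1
    exact sub_eq_zero.1 h1
  have hcomp : ∀ v : ι → EXL.X, (∀ j, (v j).1 = ε j + ∑ i, lam j i * (v i).1) →
      ∑ j, (q j : ℂ) * (v j).1 = ∑ j, (q j : ℂ) * ε j +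
        ∑ i, (∑ j, (q j : ℂ) * lam j i) * (v i).1 := by
    intro v hv
    calc ∑ j, (q j : ℂ) * (v j).1 = ∑ j, (q j : ℂ) * (ε j + ∑ i, lam j i * (v i).1) :=
          Finset.sum_congr rfl fun j _ => by rw [← hv j]
      _ = ∑ j, ((q j : ℂ) * ε j + ∑ i, (q j : ℂ) * lam j i * (v i).1) :=
          Finset.sum_congr rfl fun j _ => by
            rw [mul_add, Finset.mul_sum]
            congr 1
            exact Finset.sum_congr rfl fun i _ => by ring
      _ = _ := by
          rw [Finset.sum_add_distrib, Finset.sum_comm]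
          congr 1
          exact Finset.sum_congr rfl fun i _ => by rw [Finset.sum_mul]
  have hqε : ∑ j, (q j : ℂ) * ε j ∈ K :=
    sum_mem fun j _ => mul_mem (SubfieldClass.ratCast_mem K (q j)) (hε j)
  refine ⟨fun i => ∑ j, (q j : ℂ) * lam j i, ∑ j, (q j : ℂ) * (u j).1 - ∑ j, (q j : ℂ) * ε j,
    fun i => sum_mem fun j _ => mul_mem (SubfieldClass.ratCast_mem K (q j)) (hlam j i),
    sub_mem hqK hqε, fun i hi => ?_, ?_, ?_⟩
  · exact Finset.sum_eq_zero fun j _ => by rw [hlam0 j i hi, mul_zero]
  · by_contra hcon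
    push Not at hcon
    apply hq
    apply hw q
    rw [hcomp w hwj, Finset.sum_eq_zero (s := Finset.univ) (f := fun i =>
      (∑ j, (q j : ℂ) * lam j i) * (w i).1) (fun i _ => by rw [hcon i, zero_mul]), add_zero]
    exact hqε
  · rw [hcomp u huj]
    ring

end Pool.Agent.EXL
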