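import Pool.Agent.EXL.Gen1
import Pool.Agent.EXL.Gen2

/-!
# EXL / Gen: every solution outside a fixed hypersurface is generic

Let `w` be good, `d = rho K w`, `r = card ι`, `W` its locus over `K` (the common zeros of all `f`
over `K` with `f(w) = 0`).

PROOF of `gen` by contradiction.  `K` is countable, so are the polynomials `h` over `K`: enumerate
those with `h(w) ≠ 0` as `h_0, h_1, ..` (`1` is one of them) and let `H_i = ∏_{j ≤ i} h_j`. If the
theorem is false there are for every `i` a tuple `u_i` in `W` with `rho u_i ≥ d`, `H_i(u_i) ≠ 0`, and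
some `f_i` with `f_i(u_i) = 0`, `f_i(w) ≠ 0`. So `u_i` is not generic in `W` and therefore
`td K (pt φ 1 u_i) < td K (pt φ 1 w) = r + d` (`generic_of_td_le`). If `u_i` were independent modulo
`K` then `td K (pt φ 1 u_i) ≥ r + rho u_i ≥ r + d` by `ax_closed`; so there is a nonzero integer (or
rational) vector `μ_i` with `∑_j μ_{i,j} (u_i j).1 ∈ K`. Choose `D_{i,1}, .., D_{i,d}` in
`EDer ⊓ DerOver K` with linearly independent values at `(u_i j).1` (`exists_linearIndependent` and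
`rho u_i ≥ d`). Apply `exists_ultra`: `F, c, a, b, KK, Δ`. Regard `F` as an algebra over `K` through
`c`. The point `p* = (a, b)` of `F^{2r}` satisfies `f(p*) = 0 ↔ f(w) = 0` for `f` over `K`
(`Ultra.zero`; `Ultra.ne_zero`: `h_j(u_i) ≠ 0` for all `i ≥ j`). So `p*` has the same type over `K` as
`pt φ 1 w`; in particular `td_{c K} p* = r + d` (`td_le_of_specialization` in both directions).
Let `C = consts Δ ⊇ KK ⊇ c K`, and `M = {μ ∈ ℤ^ι | ∑ μ_j a_j ∈ C}` (or with `ℚ`), `s` its rank.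

Case `s = 0`: `gen_case_zero` and `relation_on_J` (file Gen2); case `s > 0`: `gen_case_pos`
(file Gen1).
-/

set_option autoImplicit false

namespace Pool.Agent.EXL

open MvPolynomial

variable {K : Subfield ℂ} {φ : AddChar ℚ ℂ} {ι : Type} [Fintype ι]

/-- A point of the locus which is not generic is not independent. -/
private lemma not_indep (hK : Closed K φ) (w : ι → X) (hw : Good K φ w) (u : ι → X)
    (hI : ∀ f : MvPolynomial (ι ⊕ ι) K, aeval (pt φ 1 w) f = 0 → aeval (pt φ 1 u) f = 0)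
    (hr : rho K w ≤ rho K u) (f : MvPolynomial (ι ⊕ ι) K) (hf : aeval (pt φ 1 u) f = 0)
    (hf' : aeval (pt φ 1 w) f ≠ 0) : ¬ Indep K u := by
  intro hu
  have h1 := ax_closed hK u hu
  have h2 : ¬ td (K : Set ℂ) (pt φ 1 w) ≤ td (K : Set ℂ) (pt φ 1 u) := by
    intro h
    have h3 := generic_of_td_le (k := K) (pt φ 1 w) (pt φ 1 u) hI
      (by rw [range_algebraMap]; exact h)
    exact hf' (h3 f hf)
  rw [hw.2] at h2
  omega

theorem gen (hKc : (K : Set ℂ).Countable) (hK : Closed K φ) (w : ι → X) (hw : Good K φ w) :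
    ∃ h : MvPolynomial (ι ⊕ ι) K, aeval (pt φ 1 w) h ≠ 0 ∧ ∀ u : ι → X,
      (∀ f : MvPolynomial (ι ⊕ ι) K, aeval (pt φ 1 w) f = 0 → aeval (pt φ 1 u) f = 0) →
      rho K w ≤ rho K u → aeval (pt φ 1 u) h ≠ 0 →
      ∀ f : MvPolynomial (ι ⊕ ι) K, aeval (pt φ 1 u) f = 0 → aeval (pt φ 1 w) f = 0 := by
  classical
  by_contra hcon
  push Not at hcon
  -- enumerate the polynomials which do not vanish at `w`
  have hKc' : Countable K := hKc.to_subtype
  have hcount : Countable (MvPolynomial (ι ⊕ ι) K) := by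
    have hinj : Function.Injective
        (fun p : MvPolynomial (ι ⊕ ι) K => (AddMonoidAlgebra.coeff p : (ι ⊕ ι →₀ ℕ) →₀ K)) := by
      rintro ⟨p⟩ ⟨q⟩ h
      exact congrArg AddMonoidAlgebra.ofCoeff h
    exact hinj.countable
  let S : Type := {h : MvPolynomial (ι ⊕ ι) K // aeval (pt φ 1 w) h ≠ 0}
  have hSne : Nonempty S := ⟨⟨1, by rw [map_one]; exact one_ne_zero⟩⟩
  obtain ⟨e, he⟩ := exists_surjective_nat S
  let Hp : ℕ → MvPolynomial (ι ⊕ ι) K := fun i => ∏ j ∈ Finset.range (i + 1), (e j).1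
  have hHp : ∀ i, aeval (pt φ 1 w) (Hp i) ≠ 0 := by
    intro i
    simp only [Hp, map_prod]
    exact Finset.prod_ne_zero_iff.mpr (fun j _ => (e j).2)
  choose u hI hr hHu fb hfb hfb' using fun i => hcon (Hp i) (hHp i)
  have hni : ∀ i, ¬ Indep K (u i) := fun i =>
    not_indep hK w hw (u i) (hI i) (hr i) (fb i) (hfb i) (hfb' i)
  have hrel : ∀ i, ∃ q : ι → ℚ, ∑ j, (q j : ℂ) * (u i j).1 ∈ K ∧ q ≠ 0 := by
    intro i
    have := hni i
    unfold Indep at this
    push Not at this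
    exact this
  obtain ⟨J, hJ, hJ'⟩ := relation_on_J (φ := φ) w hw.1
  have hν : ∀ i, ∃ (ν : ι → ℂ) (κ : ℂ), (∀ j, ν j ∈ K) ∧ κ ∈ K ∧ (∀ j, j ∉ J → ν j = 0) ∧
      (∃ j, ν j ≠ 0) ∧ ∑ j, ν j * (u i j).1 = κ := by
    intro i
    obtain ⟨q, hq, hq0⟩ := hrel i
    exact hJ' (u i) (hI i) q hq0 hq
  choose ν κ hνK hκK hνJ hνne hνsum using hν
  -- derivations
  have hD : ∀ i, ∃ D : Fin (rho K w) → Derivation ℤ ℂ ℂ,
      (∀ k, D k ∈ EDer ⊓ DerOver (K : Set ℂ)) ∧
      LinearIndependent ℂ (fun k => ev (fun j => (u i j).1) (D k)) := by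
    intro i
    obtain ⟨D, hD1, hD2⟩ := exists_linearIndependent (EDer ⊓ DerOver (K : Set ℂ))
      (fun j => (u i j).1)
    refine ⟨fun k => D (Fin.castLE (hr i) k), fun k => hD1 _, ?_⟩
    exact hD2.comp (Fin.castLE (hr i)) (Fin.castLE_injective (hr i))
  choose D hDm hDi using hD
  obtain ⟨F, _, _, c, a, b, KK, Δ, hU⟩ := exists_ultra K φ hK.2 u (rho K w) D hDm hDi
  have hKC : ∀ x ∈ K, c x ∈ consts Δ := fun x hx => hU.KK_le (hU.K_mem x hx)
  have ht : SameType K φ w c a b := by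
    intro f
    constructor
    · intro h
      by_contra hne
      obtain ⟨j, hj⟩ := he ⟨f, hne⟩
      refine hU.ne_zero f ⟨j, fun i hi h0 => hHu i ?_⟩ h
      have hdvd : f ∣ Hp i := by
        have h5 : (e j).1 = f := by rw [hj]
        rw [← h5]
        exact Finset.dvd_prod_of_mem (fun j => (e j).1) (Finset.mem_range.mpr (by omega))
      obtain ⟨g, hg⟩ := hdvd
      rw [hg, map_mul, h0, zero_mul]
    · intro h
      exact hU.zero f ⟨0, fun i _ => hI i f h⟩
  by_cases hs : ∀ q : ι → ℤ, ∑ j, (q j : F) * a j ∈ consts Δ → q = 0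
  · obtain ⟨ν', κ', h1, h2, h3, h4, h5⟩ := hU.relation ν κ hνK hκK hνsum hνne
    exact h4 (gen_case_zero hK w hw c a b Δ hU.b_ne hU.rule hKC hU.le_rk ht hs J hJ κ' ν'
      (hU.KK_le h2) (fun j => hU.KK_le (h1 j)) (fun j hj => h5 j (fun i => hνJ i j hj)) h3)
  · push Not at hs
    obtain ⟨q, hq, hq0⟩ := hs
    exact gen_case_pos hK w hw c a b Δ hU.b_ne hU.rule hKC hU.le_rk ht q hq0 hq

end Pool.Agent.EXL
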