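import Pool.Agent.EXI.CAsm

/-!
# EXL / Input: the analytic input (I)

Statement (I): `k ⊆ ℂ` countable and algebraically closed, `p = (a, b) ∈ ℂ^m × (ℂ^*)^m` of
transcendence degree `m` over `k` such that the `m` forms `dlog b_j - d a_j` are linearly independent
on `k(p)` over `k`. Then the locus of `p` over `k` contains a point `(a', b')` with
`b'_j ∈ exp(a'_j) φ(ℚ)` for all `j`, outside any given hypersurface `h = 0` not containing `p`.
-/

set_option autoImplicit false

namespace Pool.Agent.EXL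

open MvPolynomial

/-- The analytic input. -/
theorem inputI (φ : AddChar ℚ ℂ) (hφ : ‖φ 1‖ ≠ 1) (k : Subfield ℂ) (hk : (k : Set ℂ).Countable)
    (hk' : IsAlgClosed k) {κ : Type} [Fintype κ] (a b : κ → ℂ) (hb : ∀ j, b j ≠ 0)
    (htd : td (k : Set ℂ) (Sum.elim a b) = Fintype.card κ)
    (hform : ∀ D ∈ DerOver (k : Set ℂ), (∀ j, D (b j) = b j * D (a j)) → ∀ j, D (a j) = 0)
    (h : MvPolynomial (κ ⊕ κ) k) (hh : aeval (Sum.elim a b) h ≠ 0) :
    ∃ w : κ → X, (∀ f : MvPolynomial (κ ⊕ κ) k, aeval (Sum.elim a b) f = 0 →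
      aeval (pt φ 1 w) f = 0) ∧ aeval (pt φ 1 w) h ≠ 0 := by
  exact Pool.Agent.EXI.inputI' φ hφ k hk hk' a b hb htd hform h hh

end Pool.Agent.EXL
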