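import Pool.Agent.EXL.Val

/-!
# EXL / Den: divisible hulls in function fields

PROOF of `exists_denom`.  By `exists_val` and linear algebra over `ℚ` there are homomorphisms
`v_i : Fˣ → ℤ` (`i : ι`) with `V = (v_i (b_j))` nonsingular: otherwise some nonzero integer vector
`m` satisfies `∑_j v(b_j) m_j = 0` for ALL homomorphisms `v`, i.e. `v (∏ b_j ^ m_j) = 0` for all `v`,
so `∏ b_j ^ m_j ∈ K` by `exists_val`, contradicting `hind`. Put `N₀ = |det V|`. If
`∏ b_j ^ m_j = κ u ^ N` then `V m ∈ N ℤ^ι` because `v_i (κ) = 0` (`κ` is divisible in `K^*`), and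
multiplying by the adjugate of `V` gives `det V • m ∈ N ℤ^ι`.
-/

set_option autoImplicit false

namespace Pool.Agent.EXL

variable {K F : Type*} [Field K] [Field F] [CharZero K] [Algebra K F] [IsAlgClosed K]

private lemma clear_den {ι : Type*} (G : AddSubgroup (ι → ℤ)) (x : ι → ℚ)
    (hx : x ∈ Submodule.span ℚ ((fun (g : ι → ℤ) (i : ι) => (g i : ℚ)) '' (G : Set (ι → ℤ)))) :
    ∃ N : ℕ, 0 < N ∧ ∃ g ∈ G, ∀ i, (N : ℚ) * x i = g i := by
  induction hx using Submodule.span_induction with
  | mem x hx =>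
    obtain ⟨g, hg, rfl⟩ := hx
    exact ⟨1, one_pos, g, hg, fun i => by simp⟩
  | zero => exact ⟨1, one_pos, 0, G.zero_mem, fun i => by simp⟩
  | add x y _ _ hx hy =>
    obtain ⟨N, hN, g, hg, h1⟩ := hx
    obtain ⟨M, hM, g', hg', h2⟩ := hy
    refine ⟨N * M, Nat.mul_pos hN hM, (M : ℤ) • g + (N : ℤ) • g',
      G.add_mem (G.zsmul_mem hg _) (G.zsmul_mem hg' _), fun i => ?_⟩
    simp only [Pi.add_apply, Pi.smul_apply, smul_eq_mul]
    push_cast
    rw [← h1 i, ← h2 i]
    ring
  | smul q x _ hx =>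
    obtain ⟨N, hN, g, hg, h1⟩ := hx
    refine ⟨N * q.den, Nat.mul_pos hN q.den_pos, q.num • g, G.zsmul_mem hg _, fun i => ?_⟩
    simp only [Pi.smul_apply, smul_eq_mul]
    push_cast
    rw [← h1 i]
    have h2 : (q.den : ℚ) * q = q.num := Rat.den_mul_eq_num q
    calc (N : ℚ) * q.den * (q * x i) = (q.den * q) * (N * x i) := by ring
      _ = _ := by rw [h2]

private lemma exists_mult {ι : Type*} [Fintype ι] [DecidableEq ι] (G : AddSubgroup (ι → ℤ))
    (h : ∀ m : ι → ℤ, (∀ g ∈ G, ∑ i, m i * g i = 0) → m = 0) (j : ι) :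
    ∃ N : ℕ, 0 < N ∧ Pi.single j (N : ℤ) ∈ G := by
  have hW : Submodule.span ℚ ((fun (g : ι → ℤ) (i : ι) => (g i : ℚ)) '' (G : Set (ι → ℤ))) = ⊤ := by
    by_contra hne
    obtain ⟨f, hf, hle⟩ := Submodule.exists_le_ker_of_lt_top _ (lt_top_iff_ne_top.2 hne)
    apply hf
    let d : ℕ := ∏ i, (f (Pi.single i 1)).den
    have hd : 0 < d := Finset.prod_pos fun i _ => Rat.den_pos _
    have hint : ∀ i, ∃ z : ℤ, (z : ℚ) = d * f (Pi.single i 1) := by
      intro i
      obtain ⟨c, hc⟩ := Finset.dvd_prod_of_mem (fun i => (f (Pi.single i 1)).den)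
        (Finset.mem_univ i)
      refine ⟨(f (Pi.single i 1)).num * c, ?_⟩
      have h2 : ((f (Pi.single i 1)).den : ℚ) * f (Pi.single i 1) = (f (Pi.single i 1)).num :=
        Rat.den_mul_eq_num _
      have h3 : (d : ℚ) = ((f (Pi.single i 1)).den : ℚ) * c := by
        change ((∏ i, (f (Pi.single i 1)).den : ℕ) : ℚ) = _
        rw [hc]
        push_cast
        ring
      rw [h3]
      push_cast
      rw [← h2]
      ring
    choose z hz using hint
    have hz0 : z = 0 := by
      apply h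
      intro g hg
      have h1 : f (fun i => (g i : ℚ)) = 0 := hle (Submodule.subset_span ⟨g, hg, rfl⟩)
      have h2 : (fun i => (g i : ℚ)) = ∑ i, (g i : ℚ) • (Pi.single i (1 : ℚ) : ι → ℚ) := by
        ext k
        simp [Finset.sum_apply, Pi.single_apply]
      rw [h2, map_sum] at h1
      simp only [map_smul, smul_eq_mul] at h1
      have h3 : ((∑ i, z i * g i : ℤ) : ℚ) = 0 := by
        push_cast
        calc ∑ i, (z i : ℚ) * g i = d * ∑ i, (g i : ℚ) * f (Pi.single i 1) := by
              rw [Finset.mul_sum]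
              refine Finset.sum_congr rfl fun i _ => ?_
              rw [hz i]
              ring
          _ = 0 := by rw [h1, mul_zero]
      exact_mod_cast h3
    have hfi : ∀ i, f (Pi.single i 1) = 0 := by
      intro i
      have h1 := hz i
      rw [hz0] at h1
      simp only [Pi.zero_apply, Int.cast_zero] at h1
      rcases mul_eq_zero.1 h1.symm with h2 | h2
      · exact absurd h2 (by exact_mod_cast hd.ne')
      · exact h2
    refine LinearMap.pi_ext' fun i => LinearMap.ext_ring ?_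
    simpa using hfi i
  obtain ⟨N, hN, g, hg, h1⟩ := clear_den G (Pi.single j 1) (hW ▸ Submodule.mem_top)
  refine ⟨N, hN, ?_⟩
  have h2 : g = Pi.single j (N : ℤ) := by
    ext i
    have h3 := h1 i
    by_cases hij : i = j
    · subst hij
      rw [Pi.single_eq_same, mul_one] at h3
      rw [Pi.single_eq_same]
      exact_mod_cast h3.symm
    · rw [Pi.single_eq_of_ne hij, mul_zero] at h3
      rw [Pi.single_eq_of_ne hij]
      exact_mod_cast h3.symm
  rw [← h2]
  exact hg

/-- The divisible hull of a finitely generated subgroup of `F^* / K^*` in `F^* / K^*` is finitely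
generated. -/
theorem exists_denom (hfg : (⊤ : IntermediateField K F).FG) {ι : Type*} [Fintype ι] (b : ι → Fˣ)
    (hind : ∀ m : ι → ℤ, ((∏ j, b j ^ m j : Fˣ) : F) ∈ Set.range (algebraMap K F) → m = 0) :
    ∃ N₀ : ℕ, 0 < N₀ ∧ ∀ (N : ℕ) (m : ι → ℤ) (κ : K) (u : F), 0 < N →
      ((∏ j, b j ^ m j : Fˣ) : F) = algebraMap K F κ * u ^ N → ∀ j, (N : ℤ) ∣ N₀ * m j := by
  classical
  let G : AddSubgroup (ι → ℤ) :=
    { carrier := {g | ∃ v : Fˣ →* Multiplicative ℤ, ∀ i, Multiplicative.toAdd (v (b i)) = g i}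
      zero_mem' := ⟨1, fun i => by simp⟩
      add_mem' := by
        rintro g g' ⟨v, hv⟩ ⟨v', hv'⟩
        exact ⟨v * v', fun i => by simp [hv, hv']⟩
      neg_mem' := by
        rintro g ⟨v, hv⟩
        exact ⟨v⁻¹, fun i => by simp [hv]⟩ }
  have hprod : ∀ (v : Fˣ →* Multiplicative ℤ) (m : ι → ℤ),
      Multiplicative.toAdd (v (∏ j, b j ^ m j)) =
        ∑ j, m j * Multiplicative.toAdd (v (b j)) := by
    intro v m
    rw [map_prod, toAdd_prod]
    refine Finset.sum_congr rfl fun j _ => ?_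
    rw [map_zpow, toAdd_zpow, smul_eq_mul]
  have hG : ∀ m : ι → ℤ, (∀ g ∈ G, ∑ i, m i * g i = 0) → m = 0 := by
    intro m hm
    apply hind
    by_contra hne
    obtain ⟨v, hv⟩ := exists_val hfg (∏ j, b j ^ m j) hne
    apply hv
    have h1 := hm (fun i => Multiplicative.toAdd (v (b i))) ⟨v, fun i => rfl⟩
    rw [← hprod] at h1
    exact Multiplicative.toAdd.injective h1
  choose n hn hnG using fun j => exists_mult G hG j
  choose w hw using hnG
  have hdiv : ∀ (v : Fˣ →* Multiplicative ℤ) (κ : Kˣ),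
      v (Units.map (algebraMap K F).toMonoidHom κ) = 1 := by
    intro v κ
    set t := Multiplicative.toAdd (v (Units.map (algebraMap K F).toMonoidHom κ)) with ht
    have key : ∀ l : ℕ, 0 < l → (l : ℤ) ∣ t := by
      intro l hl
      obtain ⟨x, hx⟩ := IsAlgClosed.exists_pow_nat_eq (κ : K) hl
      have hx0 : x ≠ 0 := by
        rintro rfl
        rw [zero_pow hl.ne'] at hx
        exact κ.ne_zero hx.symm
      have h1 : κ = (Units.mk0 x hx0) ^ l := by
        ext
        rw [Units.val_pow_eq_pow_val, Units.val_mk0, hx]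
      refine ⟨Multiplicative.toAdd (v (Units.map (algebraMap K F).toMonoidHom (Units.mk0 x hx0))),
        ?_⟩
      rw [ht, h1, map_pow, map_pow, toAdd_pow, nsmul_eq_mul]
    have h0 : t = 0 := by
      have h2 := key (t.natAbs + 1) (by omega)
      rcases eq_or_ne t 0 with h3 | h3
      · exact h3
      · exfalso
        have h4 := Int.le_of_dvd (Int.natAbs_pos.2 h3 |> fun h => by exact_mod_cast h)
          ((Int.dvd_natAbs).2 h2)
        push_cast at h4
        omega
    exact Multiplicative.toAdd.injective h0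
  refine ⟨∏ j, n j, Finset.prod_pos fun j _ => hn j, ?_⟩
  intro N m κ u hN heq j
  have hne : algebraMap K F κ * u ^ N ≠ 0 := heq ▸ Units.ne_zero _
  have hκ : κ ≠ 0 := by
    rintro rfl
    exact hne (by simp)
  have hu : u ≠ 0 := by
    rintro rfl
    exact hne (by rw [zero_pow hN.ne', mul_zero])
  have h1 : ∏ j, b j ^ m j = Units.map (algebraMap K F).toMonoidHom (Units.mk0 κ hκ) *
      (Units.mk0 u hu) ^ N := by
    apply Units.ext
    rw [heq]
    rfl
  have h2 := congrArg (fun x => Multiplicative.toAdd (w j x)) h1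
  simp only [map_mul, hdiv, one_mul, map_pow, toAdd_pow, nsmul_eq_mul] at h2
  rw [hprod] at h2
  have h3 : ∑ i, m i * Multiplicative.toAdd (w j (b i)) = m j * n j := by
    rw [Finset.sum_eq_single j]
    · rw [hw j j, Pi.single_eq_same]
    · intro i _ hij
      rw [hw j i, Pi.single_eq_of_ne hij, mul_zero]
    · intro h
      exact absurd (Finset.mem_univ j) h
  rw [h3] at h2
  obtain ⟨c, hc⟩ := Finset.dvd_prod_of_mem n (Finset.mem_univ j)
  rw [hc]
  refine ⟨Multiplicative.toAdd (w j (Units.mk0 u hu)) * c, ?_⟩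
  push_cast
  calc (n j : ℤ) * c * m j = (m j * n j) * c := by ring
    _ = _ := by rw [h2]; ring

end Pool.Agent.EXL
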