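import Pool.Agent.EXL.Clb
import Pool.Agent.EXL.Ax
import Pool.Agent.EXL.Tdi

/-!
# EXL / Good: properties of good tuples

`ax_closed` is `ax` for `Δ = EDer ⊓ DerOver K`, `a = (w j).1`, `b = ex φ (w j)` (`der_ex`,
`Closed.consts_eq`); `Sum.elim a b = pt φ 1 w` because `(1 : ℚ)⁻¹ • x = x`.

`Indep` is a statement about rational coefficients; from integer ones one gets it by multiplying
with a common denominator.

`good_smul`: all ingredients of `Good` for `N⁻¹ • w` and `w` agree: `Indep` is clear, `rho` by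
`rk_eq_of_dep`, and `td K (pt φ 1 (N⁻¹ • w)) = td K (pt φ 1 w)` by `rk_eq_of_dep`: for `D ∈ DerOver K`
one has `D (ex (w j)) = D (ex (N⁻¹ • w j) ^ N) = N * _ * D (ex (N⁻¹ • w j))`.

`SameAt.indep`: a relation `∑ q_j a_j = c` with `q_j ∈ ℚ`, `c ∈ K` is a polynomial over `K`.

`SameAt.td_eq`: `td_le_of_specialization` in both directions (`Set.range (algebraMap K ℂ) = K`).
-/

set_option autoImplicit false

namespace Pool.Agent.EXL

open MvPolynomial

lemma pt_one {ι : Type} (φ : AddChar ℚ ℂ) (w : ι → X) :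
    pt φ 1 w = Sum.elim (fun j => (w j).1) (fun j => ex φ (w j)) := by
  unfold pt
  simp

variable {K : Subfield ℂ} {φ : AddChar ℚ ℂ} {ι κ : Type}

lemma range_algebraMap (K : Subfield ℂ) : Set.range (algebraMap K ℂ) = (K : Set ℂ) := by
  ext x
  constructor
  · rintro ⟨y, rfl⟩
    exact y.2
  · intro hx
    exact ⟨⟨x, hx⟩, rfl⟩

theorem SameAt.symm {N : ℕ} {w w' : ι → X} (h : SameAt K φ N w w') : SameAt K φ N w' w :=
  fun f => (h f).symm

/-- Types are preserved by polynomial substitutions. -/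
theorem SameAt.of_subst {ι' : Type} {N N' : ℕ} {w w' : ι → X} {u u' : ι' → X}
    (τ : ι' ⊕ ι' → MvPolynomial (ι ⊕ ι) K)
    (h1 : ∀ i, pt φ N' u i = aeval (pt φ N w) (τ i))
    (h2 : ∀ i, pt φ N' u' i = aeval (pt φ N w') (τ i))
    (h : SameAt K φ N w w') : SameAt K φ N' u u' := by
  intro f
  have e1 : pt φ N' u = fun i => aeval (pt φ N w) (τ i) := funext h1
  have e2 : pt φ N' u' = fun i => aeval (pt φ N w') (τ i) := funext h2
  have k1 : aeval (pt φ N' u) f = aeval (pt φ N w) (bind₁ τ f) := by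
    rw [aeval_bind₁, e1]
  have k2 : aeval (pt φ N' u') f = aeval (pt φ N w') (bind₁ τ f) := by
    rw [aeval_bind₁, e2]
  rw [k1, k2]
  exact h _

lemma der_natInv_smul {D : Derivation ℤ ℂ ℂ} (hD : D ∈ DerOver (K : Set ℂ)) (N : ℕ) (x : X) :
    D (((N : ℚ)⁻¹ • x).1) = (N : ℂ)⁻¹ * D x.1 := by
  have h1 : ((N : ℚ)⁻¹ • x).1 = (N : ℂ)⁻¹ * x.1 := by
    rw [Prod.smul_fst, Rat.smul_def]
    push_cast
    rfl
  have h2 : ((N : ℂ)⁻¹) ∈ (K : Set ℂ) := inv_mem (natCast_mem K N)
  rw [h1, Derivation.leibniz, hD _ h2, smul_zero, add_zero, smul_eq_mul]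

lemma der_natInv_smul_eq_zero {D : Derivation ℤ ℂ ℂ} (hD : D ∈ DerOver (K : Set ℂ)) {N : ℕ}
    (hN : 0 < N) (x : X) : D (((N : ℚ)⁻¹ • x).1) = 0 ↔ D x.1 = 0 := by
  rw [der_natInv_smul hD]
  have h : (N : ℂ)⁻¹ ≠ 0 := inv_ne_zero (Nat.cast_ne_zero.2 hN.ne')
  constructor
  · intro h1
    exact (mul_eq_zero.1 h1).resolve_left h
  · intro h1
    rw [h1, mul_zero]

lemma der_ex_natInv_eq_zero (φ : AddChar ℚ ℂ) (D : Derivation ℤ ℂ ℂ) {N : ℕ}
    (hN : 0 < N) (x : X) : D (ex φ ((N : ℚ)⁻¹ • x)) = 0 ↔ D (ex φ x) = 0 := by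
  have h := ex_inv_pow φ hN x
  have h1 : D (ex φ x) = N * ex φ ((N : ℚ)⁻¹ • x) ^ (N - 1) * D (ex φ ((N : ℚ)⁻¹ • x)) := by
    rw [← h, Derivation.leibniz_pow, nsmul_eq_mul, smul_eq_mul, mul_assoc]
  rw [h1]
  constructor
  · intro h2
    rw [h2, mul_zero]
  · intro h2
    refine (mul_eq_zero.1 h2).resolve_left (mul_ne_zero (Nat.cast_ne_zero.2 hN.ne') ?_)
    exact pow_ne_zero _ (ex_ne_zero φ _)

variable [Fintype ι] [Fintype κ]

theorem ax_closed (hK : Closed K φ) (w : ι → X) (hw : Indep K w) :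
    Fintype.card ι + rho K w ≤ td (K : Set ℂ) (pt φ 1 w) := by
  rw [pt_one]
  have h := ax (EDer ⊓ DerOver (K : Set ℂ)) (fun j => (w j).1) (fun j => ex φ (w j))
    (fun j => ex_ne_zero φ _) (fun D hD j => der_ex hK.2 hD (w j)) ?_
  · rw [hK.consts_eq] at h
    exact h
  · intro q hq
    rw [hK.consts_eq] at hq
    have h1 := hw (fun j => (q j : ℚ)) (by simpa using hq)
    funext j
    have h2 := congrFun h1 j
    simpa using h2

/-- The transcendence degree does not depend on the level. -/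
theorem td_pt (hK : Closed K φ) (w : ι → X) {N : ℕ} (hN : 0 < N) :
    td (K : Set ℂ) (pt φ N w) = td (K : Set ℂ) (pt φ 1 w) := by
  rw [pt_one]
  apply rk_eq_of_dep
  · intro D _ h i
    rcases i with j | j
    · exact h (Sum.inl j)
    · exact (der_ex_natInv_eq_zero φ D hN (w j)).1 (h (Sum.inr j))
  · intro D _ h i
    rcases i with j | j
    · exact h (Sum.inl j)
    · exact (der_ex_natInv_eq_zero φ D hN (w j)).2 (h (Sum.inr j))

theorem td_pt_smul (hK : Closed K φ) (w : ι → X) {N : ℕ} (hN : 0 < N) :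
    td (K : Set ℂ) (pt φ 1 (fun j => (N : ℚ)⁻¹ • w j)) = td (K : Set ℂ) (pt φ 1 w) := by
  rw [pt_one, pt_one]
  apply rk_eq_of_dep
  · intro D hD h i
    rcases i with j | j
    · exact (der_natInv_smul_eq_zero hD hN (w j)).1 (h (Sum.inl j))
    · exact (der_ex_natInv_eq_zero φ D hN (w j)).1 (h (Sum.inr j))
  · intro D hD h i
    rcases i with j | j
    · exact (der_natInv_smul_eq_zero hD hN (w j)).2 (h (Sum.inl j))
    · exact (der_ex_natInv_eq_zero φ D hN (w j)).2 (h (Sum.inr j))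

theorem rho_smul (w : ι → X) {N : ℕ} (hN : 0 < N) :
    rho K (fun j => (N : ℚ)⁻¹ • w j) = rho K w := by
  apply rk_eq_of_dep
  · intro D hD h i
    exact (der_natInv_smul_eq_zero hD.2 hN (w i)).1 (h i)
  · intro D hD h i
    exact (der_natInv_smul_eq_zero hD.2 hN (w i)).2 (h i)

theorem good_smul (hK : Closed K φ) (w : ι → X) (hw : Good K φ w) {N : ℕ} (hN : 0 < N) :
    Good K φ (fun j => (N : ℚ)⁻¹ • w j) := by
  refine ⟨?_, ?_⟩
  · intro q hq
    have hN' : (N : ℚ) ≠ 0 := Nat.cast_ne_zero.2 hN.ne'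
    have h1 := hw.1 (fun j => q j * (N : ℚ)⁻¹) (by
      refine (congrArg (· ∈ K) ?_).mp hq
      refine Finset.sum_congr rfl fun j _ => ?_
      rw [Prod.smul_fst, Rat.smul_def]
      push_cast
      ring)
    funext j
    have h2 := congrFun h1 j
    simp only [Pi.zero_apply, mul_eq_zero, inv_eq_zero, hN', or_false] at h2
    exact h2
  · rw [td_pt_smul hK w hN, rho_smul w hN, hw.2]

/-- Types at level `N` are types at level `1` of the divided tuples. -/
theorem sameAt_iff (w w' : ι → X) {N : ℕ} (hN : 0 < N) :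
    SameAt K φ N w w' ↔ SameAt K φ 1 (fun j => (N : ℚ)⁻¹ • w j) (fun j => (N : ℚ)⁻¹ • w' j) := by
  have hN' : (N : ℂ) ≠ 0 := Nat.cast_ne_zero.2 hN.ne'
  constructor
  · apply SameAt.of_subst
      (Sum.elim (fun j => MvPolynomial.C ((N : K)⁻¹) * MvPolynomial.X (Sum.inl j)) (fun j => MvPolynomial.X (Sum.inr j)))
    all_goals
      intro i
      rw [pt_one]
      rcases i with j | j
      · simp [pt, Rat.smul_def]
      · simp [pt]
  · apply SameAt.of_subst
      (Sum.elim (fun j => MvPolynomial.C ((N : K)) * MvPolynomial.X (Sum.inl j)) (fun j => MvPolynomial.X (Sum.inr j)))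
    all_goals
      intro i
      rw [pt_one]
      rcases i with j | j
      · simp [pt, Rat.smul_def, hN']
      · simp [pt]

/-- The type at level `N * M` determines the type at level `N`. -/
theorem SameAt.of_mul {w w' : ι → X} {N M : ℕ} (hN : 0 < N) (hM : 0 < M)
    (h : SameAt K φ (N * M) w w') : SameAt K φ N w w' := by
  have key : ∀ x : X, ex φ ((N : ℚ)⁻¹ • x) = ex φ (((N * M : ℕ) : ℚ)⁻¹ • x) ^ M := by
    intro x
    rw [← ex_inv_pow φ hM ((N : ℚ)⁻¹ • x), smul_smul]
    congr 3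
    push_cast
    rw [mul_inv, mul_comm]
  refine SameAt.of_subst
      (Sum.elim (fun j => MvPolynomial.X (Sum.inl j)) (fun j => MvPolynomial.X (Sum.inr j) ^ M))
      ?_ ?_ h
  all_goals
    intro i
    rcases i with j | j
    · simp [pt]
    · simp only [pt, Sum.elim_inr, map_pow, aeval_X]
      exact key _

theorem SameAt.indep {w w' : ι → X} {N : ℕ} (h : SameAt K φ N w w') (hw : Indep K w) :
    Indep K w' := by
  intro q hq
  apply hw q
  have key : ∀ v : ι → X, aeval (pt φ N v) ((∑ j, MvPolynomial.C ((q j : ℚ) : K) *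
      MvPolynomial.X (Sum.inl j)) -
      MvPolynomial.C (⟨∑ j, (q j : ℂ) * (w' j).1, hq⟩ : K) : MvPolynomial (ι ⊕ ι) K) =
      (∑ j, (q j : ℂ) * (v j).1) - ∑ j, (q j : ℂ) * (w' j).1 := by
    intro v
    rw [map_sub, map_sum, algHom_C]
    congr 1
    refine Finset.sum_congr rfl fun j _ => ?_
    rw [map_mul, algHom_C, aeval_X, map_ratCast]
    rfl
  have h1 := (h _).2 ((key w').trans (sub_self _))
  rw [key w, sub_eq_zero] at h1
  rw [h1]
  exact hq

theorem SameAt.td_eq {w w' : ι → X} (h : SameAt K φ 1 w w') :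
    td (K : Set ℂ) (pt φ 1 w) = td (K : Set ℂ) (pt φ 1 w') := by
  have h1 := td_le_of_specialization (k := K) (pt φ 1 w) (pt φ 1 w') (fun f hf => (h f).1 hf)
  have h2 := td_le_of_specialization (k := K) (pt φ 1 w') (pt φ 1 w) (fun f hf => (h f).2 hf)
  rw [range_algebraMap] at h1 h2
  exact le_antisymm h2 h1

/-- A tuple with the type of a good tuple and at least the same rank is good. -/
theorem SameAt.good {w w' : ι → X} (hK : Closed K φ) (h : SameAt K φ 1 w w') (hw : Good K φ w)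
    (hr : rho K w ≤ rho K w') : Good K φ w' := by
  have hi := h.indep hw.1
  refine ⟨hi, le_antisymm ?_ (ax_closed hK w' hi)⟩
  rw [← h.td_eq, hw.2]
  exact Nat.add_le_add_left hr _

/-- Good tuples of the same type have the same rank. -/
theorem rho_eq_of_sameAt {w w' : ι → X} (h : SameAt K φ 1 w w') (hw : Good K φ w)
    (hw' : Good K φ w') : rho K w = rho K w' := by
  have h1 := h.td_eq
  rw [hw.2, hw'.2] at h1
  exact Nat.add_left_cancel h1

/-- Adding elements does not decrease the rank. -/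
theorem rho_le_sum (w : ι → X) (γ : κ → X) : rho K w ≤ rho K (Sum.elim w γ) := by
  apply rk_le_of_dep
  intro D _ h j
  exact h (Sum.inl j)

end Pool.Agent.EXL
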