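import Pool.Agent.EXL.Kumg
import Pool.Agent.EXL.Den
import Pool.Agent.EXL.Good
import Pool.Agent.EXL.Aut

/-!
# EXL / Kum: the type of all division points is determined at a finite level

PROOF of `kummer`.  Let `B q = ex φ (∑ j, q j • w j)` (an additive character of `ι → ℚ`,
`ex_add`, `ex_zero`), `F = K(a_j, ex (w j))` (`Subfield.closure (K ∪ Set.range (pt φ 1 w))`).
(1) There is `N₀ > 0` with: `B q ∈ F → N₀ q_j ∈ ℤ`. Use `exists_denom` for `K`, `F`,
`b_j = ex (w j)`: if `∏ b_j ^ m_j = ex (∑ m_j • w_j) ∈ K` then `∑ m_j a_j ∈ K`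
(`Closed.ex_mem_iff`) and `m = 0`. If `q = m / N` then `u = B q ∈ F` satisfies `u ^ N = ∏ b_j ^ m_j`.
(2) Let `SameAt K φ N₀ w u`. By `SameAt.of_mul` it is enough to treat the levels `N₀ * M`. By
`exists_aut` there is `σ` over `K` with `σ (pt φ N₀ w) = pt φ N₀ u`. Then
`σ (ex (w_j / (N₀ M)))` and `ex (u_j / (N₀ M))` have the same `M`-th power
`ex (u_j / N₀)`, so they differ by `ζ_j` with `ζ_j ^ M = 1`, `ζ_j ∈ K` (`Closed.root_mem`), so
`σ ζ_j = ζ_j`. `kummer_gal` gives `τ` over `F` with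
`τ (ex (w_j / (N₀ M))) = ζ_j^{±1} ex (w_j / (N₀ M))`, and then `σ ∘ τ` is an automorphism over `K`
which maps `pt φ (N₀ M) w` to `pt φ (N₀ M) u`, so the types are the same.
-/

set_option autoImplicit false

namespace Pool.Agent.EXL

variable {K : Subfield ℂ} {φ : AddChar ℚ ℂ} {ι : Type} [Fintype ι]

/-- The points of `ℂ` which are values of `ex` at rational combinations. -/
private noncomputable def exChar (φ : AddChar ℚ ℂ) (w : ι → X) : AddChar (ι → ℚ) ℂ where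
  toFun q := ex φ (∑ j, q j • w j)
  map_zero_eq_one' := by simp [ex_zero]
  map_add_eq_mul' := by
    intro q r
    rw [← ex_add, ← Finset.sum_add_distrib]
    simp only [Pi.add_apply, add_smul]

private lemma exChar_single [DecidableEq ι] (w : ι → X) (j : ι) (c : ℚ) :
    exChar φ w (Pi.single j c) = ex φ (c • w j) := by
  change ex φ (∑ i, (Pi.single j c : ι → ℚ) i • w i) = _
  rw [Finset.sum_eq_single j]
  · rw [Pi.single_eq_same]
  · intro i _ hij
    rw [Pi.single_eq_of_ne hij, zero_smul]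
  · intro h
    exact absurd (Finset.mem_univ j) h

private lemma ex_neg (x : X) : ex φ (-x) = (ex φ x)⁻¹ := by
  have h : ex φ (x + -x) = ex φ x * ex φ (-x) := ex_add φ x (-x)
  rw [add_neg_cancel, ex_zero] at h
  exact eq_inv_of_mul_eq_one_right h.symm

private lemma ex_zsmul (n : ℤ) (x : X) : ex φ (n • x) = ex φ x ^ n := by
  rcases n.eq_nat_or_neg with ⟨k, rfl | rfl⟩
  · rw [zpow_natCast, natCast_zsmul, ex_nsmul]
  · rw [neg_zsmul, natCast_zsmul, ex_neg, ex_nsmul, zpow_neg, zpow_natCast]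

theorem exists_level (hK : Closed K φ) (w : ι → X) (hw : Indep K w) :
    ∃ N₀ : ℕ, 0 < N₀ ∧ ∀ q : ι → ℚ,
      ex φ (∑ j, q j • w j) ∈ Subfield.closure ((K : Set ℂ) ∪ Set.range (pt φ 1 w)) →
      ∀ j, ∃ n : ℤ, (N₀ : ℚ) * q j = n := by
  classical
  have hac := hK.isAlgClosed
  let F : IntermediateField K ℂ := IntermediateField.adjoin K (Set.range (pt φ 1 w))
  have hFG : (⊤ : IntermediateField K F).FG := by
    rw [IntermediateField.fg_top_iff, IntermediateField.essFiniteType_iff]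
    exact IntermediateField.fg_adjoin_of_finite (Set.finite_range _)
  have hFmem : ∀ x : ℂ, x ∈ Subfield.closure ((K : Set ℂ) ∪ Set.range (pt φ 1 w)) → x ∈ F := by
    intro x hx
    have h1 : Subfield.closure ((K : Set ℂ) ∪ Set.range (pt φ 1 w)) ≤ F.toSubfield := by
      rw [Subfield.closure_le]
      rintro y (hy | hy)
      · exact F.algebraMap_mem ⟨y, hy⟩
      · exact IntermediateField.subset_adjoin _ _ hy
    exact h1 hx
  have hb : ∀ j, ex φ (w j) ∈ F := by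
    intro j
    apply IntermediateField.subset_adjoin
    refine ⟨Sum.inr j, ?_⟩
    rw [pt_one]
    rfl
  let b : ι → Fˣ := fun j => Units.mk0 (⟨ex φ (w j), hb j⟩ : F)
    (fun h => ex_ne_zero φ (w j) (congrArg Subtype.val h))
  have hbv : ∀ m : ι → ℤ, (((∏ j, b j ^ m j : Fˣ) : F) : ℂ) = ex φ (∑ j, m j • w j) := by
    intro m
    rw [ex_sum]
    have h1 : ((∏ j, b j ^ m j : Fˣ) : F) = ∏ j, ((b j : F)) ^ m j := by
      rw [Units.coe_prod]
      exact Finset.prod_congr rfl fun j _ => Units.val_zpow_eq_zpow_val _ _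
    rw [h1]
    have h2 : ((∏ j, ((b j : F)) ^ m j : F) : ℂ) = ∏ j, (((b j : F) : ℂ)) ^ m j := by
      have := map_prod (algebraMap F ℂ) (fun j => ((b j : F)) ^ m j) Finset.univ
      simp only [map_zpow₀] at this
      exact this
    rw [h2]
    refine Finset.prod_congr rfl fun j _ => ?_
    rw [ex_zsmul]
    rfl
  have hind : ∀ m : ι → ℤ, ((∏ j, b j ^ m j : Fˣ) : F) ∈ Set.range (algebraMap K F) → m = 0 := by
    rintro m ⟨c, hc⟩
    have h1 : ex φ (∑ j, m j • w j) ∈ K := by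
      rw [← hbv, ← hc]
      exact c.2
    rw [hK.ex_mem_iff] at h1
    have h2 := hw (fun j => (m j : ℚ)) (by
      convert h1 using 1
      rw [Prod.fst_sum]
      refine Finset.sum_congr rfl fun j _ => ?_
      rw [Prod.smul_fst, zsmul_eq_mul]
      push_cast
      rfl)
    funext j
    have h3 := congrFun h2 j
    simpa using h3
  obtain ⟨N₀, hN₀, h⟩ := exists_denom hFG b hind
  refine ⟨N₀, hN₀, fun q hq j => ?_⟩
  -- common denominator
  let N : ℕ := ∏ i, (q i).den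
  have hN : 0 < N := Finset.prod_pos fun i _ => Rat.den_pos _
  have hint : ∀ i, ∃ z : ℤ, (z : ℚ) = N * q i := by
    intro i
    obtain ⟨c, hc⟩ := Finset.dvd_prod_of_mem (fun i => (q i).den) (Finset.mem_univ i)
    refine ⟨(q i).num * c, ?_⟩
    have h2 : ((q i).den : ℚ) * q i = (q i).num := Rat.den_mul_eq_num _
    have h3 : (N : ℚ) = ((q i).den : ℚ) * c := by
      change ((∏ i, (q i).den : ℕ) : ℚ) = _
      rw [hc]
      push_cast
      ring
    rw [h3]
    push_cast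
    rw [← h2]
    ring
  choose m hm using hint
  have h1 : ((∏ j, b j ^ m j : Fˣ) : F) = algebraMap K F 1 *
      (⟨ex φ (∑ j, q j • w j), hFmem _ hq⟩ : F) ^ N := by
    apply Subtype.ext
    rw [hbv, map_one, one_mul]
    change _ = (ex φ (∑ j, q j • w j)) ^ N
    rw [← ex_nsmul, Finset.smul_sum]
    congr 1
    refine Finset.sum_congr rfl fun i _ => ?_
    rw [← Nat.cast_smul_eq_nsmul ℚ, smul_smul, ← hm i, Int.cast_smul_eq_zsmul]
  obtain ⟨n, hn⟩ := h N m 1 _ hN h1 j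
  refine ⟨n, ?_⟩
  have h2 : (N₀ : ℚ) * (N * q j) = N * n := by
    rw [← hm j]
    exact_mod_cast hn
  have h3 : (N : ℚ) ≠ 0 := by exact_mod_cast hN.ne'
  apply mul_left_cancel₀ h3
  rw [← h2]
  ring

private lemma type_of_aut {κ : Type} (ρ : ℂ ≃+* ℂ) (hρ : ∀ c ∈ K, ρ c = c) (x y : κ → ℂ)
    (h : ∀ i, ρ (x i) = y i) (f : MvPolynomial κ K) :
    MvPolynomial.aeval x f = 0 ↔ MvPolynomial.aeval y f = 0 := by
  let ρ' : ℂ ≃ₐ[K] ℂ := AlgEquiv.ofRingEquiv (f := ρ) (fun c => hρ c c.2)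
  have h1 : ρ (MvPolynomial.aeval x f) = MvPolynomial.aeval y f := by
    have h2 := MvPolynomial.comp_aeval_apply x (ρ' : ℂ →ₐ[K] ℂ) f
    have h3 : (fun i => (ρ' : ℂ →ₐ[K] ℂ) (x i)) = y := funext h
    rw [h3] at h2
    exact h2
  rw [← h1]
  exact (map_eq_zero_iff ρ ρ.injective).symm

theorem kummer (hKc : (K : Set ℂ).Countable) (hK : Closed K φ) (w : ι → X) (hw : Indep K w) :
    ∃ N₀ : ℕ, 0 < N₀ ∧ ∀ u : ι → X, SameAt K φ N₀ w u → ∀ N : ℕ, 0 < N → SameAt K φ N w u := by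
  classical
  obtain ⟨N₀, hN₀, hlev⟩ := exists_level hK w hw
  refine ⟨N₀, hN₀, fun u hu M hM => ?_⟩
  suffices h : SameAt K φ (M * N₀) w u from h.of_mul hM hN₀
  obtain ⟨σ, hσK, hσ⟩ := exists_aut K hKc (pt φ N₀ w) (pt φ N₀ u) hu
  set F := Subfield.closure ((K : Set ℂ) ∪ Set.range (pt φ 1 w)) with hF
  have hKF : ∀ c ∈ K, c ∈ F := fun c hc => Subfield.subset_closure (Or.inl hc)
  have hN₀' : (N₀ : ℚ) ≠ 0 := by exact_mod_cast hN₀.ne'
  have hM' : (M : ℚ) ≠ 0 := by exact_mod_cast hM.ne'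
  have hpow : ∀ x : X, ex φ (((N₀ : ℚ) * M)⁻¹ • x) ^ M = ex φ ((N₀ : ℚ)⁻¹ • x) := by
    intro x
    rw [← ex_nsmul, ← Nat.cast_smul_eq_nsmul ℚ, smul_smul]
    congr 2
    field_simp
  have hζ : ∀ j, ∃ ζ : ℂ, ζ ^ M = 1 ∧
      ex φ (((N₀ : ℚ) * M)⁻¹ • u j) = ζ * σ (ex φ (((N₀ : ℚ) * M)⁻¹ • w j)) := by
    intro j
    have hne : σ (ex φ (((N₀ : ℚ) * M)⁻¹ • w j)) ≠ 0 := by
      rw [Ne, map_eq_zero_iff σ σ.injective]
      exact ex_ne_zero φ _
    refine ⟨ex φ (((N₀ : ℚ) * M)⁻¹ • u j) / σ (ex φ (((N₀ : ℚ) * M)⁻¹ • w j)), ?_, ?_⟩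
    · rw [div_pow, ← map_pow, hpow, hpow]
      have h1 : σ (ex φ ((N₀ : ℚ)⁻¹ • w j)) = ex φ ((N₀ : ℚ)⁻¹ • u j) := hσ (Sum.inr j)
      rw [h1, div_self (ex_ne_zero φ _)]
    · rw [div_mul_cancel₀ _ hne]
  choose ζ hζM hζu using hζ
  have hζK : ∀ j, ζ j ∈ K := fun j => hK.root_mem hM (hζM j)
  obtain ⟨τ, hτF, -, hτ⟩ := kummer_gal (exChar φ w) F
    (fun n z hn hz => hKF _ (hK.root_mem hn hz))
    (fun j => by
      rw [exChar_single]
      apply Subfield.subset_closure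
      refine Or.inr ⟨Sum.inr j, ?_⟩
      rw [pt_one, one_smul]
      rfl) N₀ hN₀ hlev M hM ζ hζM
  intro f
  refine type_of_aut (τ.trans σ) (fun c hc => ?_) _ _ (fun i => ?_) f
  · rw [RingEquiv.trans_apply, hτF c (hKF c hc), hσK c hc]
  · have hcast : (((M * N₀ : ℕ) : ℚ))⁻¹ = ((N₀ : ℚ) * M)⁻¹ := by
      push_cast
      rw [mul_comm]
    rcases i with j | j
    · change σ (τ (w j).1) = (u j).1
      rw [hτF]
      · exact hσ (Sum.inl j)
      · apply Subfield.subset_closure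
        refine Or.inr ⟨Sum.inl j, ?_⟩
        rw [pt_one]
        rfl
    · change σ (τ (ex φ ((((M * N₀ : ℕ) : ℚ))⁻¹ • w j))) = ex φ ((((M * N₀ : ℕ) : ℚ))⁻¹ • u j)
      have h1 := hτ j
      rw [exChar_single] at h1
      rw [hcast, h1, map_mul, hσK _ (hζK j), ← hζu j]

end Pool.Agent.EXL
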