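import Pool.Agent.EXL.Pair
import Pool.Agent.EXL.Kum
import Pool.Agent.EXL.Form
import Pool.Agent.EXL.Gen
import Pool.Agent.EXL.Input

/-!
# EXL / StepB: the algebraic step

PROOF of `stepB`.  Take `γ` from `ext_good` (`z = c + ..`), `w₊ = (w, γ)`, and `N₀` from `kummer` for
`w₊`; put `u = N₀⁻¹ • w₊ = (u₁, u₂)`, good by `good_smul`, with `rho u = rho u₁ = rho w`, and
`u₁' = N₀⁻¹ • w'`. By `sameAt_iff` `u₁, u₁'` have the same type at level 1. `exists_aut`: `σ` over `K`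
with `σ (pt φ 1 u₁) = pt φ 1 u₁'`. Put `p = (a, b) = σ (pt φ 1 u₂)`, `k` the algebraic closure in `ℂ`
of `K(pt φ 1 u₁')` (countable, algebraically closed). Then (`td_conj`, `td_rel` for `u₁, u₂`)
`td (K ∪ pt φ 1 u₁') p = card κ`, and the same over `k` (`derOver_algebraic`). `hform`: if
`D ∈ DerOver k` satisfies the rule at `p` then `conj σ⁻¹ D ∈ RelDer K φ u₁ u₂`, so `D a_j = 0` by
`form`. Let `h` be the polynomial of `gen` for `u`; `h(pt φ 1 u) ≠ 0` gives
`h(pt φ 1 u₁', p) ≠ 0`: substitute `pt φ 1 u₁'` to get a polynomial `h'` over `k` in the coordinates of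
`p`. `inputI` gives `v : κ → X` such that `pt φ 1 v` is in the locus of `p` over `k` and
`h'(pt φ 1 v) ≠ 0`. So `(u₁', v)` satisfies all polynomials over `K` which vanish at `(u₁', p)`, i.e.
at `u`; `rho (u₁', v) ≥ rho u₁' = rho u` (`rho_le_sum`, `rho_eq_of_sameAt`), so by `gen` it has the same
type at level 1 as `u`. Hence `(w', N₀ • v)` has the same type at level `N₀` as `w₊` (`sameAt_iff`),
so at all levels by `kummer`, and it is good (`SameAt.good`).
-/

set_option autoImplicit false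

namespace Pool.Agent.EXL

open MvPolynomial

section aux

variable {K : Subfield ℂ} {φ : AddChar ℚ ℂ} {ι κ : Type}

private lemma sb_closure (A : Set ℂ) (hA : A.Countable) :
    ∃ k : Subfield ℂ, (k : Set ℂ).Countable ∧ IsAlgClosed k ∧ A ⊆ k ∧
      DerOver (k : Set ℂ) = DerOver A := by
  set F : Subfield ℂ := Subfield.closure A with hF
  have hFc : Countable F := by
    rw [← Cardinal.mk_le_aleph0_iff]
    refine (Subfield.cardinalMk_closure_le_max A).trans (max_le ?_ le_rfl)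
    exact Cardinal.mk_le_aleph0_iff.2 hA.to_subtype
  have hsub : A ⊆ F := Subfield.subset_closure
  have hmem : ∀ x : ℂ, x ∈ (algebraicClosure F ℂ).toSubfield ↔ IsAlgebraic F x := fun x =>
    mem_algebraicClosure_iff
  refine ⟨(algebraicClosure F ℂ).toSubfield, ?_, ?_, ?_, ?_⟩
  · have h1 := Algebraic.countable F ℂ
    refine h1.mono fun x hx => ?_
    exact (hmem x).1 hx
  · have h1 : IsAlgClosure F (algebraicClosure F ℂ) := inferInstance
    exact h1.1
  · intro x hx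
    exact (hmem x).2 (isAlgebraic_algebraMap (⟨x, hsub hx⟩ : F))
  · apply le_antisymm
    · apply derOver_anti
      intro x hx
      exact (hmem x).2 (isAlgebraic_algebraMap (⟨x, hsub hx⟩ : F))
    · intro D hD x hx
      have h1 : D ∈ DerOver (F : Set ℂ) := by
        rw [hF, derOver_closure]
        exact hD
      exact derOver_algebraic F D h1 x ((hmem x).1 hx)

private def comb (x : ι ⊕ ι → ℂ) (y : κ ⊕ κ → ℂ) : (ι ⊕ κ) ⊕ (ι ⊕ κ) → ℂ :=
  Sum.elim (Sum.elim (fun i => x (Sum.inl i)) (fun l => y (Sum.inl l)))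
    (Sum.elim (fun i => x (Sum.inr i)) (fun l => y (Sum.inr l)))

private lemma pt_comb (w : ι → X) (γ : κ → X) :
    pt φ 1 (Sum.elim w γ) = comb (pt φ 1 w) (pt φ 1 γ) := by
  funext i
  rcases i with (i | i) | (i | i) <;> rfl

private lemma sb_sub {k : Subfield ℂ} (hKk : K ≤ k) (x : ι ⊕ ι → ℂ) (hx : ∀ i, x i ∈ k)
    (f : MvPolynomial ((ι ⊕ κ) ⊕ (ι ⊕ κ)) K) :
    ∃ f' : MvPolynomial (κ ⊕ κ) k, ∀ y : κ ⊕ κ → ℂ, aeval y f' = aeval (comb x y) f := by
  refine ⟨eval₂ (C.comp (Subfield.inclusion hKk))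
    (Sum.elim (Sum.elim (fun i => C ⟨x (Sum.inl i), hx _⟩) (fun l => MvPolynomial.X (Sum.inl l)))
      (Sum.elim (fun i => C ⟨x (Sum.inr i), hx _⟩) (fun l => MvPolynomial.X (Sum.inr l)))) f, ?_⟩
  intro y
  induction f using MvPolynomial.induction_on with
  | C a =>
    rw [eval₂_C, RingHom.comp_apply, aeval_C, aeval_C]
    rfl
  | add p q hp hq => rw [eval₂_add, map_add, map_add, hp, hq]
  | mul_X p i hp =>
    rw [eval₂_mul, map_mul, map_mul, hp, eval₂_X, aeval_X]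
    congr 1
    rcases i with (i | i) | (i | i)
    · simp only [Sum.elim_inl]
      rw [aeval_C]
      rfl
    · simp only [Sum.elim_inl, Sum.elim_inr]
      rw [aeval_X]
      rfl
    · simp only [Sum.elim_inl, Sum.elim_inr]
      rw [aeval_C]
      rfl
    · simp only [Sum.elim_inr]
      rw [aeval_X]
      rfl

private lemma sb_sigma (σ : ℂ ≃+* ℂ) (hσ : ∀ c ∈ K, σ c = c) (x : ι → ℂ)
    (f : MvPolynomial ι K) : σ (aeval x f) = aeval (fun i => σ (x i)) f := by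
  induction f using MvPolynomial.induction_on with
  | C a =>
    rw [aeval_C, aeval_C]
    exact hσ _ a.2
  | add p q hp hq => rw [map_add, map_add, map_add, hp, hq]
  | mul_X p i hp => rw [map_mul, map_mul, map_mul, hp, aeval_X, aeval_X]

end aux

variable {K : Subfield ℂ} {φ : AddChar ℚ ℂ} {ι : Type} [Fintype ι]

theorem stepB (hφ : ‖φ 1‖ ≠ 1) (hKc : (K : Set ℂ).Countable) (hK : Closed K φ) (w w' : ι → X)
    (h : Pair K φ w w') (z : ℂ) (hz : z ∈ cl ((K : Set ℂ) ∪ Set.range (fun j => (w j).1))) :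
    ∃ (s : ℕ) (γ γ' : Fin s → X), Pair K φ (Sum.elim w γ) (Sum.elim w' γ') ∧
      ∃ c ∈ K, ∃ (q : ι → ℚ) (p : Fin s → ℚ),
        z = c + ∑ j, (q j : ℂ) * (w j).1 + ∑ l, (p l : ℂ) * (γ l).1 := by
  obtain ⟨hw, hw', hsame⟩ := h
  obtain ⟨s, γ, hgood, hrho, c, hc, q, p, hzz⟩ := ext_good hK w hw z hz
  obtain ⟨N₀, hN₀, hkum⟩ := kummer hKc hK (Sum.elim w γ) hgood.1
  have hN0' : (N₀ : ℚ) ≠ 0 := Nat.cast_ne_zero.2 hN₀.ne'
  set u₁ : ι → X := fun j => (N₀ : ℚ)⁻¹ • w j with hu₁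
  set u₂ : Fin s → X := fun j => (N₀ : ℚ)⁻¹ • γ j with hu₂
  set u₁' : ι → X := fun j => (N₀ : ℚ)⁻¹ • w' j with hu₁'
  have hsplit : (fun j => (N₀ : ℚ)⁻¹ • (Sum.elim w γ) j) = Sum.elim u₁ u₂ := by
    funext j
    rcases j with j | j <;> rfl
  have hgu : Good K φ (Sum.elim u₁ u₂) := by
    rw [← hsplit]
    exact good_smul hK _ hgood hN₀
  have hg1 : Good K φ u₁ := good_smul hK w hw hN₀
  have hg1' : Good K φ u₁' := good_smul hK w' hw' hN₀
  have hrho1 : rho K (Sum.elim u₁ u₂) = rho K u₁ := by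
    rw [← hsplit, rho_smul _ hN₀, rho_smul _ hN₀, hrho]
  have hsame1 : SameAt K φ 1 u₁ u₁' := (sameAt_iff w w' hN₀).1 (hsame N₀ hN₀)
  obtain ⟨σ, hσK, hσ⟩ := exists_aut K hKc (pt φ 1 u₁) (pt φ 1 u₁') hsame1
  -- the base field
  set A : Set ℂ := (K : Set ℂ) ∪ Set.range (pt φ 1 u₁) with hA
  set A' : Set ℂ := (K : Set ℂ) ∪ Set.range (pt φ 1 u₁') with hA'
  have hA'c : A'.Countable := hKc.union (Set.finite_range _).countable
  obtain ⟨k, hk, hkac, hA'k, hder⟩ := sb_closure A' hA'c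
  have hKk : K ≤ k := fun x hx => hA'k (Or.inl hx)
  have hxk : ∀ i, pt φ 1 u₁' i ∈ k := fun i => hA'k (Or.inr ⟨i, rfl⟩)
  have hσA : σ '' A = A' := by
    rw [hA, hA', Set.image_union]
    congr 1
    · ext x
      constructor
      · rintro ⟨y, hy, rfl⟩
        rw [hσK y hy]
        exact hy
      · intro hx
        exact ⟨x, hx, hσK x hx⟩
    · rw [← Set.range_comp]
      congr 1
      funext i
      exact hσ i
  -- the point `(a, b)`
  set a : Fin s → ℂ := fun j => σ (u₂ j).1 with ha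
  set b : Fin s → ℂ := fun j => σ (ex φ (u₂ j)) with hb
  have hab : Sum.elim a b = fun i => σ (pt φ 1 u₂ i) := by
    rw [pt_one]
    funext i
    rcases i with i | i <;> rfl
  have hb0 : ∀ j, b j ≠ 0 := by
    intro j h0
    exact ex_ne_zero φ (u₂ j) ((map_eq_zero σ).1 h0)
  have htd : td (k : Set ℂ) (Sum.elim a b) = Fintype.card (Fin s) := by
    have h1 := td_rel (K := K) (φ := φ) u₁ u₂ hg1 hgu hrho1
    have h2 := td_conj σ A (pt φ 1 u₂)
    rw [hσA] at h2
    rw [← h1, ← h2, ← hab]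
    unfold td
    rw [hder]
  have hform : ∀ D ∈ DerOver (k : Set ℂ), (∀ j, D (b j) = b j * D (a j)) → ∀ j, D (a j) = 0 := by
    intro D hD hrule j
    have hD' : conj σ.symm D ∈ RelDer K φ u₁ u₂ := by
      refine ⟨?_, fun l => ?_⟩
      · intro x hx
        rw [conj_apply, RingEquiv.symm_symm]
        have h1 : σ x ∈ A' := by
          rw [← hσA]
          exact ⟨x, hx, rfl⟩
        rw [hder] at hD
        rw [hD _ h1, map_zero]
      · rw [conj_apply, conj_apply, RingEquiv.symm_symm]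
        have h1 := hrule l
        rw [hb, ha] at h1
        simp only at h1
        rw [h1, map_mul, RingEquiv.symm_apply_apply]
    have h1 := form hK u₁ u₂ hg1 hgu hrho1 _ hD' j
    rw [conj_apply, RingEquiv.symm_symm] at h1
    exact (map_eq_zero σ.symm).1 h1
  -- genericity
  obtain ⟨h, hh, hgen⟩ := gen hKc hK (Sum.elim u₁ u₂) hgu
  have hσu : ∀ f : MvPolynomial ((ι ⊕ Fin s) ⊕ (ι ⊕ Fin s)) K,
      aeval (comb (pt φ 1 u₁') (Sum.elim a b)) f = σ (aeval (pt φ 1 (Sum.elim u₁ u₂)) f) := by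
    intro f
    rw [sb_sigma σ hσK]
    have h1 : (fun i => σ (pt φ 1 (Sum.elim u₁ u₂) i)) = comb (pt φ 1 u₁') (Sum.elim a b) := by
      rw [pt_comb, hab]
      funext i
      rcases i with (i | i) | (i | i)
      · exact hσ (Sum.inl i)
      · rfl
      · exact hσ (Sum.inr i)
      · rfl
    rw [h1]
  obtain ⟨h', hh'⟩ := sb_sub (κ := Fin s) hKk (pt φ 1 u₁') hxk h
  obtain ⟨v, hv1, hv2⟩ := inputI φ hφ k hk hkac a b hb0 htd hform h' (by
    rw [hh', hσu]
    exact fun h0 => hh ((map_eq_zero σ).1 h0))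
  have hspec : ∀ f : MvPolynomial ((ι ⊕ Fin s) ⊕ (ι ⊕ Fin s)) K,
      aeval (pt φ 1 (Sum.elim u₁ u₂)) f = 0 → aeval (pt φ 1 (Sum.elim u₁' v)) f = 0 := by
    intro f hf
    obtain ⟨f', hf'⟩ := sb_sub (κ := Fin s) hKk (pt φ 1 u₁') hxk f
    have h1 : aeval (Sum.elim a b) f' = 0 := by
      rw [hf', hσu, hf, map_zero]
    have h2 := hv1 f' h1
    rw [hf'] at h2
    rw [pt_comb]
    exact h2
  have hrho2 : rho K (Sum.elim u₁ u₂) ≤ rho K (Sum.elim u₁' v) := by
    rw [hrho1, rho_eq_of_sameAt hsame1 hg1 hg1']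
    exact rho_le_sum u₁' v
  have hgen2 := hgen (Sum.elim u₁' v) hspec hrho2 (by
    rw [pt_comb, ← hh']
    exact hv2)
  have hS1 : SameAt K φ 1 (Sum.elim u₁ u₂) (Sum.elim u₁' v) := fun f => ⟨hspec f, hgen2 f⟩
  -- back to level `N₀`
  set γ' : Fin s → X := fun l => (N₀ : ℚ) • v l with hγ'
  have hsplit' : (fun j => (N₀ : ℚ)⁻¹ • (Sum.elim w' γ') j) = Sum.elim u₁' v := by
    funext j
    rcases j with j | j
    · rfl
    · show (N₀ : ℚ)⁻¹ • ((N₀ : ℚ) • v j) = v j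
      rw [smul_smul, inv_mul_cancel₀ hN0', one_smul]
  have hSN : SameAt K φ N₀ (Sum.elim w γ) (Sum.elim w' γ') := by
    rw [sameAt_iff _ _ hN₀, hsplit, hsplit']
    exact hS1
  have hall := hkum _ hSN
  have hrho3 : rho K (Sum.elim w γ) ≤ rho K (Sum.elim w' γ') := by
    rw [hrho, rho_eq_of_sameAt (hsame 1 one_pos) hw hw']
    exact rho_le_sum w' γ'
  exact ⟨s, γ, γ', ⟨hgood, (hall 1 one_pos).good hK hgood hrho3, hall⟩, c, hc, q, p, hzz⟩

end Pool.Agent.EXL
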