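import Pool.Agent.EXL.StepA
import Pool.Agent.EXL.StepB
import Pool.Agent.EXL.Def
import Pool.Agent.EXL.Cnt

/-!
# EXL / Bf: the back and forth system

PROOFS.  `Bf.poly`: substitute `v i = e i + ∑ q_{ij} (w j).1`; a polynomial over `K` at
`pt φ 1 w`, use the `SameAt` of level 1.
`Bf.rel`: `v i = e_i + ∑_l q_{i,l} (w l).1`, `v j = exp (v i) * φ q = exp (e_i) * φ q' *
∏_l ex φ (q_{i,l} • w l)` for a rational `q'`, and `ex φ (q_{i,l} • w l)` is an integral power of
`ex φ (N⁻¹ • w l)` for a common denominator `N`. This is a polynomial relation over `K` at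
`pt φ N w` (multiply with the negative powers), so it holds for `w'`, and
`exp (v' i) φ q'' = exp (e_i) φ q' ∏ ex φ (q_{i,l} • w' l)`.
`Bf.step`: `stepA` (`z'` exists because the closure of a countable set is countable) or `stepB`.
`Bf.start`: `stepA` for the empty tuples (`ι = Empty` or `Fin 0`): `cl (K ∪ ∅) ≤ K`.
`quasiminimal_phi`: `K = cl (A ∪ Set.range φ)`, countable and closed; `Definable.iff_of_bf` for
`P = Bf K φ`.
-/

set_option autoImplicit false

namespace Pool.Agent.EXL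

variable {K : Subfield ℂ} {φ : AddChar ℚ ℂ} {ι : Type} [Fintype ι]

/-- The back and forth relation on tuples of complex numbers. -/
def Bf (K : Subfield ℂ) (φ : AddChar ℚ ℂ) (n : ℕ) (v v' : Fin n → ℂ) : Prop :=
  ∃ (ι : Type) (_ : Fintype ι) (w w' : ι → X), Pair K φ w w' ∧
    ∃ (e : Fin n → ℂ) (q : Fin n → ι → ℚ), (∀ i, e i ∈ K) ∧
      (∀ i, v i = e i + ∑ j, (q i j : ℂ) * (w j).1) ∧
      ∀ i, v' i = e i + ∑ j, (q i j : ℂ) * (w' j).1

theorem Bf.symm {n : ℕ} {v v' : Fin n → ℂ} (h : Bf K φ n v v') : Bf K φ n v' v := by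
  obtain ⟨ι, _, w, w', h, e, q, he, h1, h2⟩ := h
  exact ⟨ι, _, w', w, h.symm, e, q, he, h2, h1⟩

private lemma aeval_lin (N : ℕ) (w : ι → X) (e : K) (q : ι → ℚ) :
    MvPolynomial.aeval (pt φ N w) ((MvPolynomial.C e +
      ∑ j, MvPolynomial.C (q j : K) * MvPolynomial.X (Sum.inl j) : MvPolynomial (ι ⊕ ι) K)) =
      (e : ℂ) + ∑ j, (q j : ℂ) * (w j).1 := by
  rw [map_add, map_sum, MvPolynomial.aeval_C]
  congr 1
  refine Finset.sum_congr rfl fun j _ => ?_
  rw [map_mul, MvPolynomial.aeval_C, MvPolynomial.aeval_X]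
  congr 1

/-- Algebraic relations over `K` are preserved. -/
theorem Bf.poly {n : ℕ} {v v' : Fin n → ℂ} (h : Bf K φ n v v') (f : MvPolynomial (Fin n) K)
    (hf : MvPolynomial.aeval v f = 0) : MvPolynomial.aeval v' f = 0 := by
  obtain ⟨ι, _, w, w', hp, e, q, he, h1, h2⟩ := h
  let s : Fin n → MvPolynomial (ι ⊕ ι) K := fun i => MvPolynomial.C ⟨e i, he i⟩ +
    ∑ j, MvPolynomial.C (q i j : K) * MvPolynomial.X (Sum.inl j)
  have key : ∀ (u : ι → X) (x : Fin n → ℂ), (∀ i, x i = e i + ∑ j, (q i j : ℂ) * (u j).1) →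
      MvPolynomial.aeval (pt φ 1 u) (MvPolynomial.bind₁ s f) = MvPolynomial.aeval x f := by
    intro u x hx
    rw [MvPolynomial.aeval_bind₁]
    congr 2
    funext i
    rw [hx i]
    exact aeval_lin 1 u ⟨e i, he i⟩ (q i)
  rw [← key w' v' h2]
  rw [← key w v h1] at hf
  exact (hp.2.2 1 one_pos _).1 hf

private lemma ex_sum_smul (q : ι → ℚ) (w : ι → X) :
    ∏ l, ex φ (q l • w l) = Complex.exp (∑ l, (q l : ℂ) * (w l).1) * φ (∑ l, q l * (w l).2) := by
  rw [← ex_sum]
  unfold ex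
  rw [Prod.fst_sum, Prod.snd_sum]
  congr 2

private lemma exists_den (q : ι → ℚ) : ∃ (N : ℕ) (a b : ι → ℕ), 0 < N ∧
    ∀ l, q l + (a l : ℚ) * (N : ℚ)⁻¹ = (b l : ℚ) * (N : ℚ)⁻¹ := by
  classical
  refine ⟨∏ l, (q l).den, fun l => ((-(q l).num) * ∏ k ∈ Finset.univ.erase l, (q k).den).toNat,
    fun l => ((q l).num * ∏ k ∈ Finset.univ.erase l, (q k).den).toNat,
    Finset.prod_pos fun l _ => (q l).pos, fun l => ?_⟩
  have hN : ((∏ l, (q l).den : ℕ) : ℚ) ≠ 0 := by
    exact_mod_cast (Finset.prod_pos fun l _ => (q l).pos).ne'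
  have h1 : (q l).num * ∏ k ∈ Finset.univ.erase l, ((q k).den : ℤ) =
      ((((q l).num * ∏ k ∈ Finset.univ.erase l, ((q k).den : ℤ)).toNat : ℤ)) -
        (((-(q l).num) * ∏ k ∈ Finset.univ.erase l, ((q k).den : ℤ)).toNat : ℤ) := by
    rw [neg_mul]
    omega
  have h2 : q l * (∏ l, (q l).den : ℕ) =
      (((q l).num * ∏ k ∈ Finset.univ.erase l, ((q k).den : ℤ) : ℤ) : ℚ) := by
    rw [← Finset.mul_prod_erase _ _ (Finset.mem_univ l)]
    push_cast
    rw [← mul_assoc, Rat.mul_den_eq_num]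
  rw [← div_eq_mul_inv, ← div_eq_mul_inv, ← sub_eq_zero]
  field_simp
  rw [h2, h1]
  push_cast
  ring

theorem Bf.rel (hK : Closed K φ) {n : ℕ} {v v' : Fin n → ℂ} (h : Bf K φ n v v') (i j : Fin n)
    (hij : ExpMod (Set.range φ) (v i) (v j)) : ExpMod (Set.range φ) (v' i) (v' j) := by
  obtain ⟨ι, _, w, w', hp, e, q, he, h1, h2⟩ := h
  obtain ⟨_, ⟨q₀, rfl⟩, hg⟩ := hij
  obtain ⟨N, a, b, hN, hab⟩ := exists_den (q i)
  set r : ℚ := -∑ l, q i l * (w l).2 with hr
  have hκ : Complex.exp (e i) * φ (r + q₀) ∈ K := mul_mem (hK.exp_mem (he i)) (hK.2 _)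
  have hroot : ∀ (u : ι → X), (∏ l, ex φ (q i l • u l)) *
      ∏ l, ex φ ((N : ℚ)⁻¹ • u l) ^ a l = ∏ l, ex φ ((N : ℚ)⁻¹ • u l) ^ b l := by
    intro u
    rw [← Finset.prod_mul_distrib]
    refine Finset.prod_congr rfl fun l _ => ?_
    rw [← ex_nsmul, ← ex_nsmul, ← ex_add]
    congr 1
    rw [← Nat.cast_smul_eq_nsmul ℚ, ← Nat.cast_smul_eq_nsmul ℚ, smul_smul, smul_smul, ← add_smul,
      hab l]
  have hpos : ∀ (u : ι → X), ∏ l, ex φ ((N : ℚ)⁻¹ • u l) ^ a l ≠ 0 := fun u =>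
    Finset.prod_ne_zero_iff.2 fun l _ => pow_ne_zero _ (ex_ne_zero φ _)
  let f : MvPolynomial (ι ⊕ ι) K := (MvPolynomial.C ⟨e j, he j⟩ +
    ∑ l, MvPolynomial.C (q j l : K) * MvPolynomial.X (Sum.inl l)) *
      ∏ l, MvPolynomial.X (Sum.inr l) ^ a l -
    MvPolynomial.C ⟨_, hκ⟩ * ∏ l, MvPolynomial.X (Sum.inr l) ^ b l
  have key : ∀ (u : ι → X) (x : ℂ), x = e j + ∑ l, (q j l : ℂ) * (u l).1 →
      MvPolynomial.aeval (pt φ N u) f = x * (∏ l, ex φ ((N : ℚ)⁻¹ • u l) ^ a l) -
        (Complex.exp (e i) * φ (r + q₀)) * ∏ l, ex φ ((N : ℚ)⁻¹ • u l) ^ b l := by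
    intro u x hx
    have e1 := aeval_lin (φ := φ) N u ⟨e j, he j⟩ (q j)
    rw [map_sub, map_mul, map_mul, e1, hx, MvPolynomial.aeval_C, map_prod, map_prod]
    congr 1
    · congr 1
      refine Finset.prod_congr rfl fun l _ => ?_
      rw [map_pow, MvPolynomial.aeval_X]
      rfl
    · congr 1
      refine Finset.prod_congr rfl fun l _ => ?_
      rw [map_pow, MvPolynomial.aeval_X]
      rfl
  have hw0 : MvPolynomial.aeval (pt φ N w) f = 0 := by
    rw [key w (v j) (h1 j), sub_eq_zero, ← hroot w, hg, h1 i, ex_sum_smul, Complex.exp_add]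
    rw [show φ (r + q₀) = φ q₀ * φ r by rw [add_comm, AddChar.map_add_eq_mul]]
    have h3 : φ r * φ (∑ l, q i l * (w l).2) = 1 := by
      rw [← AddChar.map_add_eq_mul, hr, neg_add_cancel, AddChar.map_zero_eq_one]
    linear_combination (-(Complex.exp (e i) * Complex.exp (∑ l, (q i l : ℂ) * (w l).1) * φ q₀ *
      ∏ l, ex φ ((N : ℚ)⁻¹ • w l) ^ a l)) * h3
  have hw1 := (hp.2.2 N hN f).1 hw0
  rw [key w' (v' j) (h2 j), sub_eq_zero, ← hroot w', ← mul_assoc] at hw1
  have h4 := mul_right_cancel₀ (hpos w') hw1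
  refine ⟨φ (r + q₀ + ∑ l, q i l * (w' l).2), ⟨_, rfl⟩, ?_⟩
  rw [h4, h2 i, ex_sum_smul, Complex.exp_add, AddChar.map_add_eq_mul φ (r + q₀)]
  ring

theorem Bf.step (hφ : ‖φ 1‖ ≠ 1) (hKc : (K : Set ℂ).Countable) (hK : Closed K φ) {n : ℕ}
    {v v' : Fin n → ℂ} (h : Bf K φ n v v') (z : ℂ) :
    ∃ z', Bf K φ (n + 1) (Fin.snoc v z) (Fin.snoc v' z') := by
  obtain ⟨ι, _, w, w', hp, e, q, he, h1, h2⟩ := h
  by_cases hz : z ∈ cl ((K : Set ℂ) ∪ Set.range (fun j => (w j).1))
  · obtain ⟨s, γ, γ', hpair, c, hc, q1, p, hzc⟩ := stepB hφ hKc hK w w' hp z hz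
    refine ⟨c + ∑ j, (q1 j : ℂ) * (w' j).1 + ∑ l, (p l : ℂ) * (γ' l).1, ι ⊕ Fin s, inferInstance,
      Sum.elim w γ, Sum.elim w' γ', hpair, Fin.snoc e c,
      Fin.snoc (fun i => Sum.elim (q i) 0) (Sum.elim q1 p), ?_, ?_, ?_⟩
    · intro i
      refine Fin.lastCases ?_ (fun i => ?_) i
      · rw [Fin.snoc_last]
        exact hc
      · rw [Fin.snoc_castSucc]
        exact he i
    · intro i
      refine Fin.lastCases ?_ (fun i => ?_) i
      · rw [Fin.snoc_last, Fin.snoc_last, Fin.snoc_last, Fintype.sum_sum_type, hzc]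
        simp only [Sum.elim_inl, Sum.elim_inr]
        ring
      · rw [Fin.snoc_castSucc, Fin.snoc_castSucc, Fin.snoc_castSucc, Fintype.sum_sum_type, h1 i]
        simp
    · intro i
      refine Fin.lastCases ?_ (fun i => ?_) i
      · rw [Fin.snoc_last, Fin.snoc_last, Fin.snoc_last, Fintype.sum_sum_type]
        simp only [Sum.elim_inl, Sum.elim_inr]
        ring
      · rw [Fin.snoc_castSucc, Fin.snoc_castSucc, Fin.snoc_castSucc, Fintype.sum_sum_type, h2 i]
        simp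
  · obtain ⟨z', hz'⟩ : ∃ z', z' ∉ cl ((K : Set ℂ) ∪ Set.range (fun j => (w' j).1)) := by
      by_contra hcon
      push Not at hcon
      have h3 := countable_cl ((K : Set ℂ) ∪ Set.range (fun j => (w' j).1))
        (hKc.union (Set.countable_range _))
      apply not_countable_complex
      rwa [show (cl ((K : Set ℂ) ∪ Set.range (fun j => (w' j).1)) : Set ℂ) = Set.univ from
        Set.eq_univ_of_forall hcon] at h3
    have hpair := stepA hK w w' hp z z' hz hz'
    refine ⟨z', ι ⊕ Unit, inferInstance, _, _, hpair, Fin.snoc e 0,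
      Fin.snoc (fun i => Sum.elim (q i) 0) (Sum.elim 0 1), ?_, ?_, ?_⟩
    · intro i
      refine Fin.lastCases ?_ (fun i => ?_) i
      · rw [Fin.snoc_last]
        exact zero_mem K
      · rw [Fin.snoc_castSucc]
        exact he i
    · intro i
      refine Fin.lastCases ?_ (fun i => ?_) i
      · rw [Fin.snoc_last, Fin.snoc_last, Fin.snoc_last, Fintype.sum_sum_type]
        simp
      · rw [Fin.snoc_castSucc, Fin.snoc_castSucc, Fin.snoc_castSucc, Fintype.sum_sum_type, h1 i]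
        simp
    · intro i
      refine Fin.lastCases ?_ (fun i => ?_) i
      · rw [Fin.snoc_last, Fin.snoc_last, Fin.snoc_last, Fintype.sum_sum_type]
        simp
      · rw [Fin.snoc_castSucc, Fin.snoc_castSucc, Fin.snoc_castSucc, Fintype.sum_sum_type, h2 i]
        simp

/-- Elements outside `K` are equivalent. -/
theorem Bf.start (hK : Closed K φ) (z z' : ℂ) (hz : z ∉ K) (hz' : z' ∉ K) :
    Bf K φ 1 (fun _ => z) (fun _ => z') := by
  have hgood : Good K φ (fun x : Empty => (x.elim : X)) := by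
    refine ⟨fun q _ => Subsingleton.elim _ _, ?_⟩
    have h1 : td (K : Set ℂ) (pt φ 1 (fun x : Empty => (x.elim : X))) ≤ 0 := by
      have := rk_le_card (DerOver (K : Set ℂ)) (pt φ 1 (fun x : Empty => (x.elim : X)))
      simpa [td] using this
    have h2 : rho K (fun x : Empty => (x.elim : X)) ≤ 0 := by
      have := rk_le_card (EDer ⊓ DerOver (K : Set ℂ)) (fun j : Empty => ((j.elim : X)).1)
      simpa [rho] using this
    rw [Fintype.card_empty]
    omega
  have hp : Pair K φ (fun x : Empty => (x.elim : X)) (fun x : Empty => (x.elim : X)) :=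
    ⟨hgood, hgood, fun N _ f => Iff.rfl⟩
  have hcl : cl ((K : Set ℂ) ∪ Set.range (fun j : Empty => ((j.elim : X)).1)) ≤ K := by
    rw [Set.range_eq_empty, Set.union_empty]
    exact hK.1
  have hpair := stepA hK _ _ hp z z' (fun h => hz (hcl h)) (fun h => hz' (hcl h))
  refine ⟨Empty ⊕ Unit, inferInstance, _, _, hpair, 0, fun _ => Sum.elim 0 1,
    fun _ => zero_mem K, fun i => ?_, fun i => ?_⟩
  · simp
  · simp

/-- The theorem for `φ ℚ`. -/
theorem quasiminimal_phi (hφ : ‖φ 1‖ ≠ 1) (A : Set ℂ) (hA : A.Countable)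
    (S : Set (Fin 1 → ℂ)) (hS : Definable (ExpMod (Set.range φ)) A 1 S) :
    S.Countable ∨ Sᶜ.Countable := by
  set K : Subfield ℂ := cl (A ∪ Set.range φ) with hKdef
  have hKc : (K : Set ℂ).Countable := countable_cl _ (hA.union (Set.countable_range φ))
  have hK : Closed K φ := closed_cl φ _ (fun q => Or.inr ⟨q, rfl⟩)
  have hAK : ∀ a ∈ A, a ∈ K := fun a ha => subset_cl _ (Or.inl ha)
  have hcount : {v : Fin 1 → ℂ | v 0 ∈ K}.Countable := by
    refine (hKc.image (fun z => fun _ : Fin 1 => z)).mono ?_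
    intro v hv
    refine ⟨v 0, hv, ?_⟩
    funext i
    rw [Subsingleton.elim i 0]
  have hpoly : ∀ (n : ℕ) (v v' : Fin n → ℂ), Bf K φ n v v' → ∀ f : MvPolynomial (Fin n) K,
      MvPolynomial.aeval v f = 0 → MvPolynomial.aeval v' f = 0 := fun n v v' h f hf => h.poly f hf
  have hiff := hS.iff_of_bf (P := fun n => Bf K φ n) (fun n v v' h => h.symm)
    (by
      intro n v v' h i a ha hv
      have h1 := hpoly n v v' h (MvPolynomial.X i - MvPolynomial.C ⟨a, hAK a ha⟩) (by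
        rw [map_sub, MvPolynomial.aeval_X, MvPolynomial.aeval_C, hv]
        exact sub_self _)
      rw [map_sub, MvPolynomial.aeval_X, MvPolynomial.aeval_C] at h1
      exact sub_eq_zero.1 h1)
    (by
      intro n v v' h i j hv
      have h1 := hpoly n v v' h (MvPolynomial.X i - MvPolynomial.X j) (by
        rw [map_sub, MvPolynomial.aeval_X, MvPolynomial.aeval_X, hv, sub_self])
      rw [map_sub, MvPolynomial.aeval_X, MvPolynomial.aeval_X] at h1
      exact sub_eq_zero.1 h1)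
    (by
      intro n v v' h i j k hv
      have h1 := hpoly n v v' h (MvPolynomial.X i + MvPolynomial.X j - MvPolynomial.X k) (by
        rw [map_sub, map_add, MvPolynomial.aeval_X, MvPolynomial.aeval_X, MvPolynomial.aeval_X, hv,
          sub_self])
      rw [map_sub, map_add, MvPolynomial.aeval_X, MvPolynomial.aeval_X,
        MvPolynomial.aeval_X] at h1
      exact sub_eq_zero.1 h1)
    (by
      intro n v v' h i j k hv
      have h1 := hpoly n v v' h (MvPolynomial.X i * MvPolynomial.X j - MvPolynomial.X k) (by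
        rw [map_sub, map_mul, MvPolynomial.aeval_X, MvPolynomial.aeval_X, MvPolynomial.aeval_X, hv,
          sub_self])
      rw [map_sub, map_mul, MvPolynomial.aeval_X, MvPolynomial.aeval_X,
        MvPolynomial.aeval_X] at h1
      exact sub_eq_zero.1 h1)
    (fun n v v' h i j hv => h.rel hK i j hv)
    (fun n v v' h z => h.step hφ hKc hK z)
  by_cases hex : ∃ v ∈ S, v 0 ∉ K
  · right
    obtain ⟨v, hv, hv0⟩ := hex
    refine hcount.mono ?_
    intro v' hv'
    by_contra hv'0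
    apply hv'
    have h1 := Bf.start hK (v 0) (v' 0) hv0 hv'0
    have e1 : (fun _ : Fin 1 => v 0) = v := by
      funext i
      rw [Subsingleton.elim i 0]
    have e2 : (fun _ : Fin 1 => v' 0) = v' := by
      funext i
      rw [Subsingleton.elim i 0]
    rw [e1, e2] at h1
    exact (hiff v v' h1).1 hv
  · left
    push Not at hex
    exact hcount.mono fun v hv => hex v hv

end Pool.Agent.EXL
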