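import Mathlib

/-!
# EXL / Cana: an analytic function is locally constant on a set of constant rank

Let `g : Fin M → (Fin n → ℂ) → ℂ` be smooth functions on `ℂ^n` (in the application: exponential
polynomials), `I : Fin r → Fin M`, `Z` the set of common zeros of all `g m` with `H s ≠ 0`.
Write `∂_j` for the partial derivatives.

PROOF of `countable_image`.  It is enough to find for every `s₁ ∈ Z` a neighbourhood `U` such that
`s ↦ s i₀` is constant on `Z ∩ U` (then `Z` is covered by countably many such sets: Lindelöf,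
`TopologicalSpace.countable_cover_nhds` or similar). By `hind` there are `r` coordinates
`J : Fin r → Fin n` such that `det (∂_{J c} g_{I i}(s₁)) ≠ 0`. The map
`Ψ : ℂ^n → ℂ^n`, which replaces the coordinates `J` by `g_I` and keeps the others, has an invertible
derivative at `s₁`; by the inverse function theorem (`ContDiffAt.toOpenPartialHomeomorph`) it is a
diffeomorphism from an open `U ∋ s₁`, on which `H ≠ 0`, onto a ball (sup norm) around
`Ψ(s₁) = (0, c)`. If `s₂ ∈ Z ∩ U` then the segment from `Ψ(s₁) = (0, c₁)` to `Ψ(s₂) = (0, c₂)` is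
in the ball, and `γ = Ψ⁻¹(segment)` is a `C^1` path in `U` from `s₁` to `s₂` on which all
`g_{I i} = 0`. Along `γ`: `(g_{I i} ∘ γ)' = 0`, and for all `m` by `hrank`
`H (g_m ∘ γ)' = ∑_j H ∂_j g_m γ_j' = ∑_i q_{m,i} ∑_j ∂_j g_{I i} γ_j' + ∑_{m'} g_{m'} (∑_j B_{m,m',j} γ_j')
= ∑_{m'} (g_{m'} ∘ γ) (…)`, a homogeneous linear system of ordinary differential equations for the
vector `(g_m ∘ γ)_m` with continuous coefficients, and `g_m(s₁) = 0`: so `g_m ∘ γ = 0` for all `m`
(Gronwall, `ODE_solution_unique` or `norm_le_gronwallBound_of_norm_deriv_right_le`). Then `hi₀`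
gives in the same way `H γ_{i₀}' = 0`, so `γ_{i₀}` is constant and `s₁ i₀ = s₂ i₀`.
-/

set_option autoImplicit false

namespace Pool.Agent.EXL

/-- The partial derivative in the direction `j`. -/
noncomputable def pd {n : ℕ} (j : Fin n) (g : (Fin n → ℂ) → ℂ) (s : Fin n → ℂ) : ℂ :=
  fderiv ℂ g s (Pi.single j 1)

open Topology in
/-- Points of a regular fibre near `s₁` are joined to `s₁` by a `C^1` path in the fibre. -/
lemma exists_path {E F : Type*} [NormedAddCommGroup E] [NormedSpace ℂ E] [FiniteDimensional ℂ E]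
    [NormedAddCommGroup F] [NormedSpace ℂ F] [FiniteDimensional ℂ F]
    (f : E → F) (hf : ContDiff ℂ 1 f) (s₁ : E) (hs : LinearMap.range (fderiv ℂ f s₁).toLinearMap = ⊤)
    (H : E → ℂ) (hH : Continuous H) (h0 : H s₁ ≠ 0) :
    ∀ᶠ s₂ in 𝓝 s₁, f s₂ = f s₁ → ∃ γ v : ℝ → E, γ 0 = s₁ ∧ γ 1 = s₂ ∧
      (∀ t ∈ Set.Icc (0 : ℝ) 1, HasDerivAt γ (v t) t) ∧ ContinuousOn v (Set.Icc 0 1) ∧
      (∀ t ∈ Set.Icc (0 : ℝ) 1, H (γ t) ≠ 0) ∧
      (∀ t ∈ Set.Icc (0 : ℝ) 1, ∀ᶠ t' in 𝓝 t, f (γ t') = f s₁) := by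
  have : CompleteSpace E := FiniteDimensional.complete ℂ E
  have : CompleteSpace F := FiniteDimensional.complete ℂ F
  set D := fderiv ℂ f s₁ with hD
  set K := LinearMap.ker D.toLinearMap with hK
  have : CompleteSpace K := FiniteDimensional.complete ℂ K
  obtain ⟨π, hπ⟩ := Submodule.ClosedComplemented.of_finiteDimensional K
  -- the equivalence
  have hπr : LinearMap.range π.toLinearMap = ⊤ := by
    rw [LinearMap.range_eq_top]
    intro x
    exact ⟨x, hπ x⟩
  have hcompl : IsCompl (LinearMap.ker D.toLinearMap) (LinearMap.ker π.toLinearMap) := by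
    constructor
    · rw [Submodule.disjoint_def]
      intro x hx hx'
      have h1 := hπ ⟨x, hx⟩
      have h2 : π x = 0 := hx'
      have h3 : (⟨x, hx⟩ : K) = 0 := by rw [← h1]; exact h2
      exact congrArg Subtype.val h3
    · rw [codisjoint_iff, Submodule.eq_top_iff']
      intro x
      rw [Submodule.mem_sup]
      refine ⟨(π x : E), (π x).2, x - (π x : E), ?_, by abel⟩
      show π (x - (π x : E)) = 0
      rw [map_sub, hπ, sub_self]
  let L : E ≃L[ℂ] F × K := ContinuousLinearMap.equivProdOfSurjectiveOfIsCompl D π hs hπr hcompl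
  let Ψ : E → F × K := fun s => (f s, π s)
  have hΨ : ContDiff ℂ 1 Ψ := hf.prodMk π.contDiff
  have hL : (L : E →L[ℂ] F × K) = D.prod π := by
    ext x <;> rfl
  have hΨd : HasFDerivAt Ψ (L : E →L[ℂ] F × K) s₁ := by
    rw [hL]
    exact ((hf.differentiable (by norm_num)) s₁).hasFDerivAt.prodMk π.hasFDerivAt
  have h1ne : (1 : WithTop ℕ∞) ≠ 0 := one_ne_zero
  let e := ContDiffAt.toOpenPartialHomeomorph Ψ hΨ.contDiffAt hΨd h1ne
  have he : ⇑e = Ψ := ContDiffAt.toOpenPartialHomeomorph_coe hΨ.contDiffAt hΨd h1ne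
  have hsrc : s₁ ∈ e.source := ContDiffAt.mem_toOpenPartialHomeomorph_source hΨ.contDiffAt hΨd h1ne
  have htgt : Ψ s₁ ∈ e.target :=
    ContDiffAt.image_mem_toOpenPartialHomeomorph_target hΨ.contDiffAt hΨd h1ne
  let φ : F × K → E := e.symm
  have hφ : ContDiffAt ℂ 1 φ (Ψ s₁) := ContDiffAt.to_localInverse hΨ.contDiffAt hΨd h1ne
  have hφ1 : φ (Ψ s₁) = s₁ := by
    have := e.left_inv hsrc
    rw [he] at this
    exact this
  have ev1 : ∀ᶠ y in 𝓝 (Ψ s₁), ContDiffAt ℂ 1 φ y := hφ.eventually (by simp)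
  have ev2 : ∀ᶠ y in 𝓝 (Ψ s₁), y ∈ e.target := e.open_target.mem_nhds htgt
  have ev3 : ∀ᶠ y in 𝓝 (Ψ s₁), H (φ y) ≠ 0 := by
    have hc : ContinuousAt (fun y => H (φ y)) (Ψ s₁) :=
      hH.continuousAt.comp hφ.continuousAt
    exact hc.eventually_ne (by rw [hφ1]; exact h0)
  obtain ⟨ε, hε, hball⟩ := Metric.eventually_nhds_iff_ball.mp (ev1.and (ev2.and ev3))
  have ev4 : ∀ᶠ s₂ in 𝓝 s₁, s₂ ∈ e.source := e.open_source.mem_nhds hsrc
  have ev5 : ∀ᶠ s₂ in 𝓝 s₁, Ψ s₂ ∈ Metric.ball (Ψ s₁) ε :=
    hΨ.continuous.continuousAt.eventually_mem (Metric.ball_mem_nhds _ hε)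
  filter_upwards [ev4, ev5] with s₂ h4 h5 hfs
  set w : F × K := Ψ s₂ - Ψ s₁ with hw
  let p : ℝ → F × K := fun t => Ψ s₁ + t • w
  have hp : ∀ t, HasDerivAt p w t := by
    intro t
    have := ((hasDerivAt_id t).smul_const w).const_add (Ψ s₁)
    rw [one_smul] at this
    exact this
  have hpc : Continuous p := by fun_prop
  have hpb : ∀ t ∈ Set.Icc (0 : ℝ) 1, p t ∈ Metric.ball (Ψ s₁) ε := by
    intro t ht
    rw [mem_ball_iff_norm]
    have h6 : p t - Ψ s₁ = t • w := by simp [p]
    rw [h6, norm_smul, Real.norm_of_nonneg ht.1]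
    have h7 : ‖w‖ < ε := by rw [hw]; exact mem_ball_iff_norm.mp h5
    calc t * ‖w‖ ≤ 1 * ‖w‖ := mul_le_mul_of_nonneg_right ht.2 (norm_nonneg _)
      _ < ε := by rw [one_mul]; exact h7
  have hp1 : ∀ t, (p t).1 = f s₁ := by
    intro t
    have : w.1 = 0 := by
      simp only [hw, Prod.fst_sub, Ψ]
      rw [hfs, sub_self]
    simp [p, this, Ψ]
  refine ⟨fun t => φ (p t), fun t => fderiv ℂ φ (p t) w, ?_, ?_, ?_, ?_, ?_, ?_⟩
  · simp only [p, zero_smul, add_zero]; exact hφ1
  · have : p 1 = Ψ s₂ := by simp [p, hw]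
    show φ (p 1) = s₂
    rw [this]
    have := e.left_inv h4
    rw [he] at this
    exact this
  · intro t ht
    have h6 := (hball _ (hpb t ht)).1
    have h7 : HasFDerivAt φ (fderiv ℂ φ (p t)) (p t) :=
      (h6.differentiableAt (by norm_num)).hasFDerivAt
    exact (h7.restrictScalars ℝ).comp_hasDerivAt t (hp t)
  · intro t ht
    have h6 := (hball _ (hpb t ht)).1
    have h7 : ContinuousAt (fderiv ℂ φ) (p t) :=
      (h6.fderiv_right (m := 0) (by norm_num)).continuousAt
    have h8 : ContinuousAt (fun t => fderiv ℂ φ (p t)) t := ContinuousAt.comp h7 hpc.continuousAt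
    exact (h8.clm_apply continuousAt_const).continuousWithinAt
  · intro t ht
    exact (hball _ (hpb t ht)).2.2
  · intro t ht
    have h6 : ∀ᶠ t' in 𝓝 t, p t' ∈ Metric.ball (Ψ s₁) ε :=
      hpc.continuousAt.eventually_mem (Metric.isOpen_ball.mem_nhds (hpb t ht))
    filter_upwards [h6] with t' ht'
    have h7 := e.right_inv (hball _ ht').2.1
    rw [he] at h7
    have h8 : (Ψ (φ (p t'))).1 = (p t').1 := congrArg Prod.fst h7
    rw [hp1] at h8
    exact h8

lemma fderiv_eq_sum {n : ℕ} (g : (Fin n → ℂ) → ℂ) (s v : Fin n → ℂ) :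
    fderiv ℂ g s v = ∑ j, v j * pd j g s := by
  conv_lhs => rw [← Finset.univ_sum_single v, map_sum]
  refine Finset.sum_congr rfl (fun j _ => ?_)
  have : (Pi.single j (v j) : Fin n → ℂ) = v j • Pi.single j 1 := by
    rw [← Pi.single_smul, smul_eq_mul, mul_one]
  rw [this, map_smul, smul_eq_mul]
  rfl

theorem countable_image {n M r : ℕ} (g : Fin M → (Fin n → ℂ) → ℂ)
    (hg : ∀ m, ContDiff ℂ 1 (g m)) (I : Fin r → Fin M) (H : (Fin n → ℂ) → ℂ)
    (hH : Continuous H) (i₀ : Fin n)
    (hind : ∀ s, (∀ m, g m s = 0) → H s ≠ 0 →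
      LinearIndependent ℂ (fun i : Fin r => fun j : Fin n => pd j (g (I i)) s))
    (q : Fin M → Fin r → (Fin n → ℂ) → ℂ) (hq : ∀ m i, Continuous (q m i))
    (B : Fin M → Fin M → Fin n → (Fin n → ℂ) → ℂ) (hB : ∀ m m' j, Continuous (B m m' j))
    (hrank : ∀ m j s, H s * pd j (g m) s =
      ∑ i, q m i s * pd j (g (I i)) s + ∑ m', g m' s * B m m' j s)
    (q₀ : Fin r → (Fin n → ℂ) → ℂ) (hq₀ : ∀ i, Continuous (q₀ i))
    (B₀ : Fin M → Fin n → (Fin n → ℂ) → ℂ) (hB₀ : ∀ m' j, Continuous (B₀ m' j))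
    (hi₀ : ∀ j s, H s * (if j = i₀ then 1 else 0) =
      ∑ i, q₀ i s * pd j (g (I i)) s + ∑ m', g m' s * B₀ m' j s) :
    ((fun s : Fin n → ℂ => s i₀) '' {s | (∀ m, g m s = 0) ∧ H s ≠ 0}).Countable := by
  classical
  set Z : Set (Fin n → ℂ) := {s | (∀ m, g m s = 0) ∧ H s ≠ 0} with hZ
  -- it is enough to show that the coordinate is locally constant on `Z`
  have key : ∀ s₁ ∈ Z, ∀ᶠ s₂ in nhdsWithin s₁ Z, s₂ i₀ = s₁ i₀ := by
    intro s₁ hs₁
    obtain ⟨hg0, hH0⟩ := hs₁
    let f : (Fin n → ℂ) → (Fin r → ℂ) := fun s i => g (I i) s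
    have hf : ContDiff ℂ 1 f := contDiff_pi.mpr (fun i => hg (I i))
    have hfd : ∀ s v i, fderiv ℂ f s v i = fderiv ℂ (g (I i)) s v := by
      intro s v i
      have h1 : HasFDerivAt f (ContinuousLinearMap.pi (fun i => fderiv ℂ (g (I i)) s)) s := by
        rw [hasFDerivAt_pi]
        intro i
        exact (((hg (I i)).differentiable (by norm_num)) s).hasFDerivAt
      rw [h1.fderiv]
      rfl
    have hsurj : LinearMap.range (fderiv ℂ f s₁).toLinearMap = ⊤ := by
      let A : Matrix (Fin r) (Fin n) ℂ := fun i j => pd j (g (I i)) s₁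
      have hA : LinearIndependent ℂ A.row := hind s₁ hg0 hH0
      have hrk := hA.rank_matrix
      have h2 : (fderiv ℂ f s₁).toLinearMap = A.mulVecLin := by
        refine LinearMap.ext (fun v => funext (fun i => ?_))
        show fderiv ℂ f s₁ v i = (A.mulVec v) i
        rw [hfd, fderiv_eq_sum]
        simp only [Matrix.mulVec, dotProduct, A]
        exact Finset.sum_congr rfl (fun j _ => mul_comm _ _)
      rw [h2]
      apply Submodule.eq_top_of_finrank_eq
      rw [Matrix.rank] at hrk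
      rw [hrk]
      simp
    have hpath := exists_path f hf s₁ hsurj H hH hH0
    have hpath' := hpath.filter_mono (nhdsWithin_le_nhds (s := Z))
    filter_upwards [hpath', self_mem_nhdsWithin] with s₂ h3 h4
    obtain ⟨hg2, -⟩ := h4
    have hf1 : f s₁ = 0 := by
      funext i
      exact hg0 (I i)
    have hf2 : f s₂ = f s₁ := by
      rw [hf1]
      funext i
      exact hg2 (I i)
    obtain ⟨γ, v, hγ0, hγ1, hγd, hvc, hHγ, hfγ⟩ := h3 hf2
    have hγc : ContinuousOn γ (Set.Icc 0 1) := fun t ht =>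
      (hγd t ht).continuousAt.continuousWithinAt
    -- derivatives along the path
    have hgd : ∀ m, ∀ t ∈ Set.Icc (0 : ℝ) 1,
        HasDerivAt (fun t => g m (γ t)) (∑ j, v t j * pd j (g m) (γ t)) t := by
      intro m t ht
      have h5 : HasFDerivAt (g m) (fderiv ℂ (g m) (γ t)) (γ t) :=
        (((hg m).differentiable (by norm_num)) (γ t)).hasFDerivAt
      have h6 := (h5.restrictScalars ℝ).comp_hasDerivAt t (hγd t ht)
      rw [← fderiv_eq_sum]
      exact h6
    have hzero : ∀ i, ∀ t ∈ Set.Icc (0 : ℝ) 1, ∑ j, v t j * pd j (g (I i)) (γ t) = 0 := by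
      intro i t ht
      have h5 : HasDerivAt (fun _ : ℝ => (0 : ℂ)) (∑ j, v t j * pd j (g (I i)) (γ t)) t := by
        refine (hgd (I i) t ht).congr_of_eventuallyEq ?_
        filter_upwards [hfγ t ht] with t' ht'
        rw [hf1] at ht'
        exact (congrFun ht' i).symm
      exact h5.unique (hasDerivAt_const t 0)
    -- the coefficients
    let a : Fin M → Fin M → ℝ → ℂ := fun m m' t => (∑ j, B m m' j (γ t) * v t j) / H (γ t)
    have hac : ∀ m m', ContinuousOn (a m m') (Set.Icc 0 1) := by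
      intro m m'
      refine ContinuousOn.div ?_ (hH.comp_continuousOn hγc) hHγ
      refine continuousOn_finsetSum _ (fun j _ => ?_)
      exact ((hB m m' j).comp_continuousOn hγc).mul
        ((continuous_apply j).comp_continuousOn hvc)
    have hsys : ∀ m, ∀ t ∈ Set.Icc (0 : ℝ) 1,
        ∑ j, v t j * pd j (g m) (γ t) = ∑ m', a m m' t * g m' (γ t) := by
      intro m t ht
      have hne := hHγ t ht
      have h5 : H (γ t) * ∑ j, v t j * pd j (g m) (γ t) =
          ∑ m', (∑ j, B m m' j (γ t) * v t j) * g m' (γ t) := by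
        calc H (γ t) * ∑ j, v t j * pd j (g m) (γ t)
            = ∑ j, v t j * (H (γ t) * pd j (g m) (γ t)) := by
              rw [Finset.mul_sum]
              exact Finset.sum_congr rfl (fun j _ => by ring)
          _ = ∑ j, v t j * (∑ i, q m i (γ t) * pd j (g (I i)) (γ t) +
                ∑ m', g m' (γ t) * B m m' j (γ t)) := by
              refine Finset.sum_congr rfl (fun j _ => ?_)
              rw [hrank]
          _ = ∑ i, q m i (γ t) * (∑ j, v t j * pd j (g (I i)) (γ t)) +
                ∑ m', (∑ j, B m m' j (γ t) * v t j) * g m' (γ t) := by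
              simp only [mul_add, Finset.sum_add_distrib, Finset.mul_sum, Finset.sum_mul]
              congr 1
              · rw [Finset.sum_comm]
                refine Finset.sum_congr rfl (fun i _ => Finset.sum_congr rfl (fun j _ => ?_))
                ring
              · rw [Finset.sum_comm]
                refine Finset.sum_congr rfl (fun i _ => Finset.sum_congr rfl (fun j _ => ?_))
                ring
          _ = ∑ m', (∑ j, B m m' j (γ t) * v t j) * g m' (γ t) := by
              rw [Finset.sum_eq_zero (fun i _ => by rw [hzero i t ht, mul_zero]), zero_add]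
      have h6 : ∑ j, v t j * pd j (g m) (γ t) =
          (∑ m', (∑ j, B m m' j (γ t) * v t j) * g m' (γ t)) / H (γ t) := by
        rw [eq_div_iff hne, mul_comm]
        exact h5
      rw [h6, Finset.sum_div]
      refine Finset.sum_congr rfl (fun m' _ => ?_)
      simp only [a]
      ring
    -- Gronwall
    let u : ℝ → (Fin M → ℂ) := fun t m => g m (γ t)
    let u' : ℝ → (Fin M → ℂ) := fun t m => ∑ m', a m m' t * g m' (γ t)
    have hu : ∀ t ∈ Set.Icc (0 : ℝ) 1, HasDerivAt u (u' t) t := by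
      intro t ht
      rw [hasDerivAt_pi]
      intro m
      have := hgd m t ht
      rw [hsys m t ht] at this
      exact this
    obtain ⟨C, hC⟩ : ∃ C : ℝ, ∀ t ∈ Set.Icc (0 : ℝ) 1, ‖∑ m, ∑ m', (‖a m m' t‖ : ℝ)‖ ≤ C := by
      apply isCompact_Icc.exists_bound_of_continuousOn
      exact continuousOn_finsetSum _ (fun m _ => continuousOn_finsetSum _
        (fun m' _ => (hac m m').norm))
    have hub : ∀ t ∈ Set.Icc (0 : ℝ) 1, ‖u' t‖ ≤ C * ‖u t‖ := by
      intro t ht
      have h7 : 0 ≤ ∑ m, ∑ m', (‖a m m' t‖ : ℝ) :=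
        Finset.sum_nonneg (fun m _ => Finset.sum_nonneg (fun m' _ => norm_nonneg _))
      have h8 := hC t ht
      rw [Real.norm_of_nonneg h7] at h8
      have h9 : 0 ≤ C := h7.trans h8
      rw [pi_norm_le_iff_of_nonneg (mul_nonneg h9 (norm_nonneg _))]
      intro m
      calc ‖u' t m‖ ≤ ∑ m', ‖a m m' t * g m' (γ t)‖ := norm_sum_le _ _
        _ ≤ ∑ m', ‖a m m' t‖ * ‖u t‖ := by
            refine Finset.sum_le_sum (fun m' _ => ?_)
            rw [norm_mul]
            exact mul_le_mul_of_nonneg_left (norm_le_pi_norm (u t) m') (norm_nonneg _)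
        _ = (∑ m', ‖a m m' t‖) * ‖u t‖ := by rw [Finset.sum_mul]
        _ ≤ C * ‖u t‖ := by
            refine mul_le_mul_of_nonneg_right ?_ (norm_nonneg _)
            refine le_trans ?_ h8
            exact Finset.single_le_sum (f := fun m => ∑ m', (‖a m m' t‖ : ℝ))
              (fun m _ => Finset.sum_nonneg (fun m' _ => norm_nonneg _)) (Finset.mem_univ m)
    have hu0 : ‖u 0‖ ≤ 0 := by
      have : u 0 = 0 := by
        funext m
        show g m (γ 0) = 0
        rw [hγ0]
        exact hg0 m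
      rw [this, norm_zero]
    have hgron := norm_le_gronwallBound_of_norm_deriv_right_le (f := u) (f' := u') (δ := 0)
      (K := C) (ε := 0) (a := 0) (b := 1)
      (fun t ht => (hu t ht).continuousAt.continuousWithinAt)
      (fun t ht => (hu t (Set.Ico_subset_Icc_self ht)).hasDerivWithinAt) hu0
      (fun t ht => by rw [add_zero]; exact hub t (Set.Ico_subset_Icc_self ht))
    have hgz : ∀ t ∈ Set.Icc (0 : ℝ) 1, ∀ m, g m (γ t) = 0 := by
      intro t ht m
      have h10 := hgron t ht
      rw [gronwallBound_ε0_δ0] at h10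
      have h11 : u t = 0 := norm_le_zero_iff.mp h10
      exact congrFun h11 m
    -- the coordinate
    have hcoord : ∀ t ∈ Set.Icc (0 : ℝ) 1, v t i₀ = 0 := by
      intro t ht
      have hne := hHγ t ht
      have h5 : H (γ t) * v t i₀ = 0 := by
        calc H (γ t) * v t i₀ = ∑ j, v t j * (H (γ t) * (if j = i₀ then 1 else 0)) := by
              simp [mul_comm]
          _ = ∑ j, v t j * (∑ i, q₀ i (γ t) * pd j (g (I i)) (γ t) +
                ∑ m', g m' (γ t) * B₀ m' j (γ t)) := by
              refine Finset.sum_congr rfl (fun j _ => ?_)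
              rw [hi₀]
          _ = ∑ j, v t j * (∑ i, q₀ i (γ t) * pd j (g (I i)) (γ t)) := by
              refine Finset.sum_congr rfl (fun j _ => ?_)
              rw [Finset.sum_eq_zero (s := Finset.univ) (f := fun m' => g m' (γ t) * B₀ m' j (γ t))
                (fun m' _ => by rw [hgz t ht m', zero_mul]), add_zero]
          _ = ∑ i, q₀ i (γ t) * (∑ j, v t j * pd j (g (I i)) (γ t)) := by
              simp only [Finset.mul_sum]
              rw [Finset.sum_comm]
              refine Finset.sum_congr rfl (fun i _ => Finset.sum_congr rfl (fun j _ => ?_))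
              ring
          _ = 0 := Finset.sum_eq_zero (fun i _ => by rw [hzero i t ht, mul_zero])
      exact (mul_eq_zero.mp h5).resolve_left hne
    have hlast := norm_image_sub_le_of_norm_deriv_le_segment_01' (f := fun t => γ t i₀)
      (f' := fun t => v t i₀) (C := 0)
      (fun t ht => ((hasDerivAt_pi.mp (hγd t ht)) i₀).hasDerivWithinAt)
      (fun t ht => by rw [hcoord t (Set.Ico_subset_Icc_self ht), norm_zero])
    have h12 : γ 1 i₀ - γ 0 i₀ = 0 := norm_le_zero_iff.mp hlast
    rw [hγ0, hγ1] at h12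
    exact sub_eq_zero.mp h12
  -- Lindelöf
  obtain ⟨T, hTZ, hTc, hcov⟩ := TopologicalSpace.countable_cover_nhdsWithin
    (f := fun s₁ : Fin n → ℂ => {s₂ | s₂ i₀ = s₁ i₀}) (s := Z) key
  refine (hTc.image (fun s => s i₀)).mono ?_
  rintro z ⟨s, hs, rfl⟩
  obtain ⟨t, ht, hst⟩ := Set.mem_iUnion₂.mp (hcov hs)
  exact ⟨t, ht, (show s i₀ = t i₀ from hst).symm⟩

end Pool.Agent.EXL
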