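import Pool.Agent.EXL.Rk

/-!
# EXL / Cert: finite certificates for the closure

PROOF.  Let `k = Subfield.closure A` and `S ⊆ Ω[ℂ⁄k]` the `ℂ`-subspace generated by
`d (exp a) - exp a • d a`, `a ∈ ℂ`. If `d z ∉ S` there is a `ℂ`-linear functional `f` on `Ω[ℂ⁄k]`
which vanishes on `S` with `f (d z) ≠ 0`; `D = f ∘ d` is a derivation in `EDer ⊓ DerOver A` with
`D z ≠ 0`, a contradiction. So `d z = ∑ c_i (d (exp a_i) - exp a_i • d a_i)` (a finite sum,
`Submodule.mem_span_range_iff_exists_fun`, `Finsupp`), and every `D ∈ DerOver A` kills `k`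
(`derOver_closure`), so it factors through `Ω[ℂ⁄k]` (`Derivation.liftKaehlerDifferential`), which
gives `D z = ∑ c_i (D (exp a_i) - exp a_i * D a_i)`.
-/

set_option autoImplicit false

namespace Pool.Agent.EXL

open scoped KaehlerDifferential

/-- If all exponential derivations over `A` kill `z` then finitely many instances of the
exponential rule suffice for that. -/
theorem cl_cert (A : Set ℂ) (z : ℂ) (hz : z ∈ cl A) :
    ∃ (n : ℕ) (a : Fin n → ℂ), ∀ D ∈ DerOver A,
      (∀ i, D (Complex.exp (a i)) = Complex.exp (a i) * D (a i)) → D z = 0 := by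
  classical
  set k : Subfield ℂ := Subfield.closure A with hk
  set δ := KaehlerDifferential.D k ℂ with hδ
  set v : ℂ → Ω[ℂ⁄k] := fun a => δ (Complex.exp a) - Complex.exp a • δ a with hv
  have hmem : δ z ∈ Submodule.span ℂ (Set.range v) := by
    by_contra hn
    obtain ⟨f, hf, hS⟩ := Submodule.exists_le_ker_of_notMem hn
    let D' : Derivation k ℂ ℂ := f.compDer δ
    let D : Derivation ℤ ℂ ℂ := D'.restrictScalars ℤ
    have hD : ∀ x, D x = f (δ x) := fun x => rfl
    have h1 : D ∈ EDer ⊓ DerOver A := by
      refine ⟨?_, ?_⟩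
      · intro a
        have h2 : v a ∈ LinearMap.ker f := hS (Submodule.subset_span ⟨a, rfl⟩)
        rw [LinearMap.mem_ker, hv] at h2
        simp only [map_sub, map_smul, smul_eq_mul] at h2
        rw [hD, hD]
        exact sub_eq_zero.1 h2
      · intro x hx
        rw [hD]
        have h3 : x = algebraMap k ℂ ⟨x, Subfield.subset_closure hx⟩ := rfl
        rw [h3, Derivation.map_algebraMap, map_zero]
    exact hf (by rw [← hD]; exact hz D h1)
  obtain ⟨c, hc⟩ := (Finsupp.mem_span_range_iff_exists_finsupp).1 hmem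
  let e := c.support.equivFin
  refine ⟨c.support.card, fun i => (e.symm i : ℂ), fun D hD h => ?_⟩
  have hDk : D ∈ DerOver (k : Set ℂ) := by
    rw [hk, derOver_closure]
    exact hD
  let D' : Derivation k ℂ ℂ :=
    { toFun := D
      map_add' := map_add D
      map_smul' := by
        intro c z
        rw [RingHom.id_apply, Subfield.smul_def, Subfield.smul_def, smul_eq_mul, smul_eq_mul,
          Derivation.leibniz, hDk c c.2, smul_zero, add_zero, smul_eq_mul]
      map_one_eq_zero' := D.map_one_eq_zero
      leibniz' := fun a b => D.leibniz a b }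
  have hlift : ∀ x, D'.liftKaehlerDifferential (δ x) = D x := fun x =>
    D'.liftKaehlerDifferential_comp_D x
  have h4 := congrArg D'.liftKaehlerDifferential hc
  rw [hlift] at h4
  rw [← h4, Finsupp.sum, map_sum]
  refine Finset.sum_eq_zero fun a ha => ?_
  have h5 := h (e ⟨a, ha⟩)
  simp only [Equiv.symm_apply_apply] at h5
  rw [map_smul, hv]
  simp only [map_sub, map_smul, smul_eq_mul, hlift]
  rw [h5, sub_self, mul_zero]

end Pool.Agent.EXL
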