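import Pool.Agent.EXL.Rel

/-!
# EXL / Cou: the count

PROOF of `count`.  Put `Δ = RelDer K φ w (Sum.elim γ₁ γ₂)`, `C = consts Δ`,
`K' = K ∪ Set.range (pt φ 1 w)`, `m = card κ₁ + card κ₂`. For `D ∈ Δ`, `j : κ₁`: `D (γ₁ j).1 = 0`
and `D (ex φ (γ₁ j)) = 0`, so the points of `γ₁` are in `C`; also `K' ⊆ C`.
(a) `rk Δ (γ₂).1 ≥ td K' (pt φ 1 (γ₁, γ₂)) - m`: the image of `Δ` under `ev (pt φ 1 (γ₁, γ₂))` is the
subspace of the image of `DerOver K'` cut out by the `m` linear forms `y_j - b_j x_j`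
(`b_j = ex φ (γ j)`), and on `Δ` the values at all coordinates of `pt φ 1 (γ₁, γ₂)` vanish if the
values at `(γ₂).1` vanish (`rk_eq_of_dep`).
(b) `ax` for `Δ`, `a = (γ₂).1`, `b = ex φ γ₂` (hypothesis `h₂`):
`card κ₂ + rk Δ (γ₂).1 ≤ td C (pt φ 1 γ₂) ≤ td (K' ∪ Set.range (pt φ 1 γ₁)) (pt φ 1 γ₂)
= td K' (pt φ 1 (γ₁, γ₂)) - td K' (pt φ 1 γ₁)` (`td_anti`, `td_sum`, and `rk_eq_of_dep` for the
permutation of the coordinates).
(a) and (b) give `td K' (pt φ 1 γ₁) ≤ card κ₁`.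
-/

set_option autoImplicit false

namespace Pool.Agent.EXL

variable {K : Subfield ℂ} {φ : AddChar ℚ ℂ} {ι κ κ₁ κ₂ : Type} [Fintype ι] [Fintype κ]
  [Fintype κ₁] [Fintype κ₂]

/-- The linear map whose kernel cuts out the relative derivations. -/
private noncomputable def cutMap (φ : AddChar ℚ ℂ) {κ : Type} (γ : κ → X) :
    (κ ⊕ κ → ℂ) →ₗ[ℂ] (κ → ℂ) where
  toFun v := fun j => v (Sum.inr j) - ex φ (γ j) * v (Sum.inl j)
  map_add' := by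
    intro a b
    funext j
    simp only [Pi.add_apply]
    ring
  map_smul' := by
    intro c a
    funext j
    simp only [Pi.smul_apply, smul_eq_mul, RingHom.id_apply]
    ring

/-- The subspace of a finite dimensional space cut out by `m` linear forms has codimension at
most `m`; here for the image of a space of derivations. -/
theorem rk_relDer_ge (w : ι → X) (γ : κ → X) :
    td ((K : Set ℂ) ∪ Set.range (pt φ 1 w)) (pt φ 1 γ) ≤
      rk (RelDer K φ w γ) (pt φ 1 γ) + Fintype.card κ := by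
  set Δ₀ := DerOver ((K : Set ℂ) ∪ Set.range (pt φ 1 w)) with hΔ₀
  set A : Submodule ℂ (κ ⊕ κ → ℂ) := Δ₀.map (ev (pt φ 1 γ)) with hA
  set ℓ := (cutMap φ γ).domRestrict A with hℓ
  have h1 := LinearMap.finrank_range_add_finrank_ker ℓ
  have h2 : Module.finrank ℂ (LinearMap.range ℓ) ≤ Fintype.card κ := by
    calc _ ≤ Module.finrank ℂ (κ → ℂ) := Submodule.finrank_le _
      _ = _ := Module.finrank_fintype_fun_eq_card ℂ
  have h3 : (LinearMap.ker ℓ).map A.subtype ≤ (RelDer K φ w γ).map (ev (pt φ 1 γ)) := by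
    rintro _ ⟨⟨v, hv⟩, hv', rfl⟩
    obtain ⟨D, hD, rfl⟩ := hv
    refine ⟨D, ⟨hD, fun j => ?_⟩, rfl⟩
    have h4 : (cutMap φ γ) (ev (pt φ 1 γ) D) = 0 := hv'
    have h5 := congrFun h4 j
    have h6 : D (pt φ 1 γ (Sum.inr j)) - ex φ (γ j) * D (pt φ 1 γ (Sum.inl j)) = 0 := h5
    rw [pt_one, Sum.elim_inl, Sum.elim_inr] at h6
    exact sub_eq_zero.1 h6
  have h4 := Submodule.finrank_mono h3
  rw [Submodule.finrank_map_subtype_eq] at h4
  have h5 : td ((K : Set ℂ) ∪ Set.range (pt φ 1 w)) (pt φ 1 γ) = Module.finrank ℂ A := rfl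
  have h6 : rk (RelDer K φ w γ) (pt φ 1 γ) =
      Module.finrank ℂ ((RelDer K φ w γ).map (ev (pt φ 1 γ))) := rfl
  rw [h5, h6]
  omega

private lemma pt_sum_iff {φ : AddChar ℚ ℂ} (γ₁ : κ₁ → X) (γ₂ : κ₂ → X) (P : ℂ → Prop) :
    (∀ i, P (pt φ 1 (Sum.elim γ₁ γ₂) i)) ↔
      (∀ i, P (Sum.elim (pt φ 1 γ₁) (pt φ 1 γ₂) i)) := by
  simp only [pt_one, Sum.forall, Sum.elim_inl, Sum.elim_inr]
  tauto

/-- The count: `γ₁` consists of constants of the relative derivations and `γ₂` is independent modulo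
them. -/
theorem count (w : ι → X) (γ₁ : κ₁ → X) (γ₂ : κ₂ → X)
    (h₁ : ∀ j, (γ₁ j).1 ∈ consts (RelDer K φ w (Sum.elim γ₁ γ₂)))
    (h₂ : ∀ q : κ₂ → ℤ,
      ∑ j, (q j : ℂ) * (γ₂ j).1 ∈ consts (RelDer K φ w (Sum.elim γ₁ γ₂)) → q = 0) :
    Fintype.card κ₂ + rk (RelDer K φ w (Sum.elim γ₁ γ₂)) (fun j => (γ₂ j).1) +
        td ((K : Set ℂ) ∪ Set.range (pt φ 1 w)) (pt φ 1 γ₁) ≤
      td ((K : Set ℂ) ∪ Set.range (pt φ 1 w)) (pt φ 1 (Sum.elim γ₁ γ₂)) ∧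
    td ((K : Set ℂ) ∪ Set.range (pt φ 1 w)) (pt φ 1 γ₁) ≤ Fintype.card κ₁ := by
  set Δ := RelDer K φ w (Sum.elim γ₁ γ₂) with hΔ
  set K' := (K : Set ℂ) ∪ Set.range (pt φ 1 w) with hK'
  have hr1 : ∀ D ∈ Δ, ∀ j, D (ex φ (γ₁ j)) = ex φ (γ₁ j) * D (γ₁ j).1 := fun D hD j =>
    hD.2 (Sum.inl j)
  have hr2 : ∀ D ∈ Δ, ∀ j, D (ex φ (γ₂ j)) = ex φ (γ₂ j) * D (γ₂ j).1 := fun D hD j =>
    hD.2 (Sum.inr j)
  have hk1 : ∀ D ∈ Δ, ∀ i, D (pt φ 1 γ₁ i) = 0 := by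
    intro D hD i
    rw [pt_one]
    rcases i with j | j
    · exact h₁ j D hD
    · rw [Sum.elim_inr, hr1 D hD j, h₁ j D hD, mul_zero]
  have hsum : td K' (pt φ 1 (Sum.elim γ₁ γ₂)) =
      td K' (pt φ 1 γ₁) + td (K' ∪ Set.range (pt φ 1 γ₁)) (pt φ 1 γ₂) := by
    rw [← td_sum]
    exact rk_eq_of_dep _ _ _ (fun D _ h => (pt_sum_iff γ₁ γ₂ (fun z => D z = 0)).1 h)
      (fun D _ h => (pt_sum_iff γ₁ γ₂ (fun z => D z = 0)).2 h)
  have ha : td K' (pt φ 1 (Sum.elim γ₁ γ₂)) ≤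
      rk Δ (fun j => (γ₂ j).1) + (Fintype.card κ₁ + Fintype.card κ₂) := by
    refine (rk_relDer_ge w (Sum.elim γ₁ γ₂)).trans ?_
    rw [Fintype.card_sum]
    refine Nat.add_le_add_right (rk_le_of_dep Δ _ _ fun D hD h => ?_) _
    rw [pt_sum_iff γ₁ γ₂ (fun z => D z = 0)]
    intro i
    rcases i with i | i
    · exact hk1 D hD i
    · rw [Sum.elim_inr, pt_one]
      rcases i with j | j
      · exact h j
      · rw [Sum.elim_inr, hr2 D hD j, h j, mul_zero]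
  have hb : Fintype.card κ₂ + rk Δ (fun j => (γ₂ j).1) ≤
      td (K' ∪ Set.range (pt φ 1 γ₁)) (pt φ 1 γ₂) := by
    refine (ax Δ (fun j => (γ₂ j).1) (fun j => ex φ (γ₂ j)) (fun j => ex_ne_zero φ _) hr2
      h₂).trans ?_
    rw [← pt_one]
    apply td_anti
    rintro x ((hx | hx) | ⟨i, rfl⟩)
    · exact fun D hD => hD.1 x (Or.inl hx)
    · exact fun D hD => hD.1 x (Or.inr hx)
    · exact fun D hD => hk1 D hD i
  constructor <;> omega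

end Pool.Agent.EXL
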