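import Mathlib

/-!
# EXL / Defs: derivations, closure, good tuples

`Δ : Submodule E (Derivation ℤ E E)` is a space of derivations of a field `E`.
-/

set_option autoImplicit false

namespace Pool.Agent.EXL

section field

variable {E : Type*} [Field E]

/-- Evaluation of derivations at a family of elements. -/
noncomputable def ev {ι : Type*} (x : ι → E) : Derivation ℤ E E →ₗ[E] (ι → E) where
  toFun D := fun i => D (x i)
  map_add' _ _ := rfl
  map_smul' _ _ := rfl

/-- The derivations of `E` which kill the set `A`. -/
def DerOver (A : Set E) : Submodule E (Derivation ℤ E E) where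
  carrier := {D | ∀ x ∈ A, D x = 0}
  add_mem' := by
    intro D D' h h' x hx
    rw [Derivation.add_apply, h x hx, h' x hx, add_zero]
  zero_mem' := by intro x _; rfl
  smul_mem' := by
    intro c D h x hx
    rw [Derivation.smul_apply, h x hx, smul_zero]

/-- The constants of a space of derivations. -/
def consts (Δ : Submodule E (Derivation ℤ E E)) : Subfield E where
  carrier := {c | ∀ D ∈ Δ, D c = 0}
  mul_mem' := by
    intro a b ha hb D hD
    rw [Derivation.leibniz, ha D hD, hb D hD, smul_zero, smul_zero, add_zero]
  one_mem' := by intro D _; exact D.map_one_eq_zero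
  add_mem' := by
    intro a b ha hb D hD
    rw [map_add, ha D hD, hb D hD, add_zero]
  zero_mem' := by intro D _; exact map_zero D
  neg_mem' := by
    intro a ha D hD
    rw [map_neg, ha D hD, neg_zero]
  inv_mem' := by
    intro a ha D hD
    rw [Derivation.leibniz_inv, ha D hD, smul_zero]

/-- The rank of a family of elements with respect to a space of derivations. -/
noncomputable def rk (Δ : Submodule E (Derivation ℤ E E)) {ι : Type*} (x : ι → E) : ℕ :=
  Module.finrank E (Δ.map (ev x))

/-- The transcendence degree of a family over (the field generated by) `A`, in terms of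
derivations (`E` has characteristic zero). -/
noncomputable def td (A : Set E) {ι : Type*} (x : ι → E) : ℕ := rk (DerOver A) x

end field

/-- The exponential derivations of `ℂ`. -/
noncomputable def EDer : Submodule ℂ (Derivation ℤ ℂ ℂ) where
  carrier := {D | ∀ a, D (Complex.exp a) = Complex.exp a * D a}
  add_mem' := by
    intro D D' h h' a
    rw [Derivation.add_apply, Derivation.add_apply, h a, h' a, mul_add]
  zero_mem' := by intro a; simp
  smul_mem' := by
    intro c D h a
    rw [Derivation.smul_apply, Derivation.smul_apply, h a, smul_eq_mul, smul_eq_mul]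
    ring

/-- The closure operator: the common zeros of the exponential derivations which kill `A`. -/
noncomputable def cl (A : Set ℂ) : Subfield ℂ := consts (EDer ⊓ DerOver A)

/-- The points `(a, q)` of the universal cover of `{(a, b) | b ∈ exp a * φ ℚ}`. -/
abbrev X : Type := ℂ × ℚ

/-- The second coordinate of the point of `{(a, b) | b ∈ exp a * φ ℚ}` given by `x = (a, q)`. -/
noncomputable def ex (φ : AddChar ℚ ℂ) (x : X) : ℂ := Complex.exp x.1 * φ x.2

/-- The point of `ℂ^{2r}` given by a tuple `w` at level `N`: the coordinates `a_j` and the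
`N`-th roots `ex (w_j / N)`. -/
noncomputable def pt (φ : AddChar ℚ ℂ) (N : ℕ) {ι : Type*} (w : ι → X) : ι ⊕ ι → ℂ :=
  Sum.elim (fun j => (w j).1) (fun j => ex φ ((N : ℚ)⁻¹ • w j))

/-- `w` and `w'` have the same type at level `N` over `K`. -/
def SameAt (K : Subfield ℂ) (φ : AddChar ℚ ℂ) (N : ℕ) {ι : Type*} (w w' : ι → X) : Prop :=
  ∀ f : MvPolynomial (ι ⊕ ι) K,
    MvPolynomial.aeval (pt φ N w) f = 0 ↔ MvPolynomial.aeval (pt φ N w') f = 0

/-- `K` is closed: it is the field of constants of the exponential derivations over `K`, and it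
contains `φ ℚ`. -/
def Closed (K : Subfield ℂ) (φ : AddChar ℚ ℂ) : Prop :=
  cl (K : Set ℂ) ≤ K ∧ ∀ q, φ q ∈ K

/-- The rank of the first coordinates of `w` with respect to the exponential derivations over
`K`. -/
noncomputable def rho (K : Subfield ℂ) {ι : Type*} (w : ι → X) : ℕ :=
  rk (EDer ⊓ DerOver (K : Set ℂ)) (fun j => (w j).1)

/-- The first coordinates of `w` are `ℚ`-linearly independent modulo `K`. -/
def Indep (K : Subfield ℂ) {ι : Type*} [Fintype ι] (w : ι → X) : Prop :=
  ∀ q : ι → ℚ, ∑ j, (q j : ℂ) * (w j).1 ∈ K → q = 0

/-- Good tuples: independent modulo `K`, and the transcendence degree over `K` is the smallest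
possible one. -/
def Good (K : Subfield ℂ) (φ : AddChar ℚ ℂ) {ι : Type*} [Fintype ι] (w : ι → X) : Prop :=
  Indep K w ∧ td (K : Set ℂ) (pt φ 1 w) = Fintype.card ι + rho K w

end Pool.Agent.EXL
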