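import Pool.Agent.EXL.Rel

/-!
# EXL / Split: change of basis

PROOF of `exists_split`.  Let `U` be the span of `γ` (dimension `card κ`) and `U₂` the subspace of
the `u ∈ U` with `u.1 ∈ C = consts (RelDer K φ w γ)`; take a basis `γ₁` of `U₂` and complete it with
`γ₂` to a basis of `U`. `RelDer` does not change by `relDer_eq_of_span`.
-/

set_option autoImplicit false

namespace Pool.Agent.EXL

variable {K : Subfield ℂ} {φ : AddChar ℚ ℂ} {ι κ : Type} [Fintype ι] [Fintype κ]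

private lemma split_basis {U : Type*} [AddCommGroup U] [Module ℚ U] [Module.Finite ℚ U]
    (p : Submodule ℚ U) : ∃ (n₁ n₂ : ℕ) (b : Module.Basis (Fin n₁ ⊕ Fin n₂) ℚ U),
      (∀ i, b (Sum.inl i) ∈ p) ∧
      (∀ q : Fin n₂ → ℚ, ∑ j, q j • b (Sum.inr j) ∈ p → q = 0) ∧
      ∀ u ∈ p, u ∈ Submodule.span ℚ (Set.range fun i => b (Sum.inl i)) := by
  obtain ⟨r, hr⟩ := Submodule.exists_isCompl p
  let b₁ := Module.finBasis ℚ p
  let b₂ := Module.finBasis ℚ r
  let B : Module.Basis (Fin (Module.finrank ℚ p) ⊕ Fin (Module.finrank ℚ r)) ℚ U :=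
    (b₁.prod b₂).map (Submodule.prodEquivOfIsCompl p r hr)
  have hB1 : ∀ i, B (Sum.inl i) = (b₁ i : U) := by
    intro i
    simp [B]
  have hB2 : ∀ i, B (Sum.inr i) = (b₂ i : U) := by
    intro i
    simp [B]
  refine ⟨_, _, B, fun i => ?_, fun q hq => ?_, fun u hu => ?_⟩
  · rw [hB1]
    exact (b₁ i).2
  · simp only [hB2] at hq
    have h1 : ((∑ j, q j • b₂ j : r) : U) = ∑ j, q j • (b₂ j : U) := by
      simp
    rw [← h1] at hq
    have h3 := Submodule.disjoint_def.1 hr.disjoint _ hq (∑ j, q j • b₂ j : r).2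
    have h4 : (∑ j, q j • b₂ j : r) = 0 := Subtype.ext h3
    exact funext (Fintype.linearIndependent_iff.1 b₂.linearIndependent q h4)
  · simp only [hB1]
    have h2 := b₁.mem_span (⟨u, hu⟩ : p)
    have h3 := Submodule.mem_map_of_mem (f := p.subtype) h2
    rw [← Submodule.span_image, ← Set.range_comp] at h3
    exact h3

private lemma split_gen {V : Type*} [AddCommGroup V] [Module ℚ V] {κ : Type} [Fintype κ]
    (γ : κ → V) (hγ : LinearIndependent ℚ γ) (P : Submodule ℚ V) :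
    ∃ (n₁ n₂ : ℕ) (γ₁ : Fin n₁ → V) (γ₂ : Fin n₂ → V),
      n₁ + n₂ = Fintype.card κ ∧ LinearIndependent ℚ (Sum.elim γ₁ γ₂) ∧
      Submodule.span ℚ (Set.range (Sum.elim γ₁ γ₂)) = Submodule.span ℚ (Set.range γ) ∧
      (∀ j, γ₁ j ∈ P) ∧ (∀ q : Fin n₂ → ℚ, ∑ j, q j • γ₂ j ∈ P → q = 0) ∧
      ∀ u ∈ Submodule.span ℚ (Set.range γ), u ∈ P → u ∈ Submodule.span ℚ (Set.range γ₁) := by
  have hfin : Module.Finite ℚ (Submodule.span ℚ (Set.range γ)) :=
    Module.Finite.span_of_finite ℚ (Set.finite_range γ)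
  have hcard := finrank_span_eq_card hγ
  generalize Submodule.span ℚ (Set.range γ) = U at hfin hcard
  obtain ⟨n₁, n₂, b, h1, h2, h3⟩ := split_basis (P.comap U.subtype)
  have hel : Sum.elim (fun i => (b (Sum.inl i) : V)) (fun i => (b (Sum.inr i) : V)) =
      U.subtype ∘ b := by
    funext i
    rcases i with i | i <;> rfl
  refine ⟨n₁, n₂, fun i => (b (Sum.inl i) : V), fun i => (b (Sum.inr i) : V), ?_, ?_, ?_, h1, ?_,
    ?_⟩
  · rw [← hcard, Module.finrank_eq_card_basis b, Fintype.card_sum, Fintype.card_fin,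
      Fintype.card_fin]
  · rw [hel]
    exact b.linearIndependent.map' U.subtype (Submodule.ker_subtype _)
  · rw [hel, Set.range_comp, Submodule.span_image, b.span_eq, Submodule.map_top,
      Submodule.range_subtype]
  · intro q hq
    apply h2 q
    have h4 : ((∑ j, q j • b (Sum.inr j) : U) : V) = ∑ j, q j • (b (Sum.inr j) : V) := by
      simp
    show ((∑ j, q j • b (Sum.inr j) : U) : V) ∈ P
    rw [h4]
    exact hq
  · intro u hu hu1
    have h4 := h3 ⟨u, hu⟩ hu1
    have h5 := Submodule.mem_map_of_mem (f := U.subtype) h4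
    rw [← Submodule.span_image, ← Set.range_comp] at h5
    exact h5

/-- Change of basis: after an invertible rational change of coordinates the family `γ` is of the
form required in `count`. -/
theorem exists_split (w : ι → X) (γ : κ → X) (hγ : LinearIndependent ℚ γ) :
    ∃ (n₁ n₂ : ℕ) (γ₁ : Fin n₁ → X) (γ₂ : Fin n₂ → X),
      n₁ + n₂ = Fintype.card κ ∧ LinearIndependent ℚ (Sum.elim γ₁ γ₂) ∧
      Submodule.span ℚ (Set.range (Sum.elim γ₁ γ₂)) = Submodule.span ℚ (Set.range γ) ∧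
      (∀ j, (γ₁ j).1 ∈ consts (RelDer K φ w γ)) ∧
      (∀ q : Fin n₂ → ℤ, ∑ j, (q j : ℂ) * (γ₂ j).1 ∈ consts (RelDer K φ w γ) → q = 0) ∧
      ∀ u ∈ Submodule.span ℚ (Set.range γ), u.1 ∈ consts (RelDer K φ w γ) →
        u ∈ Submodule.span ℚ (Set.range γ₁) := by
  set C := consts (RelDer K φ w γ) with hC
  have hrat : ∀ (q : ℚ) (z : ℂ), q • z = (q : ℂ) * z := fun q z => by
    rw [Algebra.smul_def]
    rfl
  let P : Submodule ℚ X :=
    { carrier := {u | u.1 ∈ C}
      add_mem' := fun {a b} ha hb => by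
        show (a + b).1 ∈ C
        rw [Prod.fst_add]
        exact C.add_mem ha hb
      zero_mem' := C.zero_mem
      smul_mem' := fun q u hu => by
        show (q • u).1 ∈ C
        rw [Prod.smul_fst, hrat]
        exact C.mul_mem (SubfieldClass.ratCast_mem C q) hu }
  obtain ⟨n₁, n₂, γ₁, γ₂, h1, h2, h3, h4, h5, h6⟩ := split_gen γ hγ P
  refine ⟨n₁, n₂, γ₁, γ₂, h1, h2, h3, h4, fun q hq => ?_, h6⟩
  have h7 : ∑ j, (q j : ℚ) • γ₂ j ∈ P := by
    show (∑ j, (q j : ℚ) • γ₂ j).1 ∈ C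
    rw [Prod.fst_sum]
    simp only [Prod.smul_fst, hrat, Rat.cast_intCast]
    exact hq
  have h8 := h5 (fun j => (q j : ℚ)) h7
  funext j
  have h9 := congrFun h8 j
  simpa using h9

end Pool.Agent.EXL
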