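import Pool.Agent.EXL.Cou
import Pool.Agent.EXL.Split
import Pool.Agent.EXL.Cert

/-!
# EXL / Extg: extensions of good tuples

PROOF of `exists_fin_basis` (linear algebra over `ℚ` in `ℂ / (K + ∑ ℚ (w j).1)`): among the elements
`(x i, 0)` choose a maximal subfamily `γ` such that `Sum.elim w γ` is independent modulo `K`.

PROOF of `ext_good`.  Take `a_i` from `cl_cert` for `A = K ∪ {(w j).1}` and `z`, and apply
`exists_fin_basis` to `z` and the `a_i`: a family `γ` with `Sum.elim w γ` independent modulo `K` such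
that `z` and all `a_i` are in `K + ∑ ℚ (w j).1 + ∑ ℚ (γ l).1`. By `relDer_rule` every
`D ∈ RelDer K φ w γ` satisfies the exponential rule at the `a_i`, so it kills `z`. Apply
`exists_split` to `γ` (`Indep` implies linear independence): `γ₁, γ₂`; `RelDer` is unchanged
(`relDer_eq_of_span`), so `count` gives `td K' (pt φ 1 γ₁) ≤ card γ₁` with
`K' = K ∪ Set.range (pt φ 1 w)`. Therefore
`td K (pt φ 1 (w, γ₁)) = td K (pt φ 1 w) + td K' (pt φ 1 γ₁) ≤ card w + rho w + card γ₁`
(`td_pt_sum`), while `ax_closed` gives `≥ card w + card γ₁ + rho (w, γ₁) ≥ card w + card γ₁ + rho w`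
(`rho_le_sum`); here `Sum.elim w γ₁` is independent modulo `K` because `γ₁` is linearly independent
in the span of `γ` and `Sum.elim w γ` is independent modulo `K`. So `(w, γ₁)` is good and
`rho (w, γ₁) = rho w`. Finally `z = c + ∑ q_j (w j).1 + u.1` with `u` in the span of `γ`, and all
`D ∈ RelDer K φ w γ` kill `z`, `c`, `(w j).1`, hence `u.1`; so `u` is in the span of `γ₁`.
-/

set_option autoImplicit false

namespace Pool.Agent.EXL

variable {K : Subfield ℂ} {φ : AddChar ℚ ℂ} {ι κ : Type} [Fintype ι] [Fintype κ]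

/-- Additivity of the transcendence degree for the points of a tuple. -/
theorem td_pt_sum (w : ι → X) (γ : κ → X) :
    td (K : Set ℂ) (pt φ 1 (Sum.elim w γ)) =
      td (K : Set ℂ) (pt φ 1 w) + td ((K : Set ℂ) ∪ Set.range (pt φ 1 w)) (pt φ 1 γ) := by
  rw [← td_sum]
  unfold td
  apply rk_eq_of_dep
  · intro D _ h j
    rcases j with (j | j) | (j | j)
    · exact h (Sum.inl (Sum.inl j))
    · exact h (Sum.inr (Sum.inl j))
    · exact h (Sum.inl (Sum.inr j))
    · exact h (Sum.inr (Sum.inr j))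
  · intro D _ h j
    rcases j with (j | j) | (j | j)
    · exact h (Sum.inl (Sum.inl j))
    · exact h (Sum.inr (Sum.inl j))
    · exact h (Sum.inl (Sum.inr j))
    · exact h (Sum.inr (Sum.inr j))

omit [Fintype κ] in
lemma fst_comb {κ : Type} [Fintype κ] (γ : κ → X) (p : κ → ℚ) :
    (∑ l, p l • γ l).1 = ∑ l, (p l : ℂ) * (γ l).1 := by
  rw [Prod.fst_sum]
  refine Finset.sum_congr rfl fun j _ => ?_
  rw [Prod.smul_fst, Rat.smul_def]

/-- `Indep` of a concatenation, for a linearly independent family in the span of `γ`. -/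
theorem indep_sum {κ' : Type} [Fintype κ'] (w : ι → X) (γ : κ → X) (γ' : κ' → X)
    (h : Indep K (Sum.elim w γ)) (hγ' : ∀ j, γ' j ∈ Submodule.span ℚ (Set.range γ))
    (hli : LinearIndependent ℚ γ') : Indep K (Sum.elim w γ') := by
  intro q hq
  have h1 : ∀ j, ∃ c : κ → ℚ, ∑ l, c l • γ l = γ' j :=
    fun j => (Submodule.mem_span_range_iff_exists_fun ℚ).1 (hγ' j)
  choose M hM using h1
  have hcomb : ∑ l, (∑ j, q (Sum.inr j) * M j l) • γ l = ∑ j, q (Sum.inr j) • γ' j := by
    calc ∑ l, (∑ j, q (Sum.inr j) * M j l) • γ l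
        = ∑ l, ∑ j, (q (Sum.inr j) * M j l) • γ l := by
          refine Finset.sum_congr rfl fun l _ => ?_
          rw [Finset.sum_smul]
      _ = ∑ j, ∑ l, (q (Sum.inr j) * M j l) • γ l := Finset.sum_comm
      _ = ∑ j, q (Sum.inr j) • γ' j := by
          refine Finset.sum_congr rfl fun j _ => ?_
          rw [← hM j, Finset.smul_sum]
          refine Finset.sum_congr rfl fun l _ => ?_
          rw [smul_smul]
  have h2 := h (Sum.elim (fun j => q (Sum.inl j)) (fun l => ∑ j, q (Sum.inr j) * M j l)) ?_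
  · have h3 : ∀ j, q (Sum.inl j) = 0 := fun j => congrFun h2 (Sum.inl j)
    have h4 : ∀ l, ∑ j, q (Sum.inr j) * M j l = 0 := fun l => congrFun h2 (Sum.inr l)
    have h5 : ∑ j, q (Sum.inr j) • γ' j = 0 := by
      rw [← hcomb]
      refine Finset.sum_eq_zero fun l _ => ?_
      rw [h4, zero_smul]
    have h6 := Fintype.linearIndependent_iff.1 hli (fun j => q (Sum.inr j)) h5
    funext j
    rcases j with j | j
    · exact h3 j
    · exact h6 j
  · rw [Fintype.sum_sum_type] at hq ⊢
    simp only [Sum.elim_inl, Sum.elim_inr] at hq ⊢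
    have e1 := fst_comb γ (fun l => ∑ j, q (Sum.inr j) * M j l)
    have e2 := fst_comb γ' (fun j => q (Sum.inr j))
    rw [hcomb] at e1
    rw [← e1, e2]
    exact hq

lemma fin_basis_aux (w : ι → X) (hw : Indep K w) (n : ℕ) : ∀ x : Fin n → ℂ,
    ∃ (m : ℕ) (γ : Fin m → X), Indep K (Sum.elim w γ) ∧
      ∀ i, ∃ c ∈ K, ∃ (q : ι → ℚ) (p : Fin m → ℚ),
        x i = c + ∑ j, (q j : ℂ) * (w j).1 + ∑ l, (p l : ℂ) * (γ l).1 := by
  induction n with
  | zero =>
    intro x
    refine ⟨0, Fin.elim0, ?_, fun i => i.elim0⟩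
    intro q hq
    have h1 := hw (fun j => q (Sum.inl j)) (by simpa [Fintype.sum_sum_type] using hq)
    funext j
    rcases j with j | j
    · exact congrFun h1 j
    · exact j.elim0
  | succ n ih =>
    intro x
    obtain ⟨m, γ, hi, hx⟩ := ih (fun i => x i.castSucc)
    by_cases hl : ∃ c ∈ K, ∃ (q : ι → ℚ) (p : Fin m → ℚ),
        x (Fin.last n) = c + ∑ j, (q j : ℂ) * (w j).1 + ∑ l, (p l : ℂ) * (γ l).1
    · refine ⟨m, γ, hi, fun i => ?_⟩
      rcases Fin.eq_castSucc_or_eq_last i with ⟨j, rfl⟩ | rfl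
      · exact hx j
      · exact hl
    · refine ⟨m + 1, Fin.snoc γ ((x (Fin.last n), 0) : X), ?_, fun i => ?_⟩
      · intro q hq
        rw [Fintype.sum_sum_type, Fin.sum_univ_castSucc] at hq
        simp only [Sum.elim_inl, Sum.elim_inr, Fin.snoc_castSucc, Fin.snoc_last] at hq
        have hlast : q (Sum.inr (Fin.last m)) = 0 := by
          by_contra hne
          apply hl
          have hneC : ((q (Sum.inr (Fin.last m)) : ℚ) : ℂ) ≠ 0 := by exact_mod_cast hne
          refine ⟨((q (Sum.inr (Fin.last m)) : ℚ) : ℂ)⁻¹ * _, mul_mem (inv_mem (by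
              exact SubfieldClass.ratCast_mem K _)) hq,
            fun j => -((q (Sum.inr (Fin.last m)))⁻¹ * q (Sum.inl j)),
            fun l => -((q (Sum.inr (Fin.last m)))⁻¹ * q (Sum.inr l.castSucc)), ?_⟩
          have e1 : ∑ j, ((-((q (Sum.inr (Fin.last m)))⁻¹ * q (Sum.inl j)) : ℚ) : ℂ) * (w j).1 =
              -(((q (Sum.inr (Fin.last m)) : ℚ) : ℂ)⁻¹ *
                ∑ j, ((q (Sum.inl j) : ℚ) : ℂ) * (w j).1) := by
            rw [Finset.mul_sum, ← Finset.sum_neg_distrib]
            refine Finset.sum_congr rfl fun j _ => ?_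
            push_cast
            ring
          have e2 : ∑ l : Fin m, ((-((q (Sum.inr (Fin.last m)))⁻¹ * q (Sum.inr l.castSucc)) : ℚ) : ℂ)
              * (γ l).1 = -(((q (Sum.inr (Fin.last m)) : ℚ) : ℂ)⁻¹ *
                ∑ l : Fin m, ((q (Sum.inr l.castSucc) : ℚ) : ℂ) * (γ l).1) := by
            rw [Finset.mul_sum, ← Finset.sum_neg_distrib]
            refine Finset.sum_congr rfl fun j _ => ?_
            push_cast
            ring
          rw [e1, e2]
          field_simp
          ring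
        rw [hlast, Rat.cast_zero, zero_mul, add_zero] at hq
        have h2 := hi (Sum.elim (fun j => q (Sum.inl j)) (fun l => q (Sum.inr l.castSucc))) (by
          rw [Fintype.sum_sum_type]
          simpa only [Sum.elim_inl, Sum.elim_inr] using hq)
        funext j
        rcases j with j | j
        · exact congrFun h2 (Sum.inl j)
        · rcases Fin.eq_castSucc_or_eq_last j with ⟨j, rfl⟩ | rfl
          · exact congrFun h2 (Sum.inr j)
          · exact hlast
      · rcases Fin.eq_castSucc_or_eq_last i with ⟨j, rfl⟩ | rfl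
        · obtain ⟨c, hc, q, p, h⟩ := hx j
          refine ⟨c, hc, q, Fin.snoc p 0, ?_⟩
          rw [Fin.sum_univ_castSucc]
          simp only [Fin.snoc_castSucc, Fin.snoc_last, Rat.cast_zero, zero_mul, add_zero]
          exact h
        · refine ⟨0, zero_mem _, 0, Fin.snoc 0 1, ?_⟩
          rw [Fin.sum_univ_castSucc]
          simp

theorem exists_fin_basis (w : ι → X) (hw : Indep K w) {n : ℕ} (x : Fin n → ℂ) :
    ∃ (m : ℕ) (γ : Fin m → X), Indep K (Sum.elim w γ) ∧
      ∀ i, ∃ c ∈ K, ∃ (q : ι → ℚ) (p : Fin m → ℚ),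
        x i = c + ∑ j, (q j : ℂ) * (w j).1 + ∑ l, (p l : ℂ) * (γ l).1 :=
  fin_basis_aux w hw n x

theorem ext_good (hK : Closed K φ) (w : ι → X) (hw : Good K φ w) (z : ℂ)
    (hz : z ∈ cl ((K : Set ℂ) ∪ Set.range (fun j => (w j).1))) :
    ∃ (s : ℕ) (γ : Fin s → X), Good K φ (Sum.elim w γ) ∧ rho K (Sum.elim w γ) = rho K w ∧
      ∃ c ∈ K, ∃ (q : ι → ℚ) (p : Fin s → ℚ),
        z = c + ∑ j, (q j : ℂ) * (w j).1 + ∑ l, (p l : ℂ) * (γ l).1 := by
  obtain ⟨n, a, ha⟩ := cl_cert _ z hz
  obtain ⟨m, γ, hi, hx⟩ := exists_fin_basis w hw.1 (Fin.snoc a z : Fin (n + 1) → ℂ)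
  have hax : ∀ i : Fin n, ∃ c ∈ K, ∃ (q : ι → ℚ) (p : Fin m → ℚ),
      a i = c + ∑ j, (q j : ℂ) * (w j).1 + ∑ l, (p l : ℂ) * (γ l).1 := by
    intro i
    have := hx i.castSucc
    simpa using this
  have hzx : ∃ c ∈ K, ∃ (q : ι → ℚ) (p : Fin m → ℚ),
      z = c + ∑ j, (q j : ℂ) * (w j).1 + ∑ l, (p l : ℂ) * (γ l).1 := by
    have := hx (Fin.last n)
    simpa using this
  -- the relative derivations kill `z`
  have hkill : ∀ D ∈ RelDer K φ w γ, D z = 0 := by
    intro D hD
    apply ha D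
    · intro x hx
      rcases hx with hx | ⟨j, rfl⟩
      · exact hD.1 x (Or.inl hx)
      · exact hD.1 _ (Or.inr ⟨Sum.inl j, rfl⟩)
    · intro i
      obtain ⟨c, hc, q, p, h⟩ := hax i
      exact relDer_rule hK w γ hD (a i) c hc q p h
  have hγli : LinearIndependent ℚ γ := by
    rw [Fintype.linearIndependent_iff]
    intro g hg
    have h1 := hi (Sum.elim 0 g) (by
      rw [Fintype.sum_sum_type]
      simp only [Sum.elim_inl, Sum.elim_inr, Pi.zero_apply, Rat.cast_zero, zero_mul,
        Finset.sum_const_zero, zero_add]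
      rw [← fst_comb, hg]
      exact zero_mem _)
    intro l
    exact congrFun h1 (Sum.inr l)
  obtain ⟨n₁, n₂, γ₁, γ₂, hcard, hli, hspan, hc1, hc2, hc3⟩ :=
    exists_split (K := K) (φ := φ) w γ hγli
  have hrel : RelDer K φ w (Sum.elim γ₁ γ₂) = RelDer K φ w γ :=
    relDer_eq_of_span w _ _ hspan
  have hcount := (count (K := K) (φ := φ) w γ₁ γ₂ (by rw [hrel]; exact hc1)
    (by rw [hrel]; exact hc2)).2
  have hli1 : LinearIndependent ℚ γ₁ := by
    have := hli.comp Sum.inl Sum.inl_injective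
    simpa using this
  have hmem1 : ∀ j, γ₁ j ∈ Submodule.span ℚ (Set.range γ) := by
    intro j
    rw [← hspan]
    exact Submodule.subset_span ⟨Sum.inl j, rfl⟩
  have hind := indep_sum w γ γ₁ hi hmem1 hli1
  have h1 := ax_closed hK (Sum.elim w γ₁) hind
  have h2 := td_pt_sum (K := K) (φ := φ) w γ₁
  have h3 := rho_le_sum (K := K) w γ₁
  have h4 := hw.2
  rw [Fintype.card_sum, Fintype.card_fin] at h1
  rw [Fintype.card_fin] at hcount
  have hrho : rho K (Sum.elim w γ₁) = rho K w := by omega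
  refine ⟨n₁, γ₁, ⟨hind, ?_⟩, hrho, ?_⟩
  · rw [Fintype.card_sum, Fintype.card_fin]
    omega
  · obtain ⟨c, hc, q, p, h⟩ := hzx
    have hu : (∑ l, p l • γ l) ∈ Submodule.span ℚ (Set.range γ₁) := by
      apply hc3
      · exact Submodule.sum_mem _ fun j _ => Submodule.smul_mem _ _ (Submodule.subset_span ⟨j, rfl⟩)
      · intro D hD
        have e1 : (∑ l, p l • γ l).1 = z - c - (∑ j, q j • w j).1 := by
          rw [fst_comb, fst_comb, h]
          ring
        have e2 := (relDer_w w γ hD (∑ j, q j • w j) (Submodule.sum_mem _ fun j _ =>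
          Submodule.smul_mem _ _ (Submodule.subset_span ⟨j, rfl⟩))).2
        rw [e1, map_sub, map_sub, hkill D hD, hD.1 c (Or.inl hc), e2, sub_zero, sub_zero]
    obtain ⟨p', hp'⟩ := (Submodule.mem_span_range_iff_exists_fun ℚ).1 hu
    refine ⟨c, hc, q, p', ?_⟩
    rw [h, ← fst_comb γ p, ← hp', fst_comb γ₁ p']

end Pool.Agent.EXL
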