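import Mathlib

/-!
# EXL / Phi: homomorphisms from the rational numbers to divisible groups

PROOF of `exists_phi`.  Choose `x_n ∈ D` with `x_0 = x`, `x_{n+1} ^ (n+1) = x_n`, so that
`x_n ^ (n!) = x`; for `q ∈ ℚ` and `n` with `n! q ∈ ℤ` put `φ q = x_n ^ (n! q)`; this does not depend
on `n`.
-/

set_option autoImplicit false

namespace Pool.Agent.EXL

theorem exists_phi (D : Subgroup ℂˣ) (hD : ∀ n : ℕ, 0 < n → ∀ x ∈ D, ∃ y ∈ D, y ^ n = x)
    (x : ℂˣ) (hx : x ∈ D) : ∃ φ : AddChar ℚ ℂ, φ 1 = x ∧ ∀ q, ∃ y ∈ D, φ q = (y : ℂ) := by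
  have hdiv : ∀ {n : ℤ}, n ≠ 0 → Function.Surjective (fun a : Additive D => n • a) := by
    intro n hn a
    obtain ⟨y, hy, hyn⟩ := hD n.natAbs (Int.natAbs_pos.2 hn) (a.toMul : ℂˣ) (a.toMul).2
    rcases Int.natAbs_eq n with h | h
    · refine ⟨Additive.ofMul ⟨y, hy⟩, ?_⟩
      show n • Additive.ofMul (⟨y, hy⟩ : D) = a
      rw [h, natCast_zsmul, ← ofMul_pow]
      apply Additive.toMul.injective
      apply Subtype.ext
      exact hyn
    · refine ⟨Additive.ofMul ⟨y⁻¹, D.inv_mem hy⟩, ?_⟩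
      show n • Additive.ofMul (⟨y⁻¹, D.inv_mem hy⟩ : D) = a
      rw [h, neg_smul, natCast_zsmul, ← ofMul_pow, ← ofMul_inv]
      apply Additive.toMul.injective
      apply Subtype.ext
      show (y⁻¹ ^ n.natAbs)⁻¹ = _
      rw [inv_pow, inv_inv]
      exact hyn
  let _ : DivisibleBy (Additive D) ℤ := divisibleByOfSMulRightSurj _ _ hdiv
  have hb : Module.Baer ℤ (Additive D) := Module.Baer.of_divisible _
  obtain ⟨h, hh⟩ := hb.extension_property (Int.castAddHom ℚ).toIntLinearMap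
    (by
      intro a b hab
      have : (a : ℚ) = b := hab
      exact_mod_cast this)
    (LinearMap.toSpanSingleton ℤ (Additive D) (Additive.ofMul ⟨x, hx⟩))
  have h1 : h 1 = Additive.ofMul ⟨x, hx⟩ := by
    have h2 := LinearMap.congr_fun hh 1
    rw [LinearMap.toSpanSingleton_apply, one_smul] at h2
    rw [← h2]
    show h 1 = h ((1 : ℤ) : ℚ)
    rw [Int.cast_one]
  refine ⟨{ toFun := fun q => (((h q).toMul : D) : ℂˣ), map_zero_eq_one' := ?_,
            map_add_eq_mul' := ?_ }, ?_, ?_⟩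
  · show ((((h 0).toMul : D) : ℂˣ) : ℂ) = 1
    rw [map_zero]
    rfl
  · intro a b
    show ((((h (a + b)).toMul : D) : ℂˣ) : ℂ) = _
    rw [map_add]
    rfl
  · show ((((h 1).toMul : D) : ℂˣ) : ℂ) = x
    rw [h1]
    rfl
  · intro q
    exact ⟨((h q).toMul : D), ((h q).toMul).2, rfl⟩

end Pool.Agent.EXL
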