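import Pool.Agent.EXL.Def

/-!
# EXL / Red: change of the group

PROOF of `Definable.inter` etc.: De Morgan. `Definable.reduce`: induction; for an atomic formula
`ExpMod G (v i) (v j)`: it holds iff there are `g ∈ G` and `u` with `u * g = v j`,
`ExpMod (φ ℚ) (v i) u`; so the set is the union over `g ∈ G` of the double projections of
`{v ∈ ℂ^{n+2} | v_{n} = g, v_{n+1} * v_n = v_j, ExpMod (φ ℚ) (v i) (v_{n+1})}`.
-/

set_option autoImplicit false

namespace Pool.Agent.EXL

theorem Definable.inter {R : ℂ → ℂ → Prop} {A : Set ℂ} {n : ℕ} {S T : Set (Fin n → ℂ)}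
    (hS : Definable R A n S) (hT : Definable R A n T) : Definable R A n (S ∩ T) := by
  have h : S ∩ T = (⋃₀ ({Sᶜ, Tᶜ} : Set (Set (Fin n → ℂ))))ᶜ := by
    rw [Set.sUnion_insert, Set.sUnion_singleton, Set.compl_union, compl_compl, compl_compl]
  rw [h]
  refine Definable.compl n _ (Definable.sUnion n _ ?_)
  rintro U (rfl | rfl)
  · exact Definable.compl n _ hS
  · exact Definable.compl n _ hT

/-- Change of the group: `G` contains `G'`. -/
theorem Definable.reduce (G : Subgroup ℂˣ) (G' : Set ℂ) (h1 : (1 : ℂ) ∈ G')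
    (hG' : ∀ g ∈ G', ∃ y ∈ G, g = (y : ℂ)) (A : Set ℂ) {n : ℕ} {S : Set (Fin n → ℂ)}
    (hS : Definable (ExpMod ((fun y : ℂˣ => (y : ℂ)) '' (G : Set ℂˣ))) A n S) :
    Definable (ExpMod G') (A ∪ (fun y : ℂˣ => (y : ℂ)) '' (G : Set ℂˣ)) n S := by
  induction hS with
  | const n i a ha => exact Definable.const n i a (Or.inl ha)
  | eq n i j => exact Definable.eq n i j
  | add n i j k => exact Definable.add n i j k
  | mul n i j k => exact Definable.mul n i j k
  | rel n i j =>
    have h : {v : Fin n → ℂ | ExpMod ((fun y : ℂˣ => (y : ℂ)) '' (G : Set ℂˣ)) (v i) (v j)} =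
        ⋃₀ {T | ∃ g ∈ G, T = {v : Fin n → ℂ | ∃ z, Fin.snoc v z ∈
          {v' : Fin (n + 1) → ℂ | ∃ u, Fin.snoc v' u ∈
            ({v : Fin (n + 2) → ℂ | v (Fin.last n).castSucc = ((g : ℂˣ) : ℂ)} ∩
            ({v : Fin (n + 2) → ℂ | v (Fin.last (n + 1)) * v (Fin.last n).castSucc =
                v j.castSucc.castSucc} ∩
              {v : Fin (n + 2) → ℂ | ExpMod G' (v i.castSucc.castSucc)
                (v (Fin.last (n + 1)))}))}}} := by
      ext v
      simp only [Set.mem_ofPred_eq, Set.mem_sUnion, Set.mem_inter_iff]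
      constructor
      · rintro ⟨_, ⟨g, hg, rfl⟩, hv⟩
        refine ⟨_, ⟨g, hg, rfl⟩, (g : ℂ), Complex.exp (v i), ?_⟩
        simp only [Set.mem_ofPred_eq, Fin.snoc_castSucc, Fin.snoc_last]
        exact ⟨trivial, hv.symm, 1, h1, (mul_one _).symm⟩
      · rintro ⟨_, ⟨g, hg, rfl⟩, z, u, hz⟩
        simp only [Set.mem_ofPred_eq, Fin.snoc_castSucc, Fin.snoc_last] at hz
        obtain ⟨h2, h3, g', hg', h4⟩ := hz
        obtain ⟨y, hy, rfl⟩ := hG' g' hg'
        refine ⟨((y * g : ℂˣ) : ℂ), ⟨y * g, G.mul_mem hy hg, rfl⟩, ?_⟩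
        rw [← h3, h2, h4]
        push_cast
        ring
    rw [h]
    refine Definable.sUnion n _ ?_
    rintro _ ⟨g, hg, rfl⟩
    refine Definable.proj n _ (Definable.proj (n + 1) _ ?_)
    refine (Definable.const (n + 2) _ _ (Or.inr ⟨g, hg, rfl⟩)).inter
      ((Definable.mul (n + 2) _ _ _).inter (Definable.rel (n + 2) _ _))
  | compl n S hS ih => exact Definable.compl n S ih
  | sUnion n T hT ih => exact Definable.sUnion n T ih
  | proj n S hS ih => exact Definable.proj n S ih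

end Pool.Agent.EXL
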