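import Pool.Agent.EXL.Bf
import Pool.Agent.EXL.Phi
import Pool.Agent.EXL.Red

/-!
# EXL / Fin: the theorem for general groups
-/

set_option autoImplicit false

namespace Pool.Agent.EXL

/-- The complex field with `y ∈ exp x * G` is quasiminimal, in the sense of the infinitary logic
`L_{∞ω}` with countably many parameters, for every countable subgroup `G` of `ℂ^*` which contains a
divisible subgroup not contained in the unit circle. -/
theorem quasiminimal (G D : Subgroup ℂˣ) (hG : (G : Set ℂˣ).Countable) (hDG : D ≤ G)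
    (hD : ∀ n : ℕ, 0 < n → ∀ x ∈ D, ∃ y ∈ D, y ^ n = x) (x : ℂˣ) (hx : x ∈ D)
    (hx1 : ‖(x : ℂ)‖ ≠ 1) (A : Set ℂ) (hA : A.Countable) (S : Set (Fin 1 → ℂ))
    (hS : Definable (ExpMod ((fun y : ℂˣ => (y : ℂ)) '' (G : Set ℂˣ))) A 1 S) :
    S.Countable ∨ Sᶜ.Countable := by
  obtain ⟨φ, hφ1, hφ⟩ := exists_phi D hD x hx
  refine quasiminimal_phi (φ := φ) (by rwa [hφ1])
    (A ∪ (fun y : ℂˣ => (y : ℂ)) '' (G : Set ℂˣ)) (hA.union (hG.image _)) S
    (Definable.reduce G (Set.range φ) ⟨0, AddChar.map_zero_eq_one φ⟩ ?_ A hS)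
  rintro _ ⟨q, rfl⟩
  obtain ⟨y, hy, h⟩ := hφ q
  exact ⟨y, hDG hy, h⟩

end Pool.Agent.EXL
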