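import Pool.Agent.EXL.Tdi

/-!
# EXL / Ld: linear disjointness

PROOF.  Let `s` be a basis of `x` over `K` (`exists_basis` with `k = K`): `card s = td K x`, every
derivation over `K` which kills `x_s` kills `x`. Then `td C x ≤ td C x_s` (`rk_le_of_dep`,
`DerOver C ≤ DerOver K`), so `td C x_s ≥ td K x = card s` and `x_s` is algebraically independent
over `C` (`algInd_iff` with `k = C`). Hence for every derivation `δ : C → C` which kills `K` there
is (`exists_der`) a derivation `D` of `E` with `D|C = δ` and `D x_i = 0` for `i ∈ s`; it kills `K`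
so it kills `x` and the field generated by `K` and `x`, in particular all `y j`.
Suppose there is a nonzero `c : κ → C` with `∑ c_j y_j = 0`; take one of minimal support with some
`c_{j₀} = 1`. For `D` as above `0 = D(∑ c_j y_j) = ∑ δ(c_j) y_j`, and `δ(c)` has smaller support, so
`δ(c_j) = 0` for all `j` and all derivations `δ : C → C` over `K`. So `c_j` is algebraic over `K`
(`exists_der_ne_zero` for the field `C` and its subfield `K`), so `c_j ∈ K` by `hK`, and this
contradicts `hind`.
-/

set_option autoImplicit false

namespace Pool.Agent.EXL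

private lemma ld_range {E : Type*} [Field E] (K : Subfield E) :
    Set.range (algebraMap K E) = (K : Set E) := by
  ext x
  constructor
  · rintro ⟨y, rfl⟩
    exact y.2
  · intro hx
    exact ⟨⟨x, hx⟩, rfl⟩

/-- If `x` has the same transcendence degree over `C` and over `K`, `K` relatively algebraically
closed in `C`, then elements of `K(x)` which are linearly independent over `K` are linearly
independent over `C`. -/
theorem linDisj {E : Type*} [Field E] [CharZero E] (K C : Subfield E) (hKC : K ≤ C)
    (hK : ∀ x ∈ C, IsAlgebraic K x → x ∈ K) {ι : Type*} [Fintype ι] (x : ι → E)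
    (htd : td (K : Set E) x ≤ td (C : Set E) x) {κ : Type*} [Fintype κ] (y : κ → E)
    (hy : ∀ j, y j ∈ Subfield.closure ((K : Set E) ∪ Set.range x))
    (hind : ∀ c : κ → E, (∀ j, c j ∈ K) → ∑ j, c j * y j = 0 → c = 0) :
    ∀ c : κ → E, (∀ j, c j ∈ C) → ∑ j, c j * y j = 0 → c = 0 := by
  classical
  obtain ⟨s, hs, -, hsd⟩ := exists_basis (k := K) x
  rw [ld_range] at hs hsd
  have hsC : AlgebraicIndependent C (fun i : s => x i) := by
    rw [algInd_iff, ld_range]
    apply le_antisymm (rk_le_card _ _)
    rw [Fintype.card_coe, hs]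
    refine htd.trans ?_
    unfold td
    exact rk_le_of_dep _ _ _ (fun D hD h => hsd D (derOver_anti hKC hD) (fun i hi => h ⟨i, hi⟩))
  -- derivations of `C` over `K` extend to derivations which kill `y`
  have hext : ∀ δ : Derivation ℤ C C, (∀ c : C, (c : E) ∈ K → δ c = 0) →
      ∃ D : Derivation ℤ E E, (∀ c : C, D c = δ c) ∧ ∀ j, D (y j) = 0 := by
    intro δ hδ
    obtain ⟨D, hD1, hD2⟩ := exists_der C ((Algebra.linearMap C E).compDer δ)
      (fun i : s => x i) hsC 0
    have hD1' : ∀ c : C, D c = (δ c : E) := hD1
    have hDK : D ∈ DerOver (K : Set E) := by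
      intro z hz
      have h1 := hD1' ⟨z, hKC hz⟩
      rw [hδ ⟨z, hKC hz⟩ hz] at h1
      exact h1
    have hDx := hsd D hDK (fun i hi => hD2 ⟨i, hi⟩)
    have hD : D ∈ DerOver ((K : Set E) ∪ Set.range x) := by
      rw [derOver_union]
      refine ⟨hDK, ?_⟩
      rintro _ ⟨i, rfl⟩
      exact hDx i
    rw [← derOver_closure] at hD
    exact ⟨D, hD1', fun j => hD _ (hy j)⟩
  -- elements of `C` killed by all of them are in `K`
  have hmem : ∀ c : C, (∀ δ : Derivation ℤ C C, (∀ c : C, (c : E) ∈ K → δ c = 0) → δ c = 0) →
      (c : E) ∈ K := by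
    intro c hc
    apply hK _ c.2
    by_contra halg
    have halg' : ¬ IsAlgebraic (K.comap C.subtype) c := by
      intro h
      apply halg
      let f : (K.comap C.subtype) →+* K :=
        { toFun := fun z => ⟨(z : C), z.2⟩
          map_one' := rfl
          map_mul' := fun _ _ => rfl
          map_zero' := rfl
          map_add' := fun _ _ => rfl }
      exact h.ringHom_of_comp_eq f C.subtype f.injective rfl
    obtain ⟨δ, hδ, hne⟩ := exists_der_ne_zero (K.comap C.subtype) c halg'
    exact hne (hc δ (fun z hz => hδ z hz))
  -- minimal support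
  have key : ∀ n : ℕ, ∀ c : κ → E, (∀ j, c j ∈ C) → ∑ j, c j * y j = 0 →
      (Finset.univ.filter (fun j => c j ≠ 0)).card = n → c = 0 := by
    intro n
    induction n using Nat.strong_induction_on with
    | _ n ih =>
    intro c hc hsum hn
    by_contra hne
    obtain ⟨j₀, hj₀⟩ : ∃ j, c j ≠ 0 := by
      by_contra hcon
      push Not at hcon
      exact hne (funext hcon)
    have hc' : ∀ j, c j / c j₀ ∈ C := fun j => C.div_mem (hc j) (hc j₀)
    have hsum' : ∑ j, c j / c j₀ * y j = 0 := by
      have : ∑ j, c j / c j₀ * y j = (∑ j, c j * y j) / c j₀ := by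
        rw [Finset.sum_div]
        exact Finset.sum_congr rfl fun j _ => by ring
      rw [this, hsum, zero_div]
    have hkill : ∀ j, c j / c j₀ ∈ K := by
      intro j
      refine hmem ⟨c j / c j₀, hc' j⟩ fun δ hδ => ?_
      obtain ⟨D, hD1, hD2⟩ := hext δ hδ
      have h0 : (fun j => D (c j / c j₀)) = 0 := by
        refine ih _ ?_ (fun j => D (c j / c j₀)) ?_ ?_ rfl
        · rw [← hn]
          apply Finset.card_lt_card
          rw [Finset.ssubset_iff_of_subset]
          · refine ⟨j₀, by simp [hj₀], ?_⟩
            simp only [Finset.mem_filter, Finset.mem_univ, true_and, not_not]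
            rw [div_self hj₀]
            exact D.map_one_eq_zero
          · intro i hi
            simp only [Finset.mem_filter, Finset.mem_univ, true_and] at hi ⊢
            intro h
            apply hi
            rw [h, zero_div, map_zero]
        · intro j
          have := hD1 ⟨c j / c j₀, hc' j⟩
          change D (c j / c j₀) ∈ C
          rw [show D (c j / c j₀) = (δ ⟨c j / c j₀, hc' j⟩ : E) from this]
          exact (δ ⟨c j / c j₀, hc' j⟩).2
        · have h1 := congrArg D hsum'
          rw [map_sum, map_zero] at h1
          rw [← h1]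
          refine Finset.sum_congr rfl fun j _ => ?_
          rw [Derivation.leibniz, hD2, smul_zero, zero_add, smul_eq_mul, mul_comm]
      have h1 : D (c j / c j₀) = 0 := congrFun h0 j
      have h2 := hD1 ⟨c j / c j₀, hc' j⟩
      apply Subtype.ext
      change (δ ⟨c j / c j₀, hc' j⟩ : E) = 0
      rw [← h2]
      exact h1
    have h3 := congrFun (hind (fun j => c j / c j₀) hkill hsum') j₀
    rw [Pi.zero_apply, div_self hj₀] at h3
    exact one_ne_zero h3
  exact fun c hc hsum => key _ c hc hsum rfl

end Pool.Agent.EXL
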