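import Pool.Agent.EXL.Ultra
import Pool.Agent.EXL.Ld

/-!
# EXL / Gen0: the same type in another field
-/

set_option autoImplicit false

namespace Pool.Agent.EXL

open MvPolynomial

variable {K : Subfield ℂ} {φ : AddChar ℚ ℂ} {ι : Type} [Fintype ι]

/-- The point `p* = (a, b)` has the type of `w` over `K`. -/
def SameType (K : Subfield ℂ) (φ : AddChar ℚ ℂ) (w : ι → X) {F : Type} [Field F] (c : ℂ →+* F)
    (a b : ι → F) : Prop :=
  ∀ f : MvPolynomial (ι ⊕ ι) K,
    eval₂ (c.comp (algebraMap K ℂ)) (Sum.elim a b) f = 0 ↔ aeval (pt φ 1 w) f = 0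

end Pool.Agent.EXL
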