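import Pool.Agent.EXL.Gen0

/-!
# EXL / Gen1: the case with relations

Notation: `p* = (a, b)` is a point of `F^{2r}`, `r = card ι`, `d = rho K w`, `C = consts Δ`, `F` is
regarded as an algebra over `K` through `c`; `ht : SameType` says that `p*` has the type of
`pt φ 1 w` over `K`, so `td_{cK} p* = td K (pt φ 1 w) = r + d` (`td_le_of_specialization`).

Case `s > 0` (`gen_case_pos`): choose `J ⊆ ι` maximal such that the `a_j`, `j ∈ J`, are independent
over `ℤ` modulo `C`; `J ≠ ι`. For `i ∉ J` there are integers `n_i ≠ 0`, `m_{i,l}` (`l ∈ J`) with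
`n_i a_i - ∑_l m_{i,l} a_l ∈ C`. By `ax` for `(a_j, b_j)_{j ∈ J}`:
`td C p* ≥ td C p*_J ≥ card J + rk Δ a_J = card J + rk Δ a ≥ card J + d`.
On the other hand let `q*` be the point with the coordinates `n_i a_i - ∑_l m_{i,l} a_l` and
`b_i ^ n_i * ∏_l b_l ^ (- m_{i,l})`, `i ∉ J`; it is in `C` (for the second ones: apply `D ∈ Δ`), so
`td C p* ≤ td (cK ∪ q*) p* = td_{cK} p* - td_{cK} q*` (`td_anti`, `td_sum`, `rk_eq_of_dep`), and
`td_{cK} q* ≥ td K (pt φ 1 γ)` for the corresponding tuple `γ_i = n_i • w i - ∑_l m_{i,l} • w l` of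
`X` (`td_le_of_specialization`: a polynomial over `K` which vanishes at `q*` gives, multiplied with
powers of the `b_l`, a polynomial which vanishes at `p*`, hence at `w`). By `ax_closed`
`td K (pt φ 1 γ) ≥ (r - card J) + rho γ ≥ (r - card J) + 1`: `γ` is independent modulo `K` (look at the
coefficient of `w i`, `i ∉ J`), and `rho γ ≠ 0` because otherwise `(γ_i).1 ∈ K` (`Closed.mem_iff`,
`rk_eq_zero_iff`). Also `td_{cK} p* = td K (pt φ 1 w) = r + d`. So
`card J + d ≤ r + d - (r - card J) - 1`, a contradiction.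
-/

set_option autoImplicit false

namespace Pool.Agent.EXL

open MvPolynomial

variable {K : Subfield ℂ} {φ : AddChar ℚ ℂ} {ι : Type} [Fintype ι]

private lemma gen1_der_zpow {E : Type*} [Field E] (D : Derivation ℤ E E) (x : E) (hx : x ≠ 0)
    (n : ℤ) : D (x ^ n) / x ^ n = n * (D x / x) := by
  have hpow : ∀ (y : E) (_ : y ≠ 0) (k : ℕ), D (y ^ k) / y ^ k = k * (D y / y) := by
    intro y hy k
    induction k with
    | zero => simp
    | succ k ih =>
      have hyk : y ^ k ≠ 0 := pow_ne_zero _ hy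
      rw [pow_succ, Derivation.leibniz, smul_eq_mul, smul_eq_mul]
      have h1 : D (y ^ k) = k * (D y / y) * y ^ k := by
        rw [← ih]
        field_simp
      rw [h1]
      push_cast
      field_simp
      ring
  rcases n with n | n
  · rw [Int.ofNat_eq_natCast, zpow_natCast, hpow x hx n]
    push_cast
    ring
  · rw [zpow_negSucc, Derivation.leibniz_inv, Int.cast_negSucc, smul_eq_mul]
    have h1 := hpow x hx (n + 1)
    have h2 : x ^ (n + 1) ≠ 0 := pow_ne_zero _ hx
    have h3 : D (x ^ (n + 1)) = ((n + 1 : ℕ) : E) * (D x / x) * x ^ (n + 1) := by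
      rw [← h1]
      field_simp
    rw [h3]
    field_simp

private lemma gen1_der_prod {E : Type*} [Field E] {κ : Type*} (s : Finset κ)
    (D : Derivation ℤ E E) (x : κ → E) (hx : ∀ j, x j ≠ 0) :
    D (∏ j ∈ s, x j) / ∏ j ∈ s, x j = ∑ j ∈ s, D (x j) / x j := by
  classical
  induction s using Finset.induction_on with
  | empty => simp
  | insert j s hj ih =>
    rw [Finset.prod_insert hj, Finset.sum_insert hj, Derivation.leibniz, smul_eq_mul, smul_eq_mul,
      ← ih]
    have h1 := hx j
    have h2 : ∏ i ∈ s, x i ≠ 0 := Finset.prod_ne_zero_iff.2 fun i _ => hx i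
    field_simp
    ring

/-- the field generated by a point, in two ways -/
private lemma gen1_frac {k E E' σ : Type} [Field k] [Field E] [Field E'] [Algebra k E]
    [Algebra k E'] (x : σ → E) (x' : σ → E')
    (h : ∀ f : MvPolynomial σ k, aeval x f = 0 ↔ aeval x' f = 0) :
    ∃ (L : Type) (_ : Field L) (_ : Algebra k L) (u : L →ₐ[k] E) (v : L →ₐ[k] E') (ξ : σ → L),
      (∀ i, u (ξ i) = x i) ∧ ∀ i, v (ξ i) = x' i := by
  let I : Ideal (MvPolynomial σ k) := RingHom.ker (aeval x' : MvPolynomial σ k →ₐ[k] E')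
  have hI : I.IsPrime := RingHom.ker_isPrime _
  let αv : (MvPolynomial σ k ⧸ I) →ₐ[k] E' := Ideal.Quotient.liftₐ I (aeval x') fun f hf => hf
  let αu : (MvPolynomial σ k ⧸ I) →ₐ[k] E :=
    Ideal.Quotient.liftₐ I (aeval x) fun f hf => (h f).2 hf
  have hv : Function.Injective αv := by
    refine (injective_iff_map_eq_zero αv).2 fun f hf => ?_
    obtain ⟨f, rfl⟩ := Ideal.Quotient.mk_surjective f
    exact Ideal.Quotient.eq_zero_iff_mem.2 hf
  have hu : Function.Injective αu := by
    refine (injective_iff_map_eq_zero αu).2 fun f hf => ?_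
    obtain ⟨f, rfl⟩ := Ideal.Quotient.mk_surjective f
    exact Ideal.Quotient.eq_zero_iff_mem.2 ((h f).1 hf)
  refine ⟨FractionRing (MvPolynomial σ k ⧸ I), inferInstance, inferInstance,
    IsFractionRing.liftAlgHom hu, IsFractionRing.liftAlgHom hv,
    fun i => algebraMap _ _ (Ideal.Quotient.mk I (MvPolynomial.X i)), fun i => ?_, fun i => ?_⟩
  · rw [IsFractionRing.liftAlgHom_apply, IsFractionRing.lift_algebraMap]
    change (aeval x : MvPolynomial σ k →ₐ[k] E) (MvPolynomial.X i) = x i
    rw [aeval_X]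
  · rw [IsFractionRing.liftAlgHom_apply, IsFractionRing.lift_algebraMap]
    change (aeval x' : MvPolynomial σ k →ₐ[k] E') (MvPolynomial.X i) = x' i
    rw [aeval_X]

private lemma gen1_ex_zsmul (φ : AddChar ℚ ℂ) (n : ℤ) (x : X) : ex φ (n • x) = ex φ x ^ n := by
  rcases n with n | n
  · rw [Int.ofNat_eq_natCast, natCast_zsmul, ex_nsmul, zpow_natCast]
  · rw [negSucc_zsmul, zpow_negSucc, ← ex_nsmul]
    refine eq_inv_of_mul_eq_one_left ?_
    rw [← ex_add, neg_add_cancel, ex_zero]

/-- the point of the relations -/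
private noncomputable def gq {κ : Type} {E : Type} [Field E] (R : κ → ι → ℤ) (x y : ι → E) :
    κ ⊕ κ → E :=
  Sum.elim (fun i => ∑ j, (R i j : E) * x j) (fun i => ∏ j, y j ^ R i j)

private lemma gq_map {κ E E' : Type} [Field E] [Field E'] (R : κ → ι → ℤ) (u : E →+* E')
    (x y : ι → E) (i : κ ⊕ κ) : u (gq R x y i) = gq R (fun j => u (x j)) (fun j => u (y j)) i := by
  rcases i with i | i
  · simp only [gq, Sum.elim_inl, map_sum, map_mul, map_intCast]
  · simp only [gq, Sum.elim_inr, map_prod, map_zpow₀]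

/-- the maximal independent subfamily -/
private lemma gen1_J {F : Type} [Field F] (C : Subfield F) (a : ι → F) : ∃ J : Finset ι,
    (∀ q : ι → ℤ, (∀ j, j ∉ J → q j = 0) → ∑ j, (q j : F) * a j ∈ C → q = 0) ∧
    ∀ i, i ∉ J → ∃ q : ι → ℤ, q i ≠ 0 ∧ (∀ j, j ≠ i → j ∉ J → q j = 0) ∧
      ∑ j, (q j : F) * a j ∈ C := by
  classical
  let P : Finset ι → Prop := fun J =>
    ∀ q : ι → ℤ, (∀ j, j ∉ J → q j = 0) → ∑ j, (q j : F) * a j ∈ C → q = 0
  have h0 : P ∅ := fun q hq _ => funext fun j => hq j (Finset.notMem_empty j)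
  obtain ⟨J, hJ, hmax⟩ := (Finset.univ.filter P).exists_max_image Finset.card
    ⟨∅, Finset.mem_filter.2 ⟨Finset.mem_univ _, h0⟩⟩
  have hPJ : P J := (Finset.mem_filter.1 hJ).2
  refine ⟨J, hPJ, fun i hi => ?_⟩
  have h1 : ¬ P (insert i J) := by
    intro h2
    have h3 := hmax _ (Finset.mem_filter.2 ⟨Finset.mem_univ _, h2⟩)
    rw [Finset.card_insert_of_notMem hi] at h3
    omega
  have h2 : ∃ q : ι → ℤ, (∀ j, j ∉ insert i J → q j = 0) ∧ ∑ j, (q j : F) * a j ∈ C ∧ q ≠ 0 := by
    by_contra h3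
    push Not at h3
    exact h1 fun q hq hqC => h3 q hq hqC
  obtain ⟨q, hq1, hq2, hq3⟩ := h2
  refine ⟨q, fun h4 => hq3 (hPJ q (fun j hj => ?_) hq2), fun j hji hj => hq1 j ?_, hq2⟩
  · by_cases hji : j = i
    · rw [hji, h4]
    · exact hq1 j (by simp [hji, hj])
  · simp [hji, hj]

theorem gen_case_pos (hK : Closed K φ) (w : ι → X) (hw : Good K φ w) {F : Type} [Field F]
    [CharZero F] (c : ℂ →+* F) (a b : ι → F) (Δ : Submodule F (Derivation ℤ F F))
    (hb : ∀ j, b j ≠ 0) (hrule : ∀ D ∈ Δ, ∀ j, D (b j) = b j * D (a j))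
    (hKC : ∀ x ∈ K, c x ∈ consts Δ) (hrk : rho K w ≤ rk Δ a) (ht : SameType K φ w c a b)
    (q : ι → ℤ) (hq : q ≠ 0) (hqC : ∑ j, (q j : F) * a j ∈ consts Δ) : False := by
  classical
  obtain ⟨J, hJ, hR⟩ := gen1_J (consts Δ) a
  have hR' : ∀ i : {i // i ∉ J}, ∃ q : ι → ℤ, q i ≠ 0 ∧
      (∀ j : ι, j ≠ (i : ι) → j ∉ J → q j = 0) ∧
      ∑ j, (q j : F) * a j ∈ consts Δ := fun i => hR i i.2
  choose R hR1 hR2 hR3 using hR'
  have hne : Nonempty {i // i ∉ J} := by
    by_contra h1
    rw [not_nonempty_iff] at h1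
    exact hq (hJ q (fun j hj => (h1.false ⟨j, hj⟩).elim) hqC)
  obtain ⟨i₀⟩ := hne
  have hcard : Fintype.card {i // i ∉ J} + J.card = Fintype.card ι := by
    have h1 := Fintype.card_subtype_compl (fun i => i ∈ J)
    have h2 : Fintype.card {i // i ∈ J} = J.card := Fintype.card_coe J
    have h3 : J.card ≤ Fintype.card ι := Finset.card_le_univ J
    have h4 : Fintype.card {i // i ∉ J} = Fintype.card ι - Fintype.card {i // i ∈ J} := h1
    omega
  -- the algebra structure
  let _ : Algebra K F := (c.comp (algebraMap K ℂ)).toAlgebra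
  have hcK : Set.range (algebraMap K F) ⊆ (consts Δ : Set F) := by
    rintro _ ⟨x, rfl⟩
    exact hKC x x.2
  have ht' : ∀ f : MvPolynomial (ι ⊕ ι) K, aeval (Sum.elim a b) f = 0 ↔
      aeval (pt φ 1 w) f = 0 := ht
  -- the point of the relations
  set qs : {i // i ∉ J} ⊕ {i // i ∉ J} → F := gq R a b with hqs
  set γ : {i // i ∉ J} → X := fun i => ∑ j, R i j • w j with hγ
  have hγ1 : ∀ i, (γ i).1 = ∑ j, (R i j : ℂ) * (w j).1 := by
    intro i
    rw [hγ]
    simp only [Prod.fst_sum]
    exact Finset.sum_congr rfl fun j _ => by rw [Prod.smul_fst, zsmul_eq_mul]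
  have hpt : pt φ 1 γ = gq R (fun j => pt φ 1 w (Sum.inl j)) (fun j => pt φ 1 w (Sum.inr j)) := by
    rw [pt_one, pt_one]
    funext i
    rcases i with i | i
    · exact hγ1 i
    · change ex φ (∑ j, R i j • w j) = ∏ j, ex φ (w j) ^ R i j
      rw [ex_sum]
      exact Finset.prod_congr rfl fun j _ => gen1_ex_zsmul φ _ _
  -- (D)
  have hD : td (K : Set ℂ) (pt φ 1 γ) ≤ td (Set.range (algebraMap K F)) qs := by
    obtain ⟨L, hL1, hL2, u, v, ξ, hu, hv⟩ := gen1_frac (k := K) (Sum.elim a b) (pt φ 1 w) ht'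
    have h1 : qs = fun i => u (gq R (fun j => ξ (Sum.inl j)) (fun j => ξ (Sum.inr j)) i) := by
      funext i
      have h2 := gq_map R (u : L →+* F) (fun j => ξ (Sum.inl j)) (fun j => ξ (Sum.inr j)) i
      have h3 : (fun j => (u : L →+* F) (ξ (Sum.inl j))) = a := funext fun j => hu (Sum.inl j)
      have h4 : (fun j => (u : L →+* F) (ξ (Sum.inr j))) = b := funext fun j => hu (Sum.inr j)
      rw [h3, h4] at h2
      exact h2.symm
    have h1' : pt φ 1 γ =
        fun i => v (gq R (fun j => ξ (Sum.inl j)) (fun j => ξ (Sum.inr j)) i) := by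
      rw [hpt]
      funext i
      have h2 := gq_map R (v : L →+* ℂ) (fun j => ξ (Sum.inl j)) (fun j => ξ (Sum.inr j)) i
      have h3 : (fun j => (v : L →+* ℂ) (ξ (Sum.inl j))) = fun j => pt φ 1 w (Sum.inl j) :=
        funext fun j => hv (Sum.inl j)
      have h4 : (fun j => (v : L →+* ℂ) (ξ (Sum.inr j))) = fun j => pt φ 1 w (Sum.inr j) :=
        funext fun j => hv (Sum.inr j)
      rw [h3, h4] at h2
      exact h2.symm
    rw [← range_algebraMap]
    refine td_le_of_specialization qs (pt φ 1 γ) fun f hf => ?_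
    rw [h1] at hf
    rw [h1']
    have h5 : aeval (fun i => u (gq R (fun j => ξ (Sum.inl j)) (fun j => ξ (Sum.inr j)) i)) f =
        u (aeval (gq R (fun j => ξ (Sum.inl j)) (fun j => ξ (Sum.inr j))) f) :=
      (comp_aeval_apply _ u f).symm
    have h6 : aeval (fun i => v (gq R (fun j => ξ (Sum.inl j)) (fun j => ξ (Sum.inr j)) i)) f =
        v (aeval (gq R (fun j => ξ (Sum.inl j)) (fun j => ξ (Sum.inr j))) f) :=
      (comp_aeval_apply _ v f).symm
    rw [h5] at hf
    rw [h6, (map_eq_zero u).1 hf, map_zero]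
  -- (E)
  have hind : Indep K γ := by
    intro p hp
    have h1 : ∑ i, (p i : ℂ) * (γ i).1 =
        ∑ j, ((∑ i, p i * (R i j : ℚ) : ℚ) : ℂ) * (w j).1 := by
      simp only [hγ1, Finset.mul_sum, Rat.cast_sum, Rat.cast_mul, Rat.cast_intCast,
        Finset.sum_mul]
      rw [Finset.sum_comm]
      exact Finset.sum_congr rfl fun j _ => Finset.sum_congr rfl fun i _ => by ring
    rw [h1] at hp
    have h2 := hw.1 (fun j => ∑ i, p i * (R i j : ℚ)) hp
    funext i
    have h3 := congrFun h2 i
    simp only [Pi.zero_apply] at h3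
    rw [Finset.sum_eq_single i] at h3
    · rcases mul_eq_zero.1 h3 with h4 | h4
      · exact h4
      · exact absurd (by exact_mod_cast h4) (hR1 i)
    · intro i' _ hi'
      rw [hR2 i' i (fun h => hi' (Subtype.ext h.symm)) i.2, Int.cast_zero, mul_zero]
    · intro h4
      exact absurd (Finset.mem_univ i) h4
  -- (F)
  have hrho : 1 ≤ rho K γ := by
    rw [Nat.one_le_iff_ne_zero]
    intro h1
    have h2 : (γ i₀).1 ∈ K := (hK.mem_iff _).2 fun D hD =>
      (rk_eq_zero_iff _ _).1 h1 D hD i₀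
    have h3 := hind (Pi.single i₀ 1) (by
      rw [Finset.sum_eq_single i₀]
      · rw [Pi.single_eq_same, Rat.cast_one, one_mul]
        exact h2
      · intro i _ hi
        rw [Pi.single_eq_of_ne hi, Rat.cast_zero, zero_mul]
      · intro h4
        exact absurd (Finset.mem_univ _) h4)
    have h4 := congrFun h3 i₀
    rw [Pi.single_eq_same] at h4
    exact one_ne_zero h4
  have hE := ax_closed hK γ hind
  -- (G)
  have hG : td (Set.range (algebraMap K F)) (Sum.elim a b) ≤ td (K : Set ℂ) (pt φ 1 w) := by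
    rw [← range_algebraMap]
    exact td_le_of_specialization _ _ fun f hf => (ht' f).2 hf
  -- (A)
  have hA := ax Δ (fun j : J => a j) (fun j : J => b j) (fun j => hb j)
    (fun D hD j => hrule D hD j) (by
      intro p hp
      have h1 := hJ (fun j => if h : j ∈ J then p ⟨j, h⟩ else 0) (fun j hj => dif_neg hj) (by
        have h2 : ∑ j, (((if h : j ∈ J then p ⟨j, h⟩ else 0 : ℤ) : ℤ) : F) * a j =
            ∑ j : J, (p j : F) * a j := by
          rw [← Finset.sum_subset (Finset.subset_univ J), ← Finset.sum_coe_sort J]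
          · refine Finset.sum_congr rfl fun j _ => ?_
            rw [dif_pos j.2]
          · intro j _ hj
            rw [dif_neg hj, Int.cast_zero, zero_mul]
        rw [h2]
        exact hp)
      funext j
      have h2 := congrFun h1 j
      simp only [Pi.zero_apply] at h2
      rw [dif_pos j.2] at h2
      exact h2)
  rw [Fintype.card_coe] at hA
  have hrkJ : rk Δ a ≤ rk Δ (fun j : J => a j) := by
    refine rk_le_of_dep Δ _ _ fun D hD h1 i => ?_
    by_cases hi : i ∈ J
    · exact h1 ⟨i, hi⟩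
    · have h2 := hR3 ⟨i, hi⟩ D hD
      rw [map_sum, Finset.sum_eq_single i] at h2
      · rw [Derivation.leibniz, Derivation.map_intCast, smul_zero, add_zero, smul_eq_mul] at h2
        rcases mul_eq_zero.1 h2 with h3 | h3
        · exact absurd (by exact_mod_cast h3) (hR1 ⟨i, hi⟩)
        · exact h3
      · intro j _ hj
        by_cases hjJ : j ∈ J
        · rw [Derivation.leibniz, Derivation.map_intCast, smul_zero, add_zero, h1 ⟨j, hjJ⟩,
            smul_zero]
        · rw [hR2 ⟨i, hi⟩ j hj hjJ, Int.cast_zero, zero_mul, map_zero]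
      · intro h3
        exact absurd (Finset.mem_univ _) h3
  -- (B)
  have hB : td (consts Δ : Set F) (Sum.elim (fun j : J => a j) (fun j : J => b j)) ≤
      td (consts Δ : Set F) (Sum.elim a b) := by
    refine rk_le_of_dep _ _ _ fun D _ h1 i => ?_
    rcases i with i | i
    · exact h1 (Sum.inl i)
    · exact h1 (Sum.inr i)
  -- (C)
  have hC1 : td (Set.range (algebraMap K F)) (Sum.elim a b) =
      td (Set.range (algebraMap K F)) qs +
        td (Set.range (algebraMap K F) ∪ Set.range qs) (Sum.elim a b) := by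
    rw [← td_sum]
    refine rk_eq_of_dep _ _ _ ?_ ?_
    · intro D hD h1 i
      rcases i with i | i
      · have hmem : ∀ z : F, D z = 0 → z ∈ consts (Submodule.span F {D}) := by
          intro z hz D' hD'
          obtain ⟨r, rfl⟩ := Submodule.mem_span_singleton.1 hD'
          rw [Derivation.smul_apply, hz, smul_zero]
        have h2 : qs i ∈ consts (Submodule.span F {D}) := by
          rcases i with i | i
          · change ∑ j, (R i j : F) * a j ∈ _
            exact sum_mem fun j _ => mul_mem (intCast_mem _ _) (hmem _ (h1 (Sum.inl j)))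
          · change ∏ j, b j ^ R i j ∈ _
            exact prod_mem fun j _ => zpow_mem (hmem _ (h1 (Sum.inr j))) _
        exact h2 D (Submodule.mem_span_singleton_self D)
      · exact h1 i
    · intro D _ h1 i
      exact h1 (Sum.inr i)
  have hC2 : td (consts Δ : Set F) (Sum.elim a b) ≤
      td (Set.range (algebraMap K F) ∪ Set.range qs) (Sum.elim a b) := by
    refine td_anti (Set.union_subset hcK ?_) _
    rintro _ ⟨i, rfl⟩
    rcases i with i | i
    · exact hR3 i
    · intro D hD
      change D (∏ j, b j ^ R i j) = 0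
      have h1 := gen1_der_prod Finset.univ D (fun j => b j ^ R i j)
        fun j => zpow_ne_zero _ (hb j)
      have h2 : ∑ j, D (b j ^ R i j) / b j ^ R i j = 0 := by
        have h3 := hR3 i D hD
        rw [map_sum] at h3
        rw [← h3]
        refine Finset.sum_congr rfl fun j _ => ?_
        rw [gen1_der_zpow D _ (hb j), hrule D hD j, mul_div_cancel_left₀ _ (hb j),
          Derivation.leibniz, Derivation.map_intCast, smul_zero, add_zero, smul_eq_mul]
      rw [h2] at h1
      have h4 : ∏ j, b j ^ R i j ≠ 0 := Finset.prod_ne_zero_iff.2 fun j _ => zpow_ne_zero _ (hb j)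
      exact (div_eq_zero_iff.1 h1).resolve_right h4
  have hw2 := hw.2
  omega

end Pool.Agent.EXL
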