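import Mathlib

/-!
# EXL / Kumg: Kummer theory for several elements

PROOF.  Put `m = N₀ * M`, `T = (rootsOfUnity m ℂ)^ι` (a finite abelian group), and let `H ⊆ T` be the
subgroup of the `ξ` such that some automorphism `σ` of `ℂ` over `F` satisfies
`σ (B (e_j / m)) = ξ_j B (e_j / m)` for all `j` (a subgroup because the roots of unity are in `F`;
for every `σ` over `F` such a `ξ ∈ T` exists because `B (e_j / m) ^ m = B (e_j) ∈ F`). It suffices to
show `ζ ∈ H` (then `σ (B (e_j / N₀)) = σ (B (e_j / m)) ^ M = ζ_j ^ M B (e_j / N₀)`). If `ζ ∉ H`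
there is a character `ψ` of `T` which is trivial on `H` with `ψ ζ ≠ 1`
(`CommGroup.exists_apply_ne_one_of_hasEnoughRootsOfUnity` for `T ⧸ H`), and `ψ ξ = ∏ ξ_j ^ v_j` for
integers `v_j` (`rootsOfUnity m ℂ` is cyclic). Then `B (v / m) = ∏ B (e_j / m) ^ v_j` is fixed by all
automorphisms of `ℂ` over `F`, and algebraic over `F`, so it is in `F` (characteristic zero,
`ℂ` algebraically closed). By `hN₀` all `N₀ v_j / m = v_j / M` are integers, so
`ψ ζ = ∏ ζ_j ^ v_j = 1`, a contradiction.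
-/

set_option autoImplicit false

namespace Pool.Agent.EXL

/-- Automorphisms of a subring extend to `ℂ`. -/
private theorem kumg_ext {A : Type} [CommRing A] [Algebra A ℂ] [FaithfulSMul A ℂ] (τ : A ≃+* A) :
    ∃ σ : ℂ ≃+* ℂ, ∀ r, σ (algebraMap A ℂ r) = algebraMap A ℂ (τ r) := by
  obtain ⟨s, hs⟩ := exists_isTranscendenceBasis A ℂ
  let := IsAlgClosed.isAlgClosure_of_transcendence_basis _ hs
  set e : Algebra.adjoin A (Set.range (Subtype.val : s → ℂ)) ≃+*
      Algebra.adjoin A (Set.range (Subtype.val : s → ℂ)) :=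
    (hs.1.aevalEquiv.symm.toRingEquiv.trans (MvPolynomial.mapEquiv s τ)).trans
      hs.1.aevalEquiv.toRingEquiv with he
  refine ⟨IsAlgClosure.equivOfEquiv ℂ ℂ e, fun r => ?_⟩
  have h3 : algebraMap A ℂ r = algebraMap (Algebra.adjoin A (Set.range (Subtype.val : s → ℂ))) ℂ
    (algebraMap A _ r) := rfl
  rw [h3, IsAlgClosure.equivOfEquiv_algebraMap]
  have h4 : e (algebraMap A _ r) = algebraMap A _ (τ r) := by
    show hs.1.aevalEquiv (MvPolynomial.mapEquiv s τ (hs.1.aevalEquiv.symm (algebraMap A _ r))) = _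
    rw [AlgEquiv.commutes, MvPolynomial.algebraMap_eq]
    have h5 : MvPolynomial.mapEquiv s τ (MvPolynomial.C r) =
        MvPolynomial.C (τ r) := MvPolynomial.map_C _ _
    rw [h5, ← MvPolynomial.algebraMap_eq, AlgEquiv.commutes]
  rw [h4]
  rfl

/-- An element of `ℂ` which is fixed by all automorphisms over `F` and algebraic over `F` is in
`F`. -/
theorem mem_of_fixed (F : Subfield ℂ) (x : ℂ) (hx : IsAlgebraic F x)
    (h : ∀ σ : ℂ ≃+* ℂ, (∀ c ∈ F, σ c = c) → σ x = x) : x ∈ F := by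
  set x' : algebraicClosure F ℂ := ⟨x, mem_algebraicClosure_iff.2 hx⟩ with hx'
  have h1 : x' ∈ (⊥ : IntermediateField F (algebraicClosure F ℂ)) := by
    rw [InfiniteGalois.mem_bot_iff_fixed]
    intro f
    obtain ⟨σ, hσ⟩ := kumg_ext (A := algebraicClosure F ℂ) f.toRingEquiv
    have h2 : σ x = x := by
      refine h σ fun c hc => ?_
      have h3 := hσ (algebraMap F (algebraicClosure F ℂ) ⟨c, hc⟩)
      have h4 : f.toRingEquiv (algebraMap F (algebraicClosure F ℂ) ⟨c, hc⟩) =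
        algebraMap F (algebraicClosure F ℂ) ⟨c, hc⟩ := f.commutes _
      rw [h4] at h3
      exact h3
    have h5 := hσ x'
    refine Subtype.ext ?_
    exact h5.symm.trans h2
  rw [IntermediateField.mem_bot] at h1
  obtain ⟨c, hc⟩ := h1
  have h2 : (c : ℂ) = x := congrArg Subtype.val hc
  rw [← h2]
  exact c.2

/-- The homomorphisms from the group of the tuples of roots of unity. -/
private theorem kumg_char {ι : Type*} [Fintype ι] [DecidableEq ι] (m : ℕ) [NeZero m]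
    (ψ : (ι → rootsOfUnity m ℂ) →* ℂˣ) :
    ∃ v : ι → ℤ, ∀ ξ : ι → rootsOfUnity m ℂ, (ψ ξ : ℂ) = ∏ j, ((ξ j : ℂˣ) : ℂ) ^ v j := by
  obtain ⟨g, hg⟩ := IsCyclic.exists_generator (α := rootsOfUnity m ℂ)
  have h1 : ∀ j, ∃ v : ℤ, ∀ z : rootsOfUnity m ℂ, ψ (Pi.mulSingle j z) = (z : ℂˣ) ^ v := by
    intro j
    have h2 : ψ (Pi.mulSingle j g) ∈ rootsOfUnity m ℂ := by
      rw [mem_rootsOfUnity, ← map_pow, ← Pi.mulSingle_pow]
      have h3 : g ^ m = 1 := by
        refine Subtype.ext ?_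
        exact g.2
      rw [h3, Pi.mulSingle_one, map_one]
    obtain ⟨v, hv⟩ := Subgroup.mem_zpowers_iff.1 (hg ⟨_, h2⟩)
    refine ⟨v, fun z => ?_⟩
    obtain ⟨k, rfl⟩ := Subgroup.mem_zpowers_iff.1 (hg z)
    have h3 : ψ (Pi.mulSingle j g) = (g : ℂˣ) ^ v := by
      have := congrArg Subtype.val hv
      exact this.symm
    rw [Pi.mulSingle_zpow, map_zpow, h3, Subgroup.coe_zpow, ← zpow_mul, ← zpow_mul, mul_comm]
  choose v hv using h1
  refine ⟨v, fun ξ => ?_⟩
  have h2 : ξ = ∏ j, Pi.mulSingle j (ξ j) := (Finset.univ_prod_mulSingle ξ).symm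
  conv_lhs => rw [h2, map_prod]
  rw [Units.coe_prod]
  refine Finset.prod_congr rfl fun j _ => ?_
  rw [hv, Units.val_zpow_eq_zpow_val]

private theorem kumg_ne {G : Type*} [AddCommGroup G] (B : AddChar G ℂ) (q : G) : B q ≠ 0 := by
  intro h
  have h1 : B (q + -q) = B q * B (-q) := AddChar.map_add_eq_mul _ _ _
  rw [h, zero_mul, add_neg_cancel, AddChar.map_zero_eq_one] at h1
  exact one_ne_zero h1

theorem kummer_gal {ι : Type*} [Fintype ι] [DecidableEq ι] (B : AddChar (ι → ℚ) ℂ)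
    (F : Subfield ℂ) (hF : ∀ (n : ℕ) (ζ : ℂ), 0 < n → ζ ^ n = 1 → ζ ∈ F)
    (hB : ∀ j, B (Pi.single j 1) ∈ F) (N₀ : ℕ) (h0 : 0 < N₀)
    (hN₀ : ∀ q, B q ∈ F → ∀ j, ∃ n : ℤ, (N₀ : ℚ) * q j = n) (M : ℕ) (hM : 0 < M) (ζ : ι → ℂ)
    (hζ : ∀ j, ζ j ^ M = 1) :
    ∃ σ : ℂ ≃+* ℂ, (∀ x ∈ F, σ x = x) ∧
      (∀ j, σ (B (Pi.single j (N₀ : ℚ)⁻¹)) = B (Pi.single j (N₀ : ℚ)⁻¹)) ∧
      ∀ j, σ (B (Pi.single j ((N₀ : ℚ) * M)⁻¹)) = ζ j * B (Pi.single j ((N₀ : ℚ) * M)⁻¹) := by
  set m : ℕ := N₀ * M with hm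
  have hm0 : 0 < m := Nat.mul_pos h0 hM
  have hN0 : (N₀ : ℚ) ≠ 0 := by exact_mod_cast h0.ne'
  have hM0 : (M : ℚ) ≠ 0 := by exact_mod_cast hM.ne'
  have : NeZero m := ⟨hm0.ne'⟩
  set b : ι → ℂ := fun j => B (Pi.single j ((N₀ : ℚ) * M)⁻¹) with hb
  have hb0 : ∀ j, b j ≠ 0 := fun j => kumg_ne B _
  have hbM : ∀ j, B (Pi.single j (N₀ : ℚ)⁻¹) = b j ^ M := by
    intro j
    rw [hb]
    dsimp only
    rw [← AddChar.map_nsmul_eq_pow, ← Pi.single_smul]
    congr 2
    rw [nsmul_eq_mul]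
    field_simp
  have hbm : ∀ j, B (Pi.single j 1) = b j ^ m := by
    intro j
    rw [hb]
    dsimp only
    rw [← AddChar.map_nsmul_eq_pow, ← Pi.single_smul]
    congr 2
    rw [nsmul_eq_mul, hm]
    push_cast
    field_simp
  have hζm : ∀ j, ζ j ^ m = 1 := by
    intro j
    rw [hm, mul_comm, pow_mul, hζ, one_pow]
  -- the group
  have hfix : ∀ σ : ℂ ≃+* ℂ, (∀ x ∈ F, σ x = x) → ∀ z : rootsOfUnity m ℂ,
      σ ((z : ℂˣ) : ℂ) = ((z : ℂˣ) : ℂ) := by
    intro σ hσ z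
    refine hσ _ (hF m _ hm0 ?_)
    have := z.2
    rw [mem_rootsOfUnity] at this
    have h2 := congrArg Units.val this
    rwa [Units.val_pow_eq_pow_val, Units.val_one] at h2
  let H : Subgroup (ι → rootsOfUnity m ℂ) :=
    { carrier := {ξ | ∃ σ : ℂ ≃+* ℂ, (∀ x ∈ F, σ x = x) ∧ ∀ j, σ (b j) = ((ξ j : ℂˣ) : ℂ) * b j}
      one_mem' := ⟨RingEquiv.refl ℂ, fun _ _ => rfl, fun j => by simp⟩
      mul_mem' := by
        rintro ξ ξ' ⟨σ, h1, h2⟩ ⟨σ', h1', h2'⟩
        refine ⟨σ'.trans σ, fun x hx => ?_, fun j => ?_⟩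
        · rw [RingEquiv.trans_apply, h1' x hx, h1 x hx]
        · rw [RingEquiv.trans_apply, h2', map_mul, h2, hfix σ h1, Pi.mul_apply, Subgroup.coe_mul,
            Units.val_mul]
          ring
      inv_mem' := by
        rintro ξ ⟨σ, h1, h2⟩
        have h3 : ∀ x ∈ F, σ.symm x = x := by
          intro x hx
          rw [RingEquiv.symm_apply_eq, h1 x hx]
        refine ⟨σ.symm, h3, fun j => ?_⟩
        rw [RingEquiv.symm_apply_eq, map_mul, h2, hfix σ h1, Pi.inv_apply, ← mul_assoc,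
          ← Units.val_mul, Subgroup.coe_inv, inv_mul_cancel, Units.val_one, one_mul] }
  set z : ι → rootsOfUnity m ℂ := fun j => rootsOfUnity.mkOfPowEq (ζ j) (hζm j) with hz
  have hzc : ∀ j, ((z j : ℂˣ) : ℂ) = ζ j := fun j => rootsOfUnity.coe_mkOfPowEq (hζm j)
  by_cases hzH : z ∈ H
  · obtain ⟨σ, h1, h2⟩ := hzH
    refine ⟨σ, h1, fun j => ?_, fun j => ?_⟩
    · rw [hbM, map_pow, h2, mul_pow, hzc, hζ, one_mul]
    · have := h2 j
      rwa [hzc] at this
  · exfalso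
    have hne : (QuotientGroup.mk z : (ι → rootsOfUnity m ℂ) ⧸ H) ≠ 1 := by
      intro h
      exact hzH ((QuotientGroup.eq_one_iff z).1 h)
    obtain ⟨φ, hφ⟩ := CommGroup.exists_apply_ne_one_of_hasEnoughRootsOfUnity
      ((ι → rootsOfUnity m ℂ) ⧸ H) ℂ hne
    set ψ : (ι → rootsOfUnity m ℂ) →* ℂˣ := φ.comp (QuotientGroup.mk' H) with hψ
    have hψH : ∀ ξ ∈ H, ψ ξ = 1 := by
      intro ξ hξ
      have : (QuotientGroup.mk' H) ξ = 1 := (QuotientGroup.eq_one_iff ξ).2 hξ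
      rw [hψ, MonoidHom.comp_apply, this, map_one]
    obtain ⟨v, hv⟩ := kumg_char m ψ
    set q : ι → ℚ := fun j => (v j : ℚ) * ((N₀ : ℚ) * M)⁻¹ with hq
    have hBq : B q = ∏ j, b j ^ v j := by
      have h1 : q = ∑ j, v j • (Pi.single j ((N₀ : ℚ) * M)⁻¹ : ι → ℚ) := by
        funext i
        rw [Finset.sum_apply, Finset.sum_eq_single i]
        · rw [Pi.smul_apply, Pi.single_eq_same, zsmul_eq_mul]
        · intro j _ hj
          rw [Pi.smul_apply, Pi.single_eq_of_ne hj.symm, smul_zero]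
        · intro h
          exact absurd (Finset.mem_univ i) h
      have h2 : ∀ s : Finset ι, B (∑ j ∈ s, v j • (Pi.single j ((N₀ : ℚ) * M)⁻¹ : ι → ℚ)) =
          ∏ j ∈ s, b j ^ v j := by
        intro s
        induction s using Finset.induction_on with
        | empty => simp
        | insert a s ha ih =>
          rw [Finset.sum_insert ha, AddChar.map_add_eq_mul, ih, Finset.prod_insert ha,
            AddChar.map_zsmul_eq_zpow]
      rw [h1, h2]
    have hxF : B q ∈ F := by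
      refine mem_of_fixed F _ ?_ ?_
      · -- algebraic
        have h1 : (B q) ^ m ∈ F := by
          rw [hBq, ← Finset.prod_pow]
          refine prod_mem fun j _ => ?_
          rw [← zpow_natCast, ← zpow_mul, mul_comm, zpow_mul, zpow_natCast, ← hbm]
          exact zpow_mem (hB j) _
        refine ⟨Polynomial.X ^ m - Polynomial.C ⟨_, h1⟩, ?_, ?_⟩
        · exact Polynomial.X_pow_sub_C_ne_zero hm0 _
        · rw [map_sub, map_pow, Polynomial.aeval_X, Polynomial.aeval_C, sub_eq_zero]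
          rfl
      · intro σ hσ
        have h1 : ∀ j, (σ (b j) / b j) ^ m = 1 := by
          intro j
          rw [div_pow, ← map_pow, ← hbm, hσ _ (hB j)]
          exact div_self (kumg_ne B _)
        set ξ : ι → rootsOfUnity m ℂ := fun j => rootsOfUnity.mkOfPowEq _ (h1 j) with hξ
        have hξc : ∀ j, ((ξ j : ℂˣ) : ℂ) = σ (b j) / b j := fun j =>
          rootsOfUnity.coe_mkOfPowEq (h1 j)
        have hξH : ξ ∈ H := by
          refine ⟨σ, hσ, fun j => ?_⟩
          rw [hξc, div_mul_cancel₀ _ (hb0 j)]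
        have h2 := hv ξ
        rw [hψH ξ hξH, Units.val_one] at h2
        rw [hBq, map_prod]
        have h3 : ∀ j, σ (b j ^ v j) = ((ξ j : ℂˣ) : ℂ) ^ v j * b j ^ v j := by
          intro j
          rw [map_zpow₀, ← mul_zpow, hξc, div_mul_cancel₀ _ (hb0 j)]
        rw [Finset.prod_congr rfl fun j _ => h3 j, Finset.prod_mul_distrib, ← h2, one_mul]
    have hψz : (ψ z : ℂ) = 1 := by
      rw [hv]
      refine Finset.prod_eq_one fun j _ => ?_
      obtain ⟨n, hn⟩ := hN₀ q hxF j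
      have h1 : v j = M * n := by
        have h2 : (v j : ℚ) = M * n := by
          rw [← hn, hq]
          dsimp only
          field_simp
        exact_mod_cast h2
      rw [hzc, h1, zpow_mul, zpow_natCast, hζ, one_zpow]
    apply hφ
    exact Units.ext hψz

end Pool.Agent.EXL
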