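import Pool.Agent.EXL.Good

/-!
# EXL / Pair: the pairs of the back and forth system
-/

set_option autoImplicit false

namespace Pool.Agent.EXL

variable {K : Subfield ℂ} {φ : AddChar ℚ ℂ} {ι : Type} [Fintype ι]

/-- The pairs of the back and forth system. -/
def Pair (K : Subfield ℂ) (φ : AddChar ℚ ℂ) (w w' : ι → X) : Prop :=
  Good K φ w ∧ Good K φ w' ∧ ∀ N : ℕ, 0 < N → SameAt K φ N w w'

theorem Pair.symm {w w' : ι → X} (h : Pair K φ w w') : Pair K φ w' w :=
  ⟨h.2.1, h.1, fun N hN => (h.2.2 N hN).symm⟩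

end Pool.Agent.EXL
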