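import Pool.Agent.EXL.Good

/-!
# EXL / Rel: relative exponential derivations

PROOFS.  `relDer_ex`: the set of the `u : X` with `D (ex φ u) = ex φ u * D u.1` is a `ℚ`-subspace of
`X`: it is closed under addition (`ex_add`, Leibniz) and negation, and if it contains `N • u` it
contains `u`, because `ex φ (N • u) = ex φ u ^ N`.  It contains the `γ j`.
`relDer_w`: `D` kills `ex φ (w j)`, hence also `ex φ (q • w j)` for `q ∈ ℚ`, some power of which is an
integral power of `ex φ (w j)`.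
`relDer_rule`: `exp a = exp c * ex φ (∑ q_j • w_j) * ex φ (∑ p_l • γ_l) * φ (rational number)`, and
`exp c, φ _ ∈ K`.
-/

set_option autoImplicit false

namespace Pool.Agent.EXL

variable {K : Subfield ℂ} {φ : AddChar ℚ ℂ} {ι κ κ' : Type} [Fintype ι] [Fintype κ] [Fintype κ']

/-- The derivations over `K(pt φ 1 w)` which satisfy the exponential rule at `γ`. -/
noncomputable def RelDer (K : Subfield ℂ) (φ : AddChar ℚ ℂ) (w : ι → X) (γ : κ → X) :
    Submodule ℂ (Derivation ℤ ℂ ℂ) where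
  carrier := {D | D ∈ DerOver ((K : Set ℂ) ∪ Set.range (pt φ 1 w)) ∧
    ∀ j, D (ex φ (γ j)) = ex φ (γ j) * D (γ j).1}
  add_mem' := by
    rintro D D' ⟨h1, h2⟩ ⟨h3, h4⟩
    refine ⟨add_mem h1 h3, fun j => ?_⟩
    rw [Derivation.add_apply, Derivation.add_apply, h2, h4, mul_add]
  zero_mem' := ⟨zero_mem _, fun j => by simp⟩
  smul_mem' := by
    rintro c D ⟨h1, h2⟩
    refine ⟨Submodule.smul_mem _ c h1, fun j => ?_⟩
    rw [Derivation.smul_apply, Derivation.smul_apply, h2, smul_eq_mul, smul_eq_mul]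
    ring

/-- the logarithmic derivative along `ex` -/
noncomputable def relLog (φ : AddChar ℚ ℂ) (D : Derivation ℤ ℂ ℂ) : X →+ ℂ where
  toFun u := D (ex φ u) / ex φ u
  map_zero' := by rw [ex_zero, D.map_one_eq_zero, zero_div]
  map_add' u v := by
    have h1 := ex_ne_zero φ u
    have h2 := ex_ne_zero φ v
    rw [ex_add, Derivation.leibniz, smul_eq_mul, smul_eq_mul]
    field_simp
    ring

/-- the derivative of the first coordinate -/
noncomputable def relFst (D : Derivation ℤ ℂ ℂ) : X →+ ℂ where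
  toFun u := D u.1
  map_zero' := by rw [Prod.fst_zero, map_zero]
  map_add' u v := by rw [Prod.fst_add, map_add]

lemma relLog_apply (D : Derivation ℤ ℂ ℂ) (u : X) : D (ex φ u) = ex φ u * relLog φ D u := by
  have h1 := ex_ne_zero φ u
  change D (ex φ u) = ex φ u * (D (ex φ u) / ex φ u)
  field_simp

lemma rel_span {f : X →+ ℂ} {κ : Type} {γ : κ → X} (h : ∀ j, f (γ j) = 0) (u : X)
    (hu : u ∈ Submodule.span ℚ (Set.range γ)) : f u = 0 := by
  have h1 : Submodule.span ℚ (Set.range γ) ≤ LinearMap.ker f.toRatLinearMap := by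
    rw [Submodule.span_le]
    rintro _ ⟨j, rfl⟩
    exact h j
  exact h1 hu

lemma pt_one_rel (w : ι → X) (j : ι) : ex φ (w j) ∈ Set.range (pt φ 1 w) ∧
    (w j).1 ∈ Set.range (pt φ 1 w) := by
  constructor
  · refine ⟨Sum.inr j, ?_⟩
    simp [pt]
  · exact ⟨Sum.inl j, rfl⟩

theorem relDer_ex (w : ι → X) (γ : κ → X) {D : Derivation ℤ ℂ ℂ} (hD : D ∈ RelDer K φ w γ)
    (u : X) (hu : u ∈ Submodule.span ℚ (Set.range γ)) : D (ex φ u) = ex φ u * D u.1 := by
  have h := rel_span (f := relLog φ D - relFst D) (γ := γ) (fun j => ?_) u hu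
  · rw [relLog_apply, show relLog φ D u = relFst D u from sub_eq_zero.1 h]
    rfl
  · rw [AddMonoidHom.sub_apply, sub_eq_zero]
    change D (ex φ (γ j)) / ex φ (γ j) = D (γ j).1
    rw [hD.2 j]
    have := ex_ne_zero φ (γ j)
    field_simp

theorem relDer_w (w : ι → X) (γ : κ → X) {D : Derivation ℤ ℂ ℂ} (hD : D ∈ RelDer K φ w γ)
    (u : X) (hu : u ∈ Submodule.span ℚ (Set.range w)) : D (ex φ u) = 0 ∧ D u.1 = 0 := by
  constructor
  · have h := rel_span (f := relLog φ D) (γ := w) (fun j => ?_) u hu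
    · rw [relLog_apply, h, mul_zero]
    · change D (ex φ (w j)) / ex φ (w j) = 0
      rw [hD.1 _ (Or.inr (pt_one_rel w j).1), zero_div]
  · exact rel_span (f := relFst D) (γ := w) (fun j => hD.1 _ (Or.inr (pt_one_rel w j).2)) u hu

theorem relDer_rule (hK : Closed K φ) (w : ι → X) (γ : κ → X) {D : Derivation ℤ ℂ ℂ}
    (hD : D ∈ RelDer K φ w γ) (a c : ℂ) (hc : c ∈ K) (q : ι → ℚ) (p : κ → ℚ)
    (ha : a = c + ∑ j, (q j : ℂ) * (w j).1 + ∑ l, (p l : ℂ) * (γ l).1) :
    D (Complex.exp a) = Complex.exp a * D a := by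
  set u : X := ∑ j, q j • w j with hu
  set v : X := ∑ l, p l • γ l with hv
  have hum : u ∈ Submodule.span ℚ (Set.range w) :=
    Submodule.sum_mem _ fun j _ => Submodule.smul_mem _ _ (Submodule.subset_span ⟨j, rfl⟩)
  have hvm : v ∈ Submodule.span ℚ (Set.range γ) :=
    Submodule.sum_mem _ fun j _ => Submodule.smul_mem _ _ (Submodule.subset_span ⟨j, rfl⟩)
  have hu1 : u.1 = ∑ j, (q j : ℂ) * (w j).1 := by
    rw [hu, Prod.fst_sum]
    refine Finset.sum_congr rfl fun j _ => ?_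
    rw [Prod.smul_fst, Rat.smul_def]
  have hv1 : v.1 = ∑ l, (p l : ℂ) * (γ l).1 := by
    rw [hv, Prod.fst_sum]
    refine Finset.sum_congr rfl fun j _ => ?_
    rw [Prod.smul_fst, Rat.smul_def]
  have ha' : a = c + u.1 + v.1 := by rw [hu1, hv1]; exact ha
  obtain ⟨hw1, hw2⟩ := relDer_w w γ hD u hum
  have hv2 := relDer_ex w γ hD v hvm
  have hDK : ∀ x ∈ K, D x = 0 := fun x hx => hD.1 x (Or.inl hx)
  have hDa : D a = D v.1 := by
    rw [ha', map_add, map_add, hDK c hc, hw2, zero_add, zero_add]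
  have he : Complex.exp a = Complex.exp c * (φ u.2)⁻¹ * (φ v.2)⁻¹ * ex φ u * ex φ v := by
    have h1 := phi_ne_zero φ u.2
    have h2 := phi_ne_zero φ v.2
    rw [ha', Complex.exp_add, Complex.exp_add]
    unfold ex
    field_simp
  have hk : Complex.exp c * (φ u.2)⁻¹ * (φ v.2)⁻¹ ∈ K :=
    mul_mem (mul_mem (hK.exp_mem hc) (inv_mem (hK.2 _))) (inv_mem (hK.2 _))
  rw [hDa, he, Derivation.leibniz, Derivation.leibniz, hDK _ hk, hw1, hv2]
  simp only [smul_eq_mul]
  ring

/-- The relative derivations depend only on the span. -/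
theorem relDer_eq_of_span (w : ι → X) (γ : κ → X) (γ' : κ' → X)
    (h : Submodule.span ℚ (Set.range γ) = Submodule.span ℚ (Set.range γ')) :
    RelDer K φ w γ = RelDer K φ w γ' := by
  ext D
  constructor
  · intro hD
    exact ⟨hD.1, fun j => relDer_ex w γ hD _ (h ▸ Submodule.subset_span ⟨j, rfl⟩)⟩
  · intro hD
    exact ⟨hD.1, fun j => relDer_ex w γ' hD _ (h ▸ Submodule.subset_span ⟨j, rfl⟩)⟩

/-- The points of constants are constants. -/
theorem pt_mem_consts (w : ι → X) (γ : κ → X) (u : X)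
    (hu : u ∈ Submodule.span ℚ (Set.range γ)) (h : u.1 ∈ consts (RelDer K φ w γ)) :
    ex φ u ∈ consts (RelDer K φ w γ) := by
  intro D hD
  rw [relDer_ex w γ hD u hu, h D hD, mul_zero]

end Pool.Agent.EXL
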