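import Pool.Agent.EXL.Rk
import Pool.Agent.EXL.Ext

/-!
# EXL / Res: the residue lemma

PROOF.  Suppose `t := u 0` (some index) is transcendental over `C`. By `exists_der` choose a
transcendence basis of `E / C` containing `t`, let `E₀ ⊆ E` be the field generated by `C` and the
other elements of the basis, and let `∂` be the derivation of `E` over `E₀` with `∂ t = 1`
(`exists_der` for the subfield `E₀`: `t` is transcendental over `E₀`, `E` is algebraic over
`E₀(t)`). Then `∑ e_i ∂(u_i)/u_i = ∂ v`. All `u_i, v` are algebraic over `E₀(t)`. Let `F ⊆ E` be the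
finite extension of `E₀(t)` generated by them (or work with a normal closure / with the embeddings
into an algebraic closure, to which `∂` extends uniquely and commutes with all embeddings over
`E₀(t)`, see file Tr). Taking the sum over all embeddings (the trace) one gets in `E₀(t)`
  `∑_i e_i ∂(N u_i)/(N u_i) = ∂ (Tr v)`, with the norms `N u_i ∈ E₀(t)^*`, `N t = t^m`,
`m = [F : E₀(t)] ≥ 1`. In the field `E₀((t))` of Laurent series (`E₀(t)` is isomorphic to
`RatFunc E₀` and `∂` to the derivative) the coefficient of `t^(-1)` is `0` for a derivative `∂ g`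
and is the order `ord_t g` for `∂ g / g`. So `∑ e_i ord(N u_i) = 0` with `ord (N t) = m ≠ 0`, which
contradicts the independence of the `e_i` over `ℤ`.

`residue_ratFunc` (stated below) is the part about `E₀(t)`, `trace` (file Tr) the part about traces.
-/

set_option autoImplicit false

namespace Pool.Agent.EXL

open HahnSeries

theorem laurent_der_coeff {k : Type*} [Field k] (f : LaurentSeries k) (m : ℤ) :
    (LaurentSeries.hasseDeriv k 1 f).coeff m = (m + 1 : k) * f.coeff (m + 1) := by
  rw [LaurentSeries.hasseDeriv_coeff]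
  simp

theorem laurent_der_mul {k : Type*} [Field k] (f g : LaurentSeries k) :
    LaurentSeries.hasseDeriv k 1 (f * g) =
      f * LaurentSeries.hasseDeriv k 1 g + g * LaurentSeries.hasseDeriv k 1 f := by
  have key : ∀ (f g : LaurentSeries k) (m : ℤ),
      (f * LaurentSeries.hasseDeriv k 1 g).coeff m =
        ∑ ij ∈ Finset.antidiagonal f.isPWO_support g.isPWO_support (m + 1),
          f.coeff ij.1 * ((ij.2 : k) * g.coeff ij.2) := by
    intro f g m
    have hPWO : ((fun j : ℤ => j - 1) '' g.support).IsPWO :=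
      g.isPWO_support.image_of_monotone (fun a b h => by simpa using h)
    have hsub : (LaurentSeries.hasseDeriv k 1 g).support ⊆ (fun j : ℤ => j - 1) '' g.support := by
      intro j hj
      refine ⟨j + 1, ?_, by simp⟩
      rw [HahnSeries.mem_support] at hj ⊢
      intro h0
      apply hj
      rw [laurent_der_coeff, h0, mul_zero]
    rw [HahnSeries.coeff_mul_right' hPWO hsub]
    refine Finset.sum_bij' (fun ij _ => (ij.1, ij.2 + 1)) (fun ij _ => (ij.1, ij.2 - 1)) ?_ ?_ ?_ ?_
      ?_
    · intro ij hij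
      simp only [Finset.mem_antidiagonal] at hij ⊢
      obtain ⟨h1, ⟨j, hj, hj2⟩, h3⟩ := hij
      refine ⟨h1, ?_, by omega⟩
      have : ij.2 + 1 = j := by simp only at hj2; omega
      rw [this]; exact hj
    · intro ij hij
      simp only [Finset.mem_antidiagonal] at hij ⊢
      obtain ⟨h1, h2, h3⟩ := hij
      exact ⟨h1, ⟨ij.2, h2, rfl⟩, by omega⟩
    · intro ij _; simp
    · intro ij _; simp
    · intro ij _
      rw [laurent_der_coeff]
      push_cast
      ring
  ext m
  rw [laurent_der_coeff, HahnSeries.coeff_add, key, key, HahnSeries.coeff_mul, Finset.mul_sum]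
  have hsw : ∑ ij ∈ Finset.antidiagonal g.isPWO_support f.isPWO_support (m + 1),
      g.coeff ij.1 * ((ij.2 : k) * f.coeff ij.2) =
      ∑ ij ∈ Finset.antidiagonal f.isPWO_support g.isPWO_support (m + 1),
      g.coeff ij.2 * ((ij.1 : k) * f.coeff ij.1) := by
    refine Finset.sum_bij' (fun ij _ => (ij.2, ij.1)) (fun ij _ => (ij.2, ij.1)) ?_ ?_ ?_ ?_ ?_
    · intro ij hij
      simp only [Finset.mem_antidiagonal] at hij ⊢
      exact ⟨hij.2.1, hij.1, by omega⟩
    · intro ij hij
      simp only [Finset.mem_antidiagonal] at hij ⊢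
      exact ⟨hij.2.1, hij.1, by omega⟩
    · intro ij _; simp
    · intro ij _; simp
    · intro ij _; rfl
  rw [hsw, ← Finset.sum_add_distrib]
  refine Finset.sum_congr rfl fun ij hij => ?_
  simp only [Finset.mem_antidiagonal] at hij
  have : ((m : k) + 1) = (ij.1 : k) + (ij.2 : k) := by
    rw [← Int.cast_add, hij.2.2]; push_cast; ring
  rw [this]
  ring

theorem laurent_algebraMap (k : Type*) [Field k] (r : k) :
    algebraMap k (LaurentSeries k) r = HahnSeries.C r := by
  rw [HahnSeries.algebraMap_apply', PowerSeries.algebraMap_apply]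
  simp [HahnSeries.ofPowerSeries_C]

theorem laurent_smul_coeff {k : Type*} [Field k] (r : k) (f : LaurentSeries k) (m : ℤ) :
    (algebraMap k (LaurentSeries k) r * f).coeff m = r * f.coeff m := by
  rw [laurent_algebraMap, HahnSeries.C_mul_eq_smul, HahnSeries.coeff_smul, smul_eq_mul]

/-- The formal derivative of Laurent series. -/
theorem exists_laurent_der (k : Type*) [Field k] :
    ∃ D : Derivation k (LaurentSeries k) (LaurentSeries k),
      ∀ f : LaurentSeries k, ∀ m : ℤ, (D f).coeff m = (m + 1 : k) * f.coeff (m + 1) := by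
  refine ⟨{ toFun := fun f => LaurentSeries.hasseDeriv k 1 f
            map_add' := fun f g => map_add _ f g
            map_smul' := ?_
            map_one_eq_zero' := ?_
            leibniz' := ?_ }, fun f m => ?_⟩
  · intro r f
    ext m
    rw [RingHom.id_apply, Algebra.smul_def, laurent_der_coeff, laurent_smul_coeff,
      HahnSeries.coeff_smul, smul_eq_mul, laurent_der_coeff]
    ring
  · have h := laurent_der_mul (1 : LaurentSeries k) 1
    rw [one_mul, one_mul] at h
    exact (left_eq_add.1 h)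
  · exact fun f g => laurent_der_mul f g
  · exact laurent_der_coeff f m

theorem laurent_mul_coeff_neg {k : Type*} [Field k] {a b : LaurentSeries k}
    (ha : ∀ m < 0, a.coeff m = 0) (hb : ∀ m < 0, b.coeff m = 0) {m : ℤ} (hm : m < 0) :
    (a * b).coeff m = 0 := by
  rw [HahnSeries.coeff_mul]
  refine Finset.sum_eq_zero fun ij hij => ?_
  simp only [Finset.mem_antidiagonal] at hij
  rcases lt_or_ge ij.1 0 with h | h
  · rw [ha _ h, zero_mul]
  · rw [hb _ (by omega), mul_zero]

theorem laurent_logder {k : Type*} [Field k]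
    (D : Derivation k (LaurentSeries k) (LaurentSeries k))
    (hD : ∀ f : LaurentSeries k, ∀ m : ℤ, (D f).coeff m = (m + 1 : k) * f.coeff (m + 1))
    (g : LaurentSeries k) (hg : g ≠ 0) : (D g / g).coeff (-1) = (g.order : k) := by
  set n := g.order with hn
  set X : LaurentSeries k := single n (1 : k) with hX
  set u : LaurentSeries k := single (-n) (1 : k) * g with hu
  have hX0 : X ≠ 0 := by
    rw [hX]; exact single_ne_zero one_ne_zero
  have hXi : X * single (-n) (1 : k) = 1 := by
    rw [hX, HahnSeries.single_mul_single]; simp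
  have hgu : g = X * u := by rw [hu, ← mul_assoc, hXi, one_mul]
  have hu0 : u ≠ 0 := by
    intro h; rw [h, mul_zero] at hgu; exact hg hgu
  have huo : u.order = 0 := by
    have h1 := HahnSeries.order_mul (x := X) (y := u) hX0 hu0
    rw [← hgu, ← hn, hX, HahnSeries.order_single one_ne_zero] at h1
    omega
  have hui : (u⁻¹).order = 0 := by
    have h1 := HahnSeries.order_mul hu0 (inv_ne_zero hu0)
    rw [mul_inv_cancel₀ hu0, HahnSeries.order_one, huo] at h1
    omega
  have huc : ∀ m < 0, u.coeff m = 0 := fun m hm =>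
    HahnSeries.coeff_eq_zero_of_lt_order (by rw [huo]; exact hm)
  have huic : ∀ m < 0, (u⁻¹).coeff m = 0 := fun m hm =>
    HahnSeries.coeff_eq_zero_of_lt_order (by rw [hui]; exact hm)
  have hDu : ∀ m < 0, (D u).coeff m = 0 := by
    intro m hm
    rw [hD]
    rcases eq_or_ne m (-1) with h | h
    · subst h; simp
    · rw [huc _ (by omega), mul_zero]
  have hlog : D g / g = D X / X + D u / u := by
    rw [hgu, Derivation.leibniz, smul_eq_mul, smul_eq_mul]
    field_simp
    ring
  have hDX : D X / X = single (-1) (n : k) := by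
    rw [div_eq_iff hX0, hX, HahnSeries.single_mul_single]
    ext m
    rw [hD]
    by_cases h : m = -1 + n
    · subst h
      rw [show -1 + n + 1 = n by ring]
      simp
    · rw [HahnSeries.coeff_single_of_ne h, HahnSeries.coeff_single_of_ne (by omega), mul_zero]
  rw [hlog, HahnSeries.coeff_add, hDX, HahnSeries.coeff_single_same, div_eq_mul_inv,
    laurent_mul_coeff_neg hDu huic (by norm_num), add_zero]

/-- The residue argument in the field of Laurent series: here `∂` is the formal derivative. -/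
theorem residue_laurent {k : Type*} [Field k] [CharZero k] {n : ℕ} (e : Fin n → k)
    (hind : ∀ q : Fin n → ℤ, ∑ i, (q i : k) * e i = 0 → q = 0)
    (D : Derivation k (LaurentSeries k) (LaurentSeries k))
    (hD : ∀ f : LaurentSeries k, ∀ m : ℤ, (D f).coeff m = (m + 1 : k) * f.coeff (m + 1))
    (g : Fin n → LaurentSeries k) (hg : ∀ i, g i ≠ 0) (v : LaurentSeries k)
    (h : ∑ i, algebraMap k (LaurentSeries k) (e i) * (D (g i) / g i) = D v) :
    ∀ i, (g i).order = 0 := by
  have h1 := congrArg (fun f : LaurentSeries k => f.coeff (-1)) h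
  simp only [HahnSeries.coeff_sum, laurent_smul_coeff, laurent_logder D hD _ (hg _)] at h1
  rw [hD] at h1
  have h2 : ∑ i, (((g i).order : ℤ) : k) * e i = 0 := by
    rw [← Finset.sum_congr rfl (fun i _ => mul_comm (e i) _)]
    rw [h1]; simp
  have h3 := hind (fun i => (g i).order) h2
  intro i
  exact congrFun h3 i

open scoped RatFunc in
theorem ratFunc_coe_C {k : Type*} [Field k] (a : k) :
    algebraMap (RatFunc k) (LaurentSeries k) (algebraMap k (RatFunc k) a) = HahnSeries.C a := by
  rw [IsScalarTower.algebraMap_apply k (Polynomial k) (RatFunc k),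
    ← IsScalarTower.algebraMap_apply (Polynomial k) (RatFunc k) (LaurentSeries k),
    Polynomial.algebraMap_eq, HahnSeries.algebraMap_apply', PowerSeries.algebraMap_apply']
  simp [HahnSeries.ofPowerSeries_C]

open scoped RatFunc in
/-- The residue argument in a purely transcendental extension `F₀(t)`. -/
theorem residue_transcendental {E : Type*} [Field E] [CharZero E] (F₀ : Subfield E) (t : E)
    (ht : ¬ IsAlgebraic F₀ t) (D : Derivation ℤ E E) (hD : D ∈ DerOver (F₀ : Set E))
    (hDt : D t = 1) {n : ℕ} (e : Fin n → E) (he : ∀ i, e i ∈ F₀)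
    (hind : ∀ q : Fin n → ℤ, ∑ i, (q i : E) * e i = 0 → q = 0)
    (g : Fin n → E) (hg : ∀ i, g i ∈ Subfield.closure ((F₀ : Set E) ∪ {t})) (hg0 : ∀ i, g i ≠ 0)
    (v : E) (hv : v ∈ Subfield.closure ((F₀ : Set E) ∪ {t}))
    (h : ∑ i, e i * (D (g i) / g i) = D v) (i : Fin n) (m : ℕ) (hm : g i = t ^ m) : m = 0 := by
  obtain ⟨D', hD'⟩ := exists_laurent_der F₀
  set K : IntermediateField F₀ E := IntermediateField.adjoin F₀ {t} with hK
  have hex : ∃ ψ : K →+* LaurentSeries F₀,
      (∀ a : F₀, ψ (algebraMap F₀ K a) = HahnSeries.C a) ∧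
      (ψ (IntermediateField.AdjoinSimple.gen F₀ t) = single (1 : ℤ) (1 : F₀)) := by
    refine ⟨(algebraMap (RatFunc F₀) (LaurentSeries F₀)).comp
      (RatFunc.algEquivOfTranscendental t ht).symm.toRingEquiv.toRingHom, ?_, ?_⟩
    · intro a
      have h1 : (RatFunc.algEquivOfTranscendental t ht).symm (algebraMap F₀ K a) =
          algebraMap F₀ (RatFunc F₀) a := AlgEquiv.commutes _ a
      show algebraMap (RatFunc F₀) (LaurentSeries F₀)
        ((RatFunc.algEquivOfTranscendental t ht).symm (algebraMap F₀ K a)) = _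
      rw [h1, ratFunc_coe_C]
    · show algebraMap (RatFunc F₀) (LaurentSeries F₀)
        ((RatFunc.algEquivOfTranscendental t ht).symm
          (IntermediateField.AdjoinSimple.gen F₀ t)) = _
      rw [RatFunc.algEquivOfTranscendental_symm_gen]
      exact RatFunc.coe_X
  obtain ⟨ψ, hψC, hψX⟩ := hex
  have hcl : ∀ x ∈ Subfield.closure ((F₀ : Set E) ∪ {t}), x ∈ K := by
    intro x hx
    have hle : Subfield.closure ((F₀ : Set E) ∪ {t}) ≤ K.toSubfield := by
      rw [Subfield.closure_le]
      rintro y (hy | hy)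
      · exact K.algebraMap_mem ⟨y, hy⟩
      · rw [Set.mem_singleton_iff] at hy
        subst hy
        exact IntermediateField.mem_adjoin_simple_self F₀ y
    exact hle hx
  have hC : ∀ a : F₀, D' (HahnSeries.C a) = 0 := by
    intro a
    rw [← laurent_algebraMap]
    exact D'.map_algebraMap a
  have hX : D' (single (1 : ℤ) (1 : F₀)) = 1 := by
    ext j
    rw [hD']
    by_cases hj : j = 0
    · subst hj; simp
    · rw [HahnSeries.coeff_single_of_ne (by omega), mul_zero]
      rw [← HahnSeries.single_zero_one, HahnSeries.coeff_single_of_ne hj]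
  have hind' : ∀ x : E, ∀ hx : x ∈ K, ∃ hDx : D x ∈ K, ψ ⟨D x, hDx⟩ = D' (ψ ⟨x, hx⟩) := by
    intro x hx
    induction hx using IntermediateField.adjoin_induction with
    | mem x hx =>
      rw [Set.mem_singleton_iff] at hx
      subst hx
      refine ⟨by rw [hDt]; exact K.one_mem, ?_⟩
      have h1 : (⟨D x, by rw [hDt]; exact K.one_mem⟩ : K) = 1 := Subtype.ext hDt
      have h2 : (⟨x, IntermediateField.subset_adjoin F₀ {x} rfl⟩ : K) =
          IntermediateField.AdjoinSimple.gen F₀ x := rfl
      rw [h1, h2, hψX, hX, map_one]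
    | algebraMap a =>
      have h0 : D (algebraMap F₀ E a) = 0 := hD _ a.2
      refine ⟨by rw [h0]; exact K.zero_mem, ?_⟩
      have h1 : (⟨D (algebraMap F₀ E a), by rw [h0]; exact K.zero_mem⟩ : K) = 0 :=
        Subtype.ext h0
      have h2 : (⟨algebraMap F₀ E a, K.algebraMap_mem a⟩ : K) = algebraMap F₀ K a := rfl
      rw [h1, h2, hψC, hC, map_zero]
    | add x y hx hy ihx ihy =>
      obtain ⟨h1, h2⟩ := ihx
      obtain ⟨h3, h4⟩ := ihy
      refine ⟨by rw [map_add]; exact K.add_mem h1 h3, ?_⟩
      have e1 : (⟨D (x + y), by rw [map_add]; exact K.add_mem h1 h3⟩ : K) =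
          ⟨D x, h1⟩ + ⟨D y, h3⟩ := Subtype.ext (map_add D x y)
      have e2 : (⟨x + y, K.add_mem hx hy⟩ : K) = ⟨x, hx⟩ + ⟨y, hy⟩ := rfl
      rw [e1, e2, map_add, map_add, map_add, h2, h4]
    | inv x hx ihx =>
      obtain ⟨h1, h2⟩ := ihx
      have e0 : D x⁻¹ = -(x⁻¹ ^ 2) * D x := by
        rw [Derivation.leibniz_inv, smul_eq_mul]
      have h3 : D x⁻¹ ∈ K := by
        rw [e0]
        exact K.mul_mem (K.neg_mem (pow_mem (K.inv_mem hx) 2)) h1
      refine ⟨h3, ?_⟩
      have e1 : (⟨D x⁻¹, h3⟩ : K) = -((⟨x, hx⟩ : K)⁻¹ ^ 2) * ⟨D x, h1⟩ := Subtype.ext e0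
      have e2 : (⟨x⁻¹, K.inv_mem hx⟩ : K) = (⟨x, hx⟩ : K)⁻¹ := rfl
      rw [e1, e2, map_mul, map_neg, map_pow, map_inv₀, Derivation.leibniz_inv, smul_eq_mul, h2]
    | mul x y hx hy ihx ihy =>
      obtain ⟨h1, h2⟩ := ihx
      obtain ⟨h3, h4⟩ := ihy
      have e0 : D (x * y) = x * D y + y * D x := by
        rw [Derivation.leibniz, smul_eq_mul, smul_eq_mul]
      have h5 : D (x * y) ∈ K := by
        rw [e0]
        exact K.add_mem (K.mul_mem hx h3) (K.mul_mem hy h1)
      refine ⟨h5, ?_⟩
      have e1 : (⟨D (x * y), h5⟩ : K) = ⟨x, hx⟩ * ⟨D y, h3⟩ + ⟨y, hy⟩ * ⟨D x, h1⟩ :=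
        Subtype.ext e0
      have e2 : (⟨x * y, K.mul_mem hx hy⟩ : K) = ⟨x, hx⟩ * ⟨y, hy⟩ := rfl
      rw [e1, e2, map_add, map_mul, map_mul, map_mul, Derivation.leibniz, smul_eq_mul,
        smul_eq_mul, h2, h4]
  -- transport
  have hgK : ∀ j, g j ∈ K := fun j => hcl _ (hg j)
  have hvK : v ∈ K := hcl _ hv
  have heq : ∑ j, algebraMap F₀ (LaurentSeries F₀) ⟨e j, he j⟩ *
      (D' (ψ ⟨g j, hgK j⟩) / ψ ⟨g j, hgK j⟩) = D' (ψ ⟨v, hvK⟩) := by
    obtain ⟨hDv, hDv2⟩ := hind' v hvK
    rw [← hDv2]
    have h1 : (⟨D v, hDv⟩ : K) = ∑ j, algebraMap F₀ K ⟨e j, he j⟩ *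
        ((⟨D (g j), (hind' (g j) (hgK j)).1⟩ : K) / ⟨g j, hgK j⟩) := by
      apply Subtype.ext
      refine h.symm.trans ?_
      push_cast
      rfl
    rw [h1, map_sum]
    refine Finset.sum_congr rfl fun j _ => ?_
    rw [map_mul, map_div₀, hψC, laurent_algebraMap, (hind' (g j) (hgK j)).2]
  have hne : ∀ j, ψ ⟨g j, hgK j⟩ ≠ 0 := by
    intro j hj
    rw [map_eq_zero] at hj
    exact hg0 j (congrArg Subtype.val hj)
  have hind'' : ∀ q : Fin n → ℤ, ∑ j, (q j : F₀) * (⟨e j, he j⟩ : F₀) = 0 → q = 0 := by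
    intro q hq
    apply hind q
    have := congrArg (Subtype.val : F₀ → E) hq
    push_cast at this
    exact this
  have hord := residue_laurent (fun j => (⟨e j, he j⟩ : F₀)) hind'' D' hD' _ hne _ heq i
  have h1 : (⟨g i, hgK i⟩ : K) = IntermediateField.AdjoinSimple.gen F₀ t ^ m :=
    Subtype.ext (hm.trans (by push_cast; rfl))
  rw [h1, map_pow, hψX, HahnSeries.single_pow, one_pow,
    HahnSeries.order_single one_ne_zero] at hord
  simpa using hord

end Pool.Agent.EXL
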