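import Pool.Agent.EXL.Res
import Pool.Agent.EXL.Tr
import Pool.Agent.EXL.Tdi

/-!
# EXL / Res2: the residue lemma

PROOF.  See the header of `Res.lean`.  Suppose `t := u i₀` is not algebraic over `C`. Choose a
transcendence basis `B` of `E / C` containing `t`; `F₀` := the subfield generated by `C` and
`B \ {t}`; `t` is transcendental over `F₀`. By `exists_der` (for the family `B` over `C`, `δ = 0`,
values `1` at `t` and `0` elsewhere) there is a derivation `D ∈ DerOver F₀` with `D t = 1`; the
hypothesis `h` holds for it. Let `F = F₀(t)`, `L = F(u_1, .., u_n, v) ⊆ E`: `L / F` is finite and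
`D` maps `F` and `L` into themselves (for `L`: `D x` of an element `x` algebraic over `F` with
minimal polynomial `g` is `- g^D(x) / g'(x)`). Apply the trace `L → F` to
`∑ e_i (D u_i / u_i) = D v` and use `trace_der`, `norm_der`:
`∑ e_i (D (N u_i) / N u_i) = D (Tr v)`, with `N t = t ^ [L : F]`. By `residue_transcendental`
`[L : F] = 0`, a contradiction.
-/

set_option autoImplicit false

namespace Pool.Agent.EXL

section aux

open Polynomial

private lemma der_aeval_mem {E : Type*} [Field E] (F : Subfield E) (L : IntermediateField F E)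
    (D : Derivation ℤ E E) (hF : ∀ x ∈ F, D x ∈ F) (x : E) (hx : x ∈ L) (p : F[X]) :
    ∃ r ∈ L, D (aeval x p) = r + aeval x (derivative p) * D x := by
  induction p using Polynomial.induction_on' with
  | add p q hp hq =>
    obtain ⟨r, hr, h1⟩ := hp
    obtain ⟨r', hr', h2⟩ := hq
    refine ⟨r + r', L.add_mem hr hr', ?_⟩
    rw [map_add, map_add, h1, h2, derivative_add, map_add]
    ring
  | monomial n a =>
    refine ⟨x ^ n * D (a : E), ?_, ?_⟩
    · exact L.mul_mem (pow_mem hx n) (L.algebraMap_mem ⟨D (a : E), hF a a.2⟩)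
    · rw [aeval_monomial, derivative_monomial, aeval_monomial, Derivation.leibniz,
        Derivation.leibniz_pow, map_mul, map_natCast]
      have : (algebraMap F E) a = (a : E) := rfl
      rw [this]
      simp only [smul_eq_mul, nsmul_eq_mul]
      ring

private lemma der_mem {E : Type*} [Field E] [CharZero E] (F : Subfield E)
    (L : IntermediateField F E) (D : Derivation ℤ E E) (hF : ∀ x ∈ F, D x ∈ F) (x : E)
    (hx : x ∈ L) (halg : IsAlgebraic F x) : D x ∈ L := by
  obtain ⟨r, hr, h1⟩ := der_aeval_mem F L D hF x hx (minpoly F x)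
  rw [minpoly.aeval, map_zero] at h1
  have hsep : (minpoly F x).Separable := (minpoly.irreducible halg.isIntegral).separable
  have h2 := hsep.aeval_derivative_ne_zero (minpoly.aeval F x)
  have h3 : aeval x (derivative (minpoly F x)) ∈ L := by
    have h4 := (aeval (⟨x, hx⟩ : L) (derivative (minpoly F x))).2
    rwa [← IntermediateField.aeval_coe] at h4
  have h5 : D x = -r / aeval x (derivative (minpoly F x)) := by
    rw [eq_div_iff h2]
    linear_combination -h1
  rw [h5]
  exact L.div_mem (L.neg_mem hr) h3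

private lemma exists_restr {L E : Type*} [Field L] [Field E] (φ : L →+* E)
    (D : Derivation ℤ E E) (h : ∀ x, ∃ y, φ y = D (φ x)) :
    ∃ D' : Derivation ℤ L L, ∀ x, φ (D' x) = D (φ x) := by
  choose f hf using h
  have hadd : ∀ a b, f (a + b) = f a + f b := by
    intro a b
    apply φ.injective
    rw [map_add, hf, hf, hf, map_add, map_add]
  have hmul : ∀ a b, f (a * b) = a • f b + b • f a := by
    intro a b
    apply φ.injective
    rw [hf, map_add, smul_eq_mul, smul_eq_mul, map_mul φ, map_mul φ, map_mul φ, hf, hf,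
      Derivation.leibniz, smul_eq_mul, smul_eq_mul]
  exact ⟨Derivation.mk' ((AddMonoidHom.mk' f hadd).toIntLinearMap) hmul, hf⟩

end aux

/-- The residue lemma (Ax, Rosenlicht): if `∑ e_i dlog u_i` is exact on all derivations over `C`,
and the constants `e_i` are linearly independent over `ℤ`, then the `u_i` are algebraic over `C`. -/
theorem residue {E : Type*} [Field E] [CharZero E] (C : Subfield E) {n : ℕ} (e : Fin n → E)
    (he : ∀ i, e i ∈ C) (hind : ∀ q : Fin n → ℤ, ∑ i, (q i : E) * e i = 0 → q = 0)
    (u : Fin n → E) (hu : ∀ i, u i ≠ 0) (v : E)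
    (h : ∀ D ∈ DerOver (C : Set E), ∑ i, e i * (D (u i) / u i) = D v) (i : Fin n) :
    IsAlgebraic C (u i) := by
  classical
  by_contra hti
  set t := u i with ht
  have ht1 : AlgebraicIndepOn C id {t} := by
    let _ : Unique ({t} : Set E) := Set.uniqueSingleton t
    have h1 : ((default : ({t} : Set E)) : E) = t := (default : ({t} : Set E)).2
    refine (algebraicIndependent_unique_type_iff).2 ?_
    rw [id, h1]
    exact hti
  obtain ⟨B, hB1, hB⟩ := exists_isTranscendenceBasis_superset ht1
  obtain ⟨D, hD1, hD2⟩ := exists_der C 0 (fun b : B => (b : E)) hB.1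
    (fun b => if (b : E) = t then 1 else 0)
  have htB : t ∈ B := hB1 rfl
  have hDC : D ∈ DerOver (C : Set E) := fun x hx => hD1 ⟨x, hx⟩
  set F₀ : Subfield E := Subfield.closure ((C : Set E) ∪ (B \ {t})) with hF₀
  have hDF : D ∈ DerOver (F₀ : Set E) := by
    rw [hF₀, derOver_closure, derOver_union]
    refine ⟨hDC, fun x hx => ?_⟩
    have h1 := hD2 ⟨x, hx.1⟩
    have h2 : x ≠ t := fun h => hx.2 h
    rw [if_neg h2] at h1
    exact h1
  have hDt : D t = 1 := by
    have h1 := hD2 ⟨t, htB⟩
    rw [if_pos rfl] at h1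
    exact h1
  have htF : ¬ IsAlgebraic F₀ t := by
    intro h
    have := derOver_algebraic F₀ D hDF t h
    rw [hDt] at this
    exact one_ne_zero this
  have hCF₀ : C ≤ F₀ := fun x hx => Subfield.subset_closure (Or.inl hx)
  set F : Subfield E := Subfield.closure ((F₀ : Set E) ∪ {t}) with hF
  have hF₀F : F₀ ≤ F := fun x hx => Subfield.subset_closure (Or.inl hx)
  have htF' : t ∈ F := Subfield.subset_closure (Or.inr rfl)
  have halg : ∀ x : E, IsAlgebraic F x := by
    intro x
    have h1 : IsAlgebraic (IntermediateField.adjoin C (Set.range (fun b : B => (b : E)))) x :=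
      (hB.isAlgebraic_field).isAlgebraic x
    have hle : ∀ z ∈ IntermediateField.adjoin C (Set.range (fun b : B => (b : E))), z ∈ F := by
      intro z hz
      have h2 : (IntermediateField.adjoin C (Set.range (fun b : B => (b : E)))).toSubfield ≤ F := by
        rw [IntermediateField.adjoin_toSubfield, Subfield.closure_le]
        rintro w (⟨c, rfl⟩ | ⟨b, rfl⟩)
        · exact hF₀F (hCF₀ c.2)
        · by_cases hb : (b : E) = t
          · change (b : E) ∈ F
            rw [hb]
            exact htF'
          · exact hF₀F (Subfield.subset_closure (Or.inr ⟨b.2, hb⟩))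
      exact h2 hz
    let f : (IntermediateField.adjoin C (Set.range (fun b : B => (b : E)))) →+* F :=
      { toFun := fun z => ⟨z, hle z z.2⟩
        map_one' := rfl
        map_mul' := fun _ _ => rfl
        map_zero' := rfl
        map_add' := fun _ _ => rfl }
    exact h1.ringHom_of_comp_eq f (RingHom.id E) f.injective rfl
  have hDFF : ∀ x ∈ F, D x ∈ F := by
    intro x hx
    rw [hF] at hx
    have hmemF : ∀ z, z ∈ Subfield.closure ((F₀ : Set E) ∪ {t}) → z ∈ F := fun z hz => hz
    induction hx using Subfield.closure_induction with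
    | mem x hx =>
      rcases hx with hx | hx
      · rw [hDF x hx]; exact F.zero_mem
      · rw [Set.mem_singleton_iff.1 hx, hDt]; exact F.one_mem
    | one => rw [D.map_one_eq_zero]; exact F.zero_mem
    | add x y _ _ hx hy => rw [map_add]; exact F.add_mem hx hy
    | neg x _ hx => rw [map_neg]; exact F.neg_mem hx
    | inv x hx0 hx =>
      rw [Derivation.leibniz_inv]
      rw [smul_eq_mul]
      exact F.mul_mem (F.neg_mem (pow_mem (F.inv_mem (hmemF _ hx0)) 2)) hx
    | mul x y hx0 hy0 hx hy =>
      rw [Derivation.leibniz, smul_eq_mul, smul_eq_mul]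
      exact F.add_mem (F.mul_mem (hmemF _ hx0) hy) (F.mul_mem (hmemF _ hy0) hx)
  -- the finite extension
  let L : IntermediateField F E := IntermediateField.adjoin F (insert v (Set.range u))
  have hvL : v ∈ L := IntermediateField.subset_adjoin _ _ (Set.mem_insert _ _)
  have huL : ∀ j, u j ∈ L := fun j =>
    IntermediateField.subset_adjoin _ _ (Set.mem_insert_of_mem _ (Set.mem_range_self j))
  have hfd : FiniteDimensional F L :=
    IntermediateField.finiteDimensional_adjoin (fun x _ => (halg x).isIntegral)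
  obtain ⟨D₀, hD₀⟩ := exists_restr F.subtype D (fun x => ⟨⟨D x, hDFF x x.2⟩, rfl⟩)
  obtain ⟨DL, hDL⟩ := exists_restr (algebraMap L E) D
    (fun x => ⟨⟨D x, der_mem F L D hDFF x x.2 (halg x)⟩, rfl⟩)
  have hcomp : ∀ x : F, DL (algebraMap F L x) = algebraMap F L (D₀ x) := by
    intro x
    apply (algebraMap L E).injective
    rw [hDL]
    exact (hD₀ x).symm
  have h1 : ∑ j, (⟨e j, hF₀F (hCF₀ (he j))⟩ : F) • (DL ⟨u j, huL j⟩ / (⟨u j, huL j⟩ : L)) =
      DL ⟨v, hvL⟩ := by
    apply (algebraMap L E).injective
    rw [hDL, map_sum]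
    have h2 := h D hDC
    refine Eq.trans ?_ h2
    refine Finset.sum_congr rfl fun j _ => ?_
    rw [Algebra.smul_def, map_mul, map_div₀, hDL]
    rfl
  have h2 := congrArg (Algebra.trace F L) h1
  rw [map_sum, ← trace_der D₀ DL hcomp] at h2
  have h3 : ∀ j, Algebra.trace F L ((⟨e j, hF₀F (hCF₀ (he j))⟩ : F) •
      (DL ⟨u j, huL j⟩ / (⟨u j, huL j⟩ : L))) = (⟨e j, hF₀F (hCF₀ (he j))⟩ : F) *
      (D₀ (Algebra.norm F (⟨u j, huL j⟩ : L)) / Algebra.norm F (⟨u j, huL j⟩ : L)) := by
    intro j
    rw [map_smul, smul_eq_mul, norm_der D₀ DL hcomp]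
    intro h0
    exact hu j (congrArg Subtype.val h0)
  rw [Finset.sum_congr rfl fun j _ => h3 j] at h2
  have h4 := congrArg F.subtype h2
  rw [hD₀, map_sum] at h4
  have h5 := residue_transcendental F₀ t htF D hDF hDt e (fun j => hCF₀ (he j)) hind
    (fun j => F.subtype (Algebra.norm F (⟨u j, huL j⟩ : L)))
    (fun j => (Algebra.norm F (⟨u j, huL j⟩ : L)).2) ?_
    (F.subtype (Algebra.trace F L ⟨v, hvL⟩)) (Algebra.trace F L ⟨v, hvL⟩).2 ?_ i
    (Module.finrank F L) ?_
  · have := Module.finrank_pos (R := F) (M := L)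
    omega
  · intro j
    rw [Ne, map_eq_zero, Algebra.norm_eq_zero_iff]
    intro h0
    exact hu j (congrArg Subtype.val h0)
  · rw [← h4]
    refine Finset.sum_congr rfl fun j _ => ?_
    rw [map_mul, map_div₀, hD₀]
    rfl
  · have h6 : (⟨u i, huL i⟩ : L) = algebraMap F L ⟨t, htF'⟩ := rfl
    change F.subtype (Algebra.norm F (⟨u i, huL i⟩ : L)) = t ^ Module.finrank F L
    rw [h6, Algebra.norm_algebraMap, map_pow]
    rfl

end Pool.Agent.EXL
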