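import Pool.Agent.EXL.Defs

/-!
# EXL / Rk: elementary properties of ranks of derivations
-/

set_option autoImplicit false

namespace Pool.Agent.EXL

variable {E : Type*} [Field E] {ι κ : Type*}

lemma mem_derOver {A : Set E} {D : Derivation ℤ E E} : D ∈ DerOver A ↔ ∀ x ∈ A, D x = 0 :=
  Iff.rfl

lemma mem_consts {Δ : Submodule E (Derivation ℤ E E)} {c : E} :
    c ∈ consts Δ ↔ ∀ D ∈ Δ, D c = 0 := Iff.rfl

lemma derOver_union (A B : Set E) : DerOver (A ∪ B) = DerOver A ⊓ DerOver B := by
  ext D
  simp only [Submodule.mem_inf, mem_derOver, Set.mem_union]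
  exact ⟨fun h => ⟨fun x hx => h x (Or.inl hx), fun x hx => h x (Or.inr hx)⟩,
    fun h x hx => hx.elim (h.1 x) (h.2 x)⟩

lemma derOver_anti {A B : Set E} (h : A ⊆ B) : DerOver B ≤ DerOver A :=
  fun _ hD x hx => hD x (h hx)

lemma consts_anti {Δ Δ' : Submodule E (Derivation ℤ E E)} (h : Δ ≤ Δ') :
    consts Δ' ≤ consts Δ :=
  fun _ hc D hD => hc D (h hD)

lemma le_derOver_consts (Δ : Submodule E (Derivation ℤ E E)) :
    Δ ≤ DerOver (consts Δ : Set E) :=
  fun D hD _ hx => hx D hD

/-- A derivation killing `A` kills the field generated by `A`. -/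
lemma derOver_closure (A : Set E) : DerOver (Subfield.closure A : Set E) = DerOver A := by
  apply le_antisymm (derOver_anti Subfield.subset_closure)
  intro D hD
  have h : Subfield.closure A ≤ consts (Submodule.span E {D}) := by
    rw [Subfield.closure_le]
    intro x hx D' hD'
    obtain ⟨c, rfl⟩ := Submodule.mem_span_singleton.1 hD'
    rw [Derivation.smul_apply, hD x hx, smul_zero]
  intro x hx
  exact h hx D (Submodule.mem_span_singleton_self D)

lemma rk_mono [Finite ι] {Δ Δ' : Submodule E (Derivation ℤ E E)} (h : Δ ≤ Δ') (x : ι → E) :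
    rk Δ x ≤ rk Δ' x :=
  Submodule.finrank_mono (Submodule.map_mono h)

lemma td_anti [Finite ι] {A B : Set E} (h : A ⊆ B) (x : ι → E) : td B x ≤ td A x :=
  rk_mono (derOver_anti h) x

lemma rk_le_card [Fintype ι] (Δ : Submodule E (Derivation ℤ E E)) (x : ι → E) :
    rk Δ x ≤ Fintype.card ι := by
  unfold rk
  calc _ ≤ Module.finrank E (ι → E) := Submodule.finrank_le _
    _ = _ := Module.finrank_fintype_fun_eq_card E

/-- If the derivations of `Δ` that kill `x` also kill `y` then `rk Δ y ≤ rk Δ x`. -/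
lemma rk_le_of_dep [Finite ι] [Finite κ] (Δ : Submodule E (Derivation ℤ E E)) (x : ι → E)
    (y : κ → E) (h : ∀ D ∈ Δ, (∀ i, D (x i) = 0) → ∀ j, D (y j) = 0) : rk Δ y ≤ rk Δ x := by
  set f : Δ →ₗ[E] (ι → E) := (ev x).domRestrict Δ with hf
  set g : Δ →ₗ[E] (κ → E) := (ev y).domRestrict Δ with hg
  have hker : LinearMap.ker f ≤ LinearMap.ker g := by
    intro D hD
    rw [LinearMap.mem_ker] at hD ⊢
    have h1 : ∀ i, (D : Derivation ℤ E E) (x i) = 0 := fun i => congrFun hD i
    funext j
    exact h D D.2 h1 j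
  have h1 : rk Δ x = Module.finrank E (LinearMap.range f) := by
    rw [hf, LinearMap.range_domRestrict]
    rfl
  have h2 : rk Δ y = Module.finrank E (LinearMap.range g) := by
    rw [hg, LinearMap.range_domRestrict]
    rfl
  have hfin : Module.Finite E (Δ ⧸ LinearMap.ker f) :=
    Module.Finite.equiv f.quotKerEquivRange.symm
  rw [h1, h2, ← f.quotKerEquivRange.finrank_eq, ← g.quotKerEquivRange.finrank_eq]
  exact LinearMap.finrank_le_finrank_of_surjective (f := Submodule.factor hker)
    (Submodule.factor_surjective hker)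

/-- Additivity of the rank. -/
lemma rk_sum [Finite ι] [Finite κ] (Δ : Submodule E (Derivation ℤ E E)) (x : ι → E)
    (y : κ → E) : rk Δ (Sum.elim x y) = rk Δ x + rk (Δ ⊓ DerOver (Set.range x)) y := by
  set A : Submodule E (ι ⊕ κ → E) := Δ.map (ev (Sum.elim x y)) with hA
  set π : (ι ⊕ κ → E) →ₗ[E] (ι → E) := LinearMap.funLeft E E Sum.inl with hπ
  set π' : (ι ⊕ κ → E) →ₗ[E] (κ → E) := LinearMap.funLeft E E Sum.inr with hπ'
  have hpx : ∀ D : Derivation ℤ E E, π (ev (Sum.elim x y) D) = ev x D := fun D => rfl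
  have hpy : ∀ D : Derivation ℤ E E, π' (ev (Sum.elim x y) D) = ev y D := fun D => rfl
  have h1 := LinearMap.finrank_range_add_finrank_ker (π.domRestrict A)
  have h2 : LinearMap.range (π.domRestrict A) = Δ.map (ev x) := by
    rw [LinearMap.range_domRestrict, hA, ← Submodule.map_comp]
    rfl
  set θ : LinearMap.ker (π.domRestrict A) →ₗ[E] (κ → E) :=
    (π'.domRestrict A).domRestrict (LinearMap.ker (π.domRestrict A)) with hθ
  have hinj : Function.Injective θ := by
    rintro ⟨⟨w, hw⟩, hw'⟩ ⟨⟨u, hu⟩, hu'⟩ h0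
    have h3 : π w = 0 := hw'
    have h3' : π u = 0 := hu'
    have h4 : π' w = π' u := h0
    have h5 : w = u := by
      funext i
      rcases i with i | i
      · exact (congrFun h3 i).trans (congrFun h3' i).symm
      · exact congrFun h4 i
    subst h5
    rfl
  have hrange : LinearMap.range θ = (Δ ⊓ DerOver (Set.range x)).map (ev y) := by
    ext w
    rw [LinearMap.mem_range, Submodule.mem_map]
    constructor
    · rintro ⟨⟨⟨u, hu⟩, hu'⟩, rfl⟩
      obtain ⟨D, hD, rfl⟩ := hu
      have h3 : π (ev (Sum.elim x y) D) = 0 := hu'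
      rw [hpx] at h3
      refine ⟨D, ⟨hD, ?_⟩, (hpy D).symm⟩
      rintro _ ⟨i, rfl⟩
      exact congrFun h3 i
    · rintro ⟨D, hD, rfl⟩
      have h3 : π (ev (Sum.elim x y) D) = 0 := by
        rw [hpx]
        funext i
        exact hD.2 _ (Set.mem_range_self i)
      exact ⟨⟨⟨ev (Sum.elim x y) D, Submodule.mem_map_of_mem hD.1⟩, h3⟩, hpy D⟩
  have h3 := LinearMap.finrank_range_of_inj hinj
  rw [hrange] at h3
  rw [h2, ← h3] at h1
  exact h1.symm

/-- Additivity of the transcendence degree. -/
lemma td_sum [Finite ι] [Finite κ] (A : Set E) (x : ι → E) (y : κ → E) :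
    td A (Sum.elim x y) = td A x + td (A ∪ Set.range x) y := by
  unfold td
  rw [rk_sum, derOver_union]

lemma exists_linearIndependent [Finite ι] (Δ : Submodule E (Derivation ℤ E E)) (x : ι → E) :
    ∃ D : Fin (rk Δ x) → Derivation ℤ E E, (∀ k, D k ∈ Δ) ∧
      LinearIndependent E (fun k => ev x (D k)) := by
  let b := Module.finBasis E (Δ.map (ev x))
  have h1 : ∀ k, ∃ D ∈ Δ, ev x D = (b k : ι → E) := fun k => Submodule.mem_map.1 (b k).2
  choose D hD hb using h1
  have h2 : (fun k => ev x (D k)) = fun k => (b k : ι → E) := funext hb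
  have h3 : LinearIndependent E (fun k => ev x (D k)) := by
    rw [h2]
    exact b.linearIndependent.map' (Δ.map (ev x)).subtype (Submodule.ker_subtype _)
  exact ⟨D, hD, h3⟩

lemma le_rk_of_linearIndependent [Finite ι] (Δ : Submodule E (Derivation ℤ E E)) (x : ι → E)
    {d : ℕ} (D : Fin d → Derivation ℤ E E) (hD : ∀ k, D k ∈ Δ)
    (h : LinearIndependent E (fun k => ev x (D k))) : d ≤ rk Δ x := by
  have h1 : LinearIndependent E
      (fun k => (⟨ev x (D k), Submodule.mem_map_of_mem (hD k)⟩ : Δ.map (ev x))) :=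
    LinearIndependent.of_comp (Δ.map (ev x)).subtype h
  have h2 := h1.fintype_card_le_finrank
  rw [Fintype.card_fin] at h2
  exact h2

lemma rk_eq_zero_iff [Finite ι] (Δ : Submodule E (Derivation ℤ E E)) (x : ι → E) :
    rk Δ x = 0 ↔ ∀ D ∈ Δ, ∀ i, D (x i) = 0 := by
  unfold rk
  rw [Submodule.finrank_eq_zero]
  constructor
  · intro h D hD i
    have h1 : ev x D ∈ Δ.map (ev x) := Submodule.mem_map_of_mem hD
    rw [h, Submodule.mem_bot] at h1
    exact congrFun h1 i
  · intro h
    rw [Submodule.eq_bot_iff]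
    rintro _ ⟨D, hD, rfl⟩
    funext i
    exact h D hD i

/-- The rank does not change if the members of the family are expressed linearly by others modulo
constants. -/
lemma rk_eq_of_dep [Finite ι] [Finite κ] (Δ : Submodule E (Derivation ℤ E E)) (x : ι → E)
    (y : κ → E) (h : ∀ D ∈ Δ, (∀ i, D (x i) = 0) → ∀ j, D (y j) = 0)
    (h' : ∀ D ∈ Δ, (∀ j, D (y j) = 0) → ∀ i, D (x i) = 0) : rk Δ x = rk Δ y :=
  le_antisymm (rk_le_of_dep Δ y x h') (rk_le_of_dep Δ x y h)

variable [CharZero E]

/-- Derivations that kill a subfield kill the elements that are algebraic over it. -/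
lemma derOver_algebraic (F : Subfield E) (D : Derivation ℤ E E) (hD : D ∈ DerOver (F : Set E))
    (x : E) (hx : IsAlgebraic F x) : D x = 0 := by
  let D' : Derivation F E E :=
    { toFun := D
      map_add' := map_add D
      map_smul' := by
        intro c z
        rw [RingHom.id_apply, Subfield.smul_def, Subfield.smul_def, smul_eq_mul, smul_eq_mul,
          Derivation.leibniz, hD c c.2, smul_zero, add_zero, smul_eq_mul]
      map_one_eq_zero' := D.map_one_eq_zero
      leibniz' := fun a b => D.leibniz a b }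
  have h1 := D'.map_aeval (minpoly F x) x
  rw [minpoly.aeval, map_zero] at h1
  have hsep : (minpoly F x).Separable := (minpoly.irreducible hx.isIntegral).separable
  have h2 := hsep.aeval_derivative_ne_zero (minpoly.aeval F x)
  rcases smul_eq_zero.1 h1.symm with h3 | h3
  · exact absurd h3 h2
  · exact h3

/-- Fields of constants are relatively algebraically closed. -/
lemma consts_algebraic (Δ : Submodule E (Derivation ℤ E E)) (x : E)
    (hx : IsAlgebraic (consts Δ) x) : x ∈ consts Δ :=
  fun D hD => derOver_algebraic (consts Δ) D (le_derOver_consts Δ hD) x hx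

/-- The field of constants of the derivations of an algebraically closed field is algebraically
closed. -/
lemma consts_isAlgClosed [IsAlgClosed E] (Δ : Submodule E (Derivation ℤ E E)) :
    IsAlgClosed (consts Δ) := by
  refine IsAlgClosed.of_exists_root _ (fun p hp hirr => ?_)
  obtain ⟨z, hz⟩ := IsAlgClosed.exists_aeval_eq_zero E p hirr.degree_pos.ne'
  have h1 : IsAlgebraic (consts Δ) z := ⟨p, hirr.ne_zero, hz⟩
  have h2 := consts_algebraic Δ z h1
  refine ⟨⟨z, h2⟩, ?_⟩
  have h3 : algebraMap (consts Δ) E (Polynomial.eval ⟨z, h2⟩ p) = Polynomial.aeval z p := by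
    rw [← Polynomial.aeval_algebraMap_apply_eq_algebraMap_eval]
    rfl
  rw [hz] at h3
  exact (map_eq_zero (algebraMap (consts Δ) E)).1 h3

end Pool.Agent.EXL
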