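import Pool.Agent.EXL.Pair

/-!
# EXL / StepA: the generic step

PROOF of `stepA`.  `w₊ = (w, (z, 0))` is independent modulo `K` (`K + ∑ ℚ (w j).1 ⊆ cl _`), and
`rho w₊ = rho w + 1` (`rk_sum`: the derivations in `EDer ⊓ DerOver K` which kill the `(w j).1` do not
all kill `z`). By `ax_closed` `td K (pt φ 1 w₊) ≥ card + 1 + rho w + 1 = td K (pt φ 1 w) + 2`, and
`≤` is clear (two more coordinates). So `w₊` is good, and `z, exp (z / N)` are algebraically
independent over `K(pt φ N w)`. The same for `w'`, `z'`. Therefore the types of `(w, (z, 0))` and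
`(w', (z', 0))` at level `N` agree: a polynomial `f` over `K` vanishes at `pt φ N w₊` iff all its
coefficients, as a polynomial in the two new variables, vanish at `pt φ N w` (this can be deduced
from `generic_of_td_le`, or from `algInd_iff` with base field `K(pt φ N w)`).

-/

set_option autoImplicit false

namespace Pool.Agent.EXL

variable {K : Subfield ℂ} {φ : AddChar ℚ ℂ} {ι : Type} [Fintype ι]

private lemma stepA_td {κ : Type} [Fintype κ] (K : Subfield ℂ) (φ : AddChar ℚ ℂ) (N : ℕ)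
    (w : ι → X) (γ : κ → X) :
    td (K : Set ℂ) (pt φ N (Sum.elim w γ)) = td (K : Set ℂ) (pt φ N w) +
      td ((K : Set ℂ) ∪ Set.range (pt φ N w)) (pt φ N γ) := by
  rw [← td_sum]
  refine rk_eq_of_dep _ _ _ ?_ ?_
  · intro D _ h j
    rcases j with (j | j) | (j | j)
    · exact h (Sum.inl (Sum.inl j))
    · exact h (Sum.inr (Sum.inl j))
    · exact h (Sum.inl (Sum.inr j))
    · exact h (Sum.inr (Sum.inr j))
  · intro D _ h j
    rcases j with (j | j) | (j | j)
    · exact h (Sum.inl (Sum.inl j))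
    · exact h (Sum.inr (Sum.inl j))
    · exact h (Sum.inl (Sum.inr j))
    · exact h (Sum.inr (Sum.inr j))

private lemma stepA_rho (w : ι → X) (z : ℂ)
    (hz : z ∉ cl ((K : Set ℂ) ∪ Set.range (fun j => (w j).1))) :
    rho K (Sum.elim w (fun _ : Unit => ((z, 0) : X))) = rho K w + 1 := by
  have h1 : (fun j => (Sum.elim w (fun _ : Unit => ((z, 0) : X)) j).1) =
      Sum.elim (fun j => (w j).1) (fun _ : Unit => z) := by
    funext j
    rcases j with j | j <;> rfl
  unfold rho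
  rw [h1, rk_sum]
  congr 1
  have h2 : EDer ⊓ DerOver (K : Set ℂ) ⊓ DerOver (Set.range fun j => (w j).1) =
      EDer ⊓ DerOver ((K : Set ℂ) ∪ Set.range fun j => (w j).1) := by
    rw [derOver_union, inf_assoc]
  rw [h2]
  refine le_antisymm ((rk_le_card _ _).trans (by simp)) (Nat.one_le_iff_ne_zero.2 fun h3 => hz ?_)
  intro D hD
  exact (rk_eq_zero_iff _ _).1 h3 D hD ()

private lemma stepA_indep (w : ι → X) (hw : Indep K w) (z : ℂ)
    (hz : z ∉ cl ((K : Set ℂ) ∪ Set.range (fun j => (w j).1))) :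
    Indep K (Sum.elim w (fun _ : Unit => ((z, 0) : X))) := by
  intro q hq
  rw [Fintype.sum_sum_type] at hq
  simp only [Sum.elim_inl, Sum.elim_inr, Finset.univ_unique, Finset.sum_singleton,
    PUnit.default_eq_unit] at hq
  have hq0 : q (Sum.inr ()) = 0 := by
    by_contra h0
    have h1 : ((q (Sum.inr ()) : ℚ) : ℂ) ≠ 0 := by exact_mod_cast h0
    apply hz
    have h2 : z = ((q (Sum.inr ()) : ℚ) : ℂ)⁻¹ *
        ((∑ j, (q (Sum.inl j) : ℂ) * (w j).1 + (q (Sum.inr ()) : ℂ) * z) -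
          ∑ j, (q (Sum.inl j) : ℂ) * (w j).1) := by
      rw [add_sub_cancel_left, ← mul_assoc, inv_mul_cancel₀ h1, one_mul]
    rw [h2]
    refine mul_mem (inv_mem (SubfieldClass.ratCast_mem _ _)) (sub_mem ?_ ?_)
    · exact subset_cl _ (Or.inl hq)
    · refine sum_mem fun j _ => mul_mem (SubfieldClass.ratCast_mem _ _) ?_
      exact subset_cl _ (Or.inr ⟨j, rfl⟩)
  rw [hq0, Rat.cast_zero, zero_mul, add_zero] at hq
  have h3 := hw (fun j => q (Sum.inl j)) hq
  funext j
  rcases j with j | j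
  · exact congrFun h3 j
  · exact hq0

private lemma stepA_good (hK : Closed K φ) (w : ι → X) (hw : Good K φ w) (z : ℂ)
    (hz : z ∉ cl ((K : Set ℂ) ∪ Set.range (fun j => (w j).1))) :
    Good K φ (Sum.elim w (fun _ : Unit => ((z, 0) : X))) ∧ ∀ N : ℕ, 0 < N →
      td ((K : Set ℂ) ∪ Set.range (pt φ N w)) (pt φ N (fun _ : Unit => ((z, 0) : X))) = 2 := by
  have h1 := ax_closed hK _ (stepA_indep w hw.1 z hz)
  have h2 := stepA_rho w z hz
  have h3 := hw.2
  have h4 : ∀ N, td ((K : Set ℂ) ∪ Set.range (pt φ N w))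
      (pt φ N (fun _ : Unit => ((z, 0) : X))) ≤ 2 := fun N => by
    refine (rk_le_card _ _).trans ?_
    simp
  have h5 := stepA_td K φ 1 w (fun _ : Unit => ((z, 0) : X))
  have h6 : Fintype.card (ι ⊕ Unit) = Fintype.card ι + 1 := by simp
  have h7 := h4 1
  refine ⟨⟨stepA_indep w hw.1 z hz, by omega⟩, fun N hN => ?_⟩
  have h8 := stepA_td K φ N w (fun _ : Unit => ((z, 0) : X))
  rw [td_pt hK _ hN, td_pt hK _ hN] at h8
  omega

/-- coefficients with respect to independent elements -/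
private lemma stepA_ext {σ τ : Type} [Fintype σ] [Fintype τ] (K : Subfield ℂ) (p p' : τ → ℂ)
    (x x' : σ → ℂ)
    (hp : ∀ f : MvPolynomial τ K, MvPolynomial.aeval p f = 0 → MvPolynomial.aeval p' f = 0)
    (hx : td ((K : Set ℂ) ∪ Set.range p) x = Fintype.card σ) (f : MvPolynomial (σ ⊕ τ) K)
    (hf : MvPolynomial.aeval (Sum.elim x p) f = 0) :
    MvPolynomial.aeval (Sum.elim x' p') f = 0 := by
  have hcomp : ∀ (p : τ → ℂ) (x : σ → ℂ), MvPolynomial.aeval (Sum.elim x p) f =
      MvPolynomial.eval₂ (MvPolynomial.aeval p : MvPolynomial τ K →ₐ[K] ℂ).toRingHom x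
        (MvPolynomial.sumRingEquiv K σ τ f) := by
    intro p x
    have h1 : (MvPolynomial.aeval (Sum.elim x p) : MvPolynomial (σ ⊕ τ) K →ₐ[K] ℂ).toRingHom =
        (MvPolynomial.eval₂Hom (MvPolynomial.aeval p : MvPolynomial τ K →ₐ[K] ℂ).toRingHom x).comp
          (MvPolynomial.sumRingEquiv K σ τ).toRingHom := by
      refine MvPolynomial.ringHom_ext (fun r => ?_) (fun i => ?_)
      · simp
      · rcases i with i | i <;> simp
    exact DFunLike.congr_fun h1 f
  set g := MvPolynomial.sumRingEquiv K σ τ f with hg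
  set L : Subfield ℂ := Subfield.closure ((K : Set ℂ) ∪ Set.range p) with hL
  have hKL : K ≤ L := fun y hy => Subfield.subset_closure (Or.inl hy)
  have hind : AlgebraicIndependent L x := by
    rw [algInd_iff, range_algebraMap, hL]
    unfold td at hx ⊢
    rw [derOver_closure, hx]
  let P : MvPolynomial τ K →+* L := MvPolynomial.eval₂Hom (Subfield.inclusion hKL)
    fun i => ⟨p i, Subfield.subset_closure (Or.inr ⟨i, rfl⟩)⟩
  have hP : (algebraMap L ℂ).comp P =
      (MvPolynomial.aeval p : MvPolynomial τ K →ₐ[K] ℂ).toRingHom := by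
    refine MvPolynomial.ringHom_ext (fun r => ?_) (fun i => ?_)
    · simp [P]
      rfl
    · simp [P]
      rfl
  have h2 : MvPolynomial.aeval x (MvPolynomial.map P g) = 0 := by
    rw [MvPolynomial.aeval_def, MvPolynomial.eval₂_map, hP, ← hcomp]
    exact hf
  have h3 : MvPolynomial.map P g = 0 := by
    have h4 := (injective_iff_map_eq_zero
      (MvPolynomial.aeval x : MvPolynomial σ L →ₐ[L] ℂ)).1 hind
    exact h4 _ h2
  have h5 : ∀ m, MvPolynomial.aeval p (MvPolynomial.coeff m g) = 0 := by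
    intro m
    have h6 := congrArg (MvPolynomial.coeff m) h3
    rw [MvPolynomial.coeff_map, MvPolynomial.coeff_zero] at h6
    have h7 := DFunLike.congr_fun hP (MvPolynomial.coeff m g)
    rw [RingHom.comp_apply, h6, map_zero] at h7
    exact h7.symm
  rw [hcomp, MvPolynomial.eval₂_eq]
  refine Finset.sum_eq_zero fun m _ => ?_
  have h8 := hp _ (h5 m)
  have h9 : (MvPolynomial.aeval p' : MvPolynomial τ K →ₐ[K] ℂ).toRingHom
      (MvPolynomial.coeff m g) = 0 := h8
  rw [h9, zero_mul]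

/-- the reordering of the coordinates -/
private def stepA_e (ι κ : Type) : (ι ⊕ κ) ⊕ (ι ⊕ κ) → (κ ⊕ κ) ⊕ (ι ⊕ ι) :=
  Sum.elim (Sum.elim (fun i => Sum.inr (Sum.inl i)) (fun j => Sum.inl (Sum.inl j)))
    (Sum.elim (fun i => Sum.inr (Sum.inr i)) (fun j => Sum.inl (Sum.inr j)))

omit [Fintype ι] in
private lemma stepA_comp {κ : Type} (φ : AddChar ℚ ℂ) (N : ℕ) (w : ι → X) (γ : κ → X) :
    pt φ N (Sum.elim w γ) = Sum.elim (pt φ N γ) (pt φ N w) ∘ stepA_e ι κ := by
  funext i
  rcases i with (i | i) | (i | i) <;> rfl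

private lemma stepA_dir (w w' : ι → X) (z z' : ℂ) {N : ℕ} (h : SameAt K φ N w w')
    (hx : td ((K : Set ℂ) ∪ Set.range (pt φ N w))
      (pt φ N (fun _ : Unit => ((z, 0) : X))) = 2)
    (f : MvPolynomial ((ι ⊕ Unit) ⊕ (ι ⊕ Unit)) K)
    (hf : MvPolynomial.aeval (pt φ N (Sum.elim w (fun _ : Unit => ((z, 0) : X)))) f = 0) :
    MvPolynomial.aeval (pt φ N (Sum.elim w' (fun _ : Unit => ((z', 0) : X)))) f = 0 := by
  rw [stepA_comp, ← MvPolynomial.aeval_rename] at hf ⊢
  exact stepA_ext K _ _ _ _ (fun g hg => (h g).1 hg) (by rw [hx]; simp) _ hf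

theorem stepA (hK : Closed K φ) (w w' : ι → X) (h : Pair K φ w w') (z z' : ℂ)
    (hz : z ∉ cl ((K : Set ℂ) ∪ Set.range (fun j => (w j).1)))
    (hz' : z' ∉ cl ((K : Set ℂ) ∪ Set.range (fun j => (w' j).1))) :
    Pair K φ (Sum.elim w (fun _ : Unit => ((z, 0) : X)))
      (Sum.elim w' (fun _ : Unit => ((z', 0) : X))) := by
  obtain ⟨hg, hx⟩ := stepA_good hK w h.1 z hz
  obtain ⟨hg', hx'⟩ := stepA_good hK w' h.2.1 z' hz'
  exact ⟨hg, hg', fun N hN f => ⟨stepA_dir w w' z z' (h.2.2 N hN) (hx N hN) f,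
    stepA_dir w' w z' z (h.2.2 N hN).symm (hx' N hN) f⟩⟩

end Pool.Agent.EXL
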