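import Pool.Agent.EXL.Good

/-!
# EXL / Ultra: the ultraproduct

PROOF of `exists_ultra`.  Let `F = Filter.Germ (Filter.hyperfilter ℕ : Filter ℕ) ℂ`, a field
(`Filter.Germ.instField`, the hyperfilter is an ultrafilter) of characteristic zero;
`c : ℂ →+* F` the constant germs; `a j` the germ of `i ↦ (w i j).1`, `b j` the germ of
`i ↦ ex φ (w i j)`; `KK` the set of the germs of sequences with values in `K` (a subfield);
`D' k` the derivation of `F` induced by the `D i k` (well defined on germs: apply `D i k`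
coordinatewise), `Δ` the `F`-span of the `D' k`, `k : Fin d`.
(2): clear for `D' k` (`der_ex`), and it extends to the span. (3) `D i k` kills `K`.
(4): `le_rk_of_linearIndependent`: a relation `∑ c_k D'_k(a_j) = 0` for all `j` with germs `c_k`, not
all zero, holds for almost all `i` (finitely many conditions), contradicting the linear independence
of `hli i` for those `i` for which some `c_k(i) ≠ 0`.
(5), (6): the germ of `i ↦ aeval (pt φ 1 (w i)) f` is the value at `(a, b)` (`Filter.Germ` operations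
are coordinatewise), cofinitely many indices are in the hyperfilter.
(7): take the germs of `ν · j` and of `κ`; if all `ν*_j` were `0` then for almost all `i` all
`ν i j = 0`.
-/

set_option autoImplicit false

namespace Pool.Agent.EXL

open MvPolynomial

/-- The properties of the ultraproduct that are used. -/
structure Ultra (K : Subfield ℂ) (φ : AddChar ℚ ℂ) {ι : Type} [Fintype ι] (w : ℕ → ι → X) (d : ℕ)
    (F : Type) [Field F] (c : ℂ →+* F) (a b : ι → F) (KK : Subfield F)
    (Δ : Submodule F (Derivation ℤ F F)) : Prop where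
  b_ne : ∀ j, b j ≠ 0
  rule : ∀ D ∈ Δ, ∀ j, D (b j) = b j * D (a j)
  K_mem : ∀ x ∈ K, c x ∈ KK
  KK_le : KK ≤ consts Δ
  le_rk : d ≤ rk Δ a
  zero : ∀ f : MvPolynomial (ι ⊕ ι) K, (∃ i₀, ∀ i, i₀ ≤ i → aeval (pt φ 1 (w i)) f = 0) →
    eval₂ (c.comp (algebraMap K ℂ)) (Sum.elim a b) f = 0
  ne_zero : ∀ f : MvPolynomial (ι ⊕ ι) K, (∃ i₀, ∀ i, i₀ ≤ i → aeval (pt φ 1 (w i)) f ≠ 0) →
    eval₂ (c.comp (algebraMap K ℂ)) (Sum.elim a b) f ≠ 0
  relation : ∀ (ν : ℕ → ι → ℂ) (κ : ℕ → ℂ), (∀ i j, ν i j ∈ K) → (∀ i, κ i ∈ K) →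
    (∀ i, ∑ j, ν i j * (w i j).1 = κ i) → (∀ i, ∃ j, ν i j ≠ 0) →
    ∃ (ν' : ι → F) (κ' : F), (∀ j, ν' j ∈ KK) ∧ κ' ∈ KK ∧ ∑ j, ν' j * a j = κ' ∧ ν' ≠ 0 ∧
      ∀ j, (∀ i, ν i j = 0) → ν' j = 0

/-- The filter. -/
private noncomputable abbrev ul : Ultrafilter ℕ := Filter.hyperfilter ℕ

/-- The field. -/
private abbrev UF : Type := Filter.Germ (ul : Filter ℕ) ℂ

/-- The quotient map. -/
private noncomputable def gm : (ℕ → ℂ) →+* UF := Filter.Germ.coeRingHom (ul : Filter ℕ)

private lemma gm_eq (s s' : ℕ → ℂ) : gm s = gm s' ↔ ∀ᶠ i in (ul : Filter ℕ), s i = s' i :=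
  Filter.Germ.coe_eq

private lemma gm_zero_iff (s : ℕ → ℂ) : gm s = 0 ↔ ∀ᶠ i in (ul : Filter ℕ), s i = 0 := by
  rw [← map_zero gm, gm_eq]
  rfl

private lemma gm_surj (x : UF) : ∃ s : ℕ → ℂ, gm s = x :=
  Filter.Germ.inductionOn x fun s => ⟨s, rfl⟩

/-- The induced derivation. -/
private noncomputable def gder (D : ℕ → Derivation ℤ ℂ ℂ) : UF → UF := fun x =>
  gm fun i => D i ((gm_surj x).choose i)

private lemma gder_gm (D : ℕ → Derivation ℤ ℂ ℂ) (s : ℕ → ℂ) :
    gder D (gm s) = gm fun i => D i (s i) := by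
  have h := (gm_surj (gm s)).choose_spec
  rw [gm_eq] at h
  unfold gder
  rw [gm_eq]
  filter_upwards [h] with i hi
  rw [hi]

private noncomputable def gDer (D : ℕ → Derivation ℤ ℂ ℂ) : Derivation ℤ UF UF :=
  Derivation.mk' (AddMonoidHom.toIntLinearMap
    { toFun := gder D
      map_zero' := by
        rw [← map_zero gm, gder_gm]
        congr 1
        funext i
        exact map_zero (D i)
      map_add' := by
        intro x y
        obtain ⟨s, rfl⟩ := gm_surj x
        obtain ⟨s', rfl⟩ := gm_surj y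
        rw [← map_add, gder_gm, gder_gm, gder_gm, ← map_add]
        congr 1
        funext i
        exact map_add (D i) _ _ }) (by
    intro x y
    change gder D (x * y) = x • gder D y + y • gder D x
    obtain ⟨s, rfl⟩ := gm_surj x
    obtain ⟨s', rfl⟩ := gm_surj y
    rw [← map_mul, gder_gm, gder_gm, gder_gm, smul_eq_mul, smul_eq_mul, ← map_mul, ← map_mul,
      ← map_add]
    congr 1
    funext i
    exact (D i).leibniz _ _)

private lemma gDer_gm (D : ℕ → Derivation ℤ ℂ ℂ) (s : ℕ → ℂ) :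
    gDer D (gm s) = gm fun i => D i (s i) := gder_gm D s

/-- The germs of the sequences in `K`. -/
private noncomputable def gK (K : Subfield ℂ) : Subfield UF where
  carrier := {x | ∃ s : ℕ → ℂ, (∀ i, s i ∈ K) ∧ gm s = x}
  mul_mem' := by
    rintro _ _ ⟨s, hs, rfl⟩ ⟨s', hs', rfl⟩
    exact ⟨s * s', fun i => K.mul_mem (hs i) (hs' i), map_mul gm s s'⟩
  one_mem' := ⟨1, fun _ => K.one_mem, map_one gm⟩
  add_mem' := by
    rintro _ _ ⟨s, hs, rfl⟩ ⟨s', hs', rfl⟩
    exact ⟨s + s', fun i => K.add_mem (hs i) (hs' i), map_add gm s s'⟩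
  zero_mem' := ⟨0, fun _ => K.zero_mem, map_zero gm⟩
  neg_mem' := by
    rintro _ ⟨s, hs, rfl⟩
    exact ⟨-s, fun i => K.neg_mem (hs i), map_neg gm s⟩
  inv_mem' := by
    rintro _ ⟨s, hs, rfl⟩
    exact ⟨s⁻¹, fun i => K.inv_mem (hs i), rfl⟩

theorem exists_ultra (K : Subfield ℂ) (φ : AddChar ℚ ℂ) (hφ : ∀ q, φ q ∈ K) {ι : Type}
    [Fintype ι] (w : ℕ → ι → X) (d : ℕ) (D : ℕ → Fin d → Derivation ℤ ℂ ℂ)
    (hD : ∀ i k, D i k ∈ EDer ⊓ DerOver (K : Set ℂ))
    (hli : ∀ i, LinearIndependent ℂ (fun k => ev (fun j => (w i j).1) (D i k))) :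
    ∃ (F : Type) (_ : Field F) (_ : CharZero F) (c : ℂ →+* F) (a b : ι → F) (KK : Subfield F)
      (Δ : Submodule F (Derivation ℤ F F)), Ultra K φ w d F c a b KK Δ := by
  let c : ℂ →+* UF := gm.comp (Pi.constRingHom ℕ ℂ)
  have hchar : CharZero UF := charZero_of_injective_ringHom c.injective
  let a : ι → UF := fun j => gm fun i => (w i j).1
  let b : ι → UF := fun j => gm fun i => ex φ (w i j)
  let Dk : Fin d → Derivation ℤ UF UF := fun k => gDer fun i => D i k
  let Δ : Submodule UF (Derivation ℤ UF UF) := Submodule.span UF (Set.range Dk)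
  have hind : ∀ (P : Derivation ℤ UF UF → Prop), (∀ k, P (Dk k)) → P 0 →
      (∀ x y, P x → P y → P (x + y)) → (∀ (t : UF) x, P x → P (t • x)) → ∀ x ∈ Δ, P x := by
    intro P h1 h2 h3 h4 x hx
    refine Submodule.span_induction (p := fun x _ => P x) ?_ h2 (fun x y _ _ => h3 x y)
      (fun t x _ => h4 t x) hx
    rintro _ ⟨k, rfl⟩
    exact h1 k
  have heval : ∀ f : MvPolynomial (ι ⊕ ι) K,
      eval₂ (c.comp (algebraMap K ℂ)) (Sum.elim a b) f =
        gm fun i => aeval (pt φ 1 (w i)) f := by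
    intro f
    induction f using MvPolynomial.induction_on with
    | C x =>
      rw [eval₂_C]
      change gm (fun _ => algebraMap K ℂ x) = _
      congr 1
      funext i
      rw [aeval_C]
    | add p q hp hq =>
      rw [eval₂_add, hp, hq, ← map_add]
      congr 1
      funext i
      rw [Pi.add_apply, map_add]
    | mul_X p j hp =>
      rw [eval₂_mul, hp, eval₂_X]
      have h1 : (Sum.elim a b : ι ⊕ ι → UF) j = gm fun i => pt φ 1 (w i) j := by
        rcases j with j | j
        · rfl
        · change gm (fun i => ex φ (w i j)) = _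
          congr 1
          funext i
          rw [pt_one]
          rfl
      rw [h1, ← map_mul]
      congr 1
      funext i
      rw [Pi.mul_apply, map_mul, aeval_X]
  have hlarge : ∀ P : ℕ → Prop, (∃ i₀, ∀ i, i₀ ≤ i → P i) → ∀ᶠ i in (ul : Filter ℕ), P i := by
    rintro P ⟨i₀, h⟩
    exact ((Filter.eventually_ge_atTop i₀).mono h).filter_mono Nat.hyperfilter_le_atTop
  refine ⟨UF, inferInstance, hchar, c, a, b, gK K, Δ, ?_, ?_, ?_, ?_, ?_, ?_, ?_, ?_⟩
  · -- `b_ne`
    intro j hj
    have h1 := (gm_zero_iff _).1 hj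
    obtain ⟨i, hi⟩ := h1.exists
    exact ex_ne_zero φ _ hi
  · -- `rule`
    refine hind _ ?_ ?_ ?_ ?_
    · intro k j
      change gDer (fun i => D i k) (gm fun i => ex φ (w i j)) =
        (gm fun i => ex φ (w i j)) * gDer (fun i => D i k) (gm fun i => (w i j).1)
      rw [gDer_gm, gDer_gm, ← map_mul]
      congr 1
      funext i
      exact der_ex hφ (hD i k) (w i j)
    · intro j
      simp
    · intro x y hx hy j
      rw [Derivation.add_apply, Derivation.add_apply, hx j, hy j, mul_add]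
    · intro t x hx j
      rw [Derivation.smul_apply, Derivation.smul_apply, hx j, smul_eq_mul, smul_eq_mul]
      ring
  · -- `K_mem`
    intro x hx
    exact ⟨fun _ => x, fun _ => hx, rfl⟩
  · -- `KK_le`
    rintro x ⟨s, hs, rfl⟩
    refine hind _ ?_ ?_ ?_ ?_
    · intro k
      change gDer (fun i => D i k) (gm s) = 0
      rw [gDer_gm, ← map_zero gm]
      congr 1
      funext i
      exact (hD i k).2 _ (hs i)
    · rfl
    · intro x y hx hy
      rw [Derivation.add_apply, hx, hy, add_zero]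
    · intro t x hx
      rw [Derivation.smul_apply, hx, smul_zero]
  · -- `le_rk`
    refine le_rk_of_linearIndependent Δ a Dk (fun k => Submodule.subset_span ⟨k, rfl⟩) ?_
    rw [Fintype.linearIndependent_iff]
    intro g hg k
    choose s hs using fun k => gm_surj (g k)
    have h1 : ∀ j, ∀ᶠ i in (ul : Filter ℕ), ∑ k, s k i * D i k (w i j).1 = 0 := by
      intro j
      rw [← gm_zero_iff]
      have h2 := congrFun hg j
      rw [Finset.sum_apply] at h2
      have h3 : (fun i => ∑ k, s k i * D i k (w i j).1) =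
          ∑ k, s k * (fun i => D i k (w i j).1) := by
        funext i
        rw [Finset.sum_apply]
        rfl
      rw [h3, map_sum]
      have h4 : ∀ k, gm (s k * fun i => D i k (w i j).1) = (g k • ev a (Dk k)) j := by
        intro k
        rw [map_mul, hs k]
        change _ = g k * gDer (fun i => D i k) (gm fun i => (w i j).1)
        rw [gDer_gm]
      rw [Finset.sum_congr rfl fun k _ => h4 k]
      exact h2
    have h2 : ∀ᶠ i in (ul : Filter ℕ), ∀ j, ∑ k, s k i * D i k (w i j).1 = 0 :=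
      Filter.eventually_all.2 h1
    rw [← hs k, gm_zero_iff]
    filter_upwards [h2] with i hi
    have h3 := Fintype.linearIndependent_iff.1 (hli i) (fun k => s k i) (by
      funext j
      rw [Finset.sum_apply]
      exact hi j)
    exact h3 k
  · -- `zero`
    intro f hf
    rw [heval, gm_zero_iff]
    exact hlarge _ hf
  · -- `ne_zero`
    intro f hf h0
    rw [heval, gm_zero_iff] at h0
    obtain ⟨i, h1, h2⟩ := (h0.and (hlarge _ hf)).exists
    exact h2 h1
  · -- `relation`
    intro ν κ hν hκ hrel hne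
    refine ⟨fun j => gm fun i => ν i j, gm κ, fun j => ⟨_, fun i => hν i j, rfl⟩,
      ⟨_, hκ, rfl⟩, ?_, ?_, ?_⟩
    · change ∑ j, gm (fun i => ν i j) * gm (fun i => (w i j).1) = gm κ
      simp_rw [← map_mul]
      rw [← map_sum]
      congr 1
      funext i
      rw [Finset.sum_apply, ← hrel i]
      rfl
    · intro h0
      have h1 : ∀ j, ∀ᶠ i in (ul : Filter ℕ), ν i j = 0 := by
        intro j
        rw [← gm_zero_iff]
        exact congrFun h0 j
      obtain ⟨i, hi⟩ := (Filter.eventually_all.2 h1).exists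
      obtain ⟨j, hj⟩ := hne i
      exact hj (hi j)
    · intro j hj
      change gm (fun i => ν i j) = 0
      rw [gm_zero_iff]
      exact Filter.Eventually.of_forall hj

end Pool.Agent.EXL
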