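import Mathlib

/-!
# EXL / Val: discrete valuations of function fields

PROOF of `exists_val`.  `b` is transcendental over `K` (`K` is algebraically closed). Extend `b` to
a transcendence basis `B` of `F / K`, let `k₁ = K(B \ {b})` and `L = k₁(b)`. Then `F` is finite over
`L` and `L` is isomorphic to the field of rational functions over `k₁`. The homomorphism
`x ↦ deg (N_{F/L} x)` takes the value `[F : L] ≠ 0` at `b`.
-/

set_option autoImplicit false

namespace Pool.Agent.EXL

open IntermediateField

theorem transcendental_of_notMem_range {K F : Type*} [Field K] [Field F] [Algebra K F]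
    [IsAlgClosed K] {b : F} (hb : b ∉ Set.range (algebraMap K F)) : Transcendental K b := by
  intro h
  have hi : IsIntegral K b := h.isIntegral
  exact hb (minpoly.mem_range_of_degree_eq_one K b
    (IsAlgClosed.degree_eq_one_of_irreducible K (minpoly.irreducible hi)))

/-- The degree of a rational function as a homomorphism. -/
noncomputable def degHom (k : Type*) [Field k] : (RatFunc k)ˣ →* Multiplicative ℤ where
  toFun x := Multiplicative.ofAdd (RatFunc.intDegree (x : RatFunc k))
  map_one' := by simp
  map_mul' x y := by
    rw [Units.val_mul, RatFunc.intDegree_mul x.ne_zero y.ne_zero, ofAdd_add]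

theorem exists_val_of_finite {k L F : Type*} [Field k] [Field L] [Field F] [Algebra L F]
    [FiniteDimensional L F] (e : L ≃+* RatFunc k) (b : Fˣ) (b' : L)
    (hb : algebraMap L F b' = b) (hX : e b' = RatFunc.X) :
    ∃ v : Fˣ →* Multiplicative ℤ, v b ≠ 1 := by
  refine ⟨(degHom k).comp ((Units.map e.toMonoidHom).comp (Units.map (Algebra.norm L))), ?_⟩
  have h1 : Algebra.norm L (b : F) = b' ^ Module.finrank L F := by
    rw [← hb, Algebra.norm_algebraMap]
  have hne : Module.finrank L F ≠ 0 := Module.finrank_pos.ne'
  have h2 : (((Units.map e.toMonoidHom).comp (Units.map (Algebra.norm L))) b : RatFunc k) =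
      RatFunc.X ^ Module.finrank L F := by
    simp [h1, hX]
  have h3 : RatFunc.intDegree ((RatFunc.X : RatFunc k) ^ Module.finrank L F) =
      Module.finrank L F := by
    rw [← RatFunc.algebraMap_X, ← map_pow, RatFunc.intDegree_polynomial, Polynomial.natDegree_X_pow]
  intro h
  have h4 : RatFunc.intDegree ((((Units.map e.toMonoidHom).comp
      (Units.map (Algebra.norm L))) b : (RatFunc k)ˣ) : RatFunc k) = 0 := by
    have := congrArg Multiplicative.toAdd h
    simpa [degHom] using this
  rw [h2, h3] at h4
  exact hne (by exact_mod_cast h4)

set_option linter.unusedSectionVars false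

theorem adjoin_eq_top_of_tower {K F : Type*} [Field K] [Field F] [Algebra K F]
    (L : Type*) [Field L] [Algebra L F] (s : Finset F) (hs : IntermediateField.adjoin K (s : Set F) = ⊤)
    (hKL : ∀ r : K, ∃ l : L, algebraMap L F l = algebraMap K F r) :
    IntermediateField.adjoin L (s : Set F) = ⊤ := by
  rw [eq_top_iff]
  intro x _
  have hx : x ∈ IntermediateField.adjoin K (s : Set F) := by rw [hs]; trivial
  induction hx using IntermediateField.adjoin_induction with
  | mem x hx => exact IntermediateField.subset_adjoin _ _ hx
  | algebraMap r =>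
    obtain ⟨l, hl⟩ := hKL r
    rw [← hl]
    exact IntermediateField.algebraMap_mem _ l
  | add x y _ _ hx hy => exact add_mem (hx trivial) (hy trivial)
  | inv x _ hx => exact inv_mem (hx trivial)
  | mul x y _ _ hx hy => exact mul_mem (hx trivial) (hy trivial)

variable {K F : Type*} [Field K] [Field F] [CharZero K] [Algebra K F] [IsAlgClosed K]

open scoped IntermediateField.algebraAdjoinAdjoin in
/-- Every element of a finitely generated field extension of an algebraically closed field which is
not constant has a nontrivial value under some homomorphism to `ℤ`. -/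
theorem exists_val (hfg : (⊤ : IntermediateField K F).FG) (b : Fˣ)
    (hb : (b : F) ∉ Set.range (algebraMap K F)) : ∃ v : Fˣ →* Multiplicative ℤ, v b ≠ 1 := by
  classical
  have htr : Transcendental K (b : F) := transcendental_of_notMem_range hb
  have hind : AlgebraicIndepOn K id ({(b : F)} : Set F) := by
    rw [AlgebraicIndepOn, algebraicIndependent_unique_type_iff]
    exact htr
  obtain ⟨B, hbB, hB⟩ := exists_isTranscendenceBasis_superset hind
  have hbB' : (b : F) ∈ B := hbB rfl
  set S : Set F := B \ {(b : F)} with hS
  have hBS : insert (b : F) S = B := by simp [hS, Set.insert_eq_of_mem hbB']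
  have hbS : (b : F) ∉ S := by simp [hS]
  have h1 : AlgebraicIndepOn K id (insert (b : F) S) := by rw [hBS]; exact hB.1
  have h2 := (AlgebraicIndepOn.insert_iff hbS).1 h1
  have h3 : Transcendental (Algebra.adjoin K S) (b : F) := by
    have := h2.2
    rwa [Set.image_id] at this
  set k₁ : IntermediateField K F := IntermediateField.adjoin K S with hk₁
  have h4 : Transcendental k₁ (b : F) := by
    intro h
    exact h3 ((IsFractionRing.isAlgebraic_iff (Algebra.adjoin K S) k₁ F).2 h)
  have halg0 : Algebra.IsAlgebraic (IntermediateField.adjoin K B) F := by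
    have := hB.isAlgebraic_field
    rwa [Subtype.range_coe] at this
  have hL : (IntermediateField.adjoin k₁ {(b : F)}).restrictScalars K =
      IntermediateField.adjoin K B := by
    rw [hk₁, IntermediateField.adjoin_adjoin_left, Set.union_singleton, hBS]
  have halg : Algebra.IsAlgebraic ((IntermediateField.adjoin k₁ {(b : F)}).restrictScalars K) F := by
    rw [hL]; exact halg0
  have halg' : Algebra.IsAlgebraic (IntermediateField.adjoin k₁ {(b : F)}) F := halg
  obtain ⟨s, hs⟩ := hfg
  have hfin : FiniteDimensional (IntermediateField.adjoin k₁ {(b : F)}) F := by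
    have h5 : IntermediateField.adjoin (IntermediateField.adjoin k₁ {(b : F)}) (s : Set F) = ⊤ := by
      refine adjoin_eq_top_of_tower _ _ hs ?_
      intro r
      exact ⟨algebraMap K _ r, rfl⟩
    have h6 : FiniteDimensional (IntermediateField.adjoin k₁ {(b : F)})
        (IntermediateField.adjoin (IntermediateField.adjoin k₁ {(b : F)}) (s : Set F)) :=
      IntermediateField.finiteDimensional_adjoin fun x _ => (halg'.isAlgebraic x).isIntegral
    rw [h5] at h6
    exact Module.Finite.equiv IntermediateField.topEquiv.toLinearEquiv
  have hgen : algebraMap (IntermediateField.adjoin k₁ {(b : F)}) F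
      (AdjoinSimple.gen k₁ (b : F)) = b := AdjoinSimple.algebraMap_gen k₁ (b : F)
  have e : {e : IntermediateField.adjoin k₁ {(b : F)} ≃+* RatFunc k₁ //
      e (AdjoinSimple.gen k₁ (b : F)) = RatFunc.X} :=
    ⟨(RatFunc.algEquivOfTranscendental (b : F) h4).symm.toRingEquiv,
      RatFunc.algEquivOfTranscendental_symm_gen (b : F) h4⟩
  clear_value k₁
  exact exists_val_of_finite e.1 b (AdjoinSimple.gen k₁ (b : F)) hgen e.2

end Pool.Agent.EXL
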